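import Mathlib
import Pool.Agent.Work.MP_610017_lc.Logic

/-! Bundle of small proof modules (one section per former module). -/

section

/-!
# MP_610017_lc, block D, item Theta: the negation of `Hyp` is a bounded formula
-/

set_option autoImplicit false

namespace Pool.Agent.Work.MP_610017_lc

section
variable {v : ℕ}

/-- bounded universal quantifier -/
def theta_all (t : Tm v) (φ : Fm (v + 1)) : Fm v := .neg (.bex t (.neg φ))

/-- implication -/
def theta_imp (φ ψ : Fm v) : Fm v := .neg (.and φ (.neg ψ))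

/-- equivalence -/
def theta_iff (φ ψ : Fm v) : Fm v := .and (theta_imp φ ψ) (theta_imp ψ φ)

/-- strict order -/
def theta_lt (s t : Tm v) : Fm v := .and (.le s t) (.neg (.eq s t))

/-- the relation `H` -/
def theta_H (x y a b : Tm v) : Fm v := .rel ![.zero, x, y, a, b]

/-- the relation `U` -/
def theta_U (x y a b : Tm v) : Fm v := .rel ![.succ .zero, x, y, a, b]

/-- the relation `C` -/
def theta_C (x y a : Tm v) : Fm v := .rel ![.succ (.succ .zero), x, y, a, .zero]

/-- the relation `P` -/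
def theta_P (i u : Tm v) : Fm v := .rel ![.succ (.succ (.succ .zero)), i, u, .zero, .zero]

variable {M : Type} (N : Str M) (e : Fin v → M)

theorem theta_all_sat (t : Tm v) (φ : Fm (v + 1)) : (theta_all t φ).sat N e ↔
    ∀ x, N.le x (t.val N e) → φ.sat N (Fin.cons x e) := by
  simp only [theta_all, Fm.sat, not_exists, not_and, not_not]

theorem theta_imp_sat (φ ψ : Fm v) : (theta_imp φ ψ).sat N e ↔ (φ.sat N e → ψ.sat N e) := by
  simp only [theta_imp, Fm.sat, not_and, not_not]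

theorem theta_iff_sat (φ ψ : Fm v) : (theta_iff φ ψ).sat N e ↔ (φ.sat N e ↔ ψ.sat N e) := by
  simp only [theta_iff, Fm.sat, theta_imp_sat]
  exact ⟨fun h => ⟨h.1, h.2⟩, fun h => ⟨h.1, h.2⟩⟩

theorem theta_lt_sat (s t : Tm v) : (theta_lt s t).sat N e ↔ N.lt (s.val N e) (t.val N e) :=
  Iff.rfl

theorem theta_rel (s0 s1 s2 s3 s4 : Tm v) : (fun i => (![s0, s1, s2, s3, s4] i).val N e) =
    ![s0.val N e, s1.val N e, s2.val N e, s3.val N e, s4.val N e] := by
  funext i
  fin_cases i <;> rfl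

theorem theta_H_sat (x y a b : Tm v) : (theta_H x y a b).sat N e ↔
    N.H (x.val N e) (y.val N e) (a.val N e) (b.val N e) := by
  simp only [theta_H, Fm.sat, theta_rel]
  rfl

theorem theta_U_sat (x y a b : Tm v) : (theta_U x y a b).sat N e ↔
    N.U (x.val N e) (y.val N e) (a.val N e) (b.val N e) := by
  simp only [theta_U, Fm.sat, theta_rel]
  rfl

theorem theta_C_sat (x y a : Tm v) : (theta_C x y a).sat N e ↔
    N.C (x.val N e) (y.val N e) (a.val N e) := by
  simp only [theta_C, Fm.sat, theta_rel]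
  rfl

theorem theta_P_sat (i u : Tm v) : (theta_P i u).sat N e ↔ N.P (i.val N e) (u.val N e) := by
  simp only [theta_P, Fm.sat, theta_rel]
  rfl

end

section
variable {M : Type} (N : Str M) (e : Fin 2 → M)

/-- the formula for `k_pos` -/
def theta_f_k_pos : Fm 2 :=
  theta_lt .zero (.var 1)

theorem theta_s_k_pos : theta_f_k_pos.sat N e ↔ (N.lt N.zero (e 1)) := by
  simp only [theta_f_k_pos, theta_all_sat, theta_imp_sat, theta_iff_sat, theta_lt_sat, theta_H_sat,
    theta_U_sat, theta_C_sat, theta_P_sat, Fm.sat]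
  exact ⟨fun h => h, fun h => h⟩

/-- the formula for `pow_zero` -/
def theta_f_pow_zero : Fm 2 :=
  theta_all (.var 0) (theta_imp (theta_P .zero (.var 0)) (.eq (.var 0) (.succ .zero)))

theorem theta_s_pow_zero : theta_f_pow_zero.sat N e ↔ (∀ u, N.le u (e 0) → N.P N.zero u → u = N.num 1) := by
  simp only [theta_f_pow_zero, theta_all_sat, theta_imp_sat, theta_iff_sat, theta_lt_sat, theta_H_sat,
    theta_U_sat, theta_C_sat, theta_P_sat, Fm.sat]
  exact ⟨fun h u hu hP => h u hu hP, fun h u hu hP => h u hu hP⟩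

/-- the formula for `pow_total` -/
def theta_f_pow_total : Fm 2 :=
  theta_all (.var 1) (.bex (.var 1) (theta_P (.var 1) (.var 0)))

theorem theta_s_pow_total : theta_f_pow_total.sat N e ↔ (∀ i, N.le i (e 1) → ∃ u, N.le u (e 0) ∧ N.P i u) := by
  simp only [theta_f_pow_total, theta_all_sat, theta_imp_sat, theta_iff_sat, theta_lt_sat, theta_H_sat,
    theta_U_sat, theta_C_sat, theta_P_sat, Fm.sat]
  exact ⟨fun h i hi => h i hi, fun h i hi => h i hi⟩

/-- the formula for `pow_succ` -/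
def theta_f_pow_succ : Fm 2 :=
  theta_all (.var 1) (theta_all (.var 1) (theta_all (.var 2) (theta_imp (theta_lt (.var 2)
    (.var 4)) (theta_imp (theta_P (.var 2) (.var 1)) (theta_imp (theta_P (.succ (.var 2)) (.var
    0)) (.eq (.var 0) (.add (.var 1) (.var 1))))))))

theorem theta_s_pow_succ : theta_f_pow_succ.sat N e ↔ (∀ i u u', N.lt i (e 1) → N.le u (e 0) → N.le u' (e 0) → N.P i u →
    N.P (N.succ i) u' → u' = N.add u u) := by
  simp only [theta_f_pow_succ, theta_all_sat, theta_imp_sat, theta_iff_sat, theta_lt_sat, theta_H_sat,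
    theta_U_sat, theta_C_sat, theta_P_sat, Fm.sat]
  exact ⟨fun h i u w hi hu hw h1 h2 => h i hi.1 u hu w hw hi h1 h2,
    fun h i _ u hu w hw hi h1 h2 => h i u w hi hu hw h1 h2⟩

/-- the formula for `h_total` -/
def theta_f_h_total : Fm 2 :=
  theta_all (.var 1) (theta_all (.var 2) (theta_all (.var 2) (theta_imp (theta_lt (.var 2)
    (.var 4)) (theta_imp (theta_lt (.var 0) (.var 3)) (.bex (.var 3) (.and (theta_lt (.var 0)
    (.var 4)) (theta_H (.var 3) (.var 2) (.var 1) (.var 0))))))))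

theorem theta_s_h_total : theta_f_h_total.sat N e ↔ (∀ x y a, N.lt x (e 1) → N.le y (e 1) → N.lt a (e 0) →
    ∃ b, N.lt b (e 0) ∧ N.H x y a b) := by
  simp only [theta_f_h_total, theta_all_sat, theta_imp_sat, theta_iff_sat, theta_lt_sat, theta_H_sat,
    theta_U_sat, theta_C_sat, theta_P_sat, Fm.sat]
  exact ⟨fun h x y a hx hy ha => by
      obtain ⟨b, _, hb⟩ := h x hx.1 y hy a ha.1 hx ha
      exact ⟨b, hb⟩,
    fun h x _ y hy a _ hx ha => by
      obtain ⟨b, hb, hb'⟩ := h x y a hx hy ha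
      exact ⟨b, hb.1, hb, hb'⟩⟩

/-- the formula for `u_total` -/
def theta_f_u_total : Fm 2 :=
  theta_all (.var 1) (theta_all (.var 2) (theta_all (.var 2) (theta_imp (theta_lt (.var 1)
    (.var 4)) (theta_imp (theta_lt (.var 0) (.var 3)) (.bex (.var 3) (.and (theta_lt (.var 0)
    (.var 4)) (theta_U (.var 3) (.var 2) (.var 1) (.var 0))))))))

theorem theta_s_u_total : theta_f_u_total.sat N e ↔ (∀ x y a, N.le x (e 1) → N.lt y (e 1) → N.lt a (e 0) →
    ∃ b, N.lt b (e 0) ∧ N.U x y a b) := by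
  simp only [theta_f_u_total, theta_all_sat, theta_imp_sat, theta_iff_sat, theta_lt_sat, theta_H_sat,
    theta_U_sat, theta_C_sat, theta_P_sat, Fm.sat]
  exact ⟨fun h x y a hx hy ha => by
      obtain ⟨b, _, hb⟩ := h x hx y hy.1 a ha.1 hy ha
      exact ⟨b, hb⟩,
    fun h x hx y _ a _ hy ha => by
      obtain ⟨b, hb, hb'⟩ := h x y a hx hy ha
      exact ⟨b, hb.1, hb, hb'⟩⟩

/-- the formula for `comm` -/
def theta_f_comm : Fm 2 :=
  theta_all (.var 1) (theta_all (.var 2) (theta_all (.var 2) (theta_all (.var 3) (theta_all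
    (.var 4) (theta_all (.var 5) (theta_imp (theta_lt (.var 5) (.var 7)) (theta_imp (theta_lt
    (.var 4) (.var 7)) (theta_imp (theta_lt (.var 3) (.var 6)) (theta_imp (theta_lt (.var 2)
    (.var 6)) (theta_imp (theta_lt (.var 1) (.var 6)) (theta_imp (theta_lt (.var 0) (.var 6))
    (theta_imp (theta_H (.var 5) (.var 4) (.var 3) (.var 2)) (theta_imp (theta_U (.var 5) (.var
    4) (.var 3) (.var 0)) (theta_imp (theta_U (.succ (.var 5)) (.var 4) (.var 2) (.var 1))
    (theta_H (.var 5) (.succ (.var 4)) (.var 0) (.var 1))))))))))))))))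

theorem theta_s_comm : theta_f_comm.sat N e ↔ (∀ x y a b c d, N.lt x (e 1) → N.lt y (e 1) → N.lt a (e 0) → N.lt b (e 0) →
    N.lt c (e 0) → N.lt d (e 0) → N.H x y a b → N.U x y a d → N.U (N.succ x) y b c →
    N.H x (N.succ y) d c) := by
  simp only [theta_f_comm, theta_all_sat, theta_imp_sat, theta_iff_sat, theta_lt_sat, theta_H_sat,
    theta_U_sat, theta_C_sat, theta_P_sat, Fm.sat]
  exact ⟨fun h x y a b c d hx hy ha hb hc hd h1 h2 h3 =>
      h x hx.1 y hy.1 a ha.1 b hb.1 c hc.1 d hd.1 hx hy ha hb hc hd h1 h2 h3,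
    fun h x _ y _ a _ b _ c _ d _ hx hy ha hb hc hd h1 h2 h3 =>
      h x y a b c d hx hy ha hb hc hd h1 h2 h3⟩

/-- the formula for `col_bot` -/
def theta_f_col_bot : Fm 2 :=
  theta_all (.var 1) (theta_all (.var 1) (theta_all (.var 2) (theta_imp (theta_lt .zero (.var
    2)) (theta_imp (theta_lt (.var 2) (.var 4)) (theta_imp (theta_lt (.var 1) (.var 3))
    (theta_imp (theta_lt (.var 0) (.var 3)) (theta_imp (theta_H (.var 2) .zero (.var 1) (.var
    0)) (theta_iff (theta_C (.var 2) .zero (.var 1)) (theta_C (.succ (.var 2)) .zero (.var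
    0))))))))))

theorem theta_s_col_bot : theta_f_col_bot.sat N e ↔ (∀ x a b, N.lt N.zero x → N.lt x (e 1) → N.lt a (e 0) → N.lt b (e 0) →
    N.H x N.zero a b → (N.C x N.zero a ↔ N.C (N.succ x) N.zero b)) := by
  simp only [theta_f_col_bot, theta_all_sat, theta_imp_sat, theta_iff_sat, theta_lt_sat, theta_H_sat,
    theta_U_sat, theta_C_sat, theta_P_sat, Fm.sat]
  exact ⟨fun h x a b h0 hx ha hb h1 => h x hx.1 a ha.1 b hb.1 h0 hx ha hb h1,
    fun h x _ a _ b _ h0 hx ha hb h1 => h x a b h0 hx ha hb h1⟩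

/-- the formula for `col_top` -/
def theta_f_col_top : Fm 2 :=
  theta_all (.var 1) (theta_all (.var 1) (theta_all (.var 2) (theta_imp (theta_lt (.var 2)
    (.var 4)) (theta_imp (theta_lt (.var 1) (.var 3)) (theta_imp (theta_lt (.var 0) (.var 3))
    (theta_imp (theta_H (.var 2) (.var 4) (.var 1) (.var 0)) (theta_iff (theta_C (.var 2) (.var
    4) (.var 1)) (theta_C (.succ (.var 2)) (.var 4) (.var 0)))))))))

theorem theta_s_col_top : theta_f_col_top.sat N e ↔ (∀ x a b, N.lt x (e 1) → N.lt a (e 0) → N.lt b (e 0) → N.H x (e 1) a b →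
    (N.C x (e 1) a ↔ N.C (N.succ x) (e 1) b)) := by
  simp only [theta_f_col_top, theta_all_sat, theta_imp_sat, theta_iff_sat, theta_lt_sat, theta_H_sat,
    theta_U_sat, theta_C_sat, theta_P_sat, Fm.sat]
  exact ⟨fun h x a b hx ha hb h1 => h x hx.1 a ha.1 b hb.1 hx ha hb h1,
    fun h x _ a _ b _ hx ha hb h1 => h x a b hx ha hb h1⟩

/-- the formula for `col_left` -/
def theta_f_col_left : Fm 2 :=
  theta_all (.var 1) (theta_all (.var 1) (theta_all (.var 2) (theta_imp (theta_lt .zero (.var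
    2)) (theta_imp (theta_lt (.var 2) (.var 4)) (theta_imp (theta_lt (.var 1) (.var 3))
    (theta_imp (theta_lt (.var 0) (.var 3)) (theta_imp (theta_U .zero (.var 2) (.var 1) (.var
    0)) (theta_iff (theta_C .zero (.var 2) (.var 1)) (theta_C .zero (.succ (.var 2)) (.var
    0))))))))))

theorem theta_s_col_left : theta_f_col_left.sat N e ↔ (∀ y a b, N.lt N.zero y → N.lt y (e 1) → N.lt a (e 0) → N.lt b (e 0) →
    N.U N.zero y a b → (N.C N.zero y a ↔ N.C N.zero (N.succ y) b)) := by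
  simp only [theta_f_col_left, theta_all_sat, theta_imp_sat, theta_iff_sat, theta_lt_sat, theta_H_sat,
    theta_U_sat, theta_C_sat, theta_P_sat, Fm.sat]
  exact ⟨fun h x a b h0 hx ha hb h1 => h x hx.1 a ha.1 b hb.1 h0 hx ha hb h1,
    fun h x _ a _ b _ h0 hx ha hb h1 => h x a b h0 hx ha hb h1⟩

/-- the formula for `col_right` -/
def theta_f_col_right : Fm 2 :=
  theta_all (.var 1) (theta_all (.var 1) (theta_all (.var 2) (theta_imp (theta_lt (.var 2)
    (.var 4)) (theta_imp (theta_lt (.var 1) (.var 3)) (theta_imp (theta_lt (.var 0) (.var 3))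
    (theta_imp (theta_U (.var 4) (.var 2) (.var 1) (.var 0)) (theta_iff (theta_C (.var 4) (.var
    2) (.var 1)) (theta_C (.var 4) (.succ (.var 2)) (.var 0)))))))))

theorem theta_s_col_right : theta_f_col_right.sat N e ↔ (∀ y a b, N.lt y (e 1) → N.lt a (e 0) → N.lt b (e 0) → N.U (e 1) y a b →
    (N.C (e 1) y a ↔ N.C (e 1) (N.succ y) b)) := by
  simp only [theta_f_col_right, theta_all_sat, theta_imp_sat, theta_iff_sat, theta_lt_sat, theta_H_sat,
    theta_U_sat, theta_C_sat, theta_P_sat, Fm.sat]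
  exact ⟨fun h x a b hx ha hb h1 => h x hx.1 a ha.1 b hb.1 hx ha hb h1,
    fun h x _ a _ b _ hx ha hb h1 => h x a b hx ha hb h1⟩

/-- the formula for `start_h` -/
def theta_f_start_h : Fm 2 :=
  theta_all (.var 0) (theta_imp (theta_lt (.var 0) (.var 1)) (theta_imp (theta_H .zero .zero
    .zero (.var 0)) (theta_C (.succ .zero) .zero (.var 0))))

theorem theta_s_start_h : theta_f_start_h.sat N e ↔ (∀ b, N.lt b (e 0) → N.H N.zero N.zero N.zero b → N.C (N.num 1) N.zero b) := by
  simp only [theta_f_start_h, theta_all_sat, theta_imp_sat, theta_iff_sat, theta_lt_sat, theta_H_sat,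
    theta_U_sat, theta_C_sat, theta_P_sat, Fm.sat]
  exact ⟨fun h b hb h1 => h b hb.1 hb h1, fun h b _ hb h1 => h b hb h1⟩

/-- the formula for `start_u` -/
def theta_f_start_u : Fm 2 :=
  theta_all (.var 0) (theta_imp (theta_lt (.var 0) (.var 1)) (theta_imp (theta_U .zero .zero
    .zero (.var 0)) (.neg (theta_C .zero (.succ .zero) (.var 0)))))

theorem theta_s_start_u : theta_f_start_u.sat N e ↔ (∀ b, N.lt b (e 0) → N.U N.zero N.zero N.zero b → ¬ N.C N.zero (N.num 1) b) := by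
  simp only [theta_f_start_u, theta_all_sat, theta_imp_sat, theta_iff_sat, theta_lt_sat, theta_H_sat,
    theta_U_sat, theta_C_sat, theta_P_sat, Fm.sat]
  exact ⟨fun h b hb h1 => h b hb.1 hb h1, fun h b _ hb h1 => h b hb h1⟩

end

/-- the conjunction of all formulas -/
def theta_conj : Fm 2 :=
  .and theta_f_k_pos (.and theta_f_pow_zero (.and theta_f_pow_total (.and theta_f_pow_succ
    (.and theta_f_h_total (.and theta_f_u_total (.and theta_f_comm (.and theta_f_col_bot (.and
    theta_f_col_top (.and theta_f_col_left (.and theta_f_col_right (.and theta_f_start_h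
    theta_f_start_u)))))))))))

theorem prf_Theta : S_Theta := by
  refine ⟨.neg theta_conj, fun M N e => not_congr ?_⟩
  simp only [theta_conj, Fm.sat, theta_s_k_pos, theta_s_pow_zero, theta_s_pow_total, theta_s_pow_succ, theta_s_h_total, theta_s_u_total, theta_s_comm, theta_s_col_bot, theta_s_col_top, theta_s_col_left, theta_s_col_right, theta_s_start_h, theta_s_start_u]
  constructor
  · rintro ⟨h1, h2, h3, h4, h5, h6, h7, h8, h9, h10, h11, h12, h13⟩
    exact ⟨h1, h2, h3, h4, h5, h6, h7, h8, h9, h10, h11, h12, h13⟩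
  · rintro ⟨h1, h2, h3, h4, h5, h6, h7, h8, h9, h10, h11, h12, h13⟩
    exact ⟨h1, h2, h3, h4, h5, h6, h7, h8, h9, h10, h11, h12, h13⟩

end Pool.Agent.Work.MP_610017_lc

end

section

/-!
# Definable predicates (MP_610017_lc)

`Dfn N P` says that the predicate `P : (ℕ → M) → Prop` is definable by a bounded formula with
parameters; `TDfn N f` says that `f : (ℕ → M) → M` is given by a term with parameters. An
assignment `e : ℕ → M` is used with named variables `e 0, e 1, ...`; a quantifier over the variable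
with name `i` is written with `Function.update e i x`.
-/

set_option autoImplicit false

namespace Pool.Agent.Work.MP_610017_lc

/-- renaming of variables in a term -/
def Tm.ren {v w : ℕ} (g : Fin v → Fin w) : Tm v → Tm w
  | .var i => .var (g i)
  | .zero => .zero
  | .succ s => .succ (s.ren g)
  | .add s t => .add (s.ren g) (t.ren g)
  | .mul s t => .mul (s.ren g) (t.ren g)

theorem Tm.val_ren {M : Type} (N : Str M) {v w : ℕ} (g : Fin v → Fin w) (t : Tm v)
    (e : Fin w → M) : (t.ren g).val N e = t.val N (fun i => e (g i)) := by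
  induction t with
  | var i => rfl
  | zero => rfl
  | succ s ih => simp only [Tm.ren, Tm.val, ih]
  | add s t ih1 ih2 => simp only [Tm.ren, Tm.val, ih1, ih2]
  | mul s t ih1 ih2 => simp only [Tm.ren, Tm.val, ih1, ih2]

/-- substitution of terms in a term -/
def Tm.sub {v w : ℕ} (σ : Fin v → Tm w) : Tm v → Tm w
  | .var i => σ i
  | .zero => .zero
  | .succ s => .succ (s.sub σ)
  | .add s t => .add (s.sub σ) (t.sub σ)
  | .mul s t => .mul (s.sub σ) (t.sub σ)

theorem Tm.val_sub {M : Type} (N : Str M) {v w : ℕ} (σ : Fin v → Tm w) (t : Tm v)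
    (e : Fin w → M) : (t.sub σ).val N e = t.val N (fun i => (σ i).val N e) := by
  induction t with
  | var i => rfl
  | zero => rfl
  | succ s ih => simp only [Tm.sub, Tm.val, ih]
  | add s t ih1 ih2 => simp only [Tm.sub, Tm.val, ih1, ih2]
  | mul s t ih1 ih2 => simp only [Tm.sub, Tm.val, ih1, ih2]

/-- lifting a substitution below a quantifier -/
def liftSub {v w : ℕ} (σ : Fin v → Tm w) : Fin (v + 1) → Tm (w + 1) :=
  Fin.cons (.var 0) (fun i => (σ i).ren Fin.succ)

/-- substitution of terms in a formula -/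
def Fm.sub : {v : ℕ} → Fm v → (w : ℕ) → (Fin v → Tm w) → Fm w
  | _, .eq s t, _, σ => .eq (s.sub σ) (t.sub σ)
  | _, .le s t, _, σ => .le (s.sub σ) (t.sub σ)
  | _, .rel s, _, σ => .rel (fun i => (s i).sub σ)
  | _, .neg φ, w, σ => .neg (φ.sub w σ)
  | _, .and φ ψ, w, σ => .and (φ.sub w σ) (ψ.sub w σ)
  | _, .bex t φ, w, σ => .bex (t.sub σ) (φ.sub (w + 1) (liftSub σ))

theorem liftSub_val {M : Type} (N : Str M) {v w : ℕ} (σ : Fin v → Tm w) (e : Fin w → M) (x : M) :
    (fun i => (liftSub σ i).val N (Fin.cons x e)) =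
      (Fin.cons x (fun i => (σ i).val N e) : Fin (v + 1) → M) := by
  funext i
  refine Fin.cases ?_ (fun j => ?_) i
  · simp [liftSub, Tm.val]
  · simp [liftSub, Tm.val_ren]

theorem Fm.sat_sub {M : Type} (N : Str M) {v : ℕ} (φ : Fm v) : ∀ (w : ℕ) (σ : Fin v → Tm w)
    (e : Fin w → M), (φ.sub w σ).sat N e ↔ φ.sat N (fun i => (σ i).val N e) := by
  induction φ with
  | eq s t => intro w σ e; simp only [Fm.sub, Fm.sat, Tm.val_sub]
  | le s t => intro w σ e; simp only [Fm.sub, Fm.sat, Tm.val_sub]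
  | rel s => intro w σ e; simp only [Fm.sub, Fm.sat, Tm.val_sub]
  | neg φ ih => intro w σ e; simp only [Fm.sub, Fm.sat, ih]
  | and φ ψ ih1 ih2 => intro w σ e; simp only [Fm.sub, Fm.sat, ih1, ih2]
  | bex t φ ih =>
    intro w σ e
    simp only [Fm.sub, Fm.sat, Tm.val_sub]
    refine exists_congr fun x => and_congr_right fun _ => ?_
    rw [ih, liftSub_val]

/-- the predicate `P` on assignments is definable by a bounded formula with parameters -/
def Dfn {M : Type} (N : Str M) (P : (ℕ → M) → Prop) : Prop :=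
  ∃ (w : ℕ) (φ : Fm w) (s : Fin w → ℕ ⊕ M), ∀ e : ℕ → M,
    φ.sat N (fun j => Sum.elim e id (s j)) ↔ P e

/-- the function `f` on assignments is given by a term with parameters -/
def TDfn {M : Type} (N : Str M) (f : (ℕ → M) → M) : Prop :=
  ∃ (w : ℕ) (t : Tm w) (s : Fin w → ℕ ⊕ M), ∀ e : ℕ → M,
    t.val N (fun j => Sum.elim e id (s j)) = f e

section

variable {M : Type} {N : Str M}

theorem Dfn.congr {P Q : (ℕ → M) → Prop} (h : Dfn N P) (hPQ : ∀ e, P e ↔ Q e) : Dfn N Q := by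
  obtain ⟨w, φ, s, hs⟩ := h
  exact ⟨w, φ, s, fun e => (hs e).trans (hPQ e)⟩

theorem TDfn.var (i : ℕ) : TDfn N (fun e => e i) :=
  ⟨1, .var 0, fun _ => Sum.inl i, fun _ => rfl⟩

theorem TDfn.const (c : M) : TDfn N (fun _ => c) :=
  ⟨1, .var 0, fun _ => Sum.inr c, fun _ => rfl⟩

/-- substituting term-definable functions for the variables of a formula -/
theorem Dfn.of_fm {w : ℕ} (φ : Fm w) (F : Fin w → (ℕ → M) → M) (hF : ∀ j, TDfn N (F j)) :
    Dfn N (fun e => φ.sat N (fun j => F j e)) := by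
  choose u t s hs using hF
  refine ⟨∑ j, u j, φ.sub _ (fun j => (t j).ren (fun i => finSigmaFinEquiv ⟨j, i⟩)),
    fun x => s (finSigmaFinEquiv.symm x).1 (finSigmaFinEquiv.symm x).2, fun e => ?_⟩
  rw [Fm.sat_sub]
  have : (fun j => Tm.val N (fun x => Sum.elim e id
      (s (finSigmaFinEquiv.symm x).1 (finSigmaFinEquiv.symm x).2))
      ((t j).ren (fun i => finSigmaFinEquiv ⟨j, i⟩))) = fun j => F j e := by
    funext j
    rw [Tm.val_ren, ← hs j e]
    congr 1
    funext i
    rw [Equiv.symm_apply_apply]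
  rw [this]

/-- substituting term-definable functions for the variables of a term -/
theorem TDfn.of_tm {w : ℕ} (φ : Tm w) (F : Fin w → (ℕ → M) → M) (hF : ∀ j, TDfn N (F j)) :
    TDfn N (fun e => φ.val N (fun j => F j e)) := by
  choose u t s hs using hF
  refine ⟨∑ j, u j, φ.sub (fun j => (t j).ren (fun i => finSigmaFinEquiv ⟨j, i⟩)),
    fun x => s (finSigmaFinEquiv.symm x).1 (finSigmaFinEquiv.symm x).2, fun e => ?_⟩
  rw [Tm.val_sub]
  have : (fun j => Tm.val N (fun x => Sum.elim e id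
      (s (finSigmaFinEquiv.symm x).1 (finSigmaFinEquiv.symm x).2))
      ((t j).ren (fun i => finSigmaFinEquiv ⟨j, i⟩))) = fun j => F j e := by
    funext j
    rw [Tm.val_ren, ← hs j e]
    congr 1
    funext i
    rw [Equiv.symm_apply_apply]
  rw [this]

theorem TDfn.zero : TDfn N (fun _ => N.zero) := TDfn.const _

theorem TDfn.succ {f : (ℕ → M) → M} (hf : TDfn N f) : TDfn N (fun e => N.succ (f e)) :=
  TDfn.of_tm (.succ (.var 0)) (fun _ : Fin 1 => f) (fun _ => hf)

theorem TDfn.add {f g : (ℕ → M) → M} (hf : TDfn N f) (hg : TDfn N g) :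
    TDfn N (fun e => N.add (f e) (g e)) :=
  TDfn.of_tm (.add (.var 0) (.var 1)) (fun j : Fin 2 => if j = 0 then f else g)
    (fun j => by split_ifs <;> assumption)

theorem TDfn.mul {f g : (ℕ → M) → M} (hf : TDfn N f) (hg : TDfn N g) :
    TDfn N (fun e => N.mul (f e) (g e)) :=
  TDfn.of_tm (.mul (.var 0) (.var 1)) (fun j : Fin 2 => if j = 0 then f else g)
    (fun j => by split_ifs <;> assumption)

/-- composition -/
theorem Dfn.comp {P : (ℕ → M) → Prop} (hP : Dfn N P) (F : ℕ → (ℕ → M) → M)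
    (hF : ∀ i, TDfn N (F i)) : Dfn N (fun e => P (fun i => F i e)) := by
  obtain ⟨w, φ, s, hs⟩ := hP
  refine (Dfn.of_fm φ (fun j e => Sum.elim (fun i => F i e) id (s j)) (fun j => ?_)).congr
    (fun e => hs _)
  rcases s j with i | c
  · exact hF i
  · exact TDfn.const c

theorem TDfn.comp {f : (ℕ → M) → M} (hf : TDfn N f) (F : ℕ → (ℕ → M) → M)
    (hF : ∀ i, TDfn N (F i)) : TDfn N (fun e => f (fun i => F i e)) := by
  obtain ⟨w, φ, s, hs⟩ := hf
  have h1 := TDfn.of_tm φ (fun j e => Sum.elim (fun i => F i e) id (s j)) (fun j => by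
    rcases s j with i | c
    · exact hF i
    · exact TDfn.const c)
  have h2 : (fun e => φ.val N (fun j => Sum.elim (fun i => F i e) id (s j))) =
      fun e => f (fun i => F i e) := funext fun e => hs _
  rwa [h2] at h1

theorem Dfn.comp1 {P : M → Prop} (hP : Dfn N (fun e => P (e 0))) {f : (ℕ → M) → M}
    (hf : TDfn N f) : Dfn N (fun e => P (f e)) :=
  hP.comp (fun _ => f) (fun _ => hf)

theorem Dfn.comp2 {P : M → M → Prop} (hP : Dfn N (fun e => P (e 0) (e 1)))
    {f g : (ℕ → M) → M} (hf : TDfn N f) (hg : TDfn N g) : Dfn N (fun e => P (f e) (g e)) :=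
  (hP.comp (fun i => if i = 0 then f else g) (fun i => by
    split_ifs <;> assumption)).congr (fun e => by simp)

theorem Dfn.comp3 {P : M → M → M → Prop} (hP : Dfn N (fun e => P (e 0) (e 1) (e 2)))
    {f g h : (ℕ → M) → M} (hf : TDfn N f) (hg : TDfn N g) (hh : TDfn N h) :
    Dfn N (fun e => P (f e) (g e) (h e)) :=
  (hP.comp (fun i => if i = 0 then f else if i = 1 then g else h) (fun i => by
    split_ifs <;> assumption)).congr (fun e => by simp)

theorem Dfn.comp4 {P : M → M → M → M → Prop}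
    (hP : Dfn N (fun e => P (e 0) (e 1) (e 2) (e 3)))
    {f g h k : (ℕ → M) → M} (hf : TDfn N f) (hg : TDfn N g) (hh : TDfn N h) (hk : TDfn N k) :
    Dfn N (fun e => P (f e) (g e) (h e) (k e)) :=
  (hP.comp (fun i => if i = 0 then f else if i = 1 then g else if i = 2 then h else k)
    (fun i => by
      split_ifs <;> assumption)).congr (fun e => by simp)

theorem Dfn.eq {f g : (ℕ → M) → M} (hf : TDfn N f) (hg : TDfn N g) :
    Dfn N (fun e => f e = g e) :=
  (Dfn.of_fm (.eq (.var 0) (.var 1)) (fun j : Fin 2 => if j = 0 then f else g)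
    (fun j => by split_ifs <;> assumption)).congr (fun e => by simp [Fm.sat, Tm.val])

theorem Dfn.le {f g : (ℕ → M) → M} (hf : TDfn N f) (hg : TDfn N g) :
    Dfn N (fun e => N.le (f e) (g e)) :=
  (Dfn.of_fm (.le (.var 0) (.var 1)) (fun j : Fin 2 => if j = 0 then f else g)
    (fun j => by split_ifs <;> assumption)).congr (fun e => by simp [Fm.sat, Tm.val])

theorem Dfn.rel {f : Fin 5 → (ℕ → M) → M} (hf : ∀ j, TDfn N (f j)) :
    Dfn N (fun e => N.rel (fun j => f j e)) :=
  (Dfn.of_fm (.rel (fun j => .var j)) f hf).congr (fun e => by simp [Fm.sat, Tm.val])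

theorem Dfn.not {P : (ℕ → M) → Prop} (hP : Dfn N P) : Dfn N (fun e => ¬ P e) := by
  obtain ⟨w, φ, s, hs⟩ := hP
  exact ⟨w, .neg φ, s, fun e => by simp only [Fm.sat, hs]⟩

theorem Dfn.and {P Q : (ℕ → M) → Prop} (hP : Dfn N P) (hQ : Dfn N Q) :
    Dfn N (fun e => P e ∧ Q e) := by
  obtain ⟨w, φ, s, hs⟩ := hP
  obtain ⟨u, ψ, t, ht⟩ := hQ
  refine ⟨w + u, .and (φ.sub _ (fun j => .var (Fin.castAdd u j)))
    (ψ.sub _ (fun j => .var (Fin.natAdd w j))), Fin.append s t, fun e => ?_⟩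
  simp only [Fm.sat, Fm.sat_sub, Tm.val, Fin.append_left, Fin.append_right, hs, ht]

theorem Dfn.or {P Q : (ℕ → M) → Prop} (hP : Dfn N P) (hQ : Dfn N Q) :
    Dfn N (fun e => P e ∨ Q e) :=
  ((hP.not.and hQ.not).not).congr (fun e => by tauto)

theorem Dfn.imp {P Q : (ℕ → M) → Prop} (hP : Dfn N P) (hQ : Dfn N Q) :
    Dfn N (fun e => P e → Q e) :=
  ((hP.and hQ.not).not).congr (fun e => by tauto)

theorem Dfn.iff {P Q : (ℕ → M) → Prop} (hP : Dfn N P) (hQ : Dfn N Q) :
    Dfn N (fun e => P e ↔ Q e) :=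
  ((hP.imp hQ).and (hQ.imp hP)).congr (fun e => by tauto)

theorem Dfn.const (p : Prop) : Dfn N (fun _ => p) := by
  by_cases hp : p
  · exact (Dfn.eq (TDfn.zero (N := N)) TDfn.zero).congr (fun e => by simp [hp])
  · exact (Dfn.eq (TDfn.zero (N := N)) TDfn.zero).not.congr (fun e => by simp [hp])

/-- bounded existential quantifier over the variable with name `i` -/
theorem Dfn.bex {P : (ℕ → M) → Prop} (hP : Dfn N P) (i : ℕ) {f : (ℕ → M) → M}
    (hf : TDfn N f) : Dfn N (fun e => ∃ x, N.le x (f e) ∧ P (Function.update e i x)) := by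
  classical
  obtain ⟨w, φ, s, hs⟩ := hP
  obtain ⟨u, t, r, hr⟩ := hf
  refine ⟨u + w, .bex (t.ren (Fin.castAdd w)) (φ.sub _ (fun j =>
    if s j = Sum.inl i then .var 0 else .var (Fin.natAdd u j).succ)), Fin.append r s,
    fun e => ?_⟩
  simp only [Fm.sat, Tm.val_ren, Fin.append_left, hr, Fm.sat_sub]
  refine exists_congr fun x => and_congr_right fun _ => ?_
  rw [← hs]
  have : (fun j => Tm.val N (Fin.cons x (fun j => Sum.elim e id (Fin.append r s j)))
      (if s j = Sum.inl i then Tm.var 0 else Tm.var (Fin.natAdd u j).succ)) =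
      fun j => Sum.elim (Function.update e i x) id (s j) := by
    funext j
    split_ifs with h
    · rw [h]
      simp [Tm.val]
    · simp only [Tm.val, Fin.cons_succ, Fin.append_right]
      rcases hsj : s j with a | c
      · rw [hsj] at h
        have : a ≠ i := fun h' => h (by rw [h'])
        simp [Function.update_of_ne this]
      · simp
  rw [this]

/-- bounded universal quantifier over the variable with name `i` -/
theorem Dfn.ball {P : (ℕ → M) → Prop} (hP : Dfn N P) (i : ℕ) {f : (ℕ → M) → M}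
    (hf : TDfn N f) : Dfn N (fun e => ∀ x, N.le x (f e) → P (Function.update e i x)) :=
  ((hP.not.bex i hf).not).congr (fun e => by simp only [not_exists, not_and, not_not])

/-- induction for definable predicates -/
theorem Dfn.induct (hN : Induction N) {P : M → Prop} (hP : Dfn N (fun e => P (e 0)))
    (h0 : P N.zero) (h1 : ∀ x, P x → P (N.succ x)) : ∀ x, P x := by
  classical
  obtain ⟨w, φ, s, hs⟩ := hP
  have key : ∀ x, (φ.sub _ (fun j =>
      if s j = Sum.inl 0 then Tm.var 0 else Tm.var (j.succ : Fin (w + 1)))).sat N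
      (Fin.cons x (fun j => Sum.elim (fun _ => N.zero) id (s j))) ↔
      φ.sat N (fun j => Sum.elim (fun i => if i = 0 then x else N.zero) id (s j)) := by
    intro x
    rw [Fm.sat_sub]
    have : (fun j => Tm.val N (Fin.cons x (fun j => Sum.elim (fun _ => N.zero) id (s j)))
        (if s j = Sum.inl 0 then Tm.var 0 else Tm.var (j.succ : Fin (w + 1)))) =
        fun j => Sum.elim (fun i => if i = 0 then x else N.zero) id (s j) := by
      funext j
      split_ifs with h
      · rw [h]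
        simp [Tm.val]
      · simp only [Tm.val, Fin.cons_succ]
        rcases hsj : s j with a | c
        · rw [hsj] at h
          have : a ≠ 0 := fun h' => h (by rw [h'])
          simp [this]
        · simp
    rw [this]
  have key2 : ∀ x, (φ.sub _ (fun j =>
      if s j = Sum.inl 0 then Tm.var 0 else Tm.var (j.succ : Fin (w + 1)))).sat N
      (Fin.cons x (fun j => Sum.elim (fun _ => N.zero) id (s j))) ↔ P x := by
    intro x
    rw [key, hs]
    simp
  intro x
  refine (key2 x).1 (hN w _ _ ?_ ?_ x)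
  · exact (key2 _).2 h0
  · intro y hy
    exact (key2 _).2 (h1 y ((key2 y).1 hy))

end

end Pool.Agent.Work.MP_610017_lc

end

section

/-!
# Block C: the upper side, arithmetic in models of `I Delta_0 (R) + Omega_1` (MP_610017_lc)
-/

set_option autoImplicit false

namespace Pool.Agent.Work.MP_610017_lc

/-- C01: equational facts. -/
def S_AlgEq : Prop := ∀ (M : Type) (N : Str M), IDelta0 N →
  (∀ x y, N.add x y = N.add y x) ∧
  (∀ x y z, N.add (N.add x y) z = N.add x (N.add y z)) ∧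
  (∀ x y, N.mul x y = N.mul y x) ∧
  (∀ x y z, N.mul (N.mul x y) z = N.mul x (N.mul y z)) ∧
  (∀ x y z, N.mul x (N.add y z) = N.add (N.mul x y) (N.mul x z)) ∧
  (∀ x, N.mul x (N.succ N.zero) = x) ∧
  (∀ x y z, N.add x z = N.add y z → x = y)

/-- C02: order facts. -/
def S_AlgOrd : Prop := ∀ (M : Type) (N : Str M), IDelta0 N →
  (∀ x, N.le x x) ∧ (∀ x y z, N.le x y → N.le y z → N.le x z) ∧
  (∀ x y, N.le x y → N.le y x → x = y) ∧ (∀ x y, N.le x y ∨ N.le y x) ∧
  (∀ x, N.le N.zero x) ∧ (∀ x y, (N.le x y ∧ x ≠ y) ↔ N.le (N.succ x) y) ∧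
  (∀ x y z, N.le x y ↔ N.le (N.add x z) (N.add y z)) ∧
  (∀ x y z, z ≠ N.zero → (N.le x y ↔ N.le (N.mul x z) (N.mul y z)))

/-- The structure `N` is given by the operations and the order of an ordered semiring with
truncated subtraction, discrete order, and induction for bounded formulas. -/
structure Good {M : Type} [CommSemiring M] [LinearOrder M] [IsStrictOrderedRing M] (N : Str M) :
    Prop where
  zero_eq : N.zero = 0
  succ_eq : ∀ x, N.succ x = x + 1
  add_eq : ∀ x y, N.add x y = x + y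
  mul_eq : ∀ x y, N.mul x y = x * y
  le_iff : ∀ x y, N.le x y ↔ x ≤ y
  nonneg : ∀ x : M, 0 ≤ x
  lt_iff : ∀ x y : M, x < y ↔ x + 1 ≤ y
  sub : ∀ x y : M, x ≤ y → ∃ z, y = x + z
  ind : Induction N

/-- C03: models of `I Delta_0 (R)` are ordered semirings. -/
def S_Alg : Prop := ∀ (M : Type) (N : Str M), IDelta0 N →
  ∃ (_ : CommSemiring M) (_ : LinearOrder M) (_ : IsStrictOrderedRing M), Good N

/-- `f i = n ^ i` for `i ≤ l`, and the graph of `f` is definable -/
structure PowF {M : Type} [CommSemiring M] [LinearOrder M] (N : Str M) (n l : M) (f : M → M) :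
    Prop where
  zero : f 0 = 1
  succ : ∀ i, i + 1 ≤ l → f (i + 1) = f i * n
  dfn : Dfn N (fun e => e 0 ≤ l ∧ e 1 = f (e 0))

/-- C04: from `IsPow` to `PowF`. -/
def S_PowF : Prop := ∀ (M : Type) [CommSemiring M] [LinearOrder M] [IsStrictOrderedRing M]
  (N : Str M), Good N → ∀ n l z, IsPow N n l z → ∃ f, PowF N n l f ∧ f l = z

/-- C05: properties of powers. -/
def S_PowProps : Prop := ∀ (M : Type) [CommSemiring M] [LinearOrder M] [IsStrictOrderedRing M]
  (N : Str M), Good N → ∀ (n l : M) (f : M → M), 1 ≤ n → PowF N n l f →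
  (∀ i, i ≤ l → 1 ≤ f i) ∧ (∀ i j, i ≤ j → j ≤ l → f i ≤ f j) ∧
  (∀ i j, i < j → j ≤ l → ∃ g, f j = f i * n * g)

/-- C06: division with remainder. -/
def S_Div : Prop := ∀ (M : Type) [CommSemiring M] [LinearOrder M] [IsStrictOrderedRing M]
  (N : Str M), Good N → ∀ d : M, 1 ≤ d →
  (∀ c, ∃ q r, r < d ∧ c = q * d + r) ∧
  (∀ q r q' r', r < d → r' < d → q * d + r = q' * d + r' → q = q' ∧ r = r')

/-- `a` is the digit of `c` at the place `x` in base `n` -/
def Dg {M : Type} [CommSemiring M] [LinearOrder M] (f : M → M) (n c x a : M) : Prop :=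
  a < n ∧ ∃ q r, r < f x ∧ c = (q * n + a) * f x + r

/-- C07: existence and uniqueness of digits. -/
def S_DgEU : Prop := ∀ (M : Type) [CommSemiring M] [LinearOrder M] [IsStrictOrderedRing M]
  (N : Str M), Good N → ∀ (n l : M) (f : M → M), 1 ≤ n → PowF N n l f →
  ∀ c x, x ≤ l → (∃ a, Dg f n c x a) ∧ ∀ a b, Dg f n c x a → Dg f n c x b → a = b

/-- C08: changing a digit. -/
def S_DgExt : Prop := ∀ (M : Type) [CommSemiring M] [LinearOrder M] [IsStrictOrderedRing M]
  (N : Str M), Good N → ∀ (n l : M) (f : M → M), 1 ≤ n → PowF N n l f →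
  ∀ c x b, x ≤ l → b < n → ∃ c', c' < f x * n ∧ Dg f n c' x b ∧
    ∀ j, j < x → ∀ a, Dg f n c' j a ↔ Dg f n c j a

/-- C09: digits are definable. -/
def S_DgDfn : Prop := ∀ (M : Type) [CommSemiring M] [LinearOrder M] [IsStrictOrderedRing M]
  (N : Str M), Good N → ∀ (n l : M) (f : M → M), 1 ≤ n → PowF N n l f →
  Dfn N (fun e => e 1 ≤ l ∧ Dg f n (e 0) (e 1) (e 2))

/-- The covering part of the hypothesis `Hyp`, with `0 < n`. -/
structure Cov {M : Type} (N : Str M) (n k : M) : Prop where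
  n_pos : N.lt N.zero n
  k_pos : N.lt N.zero k
  h_total : ∀ x y a, N.lt x k → N.le y k → N.lt a n → ∃ b, N.lt b n ∧ N.H x y a b
  u_total : ∀ x y a, N.le x k → N.lt y k → N.lt a n → ∃ b, N.lt b n ∧ N.U x y a b
  comm : ∀ x y a b c d, N.lt x k → N.lt y k → N.lt a n → N.lt b n → N.lt c n → N.lt d n →
    N.H x y a b → N.U x y a d → N.U (N.succ x) y b c → N.H x (N.succ y) d c
  col_bot : ∀ x a b, N.lt N.zero x → N.lt x k → N.lt a n → N.lt b n → N.H x N.zero a b →
    (N.C x N.zero a ↔ N.C (N.succ x) N.zero b)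
  col_top : ∀ x a b, N.lt x k → N.lt a n → N.lt b n → N.H x k a b →
    (N.C x k a ↔ N.C (N.succ x) k b)
  col_left : ∀ y a b, N.lt N.zero y → N.lt y k → N.lt a n → N.lt b n → N.U N.zero y a b →
    (N.C N.zero y a ↔ N.C N.zero (N.succ y) b)
  col_right : ∀ y a b, N.lt y k → N.lt a n → N.lt b n → N.U k y a b →
    (N.C k y a ↔ N.C k (N.succ y) b)
  start_h : ∀ b, N.lt b n → N.H N.zero N.zero N.zero b → N.C (N.num 1) N.zero b
  start_u : ∀ b, N.lt b n → N.U N.zero N.zero N.zero b → ¬ N.C N.zero (N.num 1) b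

/-- C10: `k ≤ log n`. -/
def S_KLe : Prop := ∀ (M : Type) [CommSemiring M] [LinearOrder M] [IsStrictOrderedRing M]
  (N : Str M), Good N → ∀ (n k l : M) (f : M → M), Hyp N n k → PowF N 2 l f → f l ≤ n →
  ¬ 2 * f l ≤ n → k ≤ l

/-- `c` codes a path along row `y`: consecutive digits are `H`-neighbours -/
def RowP {M : Type} [CommSemiring M] [LinearOrder M] (N : Str M) (f : M → M) (n k y c : M) :
    Prop :=
  ∀ x, x < k → ∀ a b, Dg f n c x a → Dg f n c (x + 1) b → N.H x y a b

/-- `c` codes a good row at height `y`: a path with colour `true` at the right end, starting with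
label `0` if `y = 0` and with colour `false` if `0 < y` -/
def RowG {M : Type} [CommSemiring M] [LinearOrder M] (N : Str M) (f : M → M) (n k y c : M) :
    Prop :=
  RowP N f n k y c ∧ (∀ a, Dg f n c 0 a → (y = 0 → a = 0) ∧ (0 < y → ¬ N.C 0 y a)) ∧
    ∀ a, Dg f n c k a → N.C k y a

/-- C10 (b): good rows are definable. -/
def S_RowDfn : Prop := ∀ (M : Type) [CommSemiring M] [LinearOrder M] [IsStrictOrderedRing M]
  (N : Str M), Good N → ∀ (n k l : M) (f : M → M), 1 ≤ n → k ≤ l → PowF N n l f →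
  Dfn N (fun e => RowG N f n k (e 0) (e 1))

/-- C11: the first row. -/
def S_RowStart : Prop := ∀ (M : Type) [CommSemiring M] [LinearOrder M] [IsStrictOrderedRing M]
  (N : Str M), Good N → ∀ (n k l : M) (f : M → M), Cov N n k → k ≤ l → PowF N n l f →
  ∃ c, c < f k * n ∧ RowG N f n k 0 c

/-- C12: from one row to the next. -/
def S_RowStep : Prop := ∀ (M : Type) [CommSemiring M] [LinearOrder M] [IsStrictOrderedRing M]
  (N : Str M), Good N → ∀ (n k l : M) (f : M → M), Cov N n k → k ≤ l → PowF N n l f →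
  ∀ y c, y < k → c < f k * n → RowG N f n k y c → ∃ c', c' < f k * n ∧ RowG N f n k (y + 1) c'

/-- C13: there is no good row at height `k`. -/
def S_RowTop : Prop := ∀ (M : Type) [CommSemiring M] [LinearOrder M] [IsStrictOrderedRing M]
  (N : Str M), Good N → ∀ (n k l : M) (f : M → M), Cov N n k → k ≤ l → PowF N n l f →
  ∀ c, c < f k * n → ¬ RowG N f n k k c

/-- C14: the upper side in the ordered form. -/
def S_UpperG : Prop := ∀ (M : Type) [CommSemiring M] [LinearOrder M] [IsStrictOrderedRing M]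
  (N : Str M), Good N → ∀ (n k l : M) (f : M → M), Cov N n k → k ≤ l → PowF N n l f → False

end Pool.Agent.Work.MP_610017_lc

end

section

/-!
# Block C, item Alg: models of `I Delta_0 (R)` are ordered semirings (MP_610017_lc)
-/

set_option autoImplicit false

namespace Pool.Agent.Work.MP_610017_lc

theorem prf_Alg (hA : S_AlgEq) (hO : S_AlgOrd) : S_Alg := by
  intro M N hN
  obtain ⟨hac, haa, hmc, hma, hd, hm1, hcan⟩ := hA M N hN
  obtain ⟨ole, otr, oas, otot, ozero, olt, oadd, omul⟩ := hO M N hN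
  obtain ⟨hR, hI⟩ := hN
  have hadd1 : ∀ x, N.add x (N.succ N.zero) = N.succ x := fun x => by
    rw [hR.add_succ, hR.add_zero]
  let i1 : CommSemiring M :=
    { zero := N.zero
      one := N.succ N.zero
      add := N.add
      mul := N.mul
      add_assoc := haa
      zero_add := fun a => (hac N.zero a).trans (hR.add_zero a)
      add_zero := hR.add_zero
      add_comm := hac
      nsmul := @nsmulRec M ⟨N.zero⟩ ⟨N.add⟩
      left_distrib := hd
      right_distrib := fun a b c => by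
        change N.mul (N.add a b) c = N.add (N.mul a c) (N.mul b c)
        rw [hmc (N.add a b) c, hd, hmc c a, hmc c b]
      zero_mul := fun a => (hmc N.zero a).trans (hR.mul_zero a)
      mul_zero := hR.mul_zero
      mul_assoc := hma
      one_mul := fun a => (hmc (N.succ N.zero) a).trans (hm1 a)
      mul_one := hm1
      mul_comm := hmc }
  let i2 : LinearOrder M :=
    { le := N.le
      le_refl := ole
      le_trans := otr
      le_antisymm := oas
      le_total := otot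
      toDecidableLE := Classical.decRel _ }
  have hlt : ∀ x y : M, x < y ↔ N.le x y ∧ x ≠ y := by
    intro x y
    constructor
    · intro h
      exact ⟨h.le, h.ne⟩
    · rintro ⟨h1, h2⟩
      exact lt_of_le_of_ne h1 h2
  have hlem : ∀ x y z : M, z ≠ N.zero → (x < y → N.mul x z < N.mul y z) := by
    intro x y z hz h
    refine lt_of_not_ge fun h' => ?_
    have h2 : N.le y x := (omul y x z hz).2 h'
    exact absurd h (not_lt_of_ge h2)
  let i3 : IsStrictOrderedRing M :=
    { add_le_add_left := fun a b h c => (oadd a b c).1 h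
      le_of_add_le_add_left := fun a b c h => by
        refine (oadd b c a).2 ?_
        rw [hac b a, hac c a]
        exact h
      zero_le_one := ozero _
      exists_pair_ne := ⟨N.succ N.zero, N.zero, hR.succ_ne _⟩
      mul_lt_mul_of_pos_left := fun a ha b c h => by
        have hz : a ≠ N.zero := fun h' => absurd ha (by
          rw [h']
          exact lt_irrefl _)
        change N.mul a b < N.mul a c
        rw [hmc a b, hmc a c]
        exact hlem b c a hz h
      mul_lt_mul_of_pos_right := fun a ha b c h => by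
        have hz : a ≠ N.zero := fun h' => absurd ha (by
          rw [h']
          exact lt_irrefl _)
        exact hlem b c a hz h }
  refine ⟨i1, i2, i3, ?_⟩
  exact
    { zero_eq := rfl
      succ_eq := fun x => (hadd1 x).symm
      add_eq := fun _ _ => rfl
      mul_eq := fun _ _ => rfl
      le_iff := fun _ _ => Iff.rfl
      nonneg := ozero
      lt_iff := fun x y => by
        have h1 : (x + 1 ≤ y) ↔ N.le (N.succ x) y := by
          have h2 : x + 1 = N.succ x := hadd1 x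
          rw [h2]
          exact Iff.rfl
        rw [h1, hlt, olt]
      sub := fun x y h => by
        obtain ⟨z, hz⟩ := (hR.le_iff x y).1 h
        refine ⟨z, ?_⟩
        change y = N.add x z
        rw [hac x z, hz]
      ind := hI }

end Pool.Agent.Work.MP_610017_lc

end

section

/-!
# Item C01: equational facts (MP_610017_lc)
-/

set_option autoImplicit false

namespace Pool.Agent.Work.MP_610017_lc

section

variable {M : Type} {N : Str M}

theorem AlgEq_zero_add (h : IDelta0 N) (x : M) : N.add N.zero x = x := by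
  refine Dfn.induct (P := fun x => N.add N.zero x = x) h.2
    (Dfn.eq (TDfn.add TDfn.zero (TDfn.var 0)) (TDfn.var 0)) (h.1.add_zero _) ?_ x
  intro y hy
  rw [h.1.add_succ, hy]

theorem AlgEq_succ_add (h : IDelta0 N) (x y : M) :
    N.add (N.succ x) y = N.succ (N.add x y) := by
  refine Dfn.induct (P := fun y => N.add (N.succ x) y = N.succ (N.add x y)) h.2
    (Dfn.eq (TDfn.add (TDfn.const _) (TDfn.var 0)) (TDfn.succ (TDfn.add (TDfn.const _) (TDfn.var 0))))
    ?_ ?_ y
  · rw [h.1.add_zero, h.1.add_zero]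
  · intro z hz
    rw [h.1.add_succ, h.1.add_succ, hz]

theorem AlgEq_add_comm (h : IDelta0 N) (x y : M) : N.add x y = N.add y x := by
  refine Dfn.induct (P := fun y => N.add x y = N.add y x) h.2
    (Dfn.eq (TDfn.add (TDfn.const _) (TDfn.var 0)) (TDfn.add (TDfn.var 0) (TDfn.const _))) ?_ ?_ y
  · rw [h.1.add_zero, AlgEq_zero_add h]
  · intro z hz
    rw [h.1.add_succ, AlgEq_succ_add h, hz]

theorem AlgEq_add_assoc (h : IDelta0 N) (x y z : M) :
    N.add (N.add x y) z = N.add x (N.add y z) := by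
  refine Dfn.induct (P := fun z => N.add (N.add x y) z = N.add x (N.add y z)) h.2
    (Dfn.eq (TDfn.add (TDfn.const _) (TDfn.var 0))
      (TDfn.add (TDfn.const _) (TDfn.add (TDfn.const _) (TDfn.var 0)))) ?_ ?_ z
  · rw [h.1.add_zero, h.1.add_zero]
  · intro w hw
    rw [h.1.add_succ, h.1.add_succ, h.1.add_succ, hw]

theorem AlgEq_zero_mul (h : IDelta0 N) (x : M) : N.mul N.zero x = N.zero := by
  refine Dfn.induct (P := fun x => N.mul N.zero x = N.zero) h.2
    (Dfn.eq (TDfn.mul TDfn.zero (TDfn.var 0)) TDfn.zero) (h.1.mul_zero _) ?_ x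
  intro y hy
  rw [h.1.mul_succ, hy, h.1.add_zero]

theorem AlgEq_succ_mul (h : IDelta0 N) (x y : M) :
    N.mul (N.succ x) y = N.add (N.mul x y) y := by
  refine Dfn.induct (P := fun y => N.mul (N.succ x) y = N.add (N.mul x y) y) h.2
    (Dfn.eq (TDfn.mul (TDfn.const _) (TDfn.var 0))
      (TDfn.add (TDfn.mul (TDfn.const _) (TDfn.var 0)) (TDfn.var 0))) ?_ ?_ y
  · rw [h.1.mul_zero, h.1.mul_zero, h.1.add_zero]
  · intro z hz
    rw [h.1.mul_succ, h.1.mul_succ, hz, h.1.add_succ, h.1.add_succ, AlgEq_add_assoc h,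
      AlgEq_add_assoc h, AlgEq_add_comm h z x]

theorem AlgEq_mul_comm (h : IDelta0 N) (x y : M) : N.mul x y = N.mul y x := by
  refine Dfn.induct (P := fun y => N.mul x y = N.mul y x) h.2
    (Dfn.eq (TDfn.mul (TDfn.const _) (TDfn.var 0)) (TDfn.mul (TDfn.var 0) (TDfn.const _))) ?_ ?_ y
  · rw [h.1.mul_zero, AlgEq_zero_mul h]
  · intro z hz
    rw [h.1.mul_succ, AlgEq_succ_mul h, hz]

theorem AlgEq_mul_add (h : IDelta0 N) (x y z : M) :
    N.mul x (N.add y z) = N.add (N.mul x y) (N.mul x z) := by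
  refine Dfn.induct (P := fun z => N.mul x (N.add y z) = N.add (N.mul x y) (N.mul x z)) h.2
    (Dfn.eq (TDfn.mul (TDfn.const _) (TDfn.add (TDfn.const _) (TDfn.var 0)))
      (TDfn.add (TDfn.const _) (TDfn.mul (TDfn.const _) (TDfn.var 0)))) ?_ ?_ z
  · rw [h.1.add_zero, h.1.mul_zero, h.1.add_zero]
  · intro w hw
    rw [h.1.add_succ, h.1.mul_succ, h.1.mul_succ, hw, AlgEq_add_assoc h]

theorem AlgEq_mul_assoc (h : IDelta0 N) (x y z : M) :
    N.mul (N.mul x y) z = N.mul x (N.mul y z) := by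
  refine Dfn.induct (P := fun z => N.mul (N.mul x y) z = N.mul x (N.mul y z)) h.2
    (Dfn.eq (TDfn.mul (TDfn.const _) (TDfn.var 0))
      (TDfn.mul (TDfn.const _) (TDfn.mul (TDfn.const _) (TDfn.var 0)))) ?_ ?_ z
  · rw [h.1.mul_zero, h.1.mul_zero, h.1.mul_zero]
  · intro w hw
    rw [h.1.mul_succ, h.1.mul_succ, hw, AlgEq_mul_add h]

theorem AlgEq_mul_one (h : IDelta0 N) (x : M) : N.mul x (N.succ N.zero) = x := by
  rw [h.1.mul_succ, h.1.mul_zero, AlgEq_zero_add h]

theorem AlgEq_cancel (h : IDelta0 N) (x y z : M) : N.add x z = N.add y z → x = y := by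
  refine Dfn.induct (P := fun z => N.add x z = N.add y z → x = y) h.2
    (Dfn.imp (Dfn.eq (TDfn.add (TDfn.const _) (TDfn.var 0)) (TDfn.add (TDfn.const _) (TDfn.var 0)))
      (Dfn.const _)) ?_ ?_ z
  · intro hz
    rwa [h.1.add_zero, h.1.add_zero] at hz
  · intro w hw hz
    rw [h.1.add_succ, h.1.add_succ] at hz
    exact hw (h.1.succ_inj _ _ hz)

end

theorem prf_AlgEq : S_AlgEq := by
  intro M N h
  exact ⟨AlgEq_add_comm h, AlgEq_add_assoc h, AlgEq_mul_comm h, AlgEq_mul_assoc h,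
    AlgEq_mul_add h, AlgEq_mul_one h, AlgEq_cancel h⟩

end Pool.Agent.Work.MP_610017_lc

end

section

/-!
# C02: order facts (MP_610017_lc)
-/

set_option autoImplicit false

namespace Pool.Agent.Work.MP_610017_lc

/-- the equational facts -/
structure AlgOrd_Eq {M : Type} (N : Str M) : Prop where
  R : Robinson N
  addc : ∀ x y, N.add x y = N.add y x
  adda : ∀ x y z, N.add (N.add x y) z = N.add x (N.add y z)
  mulc : ∀ x y, N.mul x y = N.mul y x
  dist : ∀ x y z, N.mul x (N.add y z) = N.add (N.mul x y) (N.mul x z)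
  canc : ∀ x y z, N.add x z = N.add y z → x = y

section

variable {M : Type} {N : Str M}

theorem AlgOrd_zero_add (h : AlgOrd_Eq N) (x : M) : N.add N.zero x = x := by
  rw [h.addc, h.R.add_zero]

theorem AlgOrd_succ_add (h : AlgOrd_Eq N) (x y : M) :
    N.add (N.succ x) y = N.succ (N.add x y) := by
  rw [h.addc, h.R.add_succ, h.addc]

theorem AlgOrd_sum_zero (h : AlgOrd_Eq N) (w z : M) (h0 : N.add w z = N.zero) : z = N.zero := by
  by_contra hz
  obtain ⟨z', rfl⟩ := h.R.pred z hz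
  rw [h.R.add_succ] at h0
  exact h.R.succ_ne _ h0

theorem AlgOrd_refl (h : AlgOrd_Eq N) (x : M) : N.le x x :=
  (h.R.le_iff x x).2 ⟨N.zero, AlgOrd_zero_add h x⟩

theorem AlgOrd_trans (h : AlgOrd_Eq N) (x y z : M) (h1 : N.le x y) (h2 : N.le y z) :
    N.le x z := by
  obtain ⟨a, rfl⟩ := (h.R.le_iff _ _).1 h1
  obtain ⟨b, rfl⟩ := (h.R.le_iff _ _).1 h2
  exact (h.R.le_iff _ _).2 ⟨N.add b a, h.adda _ _ _⟩

theorem AlgOrd_antisymm (h : AlgOrd_Eq N) (x y : M) (h1 : N.le x y) (h2 : N.le y x) : x = y := by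
  obtain ⟨a, ha⟩ := (h.R.le_iff _ _).1 h1
  obtain ⟨b, hb⟩ := (h.R.le_iff _ _).1 h2
  have h3 : N.add (N.add b a) x = N.add N.zero x := by
    rw [h.adda, ha, hb, AlgOrd_zero_add h]
  have h4 := AlgOrd_sum_zero h _ _ (h.canc _ _ _ h3)
  rw [h4, AlgOrd_zero_add h] at ha
  exact ha

theorem AlgOrd_zero_le (h : AlgOrd_Eq N) (x : M) : N.le N.zero x :=
  (h.R.le_iff _ _).2 ⟨x, h.R.add_zero x⟩

theorem AlgOrd_le_succ (h : AlgOrd_Eq N) (x : M) : N.le x (N.succ x) :=
  (h.R.le_iff _ _).2 ⟨N.succ N.zero, by rw [AlgOrd_succ_add h, AlgOrd_zero_add h]⟩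

theorem AlgOrd_lt_iff (h : AlgOrd_Eq N) (x y : M) : (N.le x y ∧ x ≠ y) ↔ N.le (N.succ x) y := by
  constructor
  · rintro ⟨h1, h2⟩
    obtain ⟨z, hz⟩ := (h.R.le_iff _ _).1 h1
    have hz0 : z ≠ N.zero := by
      rintro rfl
      rw [AlgOrd_zero_add h] at hz
      exact h2 hz
    obtain ⟨z', rfl⟩ := h.R.pred z hz0
    refine (h.R.le_iff _ _).2 ⟨z', ?_⟩
    rw [← hz, h.R.add_succ, AlgOrd_succ_add h]
  · intro h1
    refine ⟨AlgOrd_trans h _ _ _ (AlgOrd_le_succ h x) h1, ?_⟩
    rintro rfl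
    obtain ⟨z, hz⟩ := (h.R.le_iff _ _).1 h1
    rw [h.R.add_succ, ← AlgOrd_succ_add h] at hz
    have h3 : N.add (N.succ z) x = N.add N.zero x := by rw [hz, AlgOrd_zero_add h]
    exact h.R.succ_ne _ (h.canc _ _ _ h3)

theorem AlgOrd_total (h : AlgOrd_Eq N) (hI : Induction N) (x y : M) : N.le x y ∨ N.le y x := by
  have hd : Dfn N (fun e => N.le (e 0) y ∨ N.le y (e 0)) :=
    (Dfn.le (TDfn.var 0) (TDfn.const y)).or (Dfn.le (TDfn.const y) (TDfn.var 0))
  refine Dfn.induct (P := fun x => N.le x y ∨ N.le y x) hI hd (Or.inl (AlgOrd_zero_le h y)) ?_ x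
  intro x hx
  rcases hx with hx | hx
  · by_cases hxy : x = y
    · subst hxy
      exact Or.inr (AlgOrd_le_succ h x)
    · exact Or.inl ((AlgOrd_lt_iff h x y).1 ⟨hx, hxy⟩)
  · exact Or.inr (AlgOrd_trans h _ _ _ hx (AlgOrd_le_succ h x))

theorem AlgOrd_add (h : AlgOrd_Eq N) (x y z : M) :
    N.le x y ↔ N.le (N.add x z) (N.add y z) := by
  rw [h.R.le_iff, h.R.le_iff]
  constructor
  · rintro ⟨w, rfl⟩
    exact ⟨w, (h.adda _ _ _).symm⟩
  · rintro ⟨w, hw⟩
    rw [← h.adda] at hw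
    exact ⟨w, h.canc _ _ _ hw⟩

theorem AlgOrd_add_mul (h : AlgOrd_Eq N) (x y z : M) :
    N.mul (N.add x y) z = N.add (N.mul x z) (N.mul y z) := by
  rw [h.mulc, h.dist, h.mulc z x, h.mulc z y]

theorem AlgOrd_mul_ne (h : AlgOrd_Eq N) (u z : M) (hu : u ≠ N.zero) (hz : z ≠ N.zero) :
    N.mul u z ≠ N.zero := by
  obtain ⟨u', rfl⟩ := h.R.pred u hu
  obtain ⟨z', rfl⟩ := h.R.pred z hz
  rw [h.R.mul_succ, h.R.add_succ]
  exact h.R.succ_ne _

theorem AlgOrd_mul (h : AlgOrd_Eq N) (hI : Induction N) (x y z : M) (hz : z ≠ N.zero) :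
    N.le x y ↔ N.le (N.mul x z) (N.mul y z) := by
  have key : ∀ x y, N.le x y → N.le (N.mul x z) (N.mul y z) := by
    intro x y h1
    obtain ⟨w, rfl⟩ := (h.R.le_iff _ _).1 h1
    exact (h.R.le_iff _ _).2 ⟨N.mul w z, (AlgOrd_add_mul h _ _ _).symm⟩
  refine ⟨key x y, fun h1 => ?_⟩
  rcases AlgOrd_total h hI x y with h2 | h2
  · exact h2
  · obtain ⟨u, hu⟩ := (h.R.le_iff _ _).1 h2
    have h3 := AlgOrd_antisymm h _ _ h1 (key y x h2)
    by_cases hu0 : u = N.zero
    · rw [hu0, AlgOrd_zero_add h] at hu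
      rw [hu]
      exact AlgOrd_refl h x
    · exfalso
      rw [← hu, AlgOrd_add_mul h] at h3
      have h4 : N.add (N.mul u z) (N.mul y z) = N.add N.zero (N.mul y z) := by
        rw [h3, AlgOrd_zero_add h]
      exact AlgOrd_mul_ne h u z hu0 hz (h.canc _ _ _ h4)

end

theorem prf_AlgOrd (hA : S_AlgEq) : S_AlgOrd := by
  intro M N hN
  obtain ⟨a1, a2, a3, _, a5, _, a7⟩ := hA M N hN
  have h : AlgOrd_Eq N := ⟨hN.1, a1, a2, a3, a5, a7⟩
  exact ⟨AlgOrd_refl h, AlgOrd_trans h, AlgOrd_antisymm h, AlgOrd_total h hN.2,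
    AlgOrd_zero_le h, AlgOrd_lt_iff h, AlgOrd_add h, fun x y z => AlgOrd_mul h hN.2 x y z⟩

end Pool.Agent.Work.MP_610017_lc

end

section

/-!
# Block C, DgDfn: digits are definable (MP_610017_lc)
-/

set_option autoImplicit false

namespace Pool.Agent.Work.MP_610017_lc

theorem prf_DgDfn (hP : S_PowProps) : S_DgDfn := by
  intro M _ _ _ N hG n l f hn hf
  obtain ⟨hp1, hp2, _⟩ := hP M N hG n l f hn hf
  have h0 : Dfn N (fun e => (N.le (e 5) (e 3) ∧ ¬ e 5 = e 3) ∧
      e 0 = N.add (N.mul (N.add (N.mul (e 4) n) (e 2)) (e 3)) (e 5)) :=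
    ((Dfn.le (TDfn.var 5) (TDfn.var 3)).and (Dfn.eq (TDfn.var 5) (TDfn.var 3)).not).and
      (Dfn.eq (TDfn.var 0) ((((TDfn.var 4).mul (TDfn.const n)).add (TDfn.var 2)).mul
        (TDfn.var 3) |>.add (TDfn.var 5)))
  have h3 : Dfn N (fun e => e 1 ≤ l ∧ e 3 = f (e 1)) :=
    Dfn.comp2 (P := fun a b => a ≤ l ∧ b = f a) hf.dfn (TDfn.var 1) (TDfn.var 3)
  have h4 : Dfn N (fun e => N.le (e 2) n ∧ ¬ e 2 = n) :=
    (Dfn.le (TDfn.var 2) (TDfn.const n)).and (Dfn.eq (TDfn.var 2) (TDfn.const n)).not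
  have h5 := (h3.and (h4.and ((h0.bex 5 (TDfn.var 0)).bex 4 (TDfn.var 0)))).bex 3
    (TDfn.const (f l))
  refine h5.congr fun e => ?_
  simp only [hG.le_iff, hG.add_eq, hG.mul_eq, Function.update_apply]
  norm_num
  unfold Dg
  constructor
  · rintro ⟨p, _, ⟨h1, rfl⟩, ⟨h2, h2'⟩, q, _, r, _, ⟨h6, h6'⟩, h7⟩
    exact ⟨h1, lt_of_le_of_ne h2 h2', q, r, lt_of_le_of_ne h6 h6', h7⟩
  · rintro ⟨h1, h2, q, r, h6, h7⟩
    have hfx : 1 ≤ f (e 1) := hp1 _ h1
    have h8 : q ≤ e 0 := by
      rw [h7]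
      have e1 : q ≤ q * n := le_mul_of_one_le_right (hG.nonneg q) hn
      have e2 : q * n ≤ q * n + e 2 := le_add_of_nonneg_right (hG.nonneg _)
      have e3 : q * n + e 2 ≤ (q * n + e 2) * f (e 1) :=
        le_mul_of_one_le_right (hG.nonneg _) hfx
      exact ((e1.trans e2).trans e3).trans (le_add_of_nonneg_right (hG.nonneg r))
    have h9 : r ≤ e 0 := by
      rw [h7]
      exact le_add_of_nonneg_left (hG.nonneg _)
    exact ⟨f (e 1), hp2 _ _ h1 le_rfl, ⟨h1, rfl⟩, ⟨h2.le, h2.ne⟩, q, h8, r, h9,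
      ⟨h6.le, h6.ne⟩, h7⟩

end Pool.Agent.Work.MP_610017_lc

end

section

/-!
# Block C, item DgEU: digits (MP_610017_lc)
-/

set_option autoImplicit false

namespace Pool.Agent.Work.MP_610017_lc

theorem prf_DgEU (hP : S_PowProps) (hD : S_Div) : S_DgEU := by
  intro M _ _ _ N hN n l f hn hf c x hx
  have hfx : 1 ≤ f x := (hP M N hN n l f hn hf).1 x hx
  constructor
  · obtain ⟨Q, r, hr, hc⟩ := (hD M N hN (f x) hfx).1 c
    obtain ⟨q, a, ha, hQ⟩ := (hD M N hN n hn).1 Q
    exact ⟨a, ha, q, r, hr, by rw [hc, hQ]⟩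
  · rintro a b ⟨ha, q, r, hr, hc⟩ ⟨hb, q', r', hr', hc'⟩
    have h1 := ((hD M N hN (f x) hfx).2 (q * n + a) r (q' * n + b) r' hr hr'
      (by rw [← hc, ← hc'])).1
    exact ((hD M N hN n hn).2 q a q' b ha hb h1).2

end Pool.Agent.Work.MP_610017_lc

end

section

/-!
# MP_610017_lc, item DgExt: changing a digit
-/

set_option autoImplicit false

namespace Pool.Agent.Work.MP_610017_lc

theorem prf_DgExt (hP : S_PowProps) (hD : S_Div) (hE : S_DgEU) : S_DgExt := by
  intro M _ _ _ N hg n l f hn hf c x b hx hb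
  obtain ⟨hp1, -, hp3⟩ := hP M N hg n l f hn hf
  have he := hE M N hg n l f hn hf
  obtain ⟨Q, r, hr, hc⟩ := (hD M N hg (f x) (hp1 x hx)).1 c
  have key1 : ∀ (A : M) (j : M), j < x → ∀ a, Dg f n r j a → Dg f n (A * f x + r) j a := by
    rintro A j hj a ⟨ha, q, r', hr', hq⟩
    obtain ⟨g, hgg⟩ := hp3 j x hj hx
    refine ⟨ha, A * g + q, r', hr', ?_⟩
    rw [hgg, hq]
    ring
  have key : ∀ (A : M) (j : M), j < x → ∀ a, Dg f n (A * f x + r) j a ↔ Dg f n r j a := by
    intro A j hj a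
    refine ⟨fun h => ?_, key1 A j hj a⟩
    have hjl : j ≤ l := hj.le.trans hx
    obtain ⟨a', ha'⟩ := (he r j hjl).1
    have h1 := key1 A j hj a' ha'
    rw [(he (A * f x + r) j hjl).2 a a' h h1]
    exact ha'
  refine ⟨b * f x + r, ?_, ⟨hb, 0, r, hr, by ring⟩, ?_⟩
  · have h1 : b + 1 ≤ n := (hg.lt_iff _ _).1 hb
    calc b * f x + r < b * f x + f x := by gcongr
      _ = f x * (b + 1) := by ring
      _ ≤ f x * n := by
        have h0 : 0 ≤ f x := hg.nonneg _
        exact mul_le_mul_of_nonneg_left h1 h0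
  · intro j hj a
    rw [hc, key b j hj a, key Q j hj a]

end Pool.Agent.Work.MP_610017_lc

end

section

/-!
# Division with remainder
-/

set_option autoImplicit false

namespace Pool.Agent.Work.MP_610017_lc

theorem Div_dfn {M : Type} (N : Str M) (d : M) : Dfn N (fun e => ∃ q, N.le q (e 0) ∧
    ∃ r, N.le r d ∧ (N.le (N.succ r) d ∧ e 0 = N.add (N.mul q d) r)) := by
  have h1 : Dfn N (fun e => N.le (N.succ (e 2)) d ∧ e 0 = N.add (N.mul (e 1) d) (e 2)) :=
    (Dfn.le (.succ (.var 2)) (.const d)).and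
      (Dfn.eq (.var 0) (.add (.mul (.var 1) (.const d)) (.var 2)))
  refine ((h1.bex 2 (TDfn.const d)).bex 1 (TDfn.var 0)).congr fun e => ?_
  simp [Function.update]

theorem Div_ex {M : Type} [CommSemiring M] [LinearOrder M] [IsStrictOrderedRing M]
    (N : Str M) (hG : Good N) (d : M) (hd : 1 ≤ d) : ∀ c : M, ∃ q, N.le q c ∧
    ∃ r, N.le r d ∧ (N.le (N.succ r) d ∧ c = N.add (N.mul q d) r) := by
  refine Dfn.induct hG.ind (Div_dfn N d) ?_ ?_
  · simp only [hG.le_iff, hG.succ_eq, hG.add_eq, hG.mul_eq, hG.zero_eq]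
    exact ⟨0, le_rfl, 0, hG.nonneg d, by simpa using hd, by simp⟩
  · intro c
    simp only [hG.le_iff, hG.succ_eq, hG.add_eq, hG.mul_eq]
    rintro ⟨q, hq, r, hr, hr1, hc⟩
    rcases hr1.lt_or_eq with h | h
    · refine ⟨q, hq.trans ((hG.lt_iff _ _).2 le_rfl).le, r + 1, hr1, (hG.lt_iff _ _).1 h, ?_⟩
      rw [hc, add_assoc]
    · refine ⟨q + 1, by gcongr, 0, hG.nonneg d, by simpa using hd, ?_⟩
      rw [hc, add_zero, add_mul, one_mul, add_assoc, h]

theorem Div_le {M : Type} [CommSemiring M] [LinearOrder M] [IsStrictOrderedRing M]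
    (N : Str M) (hG : Good N) {d q r q' r' : M} (hr : r < d)
    (h : q * d + r = q' * d + r') : q' ≤ q := by
  by_contra hcon
  push Not at hcon
  have h1 : q + 1 ≤ q' := (hG.lt_iff _ _).1 hcon
  have h2 : (q + 1) * d ≤ q' * d := mul_le_mul_of_nonneg_right h1 (hG.nonneg d)
  have h3 : q * d + d ≤ q * d + r := by
    calc q * d + d = (q + 1) * d := by rw [add_mul, one_mul]
      _ ≤ q' * d := h2
      _ ≤ q' * d + r' := le_add_of_nonneg_right (hG.nonneg _)
      _ = q * d + r := h.symm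
  exact absurd (le_of_add_le_add_left h3) (not_le.2 hr)

theorem prf_Div : S_Div := by
  intro M _ _ _ N hG d hd
  refine ⟨fun c => ?_, ?_⟩
  · obtain ⟨q, _, r, _, hr1, hc⟩ := Div_ex N hG d hd c
    rw [hG.le_iff, hG.succ_eq] at hr1
    rw [hG.add_eq, hG.mul_eq] at hc
    exact ⟨q, r, (hG.lt_iff _ _).2 hr1, hc⟩
  · intro q r q' r' hr hr' h
    have h1 : q = q' := le_antisymm (Div_le N hG hr' h.symm) (Div_le N hG hr h)
    subst h1
    exact ⟨rfl, le_antisymm (le_of_add_le_add_left h.le) (le_of_add_le_add_left h.ge)⟩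

end Pool.Agent.Work.MP_610017_lc

end

section

/-!
# MP_610017_lc, item KLe: `k ≤ log n`
-/

set_option autoImplicit false

namespace Pool.Agent.Work.MP_610017_lc

theorem KLe_P {M : Type} (N : Str M) : Dfn N (fun e => N.P (e 0) (e 1)) := by
  have h := Dfn.rel (N := N) (f := ![fun _ => N.num 3, fun e => e 0, fun e => e 1,
    fun _ => N.num 0, fun _ => N.num 0]) (by
      intro j
      fin_cases j
      · exact TDfn.const _
      · exact TDfn.var 0
      · exact TDfn.var 1
      · exact TDfn.const _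
      · exact TDfn.const _)
  refine h.congr (fun e => ?_)
  unfold Str.P
  have : (fun j => (![fun _ => N.num 3, fun e => e 0, fun e => e 1,
    fun _ => N.num 0, fun _ => N.num 0] : Fin 5 → (ℕ → M) → M) j e) =
      ![N.num 3, e 0, e 1, N.num 0, N.num 0] := by
    funext j
    fin_cases j <;> rfl
  rw [this]

theorem KLe_claim {M : Type} [CommSemiring M] [LinearOrder M] [IsStrictOrderedRing M]
    (N : Str M) (hg : Good N) (n k l : M) (f : M → M) (hh : Hyp N n k) (hf : PowF N 2 l f)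
    (hlk : l < k) : ∀ i, i ≤ l → ∀ w, N.le w n → N.P i w → i ≤ l ∧ w = f i := by
  have hle : ∀ e : ℕ → M, N.le (e 0) l ↔ e 0 ≤ l := fun e => hg.le_iff _ _
  have hQ : Dfn N (fun e => e 0 ≤ l → ∀ w, N.le w n → N.P (e 0) w → e 0 ≤ l ∧ w = f (e 0)) := by
    have hA : Dfn N (fun e => N.le (e 0) l) := Dfn.le (TDfn.var 0) (TDfn.const l)
    have hB := ((KLe_P N).imp hf.dfn).ball 1 (TDfn.const n)
    refine (hA.imp hB).congr (fun e => ?_)
    rw [hle]
    simp
  refine Dfn.induct hg.ind (P := fun i => i ≤ l → ∀ w, N.le w n → N.P i w → i ≤ l ∧ w = f i)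
    hQ ?_ ?_
  · intro h0 w hw hP
    refine ⟨h0, ?_⟩
    rw [hh.pow_zero w hw hP, hg.zero_eq, hf.zero]
    show N.succ N.zero = 1
    rw [hg.succ_eq, hg.zero_eq, zero_add]
  · intro x ih hx w hw hP
    refine ⟨hx, ?_⟩
    have hx1 : x + 1 ≤ l := by rwa [hg.succ_eq] at hx
    have hxl : x < l := (hg.lt_iff _ _).2 hx1
    have hxk : x < k := hxl.trans hlk
    obtain ⟨u, hu, hPu⟩ := hh.pow_total x ((hg.le_iff _ _).2 hxk.le)
    have h1 := (ih hxl.le u hu hPu).2
    have h2 := hh.pow_succ x u w ⟨(hg.le_iff _ _).2 hxk.le, hxk.ne⟩ hu hw hPu hP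
    rw [h2, hg.add_eq, hg.succ_eq, hf.succ x hx1, h1, mul_two]

theorem prf_KLe : S_KLe := by
  intro M _ _ _ N hg n k l f hh hf hfl hfl2
  by_contra hkl
  have hlk : l < k := not_le.1 hkl
  have hc := KLe_claim N hg n k l f hh hf hlk
  obtain ⟨u, hu, hPu⟩ := hh.pow_total l ((hg.le_iff _ _).2 hlk.le)
  have h1 := (hc l le_rfl u hu hPu).2
  obtain ⟨u', hu', hPu'⟩ := hh.pow_total (l + 1) ((hg.le_iff _ _).2 ((hg.lt_iff _ _).1 hlk))
  have h2 := hh.pow_succ l u u' ⟨(hg.le_iff _ _).2 hlk.le, hlk.ne⟩ hu hu' hPu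
    (by rw [hg.succ_eq]; exact hPu')
  apply hfl2
  rw [hg.add_eq, h1, ← two_mul] at h2
  rw [← h2]
  exact (hg.le_iff _ _).1 hu'

end Pool.Agent.Work.MP_610017_lc

end

section

/-!
# Block C: from `IsPow` to `PowF` (MP_610017_lc)
-/

set_option autoImplicit false

namespace Pool.Agent.Work.MP_610017_lc

theorem prf_PowF : S_PowF := by
  intro M _ _ _ N hG n l z hpow
  obtain ⟨v, φ, e, f, hφ, h0, hs, hz⟩ := hpow
  refine ⟨f, ⟨?_, ?_, ?_⟩, hz⟩
  · rw [hG.zero_eq, hG.succ_eq, zero_add] at h0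
    exact h0
  · intro i hi
    have h1 := hs i (by rw [hG.succ_eq, hG.le_iff]; exact hi)
    rw [hG.succ_eq, hG.mul_eq] at h1
    exact h1
  · have hF : ∀ j, TDfn N ((Fin.cons (fun e' => e' 0)
        (Fin.cons (fun e' => e' 1) (fun j _ => e j)) : Fin (v + 2) → (ℕ → M) → M) j) := by
      intro j
      refine Fin.cases ?_ (fun j => ?_) j
      · exact TDfn.var 0
      · refine Fin.cases ?_ (fun j => ?_) j
        · exact TDfn.var 1
        · exact TDfn.const _
    refine ((Dfn.le (TDfn.var 0) (TDfn.const l)).and (Dfn.of_fm φ _ hF)).congr ?_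
    intro e'
    have hE : (fun j => (Fin.cons (fun e' => e' 0)
        (Fin.cons (fun e' => e' 1) (fun j _ => e j)) : Fin (v + 2) → (ℕ → M) → M) j e') =
        Fin.cons (e' 0) (Fin.cons (e' 1) e) := by
      funext j
      refine Fin.cases ?_ (fun j => ?_) j
      · rfl
      · refine Fin.cases ?_ (fun j => ?_) j
        · rfl
        · rfl
    rw [hE, ← hG.le_iff]
    exact and_congr_right fun hl => hφ _ _ hl

end Pool.Agent.Work.MP_610017_lc

end

section

/-!
# C05: properties of powers (MP_610017_lc)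
-/

set_option autoImplicit false

namespace Pool.Agent.Work.MP_610017_lc

section

variable {M : Type} [CommSemiring M] [LinearOrder M] [IsStrictOrderedRing M] {N : Str M}

theorem powProps_dle (hG : Good N) {f g : (ℕ → M) → M} (hf : TDfn N f) (hg : TDfn N g) :
    Dfn N (fun e => f e ≤ g e) :=
  (Dfn.le hf hg).congr fun _ => hG.le_iff _ _

theorem powProps_ind (hG : Good N) {P : M → Prop} (hP : Dfn N (fun e => P (e 0)))
    (h0 : P 0) (h1 : ∀ x, P x → P (x + 1)) : ∀ x, P x := by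
  refine Dfn.induct hG.ind hP ?_ ?_
  · rw [hG.zero_eq]
    exact h0
  · intro x hx
    rw [hG.succ_eq]
    exact h1 x hx

theorem powProps_one_le (hG : Good N) {x : M} (hx : x ≠ 0) : 1 ≤ x := by
  have h1 : 0 < x := lt_of_le_of_ne (hG.nonneg x) (Ne.symm hx)
  have h2 := (hG.lt_iff 0 x).1 h1
  rwa [zero_add] at h2

theorem powProps_le_of_lt_succ (hG : Good N) {x y : M} (h : x ≤ y + 1) (hne : x ≠ y + 1) :
    x ≤ y := by
  have h1 : x < y + 1 := lt_of_le_of_ne h hne
  have h2 := (hG.lt_iff x (y + 1)).1 h1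
  exact le_of_add_le_add_right h2

theorem powProps_le_succ (hG : Good N) (x : M) : x ≤ x + 1 :=
  le_of_lt ((hG.lt_iff x (x + 1)).2 le_rfl)

theorem powProps_1 (hG : Good N) {n l : M} {f : M → M} (hn : 1 ≤ n) (hf : PowF N n l f) :
    ∀ i, i ≤ l → 1 ≤ f i := by
  have hdfn : Dfn N (fun e => ¬ (e 0 ≤ l ∧ (0 : M) = f (e 0))) :=
    (Dfn.comp2 (P := fun i w => i ≤ l ∧ w = f i) hf.dfn (TDfn.var 0) (TDfn.const 0)).not
  have key : ∀ i, ¬ (i ≤ l ∧ (0 : M) = f i) := by
    refine powProps_ind hG (P := fun i => ¬ (i ≤ l ∧ (0 : M) = f i)) hdfn ?_ ?_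
    · rintro ⟨_, h⟩
      rw [hf.zero] at h
      exact zero_ne_one h
    · rintro i hi ⟨h1, h2⟩
      have h3 : i ≤ l := (powProps_le_succ hG i).trans h1
      have h4 : f i ≠ 0 := fun h => hi ⟨h3, h.symm⟩
      have h5 : (1 : M) ≤ f i := powProps_one_le hG h4
      rw [hf.succ i h1] at h2
      have h6 : 0 < f i * n := mul_pos (lt_of_lt_of_le zero_lt_one h5)
        (lt_of_lt_of_le zero_lt_one hn)
      exact h6.ne h2
  intro i hi
  exact powProps_one_le hG fun h => key i ⟨hi, h.symm⟩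

theorem powProps_2 (hG : Good N) {n l : M} {f : M → M} (hn : 1 ≤ n) (hf : PowF N n l f) :
    ∀ i j, i ≤ j → j ≤ l → f i ≤ f j := by
  intro i
  have hb : Dfn N (fun e => e 1 ≠ f i ∧ (e 0 ≤ l ∧ e 1 = f (e 0))) :=
    (Dfn.eq (TDfn.var 1) (TDfn.const (f i))).not.and hf.dfn
  have hb2 : Dfn N (fun e => ∃ p, N.le p (f i) ∧ (p ≠ f i ∧ (e 0 ≤ l ∧ p = f (e 0)))) :=
    (hb.bex 1 (TDfn.const (f i))).congr (by
      intro e
      simp)
  have hdfn : Dfn N (fun e => i ≤ e 0 → e 0 ≤ l →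
      ¬ ∃ p, N.le p (f i) ∧ (p ≠ f i ∧ (e 0 ≤ l ∧ p = f (e 0)))) :=
    (powProps_dle hG (TDfn.const i) (TDfn.var 0)).imp
      ((powProps_dle hG (TDfn.var 0) (TDfn.const l)).imp hb2.not)
  have key : ∀ j, i ≤ j → j ≤ l →
      ¬ ∃ p, N.le p (f i) ∧ (p ≠ f i ∧ (j ≤ l ∧ p = f j)) := by
    refine powProps_ind hG (P := fun j => i ≤ j → j ≤ l →
      ¬ ∃ p, N.le p (f i) ∧ (p ≠ f i ∧ (j ≤ l ∧ p = f j))) hdfn ?_ ?_
    · rintro h1 _ ⟨p, _, h2, _, h3⟩
      have h4 : i = 0 := le_antisymm h1 (hG.nonneg i)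
      exact h2 (by rw [h3, h4])
    · rintro j ih h1 h2 ⟨p, h3, h4, _, h5⟩
      have hjl : j ≤ l := (powProps_le_succ hG j).trans h2
      by_cases h : i = j + 1
      · exact h4 (by rw [h5, h])
      · have hij : i ≤ j := powProps_le_of_lt_succ hG h1 h
        have h6 : f i ≤ f j := by
          by_contra hc
          push Not at hc
          exact ih hij hjl ⟨f j, (hG.le_iff _ _).2 hc.le, hc.ne, hjl, rfl⟩
        have h7 : f j ≤ f (j + 1) := by
          rw [hf.succ j h2]
          exact le_mul_of_one_le_right (hG.nonneg _) hn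
        rw [hG.le_iff] at h3
        exact h4 (le_antisymm h3 (h5 ▸ h6.trans h7))
  intro j h1 h2
  by_contra hc
  push Not at hc
  exact key j h1 h2 ⟨f j, (hG.le_iff _ _).2 hc.le, hc.ne, h2, rfl⟩

theorem powProps_3 (hG : Good N) {n l : M} {f : M → M} (hn : 1 ≤ n) (hf : PowF N n l f) :
    ∀ i j, i < j → j ≤ l → ∃ g, f j = f i * n * g := by
  intro i
  have hb : Dfn N (fun e => (e 0 ≤ l ∧ e 2 = f (e 0)) ∧ e 2 = N.mul (f i * n) (e 1)) :=
    (Dfn.comp2 (P := fun i w => i ≤ l ∧ w = f i) hf.dfn (TDfn.var 0) (TDfn.var 2)).and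
      (Dfn.eq (TDfn.var 2) ((TDfn.const (f i * n)).mul (TDfn.var 1)))
  have hb2 : Dfn N (fun e => ∃ g, N.le g (f l) ∧ ∃ p, N.le p (f l) ∧
      ((e 0 ≤ l ∧ p = f (e 0)) ∧ p = N.mul (f i * n) g)) :=
    ((hb.bex 2 (TDfn.const (f l))).bex 1 (TDfn.const (f l))).congr fun _ => Iff.rfl
  have hdfn : Dfn N (fun e => i + 1 ≤ e 0 → e 0 ≤ l → ∃ g, N.le g (f l) ∧ ∃ p, N.le p (f l) ∧
      ((e 0 ≤ l ∧ p = f (e 0)) ∧ p = N.mul (f i * n) g)) :=
    (powProps_dle hG (TDfn.const (i + 1)) (TDfn.var 0)).imp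
      ((powProps_dle hG (TDfn.var 0) (TDfn.const l)).imp hb2)
  have key : ∀ j, i + 1 ≤ j → j ≤ l → ∃ g, N.le g (f l) ∧ ∃ p, N.le p (f l) ∧
      ((j ≤ l ∧ p = f j) ∧ p = N.mul (f i * n) g) := by
    refine powProps_ind hG (P := fun j => i + 1 ≤ j → j ≤ l → ∃ g, N.le g (f l) ∧
      ∃ p, N.le p (f l) ∧ ((j ≤ l ∧ p = f j) ∧ p = N.mul (f i * n) g)) hdfn ?_ ?_
    · intro h1 _
      have h2 : i < 0 := (hG.lt_iff i 0).2 h1
      exact absurd h2 (not_lt.2 (hG.nonneg i))
    · intro j ih h1 h2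
      have hjl : j ≤ l := (powProps_le_succ hG j).trans h2
      have hl1 : 1 ≤ f l := powProps_1 hG hn hf l le_rfl
      have hjl2 : f (j + 1) ≤ f l := powProps_2 hG hn hf (j + 1) l h2 le_rfl
      by_cases h : i + 1 = j + 1
      · have hij : i = j := add_right_cancel h
        refine ⟨1, (hG.le_iff _ _).2 hl1, f (j + 1), (hG.le_iff _ _).2 hjl2, ⟨h2, rfl⟩, ?_⟩
        rw [hG.mul_eq, mul_one, hf.succ j h2, hij]
      · have hij : i + 1 ≤ j := powProps_le_of_lt_succ hG h1 h
        obtain ⟨g, hg, p, hp, ⟨_, e1⟩, e2⟩ := ih hij hjl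
        have hil : i ≤ l := (powProps_le_succ hG i).trans (hij.trans hjl)
        have hc : 1 ≤ f i * n := one_le_mul_of_one_le_of_one_le (powProps_1 hG hn hf i hil) hn
        have e3 : f (j + 1) = f i * n * (g * n) := by
          rw [hf.succ j h2, ← e1, e2, hG.mul_eq, mul_assoc (f i * n) g n]
        have h5 : g * n ≤ f (j + 1) := by
          rw [e3]
          exact le_mul_of_one_le_left (hG.nonneg _) hc
        refine ⟨g * n, (hG.le_iff _ _).2 (h5.trans hjl2), f (j + 1), (hG.le_iff _ _).2 hjl2,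
          ⟨h2, rfl⟩, ?_⟩
        rw [hG.mul_eq, e3]
  intro j h1 h2
  obtain ⟨g, _, p, _, ⟨_, e1⟩, e2⟩ := key j ((hG.lt_iff i j).1 h1) h2
  exact ⟨g, by rw [← e1, e2, hG.mul_eq]⟩

end

theorem prf_PowProps : S_PowProps := by
  intro M _ _ _ N hG n l f hn hf
  exact ⟨powProps_1 hG hn hf, powProps_2 hG hn hf, powProps_3 hG hn hf⟩

end Pool.Agent.Work.MP_610017_lc

end

section

set_option autoImplicit false

namespace Pool.Agent.Work.MP_610017_lc

theorem RowDfn_H {M : Type} {N : Str M} {f g h k : (ℕ → M) → M}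
    (hf : TDfn N f) (hg : TDfn N g) (hh : TDfn N h) (hk : TDfn N k) :
    Dfn N (fun e => N.H (f e) (g e) (h e) (k e)) := by
  refine (Dfn.rel (f := ![fun _ => N.num 0, f, g, h, k]) ?_).congr ?_
  · intro j
    fin_cases j
    · exact TDfn.const _
    · exact hf
    · exact hg
    · exact hh
    · exact hk
  · intro e
    unfold Str.H
    have : (fun j => (![fun _ => N.num 0, f, g, h, k] : Fin 5 → (ℕ → M) → M) j e) =
        ![N.num 0, f e, g e, h e, k e] := by
      funext j
      fin_cases j <;> rfl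
    rw [this]

theorem RowDfn_C {M : Type} {N : Str M} {f g h : (ℕ → M) → M}
    (hf : TDfn N f) (hg : TDfn N g) (hh : TDfn N h) :
    Dfn N (fun e => N.C (f e) (g e) (h e)) := by
  refine (Dfn.rel (f := ![fun _ => N.num 2, f, g, h, fun _ => N.num 0]) ?_).congr ?_
  · intro j
    fin_cases j
    · exact TDfn.const _
    · exact hf
    · exact hg
    · exact hh
    · exact TDfn.const _
  · intro e
    unfold Str.C
    have : (fun j => (![fun _ => N.num 2, f, g, h, fun _ => N.num 0] :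
        Fin 5 → (ℕ → M) → M) j e) = ![N.num 2, f e, g e, h e, N.num 0] := by
      funext j
      fin_cases j <;> rfl
    rw [this]

theorem prf_RowDfn (hD : S_DgDfn) : S_RowDfn := by
  intro M _ _ _ N hN n k l f hn hkl hP
  have hD0 := hD M N hN n l f hn hP
  have hDg : ∀ {c x a : (ℕ → M) → M}, TDfn N c → TDfn N x → TDfn N a →
      Dfn N (fun e => x e ≤ l ∧ Dg f n (c e) (x e) (a e)) := by
    intro c x a hc hx ha
    exact Dfn.comp3 (P := fun c x a => x ≤ l ∧ Dg f n c x a) hD0 hc hx ha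
  -- the path part
  have h1 : Dfn N (fun e => RowP N f n k (e 0) (e 1)) := by
    have hb := (((Dfn.le (N := N) (TDfn.const k) (TDfn.var 2)).not.imp
      ((hDg (TDfn.var 1) (TDfn.var 2) (TDfn.var 3)).imp
        ((hDg (TDfn.var 1) (TDfn.var 2).succ (TDfn.var 4)).imp
          (RowDfn_H (TDfn.var 2) (TDfn.var 0) (TDfn.var 3) (TDfn.var 4))))).ball 4
        (TDfn.const n)).ball 3 (TDfn.const n)
    refine (hb.ball 2 (TDfn.const k)).congr ?_
    intro e
    simp only [hN.le_iff, hN.succ_eq, not_le]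
    constructor
    · intro H x hx a b ha hb
      have := H x hx.le a ha.1.le b hb.1.le
      simp at this
      exact this hx (hx.le.trans hkl) ha (((hN.lt_iff x k).1 hx).trans hkl) hb
    · intro H x hx a ha b hb
      simp
      intro h2 h3 h4 h5 h6
      exact H x h2 a b h4 h6
  -- the left end
  have h2 : Dfn N (fun e => ∀ a, Dg f n (e 1) 0 a →
      (e 0 = 0 → a = 0) ∧ (0 < e 0 → ¬ N.C 0 (e 0) a)) := by
    have hb := ((hDg (TDfn.var 1) (TDfn.const 0) (TDfn.var 2)).imp
      (((Dfn.eq (N := N) (TDfn.var 0) (TDfn.const 0)).imp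
        (Dfn.eq (N := N) (TDfn.var 2) (TDfn.const 0))).and
        ((Dfn.le (N := N) (TDfn.var 0) (TDfn.const 0)).not.imp
          (RowDfn_C (TDfn.const 0) (TDfn.var 0) (TDfn.var 2)).not)))
    refine (hb.ball 2 (TDfn.const n)).congr ?_
    intro e
    simp only [hN.le_iff, not_le]
    constructor
    · intro H a ha
      have := H a ha.1.le
      simp at this
      exact this (hN.nonneg l) ha
    · intro H a ha
      simp
      intro h3 h4
      exact H a h4
  -- the right end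
  have h3 : Dfn N (fun e => ∀ a, Dg f n (e 1) k a → N.C k (e 0) a) := by
    have hb := ((hDg (TDfn.var 1) (TDfn.const k) (TDfn.var 2)).imp
      (RowDfn_C (TDfn.const k) (TDfn.var 0) (TDfn.var 2)))
    refine (hb.ball 2 (TDfn.const n)).congr ?_
    intro e
    simp only [hN.le_iff]
    constructor
    · intro H a ha
      have := H a ha.1.le
      simp at this
      exact this hkl ha
    · intro H a ha
      simp
      intro h3 h4
      exact H a h4
  exact (h1.and (h2.and h3)).congr (fun e => Iff.rfl)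

end Pool.Agent.Work.MP_610017_lc

end

section

/-!
# MP_610017_lc, block C, item RowStart: the first row
-/

set_option autoImplicit false
set_option linter.unusedSectionVars false

namespace Pool.Agent.Work.MP_610017_lc

section

variable {M : Type} [CommSemiring M] [LinearOrder M] [IsStrictOrderedRing M] {N : Str M}

theorem RowStart_lt (hN : Good N) (x y : M) : N.lt x y ↔ x < y := by
  unfold Str.lt
  rw [hN.le_iff, lt_iff_le_and_ne]

theorem RowStart_num1 (hN : Good N) : N.num 1 = 1 := by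
  show N.succ N.zero = 1
  rw [hN.succ_eq, hN.zero_eq, zero_add]

theorem RowStart_lt_succ (hN : Good N) (x y : M) : x < y + 1 ↔ x ≤ y := by
  rw [hN.lt_iff, add_le_add_iff_right]


theorem RowStart_dsucc (hN : Good N) {g : (ℕ → M) → M} (hg : TDfn N g) :
    TDfn N (fun e => g e + 1) := by
  have h := hg.succ
  simpa only [hN.succ_eq] using h


theorem RowStart_dlt (hN : Good N) {g h : (ℕ → M) → M} (hg : TDfn N g) (hh : TDfn N h) :
    Dfn N (fun e => g e < h e) :=
  ((Dfn.le hg hh).and (Dfn.eq hg hh).not).congr fun e => by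
    rw [hN.le_iff, ← lt_iff_le_and_ne]

end

theorem RowStart_dH {M : Type} {N : Str M} {f0 f1 f2 f3 : (ℕ → M) → M} (h0 : TDfn N f0)
    (h1 : TDfn N f1) (h2 : TDfn N f2) (h3 : TDfn N f3) :
    Dfn N (fun e => N.H (f0 e) (f1 e) (f2 e) (f3 e)) := by
  refine (Dfn.rel (f := ![fun _ => N.num 0, f0, f1, f2, f3]) ?_).congr fun e => ?_
  · intro j
    fin_cases j
    · exact TDfn.const _
    · exact h0
    · exact h1
    · exact h2
    · exact h3
  · refine iff_of_eq (congrArg N.rel ?_)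
    funext j
    fin_cases j <;> rfl

theorem RowStart_dC {M : Type} {N : Str M} {f0 f1 f2 : (ℕ → M) → M} (h0 : TDfn N f0)
    (h1 : TDfn N f1) (h2 : TDfn N f2) : Dfn N (fun e => N.C (f0 e) (f1 e) (f2 e)) := by
  refine (Dfn.rel (f := ![fun _ => N.num 2, f0, f1, f2, fun _ => N.num 0]) ?_).congr fun e => ?_
  · intro j
    fin_cases j
    · exact TDfn.const _
    · exact h0
    · exact h1
    · exact h2
    · exact TDfn.const _
  · refine iff_of_eq (congrArg N.rel ?_)
    funext j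
    fin_cases j <;> rfl

section

variable {M : Type} [CommSemiring M] [LinearOrder M] [IsStrictOrderedRing M] {N : Str M}

/-- the induction claim -/
def RowStart_P (N : Str M) (f : M → M) (n k x : M) : Prop :=
  x ≤ k → ∃ c, c < f k * n ∧ (∀ x', x' < x → ∀ a b, Dg f n c x' a → Dg f n c (x' + 1) b →
    N.H x' 0 a b) ∧ Dg f n c 0 0

theorem RowStart_dfn (hN : Good N) {n k l : M} {f : M → M} (hkl : k ≤ l)
    (hD : Dfn N (fun e => e 1 ≤ l ∧ Dg f n (e 0) (e 1) (e 2))) :
    Dfn N (fun e => RowStart_P N f n k (e 0)) := by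
  have d1 : Dfn N (fun e => e 2 ≤ l ∧ Dg f n (e 1) (e 2) (e 3)) :=
    Dfn.comp3 (P := fun c x a => x ≤ l ∧ Dg f n c x a) hD (TDfn.var 1) (TDfn.var 2) (TDfn.var 3)
  have d2 : Dfn N (fun e => e 2 + 1 ≤ l ∧ Dg f n (e 1) (e 2 + 1) (e 4)) :=
    Dfn.comp3 (P := fun c x a => x ≤ l ∧ Dg f n c x a) hD (TDfn.var 1)
      (RowStart_dsucc hN (TDfn.var 2)) (TDfn.var 4)
  have d3 : Dfn N (fun e => N.H (e 2) 0 (e 3) (e 4)) :=
    RowStart_dH (TDfn.var 2) (TDfn.const 0) (TDfn.var 3) (TDfn.var 4)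
  have d4 : Dfn N (fun e => 0 ≤ l ∧ Dg f n (e 1) 0 0) :=
    Dfn.comp3 (P := fun c x a => x ≤ l ∧ Dg f n c x a) hD (TDfn.var 1) (TDfn.const 0)
      (TDfn.const 0)
  have d5 := ((d1.imp (d2.imp d3)).ball 4 (TDfn.const n)).ball 3 (TDfn.const n)
  have d6 := ((RowStart_dlt hN (TDfn.var 2) (TDfn.var 0)).imp d5).ball 2 (TDfn.var 0)
  have d7 := ((RowStart_dlt hN (TDfn.var 1) (TDfn.const (f k * n))).and (d6.and d4)).bex 1
    (TDfn.const (f k * n))
  refine ((Dfn.le (TDfn.var 0) (TDfn.const k)).imp d7).congr fun e => ?_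
  unfold RowStart_P
  rw [hN.le_iff]
  refine imp_congr_right fun hk => exists_congr fun c => ?_
  simp only [Function.update_apply, hN.le_iff]
  norm_num
  constructor
  · rintro ⟨_, h1, h2, h3, h4⟩
    refine ⟨h1, fun x' hx' a b ha hb => ?_, h4⟩
    have h5 : x' + 1 ≤ l := ((hN.lt_iff _ _).1 hx').trans (hk.trans hkl)
    have h6 : x' ≤ l := hx'.le.trans (hk.trans hkl)
    exact h2 x' hx'.le hx' a ha.1.le b hb.1.le h6 ha h5 hb
  · rintro ⟨h1, h2, h3⟩
    refine ⟨h1.le, h1, fun x' _ hx' a _ b _ _ ha _ hb => h2 x' hx' a b ha hb,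
      (hN.nonneg k).trans hkl, h3⟩

/-- the second induction claim -/
def RowStart_Q (N : Str M) (f : M → M) (n k c x : M) : Prop :=
  1 ≤ x → x ≤ k → ∀ a, Dg f n c x a → N.C x 0 a

theorem RowStart_dfn2 (hN : Good N) {n k l c : M} {f : M → M} (hkl : k ≤ l)
    (hD : Dfn N (fun e => e 1 ≤ l ∧ Dg f n (e 0) (e 1) (e 2))) :
    Dfn N (fun e => RowStart_Q N f n k c (e 0)) := by
  have d1 : Dfn N (fun e => e 0 ≤ l ∧ Dg f n c (e 0) (e 1)) :=
    Dfn.comp3 (P := fun c x a => x ≤ l ∧ Dg f n c x a) hD (TDfn.const c) (TDfn.var 0)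
      (TDfn.var 1)
  have d3 : Dfn N (fun e => N.C (e 0) 0 (e 1)) :=
    RowStart_dC (TDfn.var 0) (TDfn.const 0) (TDfn.var 1)
  have d5 := (d1.imp d3).ball 1 (TDfn.const n)
  refine ((Dfn.le (TDfn.const 1) (TDfn.var 0)).imp
    ((Dfn.le (TDfn.var 0) (TDfn.const k)).imp d5)).congr fun e => ?_
  unfold RowStart_Q
  rw [hN.le_iff, hN.le_iff]
  refine imp_congr_right fun _ => imp_congr_right fun hk => ?_
  simp only [Function.update_apply, hN.le_iff]
  norm_num
  constructor
  · intro h a ha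
    exact h a ha.1.le (hk.trans hkl) ha
  · intro h a _ _ ha
    exact h a ha

end

theorem prf_RowStart (hP : S_PowProps) (hE : S_DgEU) (hX : S_DgExt) (hD : S_DgDfn) :
    S_RowStart := by
  intro M _ _ _ N hN n k l f hH hkl hf
  have h0 : N.zero = 0 := hN.zero_eq
  -- `1 ≤ n`
  have hn : 1 ≤ n := by
    have h1 := (RowStart_lt hN _ _).1 hH.n_pos
    rw [h0, hN.lt_iff, zero_add] at h1
    exact h1
  have hn0 : 0 < n := lt_of_lt_of_le zero_lt_one hn
  obtain ⟨hp1, hp2, -⟩ := hP M N hN n l f hn hf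
  have hd := hD M N hN n l f hn hf
  have hEU := hE M N hN n l f hn hf
  have hex := hX M N hN n l f hn hf
  have hk0 : 0 < k := by
    have := hH.k_pos
    rwa [RowStart_lt hN, h0] at this
  have main : ∀ x, RowStart_P N f n k x := by
    refine Dfn.induct hN.ind (RowStart_dfn hN hkl hd) ?_ ?_
    · rw [h0]
      intro _
      refine ⟨0, ?_, fun x' hx' => absurd hx' (not_lt.2 (hN.nonneg x')), hn0, 0, 0, ?_, ?_⟩
      · exact mul_pos (lt_of_lt_of_le zero_lt_one (hp1 k hkl)) hn0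
      · rw [hf.zero]
        exact zero_lt_one
      · rw [zero_mul, zero_add, zero_mul, zero_add]
    · intro x ih
      rw [hN.succ_eq]
      intro hx
      have hxk : x < k := (hN.lt_iff _ _).2 hx
      obtain ⟨c, hc, hc2, hc3⟩ := ih hxk.le
      obtain ⟨a, ha⟩ := (hEU c x (hxk.le.trans hkl)).1
      obtain ⟨b, hb, hb2⟩ := hH.h_total x N.zero a ((RowStart_lt hN _ _).2 hxk)
        (by rw [h0, hN.le_iff]; exact hN.nonneg k) ((RowStart_lt hN _ _).2 ha.1)
      rw [RowStart_lt hN] at hb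
      rw [h0] at hb2
      obtain ⟨c', h1, h2, h3⟩ := hex c (x + 1) b (hx.trans hkl) hb
      refine ⟨c', lt_of_lt_of_le h1 (mul_le_mul_of_nonneg_right (hp2 _ _ hx hkl) hn0.le), ?_,
        (h3 0 ((RowStart_lt_succ hN _ _).2 (hN.nonneg x)) 0).2 hc3⟩
      intro x' hx' a' b' ha' hb'
      have hle := (RowStart_lt_succ hN _ _).1 hx'
      have ha'' := (h3 x' hx' a').1 ha'
      rcases lt_or_eq_of_le hle with hlt | rfl
      · have hb'' := (h3 (x' + 1) (by
          rw [RowStart_lt_succ hN, ← hN.lt_iff]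
          exact hlt) b').1 hb'
        exact hc2 x' hlt a' b' ha'' hb''
      · have e1 : a' = a := (hEU c x' (hxk.le.trans hkl)).2 a' a ha'' ha
        have e2 : b' = b := (hEU c' (x' + 1) (hx.trans hkl)).2 b' b hb' h2
        rw [e1, e2]
        exact hb2
  obtain ⟨c, hc, hc2, hc3⟩ := main k le_rfl
  refine ⟨c, hc, fun x hx a b ha hb => hc2 x hx a b ha hb, fun a ha => ⟨fun _ => ?_, fun h => ?_⟩,
    ?_⟩
  · exact (hEU c 0 ((hN.nonneg k).trans hkl)).2 a 0 ha hc3
  · exact absurd h (lt_irrefl _)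
  · have main2 : ∀ x, RowStart_Q N f n k c x := by
      refine Dfn.induct hN.ind (RowStart_dfn2 hN hkl hd) ?_ ?_
      · rw [h0]
        intro h
        exact absurd h (not_le.2 zero_lt_one)
      · intro x ih
        rw [hN.succ_eq]
        intro _ hx a ha
        have hxk : x < k := (hN.lt_iff _ _).2 hx
        rcases eq_or_lt_of_le (hN.nonneg x) with h1 | h1
        · subst h1
          have h2 := hc2 0 hxk 0 a hc3 ha
          have h3 := hH.start_h a ((RowStart_lt hN _ _).2 ha.1) (by rw [h0]; exact h2)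
          rw [RowStart_num1 hN, h0] at h3
          rw [zero_add]
          exact h3
        · obtain ⟨a', ha'⟩ := (hEU c x (hxk.le.trans hkl)).1
          have h2 := ih (by
            have := (hN.lt_iff _ _).1 h1
            rwa [zero_add] at this) hxk.le a' ha'
          have h3 := hc2 x hxk a' a ha' ha
          have h4 := hH.col_bot x a' a ((RowStart_lt hN _ _).2 (by rw [h0]; exact h1))
            ((RowStart_lt hN _ _).2 hxk) ((RowStart_lt hN _ _).2 ha'.1)
            ((RowStart_lt hN _ _).2 ha.1) (by rw [h0]; exact h3)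
          rw [h0, hN.succ_eq] at h4
          exact h4.1 h2
    intro a ha
    refine main2 k ?_ le_rfl a ha
    have := (hN.lt_iff _ _).1 hk0
    rwa [zero_add] at this

end Pool.Agent.Work.MP_610017_lc

end

section

/-!
# Item RowStep: from one row to the next
-/

set_option autoImplicit false

namespace Pool.Agent.Work.MP_610017_lc

section

variable {M : Type} [CommSemiring M] [LinearOrder M] [IsStrictOrderedRing M] {N : Str M}

theorem RowStep_lt (hG : Good N) (x y : M) : N.lt x y ↔ x < y := by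
  unfold Str.lt
  rw [hG.le_iff]
  exact lt_iff_le_and_ne.symm

theorem RowStep_pos (hG : Good N) {n k : M} (hH : Cov N n k) : 1 ≤ n := by
  have h1 := (RowStep_lt hG _ _).1 hH.n_pos
  rw [hG.zero_eq, hG.lt_iff, zero_add] at h1
  exact h1

/-- the predicate of the induction -/
def RowStepQ (N : Str M) (f : M → M) (n k l y c B x : M) : Prop :=
  N.le x k → ∃ c', N.le c' B ∧ (¬ c' = B ∧ ∀ x', N.le x' x → ∀ a, N.le a n → ∀ a', N.le a' n →
    (x' ≤ l ∧ Dg f n c x' a) → (x' ≤ l ∧ Dg f n c' x' a') → N.U x' y a a')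

omit [IsStrictOrderedRing M] in
theorem RowStep_dfn {f : M → M} {n k l y c B : M}
    (hD : Dfn N (fun e => e 1 ≤ l ∧ Dg f n (e 0) (e 1) (e 2))) :
    Dfn N (fun e => RowStepQ N f n k l y c B (e 0)) := by
  have D1 : Dfn N (fun e => e 2 ≤ l ∧ Dg f n c (e 2) (e 3)) :=
    Dfn.comp3 (P := fun c x a => x ≤ l ∧ Dg f n c x a) hD (TDfn.const c) (TDfn.var 2)
      (TDfn.var 3)
  have D2 : Dfn N (fun e => e 2 ≤ l ∧ Dg f n (e 1) (e 2) (e 4)) :=
    Dfn.comp3 (P := fun c x a => x ≤ l ∧ Dg f n c x a) hD (TDfn.var 1) (TDfn.var 2)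
      (TDfn.var 4)
  have R : Dfn N (fun e => N.U (e 2) y (e 3) (e 4)) := by
    refine (Dfn.rel (f := ![fun _ => N.num 1, fun e => e 2, fun _ => y, fun e => e 3,
      fun e => e 4]) (fun j => ?_)).congr (fun e => ?_)
    · fin_cases j
      · exact TDfn.const _
      · exact TDfn.var 2
      · exact TDfn.const _
      · exact TDfn.var 3
      · exact TDfn.var 4
    · have : (fun j => (![fun _ => N.num 1, fun e => e 2, fun _ => y, fun e => e 3,
          fun e => e 4] : Fin 5 → (ℕ → M) → M) j e) = ![N.num 1, e 2, y, e 3, e 4] := by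
        funext j
        fin_cases j <;> rfl
      rw [this]
      rfl
  have body := (D1.imp (D2.imp R))
  have b1 := ((body.ball 4 (TDfn.const n)).ball 3 (TDfn.const n)).ball 2 (TDfn.var 0)
  have b2 := (((Dfn.eq (N := N) (TDfn.var 1) (TDfn.const B)).not).and b1).bex 1 (TDfn.const B)
  have b3 := (Dfn.le (N := N) (TDfn.var 0) (TDfn.const k)).imp b2
  refine b3.congr fun e => ?_
  simp [RowStepQ, Function.update]

end

theorem prf_RowStep (hP : S_PowProps) (hE : S_DgEU) (hX : S_DgExt) (hD : S_DgDfn) :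
    S_RowStep := by
  intro M _ _ _ N hG n k l f hH hkl hf y c hy hc hrow
  have hn : 1 ≤ n := RowStep_pos hG hH
  obtain ⟨hP1, hP2, hP3⟩ := hP M N hG n l f hn hf
  have hEU := hE M N hG n l f hn hf
  have hDX := hX M N hG n l f hn hf
  have hk0 : 0 ≤ k := hG.nonneg k
  have hBle : ∀ x, x ≤ k → f x * n ≤ f k * n := fun x hx =>
    mul_le_mul_of_nonneg_right (hP2 x k hx hkl) (hG.nonneg n)
  have hltk : ∀ x y : M, N.lt x y ↔ x < y := RowStep_lt hG
  -- the main claim
  have key : ∀ x, RowStepQ N f n k l y c (f k * n) x := by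
    refine Dfn.induct hG.ind (RowStep_dfn (hD M N hG n l f hn hf)) ?_ ?_
    · intro _
      rw [hG.zero_eq]
      obtain ⟨⟨a, ha⟩, hua⟩ := hEU c 0 (hk0.trans hkl)
      obtain ⟨a', ha'1, ha'2⟩ := hH.u_total 0 y a (by rw [hG.le_iff]; exact hk0)
        ((hltk _ _).2 hy) ((hltk _ _).2 ha.1)
      obtain ⟨c', hc'1, hc'2, -⟩ := hDX 0 0 a' (hk0.trans hkl) ((hltk _ _).1 ha'1)
      have hc'3 : c' < f k * n := hc'1.trans_le (hBle 0 hk0)
      refine ⟨c', (hG.le_iff _ _).2 hc'3.le, hc'3.ne, ?_⟩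
      intro x' hx' b _ b' _ ⟨hx'l, hb⟩ ⟨_, hb'⟩
      rw [hG.le_iff] at hx'
      have hx0 : x' = 0 := le_antisymm hx' (hG.nonneg x')
      subst hx0
      rw [hua b a hb ha, (hEU c' 0 hx'l).2 b' a' hb' hc'2]
      exact ha'2
    · intro x ih hx
      rw [hG.succ_eq] at hx ⊢
      rw [hG.le_iff] at hx
      have hxk : x ≤ k := by
        have h1 : x < x + 1 := (hG.lt_iff _ _).2 le_rfl
        exact h1.le.trans hx
      obtain ⟨c', hc'1, hc'2, hc'3⟩ := ih ((hG.le_iff _ _).2 hxk)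
      obtain ⟨⟨a, ha⟩, hua⟩ := hEU c (x + 1) (hx.trans hkl)
      obtain ⟨a', ha'1, ha'2⟩ := hH.u_total (x + 1) y a (by rw [hG.le_iff]; exact hx)
        ((hltk _ _).2 hy) ((hltk _ _).2 ha.1)
      obtain ⟨c'', hc''1, hc''2, hc''3⟩ := hDX c' (x + 1) a' (hx.trans hkl)
        ((hltk _ _).1 ha'1)
      have hc''4 : c'' < f k * n := hc''1.trans_le (hBle (x + 1) hx)
      refine ⟨c'', (hG.le_iff _ _).2 hc''4.le, hc''4.ne, ?_⟩
      intro x' hx' b hbn b' hb'n ⟨hx'l, hb⟩ ⟨_, hb'⟩
      rw [hG.le_iff] at hx'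
      rcases hx'.lt_or_eq with h | h
      · have hx'x : x' ≤ x := by
          have h1 := (hG.lt_iff _ _).1 h
          exact le_of_add_le_add_right h1
        exact hc'3 x' ((hG.le_iff _ _).2 hx'x) b hbn b' hb'n ⟨hx'l, hb⟩
          ⟨hx'l, (hc''3 x' h b').1 hb'⟩
      · subst h
        rw [hua b a hb ha, (hEU c'' (x + 1) hx'l).2 b' a' hb' hc''2]
        exact ha'2
  obtain ⟨c', hc'1, hc'2, hc'3⟩ := key k ((hG.le_iff _ _).2 le_rfl)
  rw [hG.le_iff] at hc'1
  have hU : ∀ x, x ≤ k → ∀ a a', Dg f n c x a → Dg f n c' x a' → N.U x y a a' := by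
    intro x hx a a' ha ha'
    exact hc'3 x ((hG.le_iff _ _).2 hx) a ((hG.le_iff _ _).2 ha.1.le) a'
      ((hG.le_iff _ _).2 ha'.1.le) ⟨hx.trans hkl, ha⟩ ⟨hx.trans hkl, ha'⟩
  obtain ⟨hr1, hr2, hr3⟩ := hrow
  refine ⟨c', lt_of_le_of_ne hc'1 hc'2, ?_, ?_, ?_⟩
  · intro x hx a' b' ha' hb'
    have hx1 : x + 1 ≤ k := (hG.lt_iff _ _).1 hx
    obtain ⟨⟨a, ha⟩, -⟩ := hEU c x (hx.le.trans hkl)
    obtain ⟨⟨b, hb⟩, -⟩ := hEU c (x + 1) (hx1.trans hkl)
    have h1 := hr1 x hx a b ha hb
    have h2 := hU x hx.le a a' ha ha'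
    have h3 := hU (x + 1) hx1 b b' hb hb'
    have h4 := hH.comm x y a b b' a' ((hltk _ _).2 hx) ((hltk _ _).2 hy) ((hltk _ _).2 ha.1)
      ((hltk _ _).2 hb.1) ((hltk _ _).2 hb'.1) ((hltk _ _).2 ha'.1) h1 h2
      (by rw [hG.succ_eq]; exact h3)
    rw [hG.succ_eq] at h4
    exact h4
  · intro a' ha'
    obtain ⟨⟨a, ha⟩, -⟩ := hEU c 0 (hk0.trans hkl)
    have h1 := hU 0 hk0 a a' ha ha'
    have h2 := hr2 a ha
    have hy0 := hG.nonneg y
    refine ⟨fun h => ?_, fun _ => ?_⟩
    · exfalso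
      have h3 : y < y + 1 := (hG.lt_iff _ _).2 le_rfl
      rw [h] at h3
      exact absurd h3 (not_lt.2 hy0)
    · rcases hy0.eq_or_lt with h | h
      · have ha0 := h2.1 h.symm
        subst ha0
        rw [← h] at h1 ⊢
        have h3 := hH.start_u a' ((hltk _ _).2 ha'.1) (by rw [hG.zero_eq]; exact h1)
        have h4 : N.num 1 = 0 + 1 := by
          show N.succ N.zero = 0 + 1
          rw [hG.succ_eq, hG.zero_eq]
        rw [h4, hG.zero_eq] at h3
        exact h3
      · have h3 := hH.col_left y a a' ((hltk _ _).2 (by rw [hG.zero_eq]; exact h))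
          ((hltk _ _).2 hy) ((hltk _ _).2 ha.1) ((hltk _ _).2 ha'.1)
          (by rw [hG.zero_eq]; exact h1)
        rw [hG.zero_eq, hG.succ_eq] at h3
        rw [← h3]
        exact h2.2 h
  · intro a' ha'
    obtain ⟨⟨a, ha⟩, -⟩ := hEU c k hkl
    have h1 := hU k le_rfl a a' ha ha'
    have h3 := hH.col_right y a a' ((hltk _ _).2 hy) ((hltk _ _).2 ha.1) ((hltk _ _).2 ha'.1) h1
    rw [hG.succ_eq] at h3
    rw [← h3]
    exact hr3 a ha

end Pool.Agent.Work.MP_610017_lc

end

section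

/-!
# There is no good row at height `k` (MP_610017_lc)
-/

set_option autoImplicit false

namespace Pool.Agent.Work.MP_610017_lc

theorem RowTop_lt {M : Type} [CommSemiring M] [LinearOrder M] [IsStrictOrderedRing M]
    {N : Str M} (g : Good N) (x y : M) : N.lt x y ↔ x < y := by
  unfold Str.lt
  rw [g.le_iff, lt_iff_le_and_ne]

theorem RowTop_n {M : Type} [CommSemiring M] [LinearOrder M] [IsStrictOrderedRing M]
    {N : Str M} (g : Good N) {n k : M} (h : Cov N n k) : 1 ≤ n := by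
  have h1 := (RowTop_lt g _ _).1 h.n_pos
  rw [g.zero_eq, g.lt_iff, zero_add] at h1
  exact h1

theorem RowTop_C {M : Type} (N : Str M) (k : M) : Dfn N (fun e => N.C (e 0) k (e 5)) := by
  refine (Dfn.rel (f := ![fun _ => N.num 2, fun e => e 0, fun _ => k, fun e => e 5,
    fun _ => N.num 0]) ?_).congr ?_
  · intro j
    fin_cases j
    · exact TDfn.const _
    · exact TDfn.var 0
    · exact TDfn.const _
    · exact TDfn.var 5
    · exact TDfn.const _
  · intro e
    unfold Str.C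
    have : (fun j => (![fun _ => N.num 2, fun e => e 0, fun _ => k, fun e => e 5,
        fun _ => N.num 0] : Fin 5 → (ℕ → M) → M) j e) = ![N.num 2, e 0, k, e 5, N.num 0] := by
      funext j
      fin_cases j <;> rfl
    rw [this]

theorem prf_RowTop (hE : S_DgEU) (hD : S_DgDfn) : S_RowTop := by
  intro M _ _ _ N g n k l f h hkl hf c _ hR
  have hn : 1 ≤ n := RowTop_n g h
  have hk : 0 < k := by
    have := (RowTop_lt g _ _).1 h.k_pos
    rwa [g.zero_eq] at this
  obtain ⟨hR1, hR2, hR3⟩ := hR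
  have hDg : Dfn N (fun e => e 0 ≤ l ∧ Dg f n c (e 0) (e 5)) :=
    Dfn.comp3 (P := fun c x a => x ≤ l ∧ Dg f n c x a) (hD M N g n l f hn hf)
      (TDfn.const c) (TDfn.var 0) (TDfn.var 5)
  have hall := (hDg.imp (RowTop_C N k).not).ball 5 (TDfn.const n)
  have hQ : Dfn N (fun e => e 0 ≤ k → ∀ a, a ≤ n → (e 0 ≤ l ∧ Dg f n c (e 0) a) →
      ¬ N.C (e 0) k a) := by
    refine ((Dfn.le (TDfn.var 0) (TDfn.const k)).imp hall).congr (fun e => ?_)
    simp [g.le_iff]
  have key := Dfn.induct g.ind (P := fun x => x ≤ k → ∀ a, a ≤ n → (x ≤ l ∧ Dg f n c x a) →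
      ¬ N.C x k a) hQ ?_ ?_
  · obtain ⟨a, ha⟩ := (hE M N g n l f hn hf c k hkl).1
    exact key k le_rfl a ha.1.le ⟨hkl, ha⟩ (hR3 a ha)
  · rw [g.zero_eq]
    intro _ a _ ha
    exact (hR2 a ha.2).2 hk
  · intro x ih hx b _ hb hC
    rw [g.succ_eq] at hx hb hC
    have hxk : x < k := (g.lt_iff _ _).2 hx
    obtain ⟨a, ha⟩ := (hE M N g n l f hn hf c x (hxk.le.trans hkl)).1
    have hH := hR1 x hxk a b ha hb.2
    have h1 := h.col_top x a b ((RowTop_lt g _ _).2 hxk) ((RowTop_lt g _ _).2 ha.1)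
      ((RowTop_lt g _ _).2 hb.2.1) hH
    rw [g.succ_eq] at h1
    exact ih hxk.le a ha.1.le ⟨hxk.le.trans hkl, ha⟩ (h1.2 hC)

end Pool.Agent.Work.MP_610017_lc

end

section

/-!
# MP_610017_lc, item Upper: the upper side
-/

set_option autoImplicit false

namespace Pool.Agent.Work.MP_610017_lc

theorem prf_Upper (hA : S_Alg) (hF : S_PowF) (hK : S_KLe) (hG : S_UpperG) : S_Upper := by
  intro M N hD hO n k hh
  obtain ⟨i1, i2, i3, hg⟩ := hA M N hD
  have h2 : N.succ (N.succ N.zero) = 2 := by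
    rw [hg.succ_eq, hg.succ_eq, hg.zero_eq, zero_add, one_add_one_eq_two]
  have hn1 : 1 ≤ n := by
    obtain ⟨u, hu, hPu⟩ := hh.pow_total N.zero hh.k_pos.1
    have h3 := hh.pow_zero u hu hPu
    have h4 : N.num 1 = 1 := by
      show N.succ N.zero = 1
      rw [hg.succ_eq, hg.zero_eq, zero_add]
    rw [h3, h4] at hu
    exact (hg.le_iff _ _).1 hu
  have hn0 : n ≠ N.zero := by
    rw [hg.zero_eq]
    intro h
    rw [h] at hn1
    exact absurd hn1 (not_le.2 zero_lt_one)
  obtain ⟨l, u, z, hp1, hu1, hu2, hp2⟩ := hO n hn0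
  rw [h2] at hp1 hu2
  obtain ⟨f2, hf2, hfl⟩ := hF M N hg 2 l u hp1
  obtain ⟨f, hf, _⟩ := hF M N hg n l z hp2
  have hkl : k ≤ l := by
    refine hK M N hg n k l f2 hh hf2 ?_ ?_
    · rw [hfl]
      exact (hg.le_iff _ _).1 hu1
    · rw [hfl]
      intro h
      apply hu2
      rw [hg.le_iff, hg.mul_eq]
      exact h
  refine hG M N hg n k l f ⟨?_, hh.k_pos, hh.h_total, hh.u_total, hh.comm, hh.col_bot,
    hh.col_top, hh.col_left, hh.col_right, hh.start_h, hh.start_u⟩ hkl hf
  unfold Str.lt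
  rw [hg.le_iff, hg.zero_eq, ← lt_iff_le_and_ne, hg.lt_iff, zero_add]
  exact hn1

end Pool.Agent.Work.MP_610017_lc

end

section

/-!
# MP_610017_lc, block C: `UpperG`
-/

set_option autoImplicit false

namespace Pool.Agent.Work.MP_610017_lc

theorem prf_UpperG (hR : S_RowDfn) (hS : S_RowStart) (hT : S_RowStep) (hU : S_RowTop) :
    S_UpperG := by
  intro M _ _ _ N hN n k l f hyp hkl hf
  have hn : (1 : M) ≤ n := by
    have h1 := hyp.n_pos
    unfold Str.lt at h1
    rw [hN.le_iff, hN.zero_eq, ← lt_iff_le_and_ne, hN.lt_iff, zero_add] at h1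
    exact h1
  have hD1 : Dfn N (fun e => RowG N f n k (e 0) (e 1)) := hR M N hN n k l f hn hkl hf
  have hD2 : Dfn N (fun e => N.le (e 1) (f k * n)) := Dfn.le (TDfn.var 1) (TDfn.const (f k * n))
  have hD3 : Dfn N (fun e => ¬ (e 1 = f k * n)) :=
    (Dfn.eq (TDfn.var 1) (TDfn.const (f k * n))).not
  have hD4 := ((hD2.and hD3).and hD1).bex 1 (TDfn.const (N := N) (f k * n))
  have hD5 := (Dfn.le (N := N) (TDfn.var 0) (TDfn.const k)).imp hD4
  have hD : Dfn N (fun e => (fun y => y ≤ k → ∃ c, c < f k * n ∧ RowG N f n k y c) (e 0)) := by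
    refine hD5.congr (fun e => ?_)
    simp only [hN.le_iff, Function.update_self]
    refine imp_congr_right fun _ => exists_congr fun c => ?_
    have h0 : Function.update e 1 c 0 = e 0 := Function.update_of_ne (by decide) _ _
    rw [h0]
    constructor
    · rintro ⟨_, ⟨h1, h2⟩, h3⟩
      exact ⟨lt_of_le_of_ne h1 h2, h3⟩
    · rintro ⟨h1, h3⟩
      exact ⟨h1.le, ⟨h1.le, h1.ne⟩, h3⟩
  have key := Dfn.induct (P := fun y => y ≤ k → ∃ c, c < f k * n ∧ RowG N f n k y c)
    hN.ind hD (by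
      intro _
      rw [hN.zero_eq]
      exact hS M N hN n k l f hyp hkl hf) (by
      intro y ih hy
      rw [hN.succ_eq] at hy ⊢
      have hyk : y < k := (hN.lt_iff y k).2 hy
      obtain ⟨c, hc1, hc2⟩ := ih hyk.le
      exact hT M N hN n k l f hyp hkl hf y c hyk hc1 hc2)
  obtain ⟨c, hc1, hc2⟩ := key k le_rfl
  exact hU M N hN n k l f hyp hkl hf c hc1 hc2

end Pool.Agent.Work.MP_610017_lc

end
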