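import Mathlib
import Pool.Agent.Work.MP_610017_lc.StmtsA
import Pool.Agent.Work.MP_610017_lc.Bd.B01

/-! Bundle of small proof modules (one section per former module). -/

section

/-!
# A05: revealing the special sheet in the box `[0, r] ^ 2`  (MP_610017_lc, item Ball)
-/

set_option autoImplicit false

namespace Pool.Agent.Work.MP_610017_lc

/-- the facts in `F` reveal the label of the special sheet at the vertex `v` -/
def BallRev {k n : ℕ} (F : Finset (Fact k n)) (v : Vx k) : Prop :=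
  ∃ (a : Lb n) (b : Fin 4 → Lb n) (c : Bool), star v a b c ⊆ F ∧
    ∀ ω : GW k n, ω.β (crn k) 0 = 0 → (∀ f ∈ F, holds ω f) → ω.β v 0 = a

theorem Ball_mono {k n : ℕ} {F F' : Finset (Fact k n)} {v : Vx k} (h : F ⊆ F')
    (hr : BallRev F v) : BallRev F' v := by
  obtain ⟨a, b, c, hs, hw⟩ := hr
  exact ⟨a, b, c, hs.trans h, fun ω h0 hf => hw ω h0 (fun f hf' => hf f (h hf'))⟩

theorem Ball_nb {k n : ℕ} {F : Finset (Fact k n)} {u : Vx k} (d : Fin 4) (hr : BallRev F u) :
    ∃ x : Lb n, ∀ (F' : Finset (Fact k n)), F ⊆ F' → ∀ b' c',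
      BallRev (F' ∪ star (nb u d) x b' c') (nb u d) := by
  obtain ⟨a, b, c, hs, hw⟩ := hr
  refine ⟨b d, fun F' hF b' c' => ⟨b d, b', c', Finset.subset_union_right, fun ω h0 hf => ?_⟩⟩
  have h1 : ω.β u 0 = a := hw ω h0 (fun f hf' => hf f (Finset.mem_union_left _ (hF hf')))
  have hmem : Fact.edge u (nb u d) a (b d) ∈ star u a b c := by
    unfold star
    exact Finset.mem_union_left _ (Finset.mem_union_left _
      (Finset.mem_image.mpr ⟨d, Finset.mem_univ _, rfl⟩))
  have h2 : holds ω (Fact.edge u (nb u d) a (b d)) :=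
    hf _ (Finset.mem_union_left _ (hF (hs hmem)))
  have h2' : (ω.β u).symm a = (ω.β (nb u d)).symm (b d) := h2
  have h3 : (ω.β u).symm a = 0 := by rw [← h1]; simp
  rw [h3] at h2'
  rw [h2']; simp

theorem Ball_step (hG : S_Graft) {k n h : ℕ} (V : Vx k → Prop) (u : Vx k) (hu : V u) (d : Fin 4)
    (hT : ∃ T : Tree k n, HLe h T ∧ ∀ F b, Br T F b → ∀ v, V v → BallRev F v) :
    ∃ T : Tree k n, HLe (h + 1) T ∧
      ∀ F b, Br T F b → ∀ v, (V v ∨ v = nb u d) → BallRev F v := by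
  obtain ⟨Q, hQ1, hQ2⟩ := hT
  obtain ⟨T, hT1, hT2⟩ := hG k n h 1 Q
    (fun F T => ∃ x : Lb n, (∀ (F' : Finset (Fact k n)), F ⊆ F' → ∀ b' c',
      BallRev (F' ∪ star (nb u d) x b' c') (nb u d)) ∧
      T = Tree.node (nb u d) x (fun _ _ => Tree.leaf true)) hQ1 (by
        intro F r hF
        obtain ⟨x, hx⟩ := Ball_nb d (hQ2 F r hF u hu)
        refine ⟨Tree.node (nb u d) x (fun _ _ => Tree.leaf true), ?_, x, hx, rfl⟩
        intro b c
        simp [HLe])
  refine ⟨T, hT1, fun F r hF v hv => ?_⟩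
  obtain ⟨F1, r1, F2, T2, hB1, ⟨x, hx, rfl⟩, hB2, rfl⟩ := hT2 F r hF
  rcases hv with hv | rfl
  · exact Ball_mono Finset.subset_union_left (hQ2 F1 r1 hB1 v hv)
  · cases hB2 with
    | node _ _ _ b c F0 _ hc h0 =>
      cases h0
      rw [Finset.union_empty]
      exact hx F1 (Finset.Subset.refl _) b c

theorem Ball_fin_up {k : ℕ} (x : Fin (k + 1)) (h : 1 ≤ x.val) :
    ∃ y : Fin (k + 1), y.val + 1 = x.val ∧ up1 y = x := by
  refine ⟨⟨x.val - 1, by omega⟩, by simp; omega, ?_⟩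
  apply Fin.ext
  unfold up1
  have := x.isLt
  simp only
  omega

theorem Ball_claim (hG : S_Graft) (hM : S_HLeMono) (k n r : ℕ) (j : ℕ) :
    ∃ T : Tree k n, HLe (j + 1) T ∧ ∀ F b, Br T F b → ∀ v : Vx k,
      (v.1.val ≤ r ∧ v.2.val * (r + 1) + v.1.val ≤ j) → BallRev F v := by
  induction j with
  | zero =>
    refine ⟨Tree.node (crn k) 0 (fun _ _ => Tree.leaf true), ?_, ?_⟩
    · intro b c
      simp [HLe]
    · intro F b hB v hv
      have h1 : v.1.val = 0 := by omega
      have h2 : v.2.val = 0 := by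
        have : v.2.val * (r + 1) = 0 := by omega
        rcases Nat.mul_eq_zero.mp this with h | h
        · exact h
        · omega
      have hv0 : v = crn k := by
        apply Prod.ext
        · apply Fin.ext; simpa [crn] using h1
        · apply Fin.ext; simpa [crn] using h2
      subst hv0
      cases hB with
      | node _ _ _ b c F0 _ hc h0 =>
        cases h0
        rw [Finset.union_empty]
        exact ⟨0, b, c, Finset.Subset.refl _, fun ω h0 _ => h0⟩
  | succ j ih =>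
    by_cases hex : ∃ v : Vx k, v.1.val ≤ r ∧ v.2.val * (r + 1) + v.1.val = j + 1
    · obtain ⟨v0, hv1, hv2⟩ := hex
      have key : ∃ (u : Vx k) (d : Fin 4),
          (u.1.val ≤ r ∧ u.2.val * (r + 1) + u.1.val ≤ j) ∧ v0 = nb u d := by
        by_cases h0 : 1 ≤ v0.1.val
        · obtain ⟨y, hy1, hy2⟩ := Ball_fin_up v0.1 h0
          refine ⟨(y, v0.2), 0, ⟨by simp; omega, by simp; omega⟩, ?_⟩
          apply Prod.ext
          · simp [nb, hy2]
          · simp [nb]
        · have h0' : v0.1.val = 0 := by omega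
          have h2 : 1 ≤ v0.2.val := by
            by_contra hc
            have : v0.2.val = 0 := by omega
            rw [this] at hv2
            omega
          obtain ⟨y, hy1, hy2⟩ := Ball_fin_up v0.2 h2
          refine ⟨(v0.1, y), 1, ⟨by simp; omega, ?_⟩, ?_⟩
          · simp only
            rw [← hy1, h0'] at hv2
            rw [h0']
            have : (y.val + 1) * (r + 1) = y.val * (r + 1) + (r + 1) := by ring
            omega
          · apply Prod.ext
            · simp [nb]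
            · simp [nb, hy2]
      obtain ⟨u, d, hu, hd⟩ := key
      obtain ⟨T, hT1, hT2⟩ := Ball_step (n := n) hG
        (fun v : Vx k => v.1.val ≤ r ∧ v.2.val * (r + 1) + v.1.val ≤ j) u hu d ih
      refine ⟨T, hT1, fun F b hB v hv => hT2 F b hB v ?_⟩
      by_cases hj : v.2.val * (r + 1) + v.1.val ≤ j
      · exact Or.inl ⟨hv.1, hj⟩
      · right
        rw [← hd]
        have he : v.2.val * (r + 1) + v.1.val = v0.2.val * (r + 1) + v0.1.val := by omega
        have hlt1 : v.1.val < r + 1 := by omega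
        have hlt2 : v0.1.val < r + 1 := by omega
        have hmod : v.1.val = v0.1.val := by
          have h1 : (v.2.val * (r + 1) + v.1.val) % (r + 1) = v.1.val := by
            rw [Nat.mul_comm, Nat.mul_add_mod, Nat.mod_eq_of_lt hlt1]
          have h2 : (v0.2.val * (r + 1) + v0.1.val) % (r + 1) = v0.1.val := by
            rw [Nat.mul_comm, Nat.mul_add_mod, Nat.mod_eq_of_lt hlt2]
          rw [← h1, ← h2, he]
        have hdiv : v.2.val = v0.2.val := by
          have : v.2.val * (r + 1) = v0.2.val * (r + 1) := by omega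
          exact Nat.eq_of_mul_eq_mul_right (by omega) this
        exact Prod.ext (Fin.ext hmod) (Fin.ext hdiv)
    · obtain ⟨T, hT1, hT2⟩ := ih
      refine ⟨T, hM k n (j + 1) (j + 1 + 1) T (by omega) hT1, fun F b hB v hv => hT2 F b hB v ?_⟩
      refine ⟨hv.1, ?_⟩
      by_contra hc
      exact hex ⟨v, hv.1, by omega⟩

/-- A05: revealing the special sheet in the box `[0, r] ^ 2`. -/
theorem prf_Ball (hG : S_Graft) (hC : S_StarClosed) (hM : S_HLeMono) : S_Ball := by
  intro k n r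
  obtain ⟨T, hT1, hT2⟩ := Ball_claim hG hM k n r ((r + 1) ^ 2 - 1)
  have hpos : 1 ≤ (r + 1) ^ 2 := Nat.one_le_pow _ _ (by omega)
  have heq : (r + 1) ^ 2 - 1 + 1 = (r + 1) ^ 2 := by omega
  rw [heq] at hT1
  refine ⟨T, hT1, fun F b hB => ?_⟩
  intro ω h0 hF v hv1 hv2 f hval htouch hhold
  have hrev : BallRev F v := by
    refine hT2 F b hB v ⟨hv1, ?_⟩
    have h1 : v.2.val * (r + 1) ≤ r * (r + 1) := Nat.mul_le_mul_right _ hv2
    have h2 : (r + 1) ^ 2 = r * (r + 1) + (r + 1) := by ring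
    omega
  obtain ⟨a, b', c, hs, hw⟩ := hrev
  have ha : ω.β v 0 = a := hw ω h0 hF
  rw [ha] at htouch
  exact hs (hC k n ω v a b' c f (fun g hg => hF g (hs hg)) hval htouch hhold)

end Pool.Agent.Work.MP_610017_lc

end

section

/-!
# Block A, items A02: branches (MP_610017_lc)
-/

set_option autoImplicit false

namespace Pool.Agent.Work.MP_610017_lc

theorem prf_HLeMono : S_HLeMono := by
  intro k n h h' T
  induction T generalizing h h' with
  | leaf r => intro _ _; cases h' <;> trivial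
  | node v a next ih =>
    intro hh hT
    cases h with
    | zero => exact hT.elim
    | succ h =>
      cases h' with
      | zero => omega
      | succ h' => exact fun b c => ih b c h h' (by omega) (hT b c)

theorem prf_BrBasic (hS : S_StarValid) : S_BrBasic := by
  intro k n h T F r hT hB
  induction hB generalizing h with
  | leaf r => exact ⟨by simp, fun f hf => absurd hf (Finset.notMem_empty f)⟩
  | node v a next b c F r hc hB ih =>
    cases h with
    | zero => exact hT.elim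
    | succ h =>
      obtain ⟨h1, h2⟩ := ih h (hT b c)
      obtain ⟨h3, h4⟩ := hS k n v a b c
      constructor
      · have h5 := Finset.card_union_le (star v a b c) F
        omega
      · intro f hf
        rcases Finset.mem_union.1 hf with hf | hf
        · exact h4 f hf
        · exact h2 f hf

theorem BrBasic_node {k n : ℕ} {v : Vx k} {a : Lb n} {next : (Fin 4 → Lb n) → Bool → Tree k n}
    {F : Finset (Fact k n)} {r : Bool} : Br (.node v a next) F r ↔
      ∃ b c F', (bd v = true ∨ c = false) ∧ Br (next b c) F' r ∧ F = star v a b c ∪ F' := by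
  constructor
  · intro h
    cases h with
    | node _ _ _ b c F' _ hc h => exact ⟨b, c, F', hc, h, rfl⟩
  · rintro ⟨b, c, F', hc, h, rfl⟩
    exact Br.node v a next b c F' r hc h

theorem BrBasic_leaf {k n : ℕ} {F : Finset (Fact k n)} {r s : Bool} :
    Br (.leaf s) F r ↔ F = ∅ ∧ r = s := by
  constructor
  · intro h
    cases h with
    | leaf _ => exact ⟨rfl, rfl⟩
  · rintro ⟨rfl, rfl⟩
    exact Br.leaf _

theorem prf_BrFlip : S_BrFlip := by
  intro k n T
  induction T with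
  | leaf s =>
    constructor
    · intro F r
      show Br (.leaf (!s)) F r ↔ _
      rw [BrBasic_leaf, BrBasic_leaf]
      cases r <;> cases s <;> simp
    · intro h
      cases h <;> exact Iff.rfl
  | node v a next ih =>
    constructor
    · intro F r
      show Br (.node v a fun b c => (next b c).flip) F r ↔ _
      rw [BrBasic_node, BrBasic_node]
      constructor
      · rintro ⟨b, c, F', hc, h, hF⟩
        exact ⟨b, c, F', hc, ((ih b c).1 F' r).1 h, hF⟩
      · rintro ⟨b, c, F', hc, h, hF⟩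
        exact ⟨b, c, F', hc, ((ih b c).1 F' r).2 h, hF⟩
    · intro h
      cases h with
      | zero => exact Iff.rfl
      | succ h =>
        exact ⟨fun hh b c => ((ih b c).2 h).1 (hh b c), fun hh b c => ((ih b c).2 h).2 (hh b c)⟩

theorem prf_BrAnd : S_BrAnd := by
  intro k n T1 T2
  induction T1 with
  | leaf s =>
    cases s with
    | true =>
      refine ⟨fun F => ?_, fun F => ?_, fun h1 h2 _ hT2 => ?_⟩
      · constructor
        · intro h
          exact ⟨∅, F, Br.leaf _, h, (Finset.empty_union F).symm⟩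
        · rintro ⟨F1, F2, h1, h2, hF⟩
          rw [BrBasic_leaf] at h1
          rw [hF, h1.1, Finset.empty_union]
          exact h2
      · constructor
        · intro h
          exact Or.inr ⟨∅, F, Br.leaf _, h, (Finset.empty_union F).symm⟩
        · rintro (h | ⟨F1, F2, h1, h2, hF⟩)
          · rw [BrBasic_leaf] at h
            exact absurd h.2 (by simp)
          · rw [BrBasic_leaf] at h1
            rw [hF, h1.1, Finset.empty_union]
            exact h2
      · exact prf_HLeMono k n h2 (h1 + h2) T2 (by omega) hT2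
    | false =>
      refine ⟨fun F => ?_, fun F => ?_, fun h1 h2 _ _ => ?_⟩
      · constructor
        · intro h
          have h' : Br (.leaf false) F true := h
          rw [BrBasic_leaf] at h'
          exact absurd h'.2 (by simp)
        · rintro ⟨F1, F2, h1, h2, hF⟩
          rw [BrBasic_leaf] at h1
          exact absurd h1.2 (by simp)
      · constructor
        · intro h
          exact Or.inl h
        · rintro (h | ⟨F1, F2, h1, h2, hF⟩)
          · exact h
          · rw [BrBasic_leaf] at h1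
            exact absurd h1.2 (by simp)
      · show HLe (h1 + h2) (.leaf false)
        cases h1 + h2 <;> trivial
  | node v a next ih =>
    refine ⟨fun F => ?_, fun F => ?_, fun h1 h2 hT1 hT2 => ?_⟩
    · show Br (.node v a fun b c => andT (next b c) T2) F true ↔ _
      rw [BrBasic_node]
      constructor
      · rintro ⟨b, c, F', hc, h, hF⟩
        obtain ⟨F1, F2, h1, h2, hF'⟩ := ((ih b c).1 F').1 h
        exact ⟨star v a b c ∪ F1, F2, Br.node v a next b c F1 true hc h1, h2, by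
          rw [hF, hF', Finset.union_assoc]⟩
      · rintro ⟨F1, F2, h1, h2, hF⟩
        rw [BrBasic_node] at h1
        obtain ⟨b, c, F', hc, h, hF1⟩ := h1
        exact ⟨b, c, F' ∪ F2, hc, ((ih b c).1 _).2 ⟨F', F2, h, h2, rfl⟩, by
          rw [hF, hF1, Finset.union_assoc]⟩
    · show Br (.node v a fun b c => andT (next b c) T2) F false ↔ _
      rw [BrBasic_node]
      constructor
      · rintro ⟨b, c, F', hc, h, hF⟩
        rcases ((ih b c).2.1 F').1 h with h | ⟨F1, F2, h1, h2, hF'⟩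
        · exact Or.inl (by rw [hF]; exact Br.node v a next b c F' false hc h)
        · exact Or.inr ⟨star v a b c ∪ F1, F2, Br.node v a next b c F1 true hc h1, h2, by
            rw [hF, hF', Finset.union_assoc]⟩
      · rintro (h | ⟨F1, F2, h1, h2, hF⟩)
        · rw [BrBasic_node] at h
          obtain ⟨b, c, F', hc, h, hF1⟩ := h
          exact ⟨b, c, F', hc, ((ih b c).2.1 _).2 (Or.inl h), hF1⟩
        · rw [BrBasic_node] at h1
          obtain ⟨b, c, F', hc, h, hF1⟩ := h1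
          exact ⟨b, c, F' ∪ F2, hc, ((ih b c).2.1 _).2 (Or.inr ⟨F', F2, h, h2, rfl⟩), by
            rw [hF, hF1, Finset.union_assoc]⟩
    · cases h1 with
      | zero => exact hT1.elim
      | succ h1 =>
        rw [Nat.succ_add]
        exact fun b c => (ih b c).2.2 h1 h2 (hT1 b c) hT2

end Pool.Agent.Work.MP_610017_lc

end

section

/-! A11: the counting lemma. -/

set_option autoImplicit false

namespace Pool.Agent.Work.MP_610017_lc

open Classical in
/-- the set counted in A11 -/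
noncomputable def countZ (n t q : ℕ) (S : Finset (Lb n)) (𝓔 : Set (Finset (Lb n))) :
    Finset (Fin t → Lb n) :=
  (Fintype.piFinset (fun _ : Fin t => S)).filter (fun i : Fin t → Lb n =>
    (∀ E ∈ 𝓔, ∃ g, i g ∈ E) ∧
    ∃ Es : Fin q → Finset (Lb n), (∀ j, Es j ∈ 𝓔) ∧
      ∀ j j', j ≠ j' → ∀ g, ¬ (i g ∈ Es j ∧ i g ∈ Es j'))

theorem mem_countZ {n t q : ℕ} {S : Finset (Lb n)} {𝓔 : Set (Finset (Lb n))}
    {i : Fin t → Lb n} : i ∈ countZ n t q S 𝓔 ↔ (∀ g, i g ∈ S) ∧
    (∀ E ∈ 𝓔, ∃ g, i g ∈ E) ∧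
    ∃ Es : Fin q → Finset (Lb n), (∀ j, Es j ∈ 𝓔) ∧
      ∀ j j', j ≠ j' → ∀ g, ¬ (i g ∈ Es j ∧ i g ∈ Es j') := by
  classical
  unfold countZ
  rw [Finset.mem_filter, Fintype.mem_piFinset]

theorem countZ_step {n t q : ℕ} {S : Finset (Lb n)} {𝓔 : Set (Finset (Lb n))}
    {E0 : Finset (Lb n)} (h0 : E0 ∈ 𝓔) {i : Fin (t + 1) → Lb n}
    (hi : i ∈ countZ n (t + 1) (q + 1) S 𝓔) :
    ∃ g, i g ∈ E0 ∧ (fun j => i (g.succAbove j)) ∈ countZ n t q S {E | E ∈ 𝓔 ∧ i g ∉ E} := by
  rw [mem_countZ] at hi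
  obtain ⟨h1, h2, Es, h3, h4⟩ := hi
  obtain ⟨g, hg⟩ := h2 E0 h0
  refine ⟨g, hg, ?_⟩
  rw [mem_countZ]
  refine ⟨fun j => h1 _, ?_, ?_⟩
  · rintro E ⟨hE, hgE⟩
    obtain ⟨g', hg'⟩ := h2 E hE
    have hne : g' ≠ g := by
      rintro rfl
      exact hgE hg'
    obtain ⟨g'', rfl⟩ := Fin.exists_succAbove_eq hne
    exact ⟨g'', hg'⟩
  · obtain ⟨j0, hj0⟩ : ∃ j0 : Fin (q + 1), ∀ j, j ≠ j0 → i g ∉ Es j := by
      by_cases h : ∃ j0, i g ∈ Es j0
      · obtain ⟨j0, hj0⟩ := h
        exact ⟨j0, fun j hj hc => h4 j j0 hj g ⟨hc, hj0⟩⟩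
      · push Not at h
        exact ⟨0, fun j _ => h j⟩
    refine ⟨fun j => Es (j0.succAbove j), fun j => ⟨h3 _, hj0 _ (Fin.succAbove_ne j0 j)⟩, ?_⟩
    intro j j' hj g'
    exact h4 _ _ (fun h => hj (Fin.succAbove_right_injective h)) _

theorem countZ_card (n q w : ℕ) (S : Finset (Lb n)) : ∀ (t : ℕ) (𝓔 : Set (Finset (Lb n))),
    (∀ E ∈ 𝓔, E.card ≤ w) → (countZ n t q S 𝓔).card ≤ (t * w) ^ q * S.card ^ (t - q) := by
  classical
  induction q with
  | zero =>
    intro t 𝓔 _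
    refine (Finset.card_filter_le _ _).trans ?_
    rw [Fintype.card_piFinset]
    simp
  | succ q ih =>
    intro t 𝓔 h𝓔
    rcases Set.eq_empty_or_nonempty 𝓔 with rfl | ⟨E0, h0⟩
    · have : countZ n t (q + 1) S ∅ = ∅ := by
        rw [Finset.eq_empty_iff_forall_notMem]
        intro i hi
        rw [mem_countZ] at hi
        obtain ⟨_, _, Es, h3, _⟩ := hi
        exact h3 0
      rw [this, Finset.card_empty]
      exact Nat.zero_le _
    cases t with
    | zero =>
      have : countZ n 0 (q + 1) S 𝓔 = ∅ := by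
        rw [Finset.eq_empty_iff_forall_notMem]
        intro i hi
        rw [mem_countZ] at hi
        obtain ⟨g, _⟩ := hi.2.1 E0 h0
        exact g.elim0
      rw [this, Finset.card_empty]
      exact Nat.zero_le _
    | succ t =>
      have hsub : countZ n (t + 1) (q + 1) S 𝓔 ⊆
          ((Finset.univ : Finset (Fin (t + 1))) ×ˢ E0).biUnion fun p =>
            (countZ n t q S {E | E ∈ 𝓔 ∧ p.2 ∉ E}).image
              (fun i' => Fin.insertNth (α := fun _ => Lb n) p.1 p.2 i') := by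
        intro i hi
        obtain ⟨g, hg, h1⟩ := countZ_step h0 hi
        rw [Finset.mem_biUnion]
        refine ⟨(g, i g), Finset.mem_product.2 ⟨Finset.mem_univ _, hg⟩, ?_⟩
        rw [Finset.mem_image]
        refine ⟨_, h1, ?_⟩
        funext j
        by_cases hj : j = g
        · subst hj
          exact Fin.insertNth_apply_same (α := fun _ => Lb n) _ _ _
        · obtain ⟨j', rfl⟩ := Fin.exists_succAbove_eq hj
          exact Fin.insertNth_apply_succAbove (α := fun _ => Lb n) _ _ _ _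
      have h1 : ∀ p ∈ (Finset.univ : Finset (Fin (t + 1))) ×ˢ E0,
          ((countZ n t q S {E | E ∈ 𝓔 ∧ p.2 ∉ E}).image
            (fun i' => Fin.insertNth (α := fun _ => Lb n) p.1 p.2 i')).card ≤
          (t * w) ^ q * S.card ^ (t - q) := fun p _ =>
        Finset.card_image_le.trans (ih t _ fun E hE => h𝓔 E hE.1)
      calc (countZ n (t + 1) (q + 1) S 𝓔).card
          ≤ _ := Finset.card_le_card hsub
        _ ≤ ((Finset.univ : Finset (Fin (t + 1))) ×ˢ E0).card * ((t * w) ^ q * S.card ^ (t - q)) :=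
            Finset.card_biUnion_le_card_mul _ _ _ h1
        _ = (t + 1) * E0.card * ((t * w) ^ q * S.card ^ (t - q)) := by
            rw [Finset.card_product, Finset.card_univ, Fintype.card_fin]
        _ ≤ (t + 1) * w * (((t + 1) * w) ^ q * S.card ^ (t - q)) := by
            gcongr
            · exact h𝓔 E0 h0
            · exact Nat.le_succ t
        _ = ((t + 1) * w) ^ (q + 1) * S.card ^ (t + 1 - (q + 1)) := by
            rw [Nat.add_sub_add_right]
            ring

open Classical in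
theorem prf_Count : S_Count := by
  intro n t q w S 𝓔 h𝓔
  have h := countZ_card n q w S t 𝓔 h𝓔
  unfold countZ at h
  convert h

end Pool.Agent.Work.MP_610017_lc

end

section

/-!
# Block A, item Countable: there are countably many internal formulas (MP_610017_lc)
-/

set_option autoImplicit false

namespace Pool.Agent.Work.MP_610017_lc

/-- codes of terms -/
def Countable_encT {v : ℕ} : Tm v → ℕ
  | .var i => Nat.pair 0 i
  | .zero => Nat.pair 1 0
  | .succ s => Nat.pair 2 (Countable_encT s)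
  | .add s t => Nat.pair 3 (Nat.pair (Countable_encT s) (Countable_encT t))
  | .mul s t => Nat.pair 4 (Nat.pair (Countable_encT s) (Countable_encT t))

theorem Countable_injT {v : ℕ} (s t : Tm v) (h : Countable_encT s = Countable_encT t) :
    s = t := by
  induction s generalizing t with
  | var i =>
    cases t <;> simp only [Countable_encT, Nat.pair_eq_pair] at h
    case var j => rw [Fin.ext h.2]
    all_goals omega
  | zero =>
    cases t <;> simp only [Countable_encT, Nat.pair_eq_pair] at h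
    case zero => rfl
    all_goals omega
  | succ s ih =>
    cases t <;> simp only [Countable_encT, Nat.pair_eq_pair] at h
    case succ t => rw [ih t h.2]
    all_goals omega
  | add s s' ih ih' =>
    cases t <;> simp only [Countable_encT, Nat.pair_eq_pair] at h
    case add t t' => rw [ih t h.2.1, ih' t' h.2.2]
    all_goals omega
  | mul s s' ih ih' =>
    cases t <;> simp only [Countable_encT, Nat.pair_eq_pair] at h
    case mul t t' => rw [ih t h.2.1, ih' t' h.2.2]
    all_goals omega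

/-- codes of internal formulas -/
def Countable_encG : {v : ℕ} → Gm v → ℕ
  | _, .eq s t => Nat.pair 0 (Nat.pair (Countable_encT s) (Countable_encT t))
  | _, .le s t => Nat.pair 1 (Nat.pair (Countable_encT s) (Countable_encT t))
  | _, .rel s => Nat.pair 2 (Encodable.encode (fun i : Fin 5 => Countable_encT (s i)))
  | _, .neg φ => Nat.pair 3 (Countable_encG φ)
  | _, .and φ ψ => Nat.pair 4 (Nat.pair (Countable_encG φ) (Countable_encG ψ))
  | _, .bex t φ => Nat.pair 5 (Nat.pair (Countable_encT t) (Countable_encG φ))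
  | _, .ind φ => Nat.pair 6 (Countable_encG φ)

theorem Countable_injG {v : ℕ} (φ ψ : Gm v) (h : Countable_encG φ = Countable_encG ψ) :
    φ = ψ := by
  induction φ with
  | eq s t =>
    cases ψ <;> simp only [Countable_encG, Nat.pair_eq_pair] at h
    case eq s' t' => rw [Countable_injT s s' h.2.1, Countable_injT t t' h.2.2]
    all_goals omega
  | le s t =>
    cases ψ <;> simp only [Countable_encG, Nat.pair_eq_pair] at h
    case le s' t' => rw [Countable_injT s s' h.2.1, Countable_injT t t' h.2.2]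
    all_goals omega
  | rel s =>
    cases ψ <;> simp only [Countable_encG, Nat.pair_eq_pair] at h
    case rel s' =>
      have h1 := Encodable.encode_injective h.2
      have h2 : s = s' := by
        funext i
        exact Countable_injT _ _ (congrFun h1 i)
      rw [h2]
    all_goals omega
  | neg φ ih =>
    cases ψ <;> simp only [Countable_encG, Nat.pair_eq_pair] at h
    case neg ψ => rw [ih ψ h.2]
    all_goals omega
  | and φ φ' ih ih' =>
    cases ψ <;> simp only [Countable_encG, Nat.pair_eq_pair] at h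
    case and ψ ψ' => rw [ih ψ h.2.1, ih' ψ' h.2.2]
    all_goals omega
  | bex t φ ih =>
    cases ψ <;> simp only [Countable_encG, Nat.pair_eq_pair] at h
    case bex t' ψ => rw [Countable_injT t t' h.2.1, ih ψ h.2.2]
    all_goals omega
  | ind φ ih =>
    cases ψ <;> simp only [Countable_encG, Nat.pair_eq_pair] at h
    case ind ψ => rw [ih ψ h.2]
    all_goals omega

theorem prf_Countable : S_Countable := by
  have h : ∀ v : ℕ, Countable (Gm v) := fun v =>
    Function.Injective.countable (f := fun φ : Gm v => Countable_encG φ)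
      (fun φ ψ hφ => Countable_injG φ ψ hφ)
  show Countable (Σ v : ℕ, Gm v)
  infer_instance

end Pool.Agent.Work.MP_610017_lc

end

section

/-!
# A13: the undecided part of a consistent term splits into at most `w` groups
-/

set_option autoImplicit false

namespace Pool.Agent.Work.MP_610017_lc

/-- the index of the sheet of the first element of a fact -/
def Emb_ix {k n : ℕ} (ω : GW k n) : Fact k n → Lb n
  | .edge v _ a _ => (ω.β v).symm a
  | .col v a _ => (ω.β v).symm a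

/-- the first vertex of a fact -/
def Emb_fv {k n : ℕ} : Fact k n → Vx k
  | .edge v _ _ _ => v
  | .col v _ _ => v

/-- the lower level of a fact -/
def Emb_lv {k n : ℕ} : Fact k n → ℕ
  | .edge v w _ _ => min v.2.val w.2.val
  | .col _ _ _ => 0

lemma Emb_idx {k n : ℕ} {ω : GW k n} {f : Fact k n} (hf : holds ω f) {v : Vx k} {a : Lb n}
    (h : (v, a) ∈ touch f) : (ω.β v).symm a = Emb_ix ω f := by
  cases f with
  | edge v1 w1 a1 b1 =>
    simp only [touch, Finset.mem_insert, Finset.mem_singleton, Prod.mk.injEq] at h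
    rcases h with ⟨rfl, rfl⟩ | ⟨rfl, rfl⟩
    · rfl
    · exact hf.symm
  | col v1 a1 c1 =>
    simp only [touch, Finset.mem_singleton, Prod.mk.injEq] at h
    obtain ⟨rfl, rfl⟩ := h
    rfl

lemma Emb_fv_touch {k n : ℕ} (f : Fact k n) : ∃ a, (Emb_fv f, a) ∈ touch f := by
  cases f with
  | edge v1 w1 a1 b1 => exact ⟨a1, by simp [touch, Emb_fv]⟩
  | col v1 a1 c1 => exact ⟨a1, by simp [touch, Emb_fv]⟩

lemma Emb_touch_card {k n : ℕ} (f : Fact k n) : (touch f).card ≤ 2 := by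
  cases f with
  | edge v1 w1 a1 b1 => exact Finset.card_le_two
  | col v1 a1 c1 => simp [touch]

/-- An undecided true fact is on an unknown sheet. -/
lemma Emb_mem_I {k n : ℕ} {ρ : Res k n} {ω : GW k n} {π : Finset (Fact k n)} {f : Fact k n}
    (hext : Ext ρ ω.β ω.ζ) (hf : holds ω f) (hd : ¬ Dec ρ π f) : Emb_ix ω f ∈ ρ.I := by
  by_contra hi
  apply hd
  refine Or.inr ?_
  cases f with
  | edge v w a b =>
    change (ω.β v).symm a ∉ ρ.I at hi
    refine ⟨(ω.β v).symm a, hi, ?_, ?_⟩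
    · rw [← hext.beta v _ hi, Equiv.apply_symm_apply]
    · rw [← hext.beta w _ hi]
      have h : (ω.β v).symm a = (ω.β w).symm b := hf
      rw [h, Equiv.apply_symm_apply]
  | col v a c =>
    change (ω.β v).symm a ∉ ρ.I at hi
    refine ⟨(ω.β v).symm a, hi, ?_, ?_⟩
    · rw [← hext.beta v _ hi, Equiv.apply_symm_apply]
    · have h0 : (ω.β v).symm a ≠ 0 := by
        intro h0
        apply hi
        rw [h0]
        exact ρ.zero_mem
      have h : (if (ω.β v).symm a = 0 then ω.χ v = some c else ω.ζ ((ω.β v).symm a) = c) := hf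
      rw [if_neg h0] at h
      rw [← hext.zeta _ hi]
      exact h

/-- An enumeration of a small finite set. -/
lemma Emb_enum {α : Type} (K : Finset α) (w : ℕ) (h : K.card ≤ w) :
    ∃ s : Fin w → Option α, (∀ g g' κ, s g = some κ → s g' = some κ → g = g') ∧
      ∀ κ ∈ K, ∃ g, s g = some κ := by
  classical
  obtain ⟨e⟩ : Nonempty (K ↪ Fin w) :=
    Function.Embedding.nonempty_of_card_le (by simpa using h)
  refine ⟨fun g => if h : ∃ κ : K, e κ = g then some (h.choose : α) else none, ?_, ?_⟩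
  · intro g g' κ h1 h2
    by_cases hg : ∃ κ : K, e κ = g
    · by_cases hg' : ∃ κ : K, e κ = g'
      · simp only [dif_pos hg, Option.some.injEq] at h1
        simp only [dif_pos hg', Option.some.injEq] at h2
        have h3 : hg.choose = hg'.choose := Subtype.ext (h1.trans h2.symm)
        rw [← hg.choose_spec, ← hg'.choose_spec, h3]
      · simp only [dif_neg hg', reduceCtorEq] at h2
    · simp only [dif_neg hg, reduceCtorEq] at h1
  · intro κ hκ
    have hg : ∃ κ' : K, e κ' = e ⟨κ, hκ⟩ := ⟨⟨κ, hκ⟩, rfl⟩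
    refine ⟨e ⟨κ, hκ⟩, ?_⟩
    simp only [dif_pos hg, Option.some.injEq]
    have h3 : hg.choose = ⟨κ, hκ⟩ := e.injective hg.choose_spec
    rw [h3]

theorem prf_Emb (hL : S_NbLevel) : S_Emb := by
  classical
  intro k n w r ρ π F hval hFw hwr hSB hcon
  obtain ⟨η, hext, hχ, hold⟩ := hcon
  have hπ : ∀ f ∈ π, holds η f := fun f hf => hold f (Finset.mem_union_left _ hf)
  have hF : ∀ f ∈ F, holds η f := fun f hf => hold f (Finset.mem_union_right _ hf)
  set U := F.filter (fun f => ¬ Dec ρ π f) with hU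
  have hUF : ∀ f ∈ U, f ∈ F := fun f hf => (Finset.mem_filter.1 hf).1
  have hUD : ∀ f ∈ U, ¬ Dec ρ π f := fun f hf => (Finset.mem_filter.1 hf).2
  have hUh : ∀ f ∈ U, holds η f := fun f hf => hF f (hUF f hf)
  have hUcard : U.card ≤ w := (Finset.card_filter_le _ _).trans hFw
  -- (1)
  have s1 : ∀ f ∈ U, Emb_ix η f ∈ ρ.I := fun f hf => Emb_mem_I hext (hUh f hf) (hUD f hf)
  -- (2)
  have s2 : ∀ f ∈ U, Emb_ix η f = 0 → ∀ v a, (v, a) ∈ touch f →
      ¬ (v.1.val ≤ r ∧ v.2.val ≤ r) := by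
    intro f hf h0 v a hva hle
    have h1 : (η.β v).symm a = 0 := (Emb_idx (hUh f hf) hva).trans h0
    have h2 : a = η.β v 0 := by rw [← h1, Equiv.apply_symm_apply]
    have h3 := hSB η hext.corner hπ v hle.1 hle.2 f (hval f (hUF f hf)) (h2 ▸ hva) (hUh f hf)
    exact hUD f hf (Or.inl h3)
  -- (3)
  obtain ⟨j, hjr, hj⟩ : ∃ j, j ≤ r ∧ j ∉ U.image Emb_lv := by
    by_contra hcon
    push Not at hcon
    have h1 : Finset.range (r + 1) ⊆ U.image Emb_lv := fun j hj =>
      hcon j (Nat.lt_succ_iff.1 (Finset.mem_range.1 hj))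
    have h2 := (Finset.card_le_card h1).trans Finset.card_image_le
    rw [Finset.card_range] at h2
    omega
  have s3 : ∀ f ∈ U, ∀ v a, (v, a) ∈ touch f → (v.2.val ≤ j ↔ (Emb_fv f).2.val ≤ j) := by
    intro f hf v a hva
    cases f with
    | edge v1 w1 a1 b1 =>
      obtain ⟨d, hd⟩ := hval _ (hUF _ hf)
      have h1 := (hL k v1 d).1
      rw [← hd] at h1
      have h2 : min v1.2.val w1.2.val ≠ j := fun h =>
        hj (Finset.mem_image.2 ⟨_, hf, h⟩)
      simp only [touch, Finset.mem_insert, Finset.mem_singleton, Prod.mk.injEq] at hva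
      rcases hva with ⟨rfl, rfl⟩ | ⟨rfl, rfl⟩
      · exact Iff.rfl
      · simp only [Emb_fv]
        omega
    | col v1 a1 c1 =>
      simp only [touch, Finset.mem_singleton, Prod.mk.injEq] at hva
      obtain ⟨rfl, rfl⟩ := hva
      exact Iff.rfl
  -- keys and groups
  set key : Fact k n → Lb n × Bool := fun f =>
    (Emb_ix η f, decide (Emb_ix η f = 0 ∧ (Emb_fv f).2.val ≤ j)) with hkey
  obtain ⟨s, hs1, hs2⟩ := Emb_enum (U.image key) w (Finset.card_image_le.trans hUcard)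
  set Gk : Lb n × Bool → Grp k n := fun κ =>
    ⟨(U.filter (fun f => key f = κ)).biUnion (fun f => (touch f).image Prod.fst),
      fun v => η.β v κ.1, if κ.1 = 0 then κ.2 else η.ζ κ.1⟩ with hGk
  have hsupp : ∀ κ v, v ∈ (Gk κ).supp → ∃ f ∈ U, key f = κ ∧ (v, η.β v κ.1) ∈ touch f := by
    intro κ v hv
    simp only [hGk, Finset.mem_biUnion, Finset.mem_filter, Finset.mem_image] at hv
    obtain ⟨f, ⟨hf, hfκ⟩, ⟨v', a⟩, hva, rfl⟩ := hv
    refine ⟨f, hf, hfκ, ?_⟩
    have h1 : (η.β v').symm a = κ.1 := by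
      rw [Emb_idx (hUh f hf) hva, ← hfκ]
    rw [← h1, Equiv.apply_symm_apply]
    exact hva
  have hsupp2 : ∀ f ∈ U, ∀ v a, (v, a) ∈ touch f → v ∈ (Gk (key f)).supp := by
    intro f hf v a hva
    simp only [hGk, Finset.mem_biUnion, Finset.mem_filter, Finset.mem_image]
    exact ⟨f, ⟨hf, rfl⟩, (v, a), hva, rfl⟩
  have hpv : ∀ f ∈ U, ∀ v a, (v, a) ∈ touch f → η.β v (Emb_ix η f) = a := by
    intro f hf v a hva
    rw [← Emb_idx (hUh f hf) hva, Equiv.apply_symm_apply]
  set G : Fin w → Grp k n := fun g => (s g).elim ⟨∅, fun _ => 0, false⟩ Gk with hG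
  have hGs : ∀ g κ, s g = some κ → G g = Gk κ := by
    intro g κ h
    simp only [hG, h, Option.elim]
  have hGn : ∀ g, s g = none → (G g).supp = ∅ := by
    intro g h
    simp only [hG, h, Option.elim]
  have hcase : ∀ g v, v ∈ (G g).supp → ∃ κ, s g = some κ ∧ G g = Gk κ ∧ v ∈ (Gk κ).supp := by
    intro g v hv
    cases h : s g with
    | none =>
      rw [hGn g h] at hv
      exact absurd hv (Finset.notMem_empty v)
    | some κ => exact ⟨κ, rfl, hGs g κ h, by rw [← hGs g κ h]; exact hv⟩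
  refine ⟨G, ?_, ?_, ?_, ?_, ?_, ?_⟩
  · -- size
    intro g
    cases h : s g with
    | none => rw [hGn g h]; simp
    | some κ =>
      rw [hGs g κ h]
      calc (Gk κ).supp.card ≤ ∑ f ∈ U.filter (fun f => key f = κ),
            ((touch f).image Prod.fst).card := Finset.card_biUnion_le
        _ ≤ ∑ f ∈ U.filter (fun f => key f = κ), 2 := Finset.sum_le_sum fun f _ =>
            Finset.card_image_le.trans (Emb_touch_card f)
        _ = (U.filter (fun f => key f = κ)).card * 2 := by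
            rw [Finset.sum_const, smul_eq_mul]
        _ ≤ U.card * 2 := Nat.mul_le_mul_right 2 (Finset.card_filter_le _ _)
        _ ≤ 2 * w := by omega
  · -- unknown sheets
    intro g v hv
    obtain ⟨κ, -, hgκ, hv⟩ := hcase g v hv
    obtain ⟨f, hf, hfκ, -⟩ := hsupp κ v hv
    rw [hgκ]
    have hi : κ.1 ∈ ρ.I := by
      rw [← hfκ]
      exact s1 f hf
    by_contra hn
    have h1 := hext.beta v _ hn
    change η.β v ((ρ.β v).symm (η.β v κ.1)) = ρ.β v ((ρ.β v).symm (η.β v κ.1)) at h1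
    rw [Equiv.apply_symm_apply] at h1
    have h2 := (η.β v).injective h1
    apply hn
    change (ρ.β v).symm (η.β v κ.1) ∈ ρ.I
    rw [h2]
    exact hi
  · -- corner
    intro g hv
    obtain ⟨κ, -, hgκ, hv⟩ := hcase g _ hv
    obtain ⟨f, hf, hfκ, hvf⟩ := hsupp κ _ hv
    rw [hgκ]
    intro h0
    change η.β (crn k) κ.1 = 0 at h0
    have h1 : κ.1 = 0 := (η.β (crn k)).injective (h0.trans hext.corner.symm)
    have h2 : Emb_ix η f = 0 := by
      rw [← h1, ← hfκ]
    exact s2 f hf h2 _ _ hvf ⟨Nat.zero_le _, Nat.zero_le _⟩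
  · -- disjointness
    intro g g' hgg' v hv hv'
    obtain ⟨κ, hsκ, hgκ, hv⟩ := hcase g v hv
    obtain ⟨κ', hsκ', hgκ', hv'⟩ := hcase g' v hv'
    obtain ⟨f, hf, hfκ, hvf⟩ := hsupp κ v hv
    obtain ⟨f', hf', hfκ', hvf'⟩ := hsupp κ' v hv'
    rw [hgκ, hgκ']
    intro he
    have h1 : κ.1 = κ'.1 := (η.β v).injective he
    have hne : κ ≠ κ' := by
      intro h
      rw [← h] at hsκ'
      exact hgg' (hs1 g g' κ hsκ hsκ')
    have h2 := s3 f hf v _ hvf
    have h3 := s3 f' hf' v _ hvf'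
    apply hne
    refine Prod.ext h1 ?_
    rw [← hfκ, ← hfκ'] at h1 ⊢
    simp only [hkey] at h1 ⊢
    rw [h1]
    exact decide_eq_decide.2 ⟨fun h => ⟨h.1, h3.1 (h2.2 h.2)⟩, fun h => ⟨h.1, h2.1 (h3.2 h.2)⟩⟩
  · -- carries
    intro f hf hfd
    have hfU : f ∈ U := Finset.mem_filter.2 ⟨hf, hfd⟩
    obtain ⟨g, hg⟩ := hs2 (key f) (Finset.mem_image_of_mem key hfU)
    refine ⟨g, ?_⟩
    rw [hGs g _ hg]
    have hm := hsupp2 f hfU
    have hp := hpv f hfU
    have hh := hUh f hfU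
    have h2 := s2 f hfU
    cases f with
    | edge v w a b =>
      exact ⟨hm v a (by simp [touch]), hm w b (by simp [touch]),
        hp v a (by simp [touch]), hp w b (by simp [touch])⟩
    | col v a c =>
      refine ⟨hm v a (by simp [touch]), hp v a (by simp [touch]), ?_⟩
      have h3 : (if (η.β v).symm a = 0 then η.χ v = some c else
        η.ζ ((η.β v).symm a) = c) := hh
      simp only [hGk, hkey, Emb_ix, Emb_fv]
      by_cases h0 : (η.β v).symm a = 0
      · rw [if_pos h0] at h3 ⊢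
        have h4 := h2 h0 v a (by simp [touch])
        rw [hχ] at h3
        simp only [spec] at h3
        split_ifs at h3 with h5 h6
        · rw [Option.some.injEq] at h3
          rw [← h3]
          exact decide_eq_true ⟨h0, by omega⟩
        · rw [Option.some.injEq] at h3
          rw [← h3]
          exact decide_eq_false (fun h => h4 ⟨by omega, by omega⟩)
      · rw [if_neg h0] at h3 ⊢
        exact h3
  · -- last property
    intro g v hv
    obtain ⟨κ, -, hgκ, hv⟩ := hcase g v hv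
    obtain ⟨f, hf, -, hvf⟩ := hsupp κ v hv
    rw [hgκ]
    exact ⟨f, hUF f hf, hUD f hf, hvf⟩

end Pool.Agent.Work.MP_610017_lc

end

section

/-!
# Items Ev and BrUnique: evaluation of trees in a covering (MP_610017_lc)
-/

set_option autoImplicit false

namespace Pool.Agent.Work.MP_610017_lc

theorem Ev_star {k n : ℕ} (v : Vx k) (a : Lb n) (b : Fin 4 → Lb n) (c : Bool) (f : Fact k n) :
    f ∈ star v a b c ↔ (∃ d, Fact.edge v (nb v d) a (b d) = f) ∨
      (∃ d, Fact.edge (nb v d) v (b d) a = f) ∨ (bd v = true ∧ f = Fact.col v a c) := by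
  unfold star
  rw [Finset.mem_union, Finset.mem_union, or_assoc]
  refine or_congr ?_ (or_congr ?_ ?_)
  · simp
  · simp
  · by_cases h : bd v = true
    · simp [h]
    · simp [h]

theorem prf_Ev : S_Ev := by
  intro k n ω T
  refine ⟨?_, ?_, ?_⟩
  · induction T with
    | leaf r => exact Br.leaf r
    | node v a next ih =>
      refine Br.node v a next _ _ _ _ ?_ (ih _ _)
      by_cases h : bd v = true
      · exact Or.inl h
      · right
        simp [h]
  · intro hχ
    induction T with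
    | leaf r =>
      intro f hf
      exact absurd hf (Finset.notMem_empty f)
    | node v a next ih =>
      intro f hf
      rcases Finset.mem_union.1 hf with hf | hf
      · rcases (Ev_star _ _ _ _ _).1 hf with ⟨d, rfl⟩ | ⟨d, rfl⟩ | ⟨hb, rfl⟩
        · change (ω.β v).symm a = (ω.β (nb v d)).symm (ω.β (nb v d) ((ω.β v).symm a))
          rw [Equiv.symm_apply_apply]
        · change (ω.β (nb v d)).symm (ω.β (nb v d) ((ω.β v).symm a)) = (ω.β v).symm a
          rw [Equiv.symm_apply_apply]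
        · obtain ⟨x, hx⟩ := Option.isSome_iff_exists.1 (hχ v hb)
          change if (ω.β v).symm a = 0 then
            ω.χ v = some (bd v && (if (ω.β v).symm a = 0 then (ω.χ v).getD false
              else ω.ζ ((ω.β v).symm a)))
            else ω.ζ ((ω.β v).symm a) = (bd v && (if (ω.β v).symm a = 0 then (ω.χ v).getD false
              else ω.ζ ((ω.β v).symm a)))
          rw [hb, hx]
          by_cases h0 : (ω.β v).symm a = 0
          · rw [if_pos h0, if_pos h0]
            rfl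
          · rw [if_neg h0, if_neg h0]
            rfl
      · exact ih _ _ f hf
  · intro F r hF
    induction hF with
    | leaf r => exact fun _ => ⟨rfl, rfl⟩
    | node v a next b c F r hc h ih =>
      intro hh
      have h1 : ∀ f ∈ star v a b c, holds ω f := fun f hf => hh f (Finset.mem_union_left _ hf)
      have h2 := ih fun f hf => hh f (Finset.mem_union_right _ hf)
      have hb : b = fun d => ω.β (nb v d) ((ω.β v).symm a) := by
        funext d
        have h3 : (ω.β v).symm a = (ω.β (nb v d)).symm (b d) :=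
          h1 (Fact.edge v (nb v d) a (b d)) ((Ev_star _ _ _ _ _).2 (Or.inl ⟨d, rfl⟩))
        rw [h3, Equiv.apply_symm_apply]
      have hcc : c = (bd v && (if (ω.β v).symm a = 0 then (ω.χ v).getD false
          else ω.ζ ((ω.β v).symm a))) := by
        by_cases hv : bd v = true
        · have h3 : if (ω.β v).symm a = 0 then ω.χ v = some c else ω.ζ ((ω.β v).symm a) = c :=
            h1 (Fact.col v a c) ((Ev_star _ _ _ _ _).2 (Or.inr (Or.inr ⟨hv, rfl⟩)))
          rw [hv, Bool.true_and]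
          by_cases h0 : (ω.β v).symm a = 0
          · rw [if_pos h0] at h3 ⊢
            rw [h3]
            rfl
          · rw [if_neg h0] at h3 ⊢
            exact h3.symm
        · have hv' : bd v = false := by simpa using hv
          rcases hc with hc | hc
          · exact absurd hc hv
          · rw [hv', Bool.false_and]
            exact hc
      subst hb
      subst hcc
      refine ⟨?_, h2.2⟩
      rw [h2.1]
      rfl

theorem prf_BrUnique : S_BrUnique := by
  intro k n ω T F F' r r' h h' hF hF'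
  have h1 := (prf_Ev k n ω T).2.2 F r h hF
  have h2 := (prf_Ev k n ω T).2.2 F' r' h' hF'
  exact ⟨h1.1.trans h2.1.symm, h1.2.trans h2.2.symm⟩

end Pool.Agent.Work.MP_610017_lc

end

section

/-!
# MP_610017_lc, block A, item Exist
-/

set_option autoImplicit false

namespace Pool.Agent.Work.MP_610017_lc

theorem Exist_refl {k n : ℕ} (ρ : Res k n) : ρ.Le ρ :=
  ⟨Finset.Subset.refl _, ⟨fun _ _ _ => rfl, fun _ _ => rfl, ρ.corner⟩⟩

theorem Exist_pow {m m1 A2 : ℕ} (h : m1 ≤ m) (hm : 1 ≤ m) (hA : 1 ≤ A2) : m1 ≤ m ^ A2 :=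
  h.trans (by
    calc m = m ^ 1 := (pow_one m).symm
      _ ≤ m ^ A2 := Nat.pow_le_pow_right hm hA)

/-- The statement for one formula. -/
def ExistP {v : ℕ} (φ : Gm v) : Prop :=
  ∀ (J B : ℕ), ∃ h A m0 : ℕ, 1 ≤ A ∧
  ∀ (k n m : ℕ) (ρ : Res k n), m0 ≤ m → (k + 1) ^ 2 ≤ m → ρ.I.card = m ^ A →
    n + 1 ≤ (m ^ A) ^ B → ∃ ρ' : Res k n, ρ'.Le ρ ∧ ρ'.I.card = m ∧
      ∀ e : Fin v → ℕ, (∀ j, e j ≤ (n + 1) ^ J) → ∃ T, Rep ρ' h φ e T

theorem Exist_core (hO : S_OR) (hR : S_ResMono) (hRM : S_RepMono) (hH : S_RepHLe) (hT : S_TmBound)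
    (hM : S_HLeMono) {u v : ℕ} (t : Tm u) (rr : (Fin u → ℕ) → Fin v → ℕ)
    (hrr : ∀ e j, ∃ i, rr e j = e i) (φ : Gm (v + 1)) (ih : ExistP φ) (J B : ℕ) (W : ℕ → ℕ)
    (Ψ : ∀ k n : ℕ, (ℕ → Tree k n) → ℕ → Tree k n)
    (hΨ : ∀ (k n h1 M : ℕ) (Tx : ℕ → Tree k n), (∀ x, x ≤ M + 1 → HLe h1 (Tx x)) →
      ∀ x, x ≤ M → HLe (W h1) (Ψ k n Tx x)) :
    ∃ h A m0 : ℕ, 1 ≤ A ∧ ∀ (k n m : ℕ) (ρ : Res k n), m0 ≤ m → (k + 1) ^ 2 ≤ m →
      ρ.I.card = m ^ A → n + 1 ≤ (m ^ A) ^ B → ∃ ρ' : Res k n, ρ'.Le ρ ∧ ρ'.I.card = m ∧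
      ∀ e : Fin u → ℕ, (∀ j, e j ≤ (n + 1) ^ J) → ∃ Tx T,
        (∀ x, x ≤ t.val stdN e + 1 → Rep ρ' h φ (Fin.cons x (rr e)) (Tx x)) ∧
        OrRep ρ' h (t.val stdN e) (Ψ k n Tx) T ∧ HLe h T := by
  obtain ⟨J1, hJ1⟩ := hT u t J
  obtain ⟨h1, A1, m1, hA1, H1⟩ := ih (max J (J1 + 1)) B
  obtain ⟨h2, A2, m2, hA2, H2⟩ := hO (W h1) (A1 * B * ((J + 1) * u + 1))
  refine ⟨max h1 h2, A2 * A1, max (max m1 m2) 2, Nat.mul_pos hA2 hA1, ?_⟩
  intro k n m ρ hm hk hcard hn
  have hm1 : m1 ≤ m := le_trans (le_max_left _ _) (le_trans (le_max_left _ _) hm)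
  have hm2 : m2 ≤ m := le_trans (le_max_right _ _) (le_trans (le_max_left _ _) hm)
  have hm3 : 2 ≤ m := le_trans (le_max_right _ _) hm
  have hmA : 1 ≤ m ^ A2 := Exist_pow (by omega) (by omega) hA2
  -- `n + 1 ≥ 2`
  have hn2 : 2 ≤ n + 1 := by
    have e1 : ρ.I.card ≤ n + 1 := by
      have := Finset.card_le_univ ρ.I
      rwa [Fintype.card_fin] at this
    have e2 : 2 ≤ m ^ (A2 * A1) := Exist_pow hm3 (by omega) (Nat.mul_pos hA2 hA1)
    omega
  obtain ⟨ρ1, hρ1, hρ1c, hρ1T⟩ := H1 k n (m ^ A2) ρ (Exist_pow hm1 (by omega) hA2)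
    (Exist_pow hk (by omega) hA2) (by rw [hcard, pow_mul]) (by rw [pow_mul] at hn; exact hn)
  -- the family of trees
  have hTz : ∀ (e : Fin u → ℕ) (x : ℕ), ∃ T : Tree k n, (∀ j, e j ≤ (n + 1) ^ J) →
      x ≤ (n + 1) ^ (J1 + 1) → Rep ρ1 h1 φ (Fin.cons x (rr e)) T := by
    intro e x
    by_cases hc : (∀ j, e j ≤ (n + 1) ^ J) ∧ x ≤ (n + 1) ^ (J1 + 1)
    · obtain ⟨T, hT'⟩ := hρ1T (Fin.cons x (rr e)) (by
        intro j
        refine Fin.cases ?_ ?_ j
        · rw [Fin.cons_zero]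
          exact hc.2.trans (Nat.pow_le_pow_right (by omega) (le_max_right _ _))
        · intro i
          rw [Fin.cons_succ]
          obtain ⟨i', hi'⟩ := hrr e i
          rw [hi']
          exact (hc.1 i').trans (Nat.pow_le_pow_right (by omega) (le_max_left _ _)))
      exact ⟨T, fun _ _ => hT'⟩
    · exact ⟨.leaf false, fun h3 h4 => absurd ⟨h3, h4⟩ hc⟩
  choose Tz hTz using hTz
  have hn' : n + 1 ≤ (m ^ A2) ^ (A1 * B) := by
    rw [pow_mul (m ^ A2), ← pow_mul m]; exact hn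
  have hMb : ∀ e : Fin u → ℕ, (∀ j, e j ≤ (n + 1) ^ J) →
      ∀ x, x ≤ t.val stdN e + 1 → x ≤ (n + 1) ^ (J1 + 1) := by
    intro e he x hx
    have h3 := hJ1 (n + 1) e hn2 he
    have h4 : 1 ≤ (n + 1) ^ J1 := Nat.one_le_pow _ _ (by omega)
    calc x ≤ (n + 1) ^ J1 + 1 := by omega
      _ ≤ (n + 1) ^ J1 * 2 := by omega
      _ ≤ (n + 1) ^ J1 * (n + 1) := Nat.mul_le_mul_left _ hn2
      _ = (n + 1) ^ (J1 + 1) := (pow_succ _ _).symm
  have hcardι : Fintype.card (Fin u → Fin ((n + 1) ^ J + 1)) ≤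
      (m ^ A2) ^ (A1 * B * ((J + 1) * u + 1)) := by
    rw [Fintype.card_fun, Fintype.card_fin, Fintype.card_fin]
    have h4 : 1 ≤ (n + 1) ^ J := Nat.one_le_pow _ _ (by omega)
    have h5 : (n + 1) ^ J + 1 ≤ (n + 1) ^ (J + 1) := by
      calc (n + 1) ^ J + 1 ≤ (n + 1) ^ J * 2 := by omega
        _ ≤ (n + 1) ^ J * (n + 1) := Nat.mul_le_mul_left _ hn2
        _ = (n + 1) ^ (J + 1) := (pow_succ _ _).symm
    calc ((n + 1) ^ J + 1) ^ u ≤ ((n + 1) ^ (J + 1)) ^ u := Nat.pow_le_pow_left h5 u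
      _ = (n + 1) ^ ((J + 1) * u) := (pow_mul _ _ _).symm
      _ ≤ ((m ^ A2) ^ (A1 * B)) ^ ((J + 1) * u) := Nat.pow_le_pow_left hn' _
      _ = (m ^ A2) ^ (A1 * B * ((J + 1) * u)) := (pow_mul _ _ _).symm
      _ ≤ (m ^ A2) ^ (A1 * B * ((J + 1) * u + 1)) :=
        Nat.pow_le_pow_right hmA (Nat.mul_le_mul_left _ (by omega))
  obtain ⟨ρ', hρ', hρ'c, hρ'T⟩ := H2 k n m ρ1 (Fin u → Fin ((n + 1) ^ J + 1))
    (fun i => t.val stdN (fun j => (i j).val))
    (fun i => Ψ k n (Tz (fun j => (i j).val))) hm2 hk hρ1c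
    (hn'.trans (Nat.pow_le_pow_right hmA (by
      calc A1 * B = A1 * B * 1 := (Nat.mul_one _).symm
        _ ≤ A1 * B * ((J + 1) * u + 1) := Nat.mul_le_mul_left _ (by omega)))) hcardι (by
      intro i x hx
      have hib : ∀ j, (i j).val ≤ (n + 1) ^ J := fun j => by have := (i j).2; omega
      exact hΨ k n h1 _ _ (fun y hy => hH k n ρ1 h1 _ φ _ _
        (hTz _ y hib (hMb _ hib y hy))) x hx)
  refine ⟨ρ', ((hR k n ρ1 ρ hρ1).2.2.2.1) ρ' hρ', hρ'c, ?_⟩
  intro e he
  obtain ⟨T, hT'⟩ := hρ'T (fun j => ⟨e j, by have := he j; omega⟩)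
  have hT'' : OrRep ρ' h2 (t.val stdN e) (Ψ k n (Tz e)) T := hT'
  have hHT : HLe (max h1 h2) T := hM k n h2 _ T (le_max_right _ _) hT''.1
  exact ⟨Tz e, T, fun x hx => hRM k n ρ' ρ1 h1 _ _ φ _ _ hρ' (le_max_left _ _)
    (hTz e x he (hMb e he x hx)), ⟨hHT, hT''.2⟩, hHT⟩

theorem Exist_all (hO : S_OR) (hR : S_ResMono) (hRM : S_RepMono) (hH : S_RepHLe) (hT : S_TmBound)
    (hM : S_HLeMono) (hF : S_BrFlip) (hA : S_BrAnd) {v : ℕ} (φ : Gm v) : ExistP φ := by
  induction φ with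
  | eq s t =>
    intro J B
    refine ⟨0, 1, 0, le_rfl, ?_⟩
    intro k n m ρ _ _ hc _
    exact ⟨ρ, Exist_refl ρ, by rw [hc, pow_one], fun e _ => ⟨_, rfl⟩⟩
  | le s t =>
    intro J B
    refine ⟨0, 1, 0, le_rfl, ?_⟩
    intro k n m ρ _ _ hc _
    exact ⟨ρ, Exist_refl ρ, by rw [hc, pow_one], fun e _ => ⟨_, rfl⟩⟩
  | rel s =>
    intro J B
    refine ⟨1, 1, 0, le_rfl, ?_⟩
    intro k n m ρ _ _ hc _
    refine ⟨ρ, Exist_refl ρ, by rw [hc, pow_one], fun e _ => ⟨_, ?_, rfl⟩⟩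
    unfold relTree
    split_ifs <;> simp [HLe]
  | neg φ ih =>
    intro J B
    obtain ⟨h, A, m0, hA1, H⟩ := ih J B
    refine ⟨h, A, m0, hA1, ?_⟩
    intro k n m ρ h1 h2 h3 h4
    obtain ⟨ρ', h5, h6, h7⟩ := H k n m ρ h1 h2 h3 h4
    refine ⟨ρ', h5, h6, fun e he => ?_⟩
    obtain ⟨T, hT'⟩ := h7 e he
    exact ⟨T.flip, T, rfl, hT'⟩
  | and φ ψ ihφ ihψ =>
    intro J B
    obtain ⟨h1, A1, m1, hA1, H1⟩ := ihφ J B
    obtain ⟨h2, A2, m2, hA2, H2⟩ := ihψ J (A1 * B)
    refine ⟨h1 + h2, A2 * A1, max (max m1 m2) 1, Nat.mul_pos hA2 hA1, ?_⟩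
    intro k n m ρ hm hk hcard hn
    have hm1 : m1 ≤ m := le_trans (le_max_left _ _) (le_trans (le_max_left _ _) hm)
    have hm2 : m2 ≤ m := le_trans (le_max_right _ _) (le_trans (le_max_left _ _) hm)
    have hm3 : 1 ≤ m := le_trans (le_max_right _ _) hm
    obtain ⟨ρ1, hρ1, hρ1c, hρ1T⟩ := H1 k n (m ^ A2) ρ (Exist_pow hm1 hm3 hA2)
      (Exist_pow hk hm3 hA2) (by rw [hcard, pow_mul]) (by rw [pow_mul] at hn; exact hn)
    obtain ⟨ρ', hρ', hρ'c, hρ'T⟩ := H2 k n m ρ1 hm2 hk hρ1c (by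
      rw [pow_mul (m ^ A2), ← pow_mul m]; exact hn)
    refine ⟨ρ', ((hR k n ρ1 ρ hρ1).2.2.2.1) ρ' hρ', hρ'c, ?_⟩
    intro e he
    obtain ⟨T1, hT1⟩ := hρ1T e he
    obtain ⟨T2, hT2⟩ := hρ'T e he
    refine ⟨andT T1 T2, ?_, T1, T2, rfl, ?_, ?_⟩
    · exact (hA k n T1 T2).2.2 h1 h2 (hH k n ρ1 h1 _ φ e T1 hT1) (hH k n ρ' h2 _ ψ e T2 hT2)
    · exact hRM k n ρ' ρ1 h1 _ _ φ e T1 hρ' (by omega) hT1
    · exact hRM k n ρ' ρ' h2 _ _ ψ e T2 (Exist_refl ρ') (by omega) hT2
  | bex t φ ih =>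
    intro J B
    obtain ⟨h, A, m0, hA1, H⟩ := Exist_core hO hR hRM hH hT hM t (fun e => e)
      (fun e j => ⟨j, rfl⟩) φ ih J B id
      (fun _ _ Tx => Tx) (fun k n h1 M Tx h x hx => h x (by omega))
    refine ⟨h, A, m0, hA1, ?_⟩
    intro k n m ρ h1 h2 h3 h4
    obtain ⟨ρ', h5, h6, h7⟩ := H k n m ρ h1 h2 h3 h4
    refine ⟨ρ', h5, h6, fun e he => ?_⟩
    obtain ⟨Tx, T, h8, h9, h10⟩ := h7 e he
    exact ⟨T, Tx, fun x hx => h8 x (by omega), h9⟩
  | ind φ ih =>
    intro J B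
    obtain ⟨h, A, m0, hA1, H⟩ := Exist_core hO hR hRM hH hT hM (.var 0) (fun e => Fin.tail e)
      (fun e j => ⟨j.succ, rfl⟩) φ ih J B (fun h => h + h)
      (fun k n Tx x => andT (Tx x) (Tx (x + 1)).flip)
      (fun k n h1 M Tx h x hx => (hA k n _ _).2.2 h1 h1 (h x (by omega))
        (((hF k n (Tx (x + 1))).2 h1).2 (h (x + 1) (by omega))))
    refine ⟨h, A, m0, hA1, ?_⟩
    intro k n m ρ h1 h2 h3 h4
    obtain ⟨ρ', h5, h6, h7⟩ := H k n m ρ h1 h2 h3 h4
    refine ⟨ρ', h5, h6, fun e he => ?_⟩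
    obtain ⟨Tx, T, h8, h9, h10⟩ := h7 e he
    exact ⟨T, Tx, h8, h9⟩

theorem prf_Exist (hO : S_OR) (hR : S_ResMono) (hRM : S_RepMono) (hH : S_RepHLe)
    (hT : S_TmBound) (hM : S_HLeMono) (hF : S_BrFlip) (hA : S_BrAnd) : S_Exist :=
  fun _ φ => Exist_all hO hR hRM hH hT hM hF hA φ

end Pool.Agent.Work.MP_610017_lc

end

section

/-!
# Block A, items Graft, Query, BrCount (MP_610017_lc)
-/

set_option autoImplicit false

namespace Pool.Agent.Work.MP_610017_lc

theorem Graft_mono {k n : ℕ} (T : Tree k n) : ∀ h h' : ℕ, h ≤ h' → HLe h T → HLe h' T := by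
  induction T with
  | leaf r =>
    intro h h' _ _
    cases h' <;> trivial
  | node v a next ih =>
    intro h h' hh hT
    cases h with
    | zero => exact False.elim hT
    | succ h =>
      cases h' with
      | zero => omega
      | succ h' => exact fun b c => ih b c h h' (by omega) (hT b c)

theorem prf_Graft : S_Graft := by
  intro k n h1 h2 Q
  induction Q generalizing h1 with
  | leaf r =>
    intro P _ hP
    obtain ⟨T, hT, hPT⟩ := hP ∅ r (Br.leaf r)
    refine ⟨T, Graft_mono T _ _ (by omega) hT, fun F r' hF =>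
      ⟨∅, r, F, T, Br.leaf r, hPT, hF, ?_⟩⟩
    rw [Finset.empty_union]
  | node v a next ih =>
    intro P hQ hP
    cases h1 with
    | zero => exact False.elim hQ
    | succ h =>
      have hex : ∀ (b : Fin 4 → Lb n) (c : Bool), ∃ T : Tree k n,
          (bd v = true ∨ c = false → ∀ F r, Br T F r → ∃ F1 r1 F2 T2, Br (next b c) F1 r1 ∧
            P (star v a b c ∪ F1) T2 ∧ Br T2 F2 r ∧ F = F1 ∪ F2) ∧ HLe (h + h2) T := by
        intro b c
        by_cases hc : bd v = true ∨ c = false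
        · obtain ⟨T, h3, h4⟩ := ih b c h (fun F T => P (star v a b c ∪ F) T) (hQ b c)
            (fun F r hF => hP _ r (Br.node v a next b c F r hc hF))
          exact ⟨T, fun _ => h4, h3⟩
        · exact ⟨.leaf true, fun h => absurd h hc, by cases h + h2 <;> trivial⟩
      choose T hT1 hT2 using hex
      refine ⟨.node v a T, ?_, ?_⟩
      · rw [show h + 1 + h2 = (h + h2) + 1 by omega]
        exact fun b c => hT2 b c
      · intro F r hF
        cases hF with
        | node _ _ _ b c F' _ hc h' =>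
          obtain ⟨F1, r1, F2, T2, q1, q2, q3, q4⟩ := hT1 b c hc F' r h'
          refine ⟨star v a b c ∪ F1, r1, F2, T2, Br.node v a next b c F1 r1 hc q1, q2, q3, ?_⟩
          rw [q4, Finset.union_assoc]

theorem prf_Query : S_Query := by
  intro k n H
  induction H using Finset.induction_on with
  | empty => exact ⟨.leaf true, trivial, fun F r _ p hp => absurd hp (Finset.notMem_empty p)⟩
  | insert p H hp ih =>
    obtain ⟨Q, hQ, hB⟩ := ih
    refine ⟨.node p.1 p.2 (fun _ _ => Q), ?_, ?_⟩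
    · rw [Finset.card_insert_of_notMem hp]
      exact fun _ _ => hQ
    · intro F r hF
      cases hF with
      | node _ _ _ b c F' _ hc h' =>
        intro p' hp'
        rcases Finset.mem_insert.1 hp' with rfl | hp'
        · exact ⟨b, c, Finset.subset_union_left⟩
        · obtain ⟨b', c', h⟩ := hB F' r h' p' hp'
          exact ⟨b', c', h.trans Finset.subset_union_right⟩

theorem prf_BrCount : S_BrCount := by
  intro k n h T
  induction T generalizing h with
  | leaf r =>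
    intro _
    refine ⟨{∅}, ?_, ?_⟩
    · rw [Finset.card_singleton]
      exact Nat.one_le_pow _ _ (by positivity)
    · intro F r' hF
      cases hF
      simp
  | node v a next ih =>
    intro hT
    cases h with
    | zero => exact False.elim hT
    | succ h =>
      choose S hS1 hS2 using fun b c => ih b c h (hT b c)
      refine ⟨Finset.univ.biUnion (fun bc : (Fin 4 → Lb n) × Bool =>
        (S bc.1 bc.2).image (fun F => star v a bc.1 bc.2 ∪ F)), ?_, ?_⟩
      · calc (Finset.univ.biUnion (fun bc : (Fin 4 → Lb n) × Bool =>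
              (S bc.1 bc.2).image (fun F => star v a bc.1 bc.2 ∪ F))).card
            ≤ ∑ bc : (Fin 4 → Lb n) × Bool,
              ((S bc.1 bc.2).image (fun F => star v a bc.1 bc.2 ∪ F)).card :=
              Finset.card_biUnion_le
          _ ≤ ∑ _bc : (Fin 4 → Lb n) × Bool, (2 * (n + 1) ^ 4) ^ h :=
              Finset.sum_le_sum fun bc _ => Finset.card_image_le.trans (hS1 _ _)
          _ = (2 * (n + 1) ^ 4) ^ (h + 1) := by
              rw [Finset.sum_const, Finset.card_univ, Fintype.card_prod, Fintype.card_fun,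
                Fintype.card_bool, Fintype.card_fin, Fintype.card_fin, smul_eq_mul, pow_succ]
              ring
      · intro F r hF
        cases hF with
        | node _ _ _ b c F' _ hc h' =>
          exact Finset.mem_biUnion.2 ⟨(b, c), Finset.mem_univ _,
            Finset.mem_image.2 ⟨F', hS2 b c F' r h', rfl⟩⟩

end Pool.Agent.Work.MP_610017_lc

end

section

set_option autoImplicit false

namespace Pool.Agent.Work.MP_610017_lc

/-- A disjoint family of `j` consistent terms. -/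
def Greedy_P {k n : ℕ} (ρ : Res k n) (π : Finset (Fact k n)) (𝓣 : Set (Finset (Fact k n)))
    (j : ℕ) : Prop :=
  ∃ Fs : Fin j → Finset (Fact k n), (∀ i, Fs i ∈ 𝓣 ∧ Con ρ (π ∪ Fs i)) ∧
    ∀ i i', i ≠ i' → ∀ f ∈ Fs i, ¬ Dec ρ π f → ∀ f' ∈ Fs i', ¬ Dec ρ π f' →
      Disjoint (touch f) (touch f')

theorem Greedy_touch {k n : ℕ} (f : Fact k n) : (touch f).card ≤ 2 := by
  cases f with
  | edge v w a b => exact Finset.card_le_two
  | col v a c => simp [touch]

theorem Greedy_cons {k n : ℕ} (ρ : Res k n) (π : Finset (Fact k n))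
    (𝓣 : Set (Finset (Fact k n))) (j : ℕ) (Fs : Fin j → Finset (Fact k n))
    (h1 : ∀ i, Fs i ∈ 𝓣 ∧ Con ρ (π ∪ Fs i))
    (h2 : ∀ i i', i ≠ i' → ∀ f ∈ Fs i, ¬ Dec ρ π f → ∀ f' ∈ Fs i', ¬ Dec ρ π f' →
      Disjoint (touch f) (touch f'))
    (F : Finset (Fact k n)) (hF : F ∈ 𝓣) (hC : Con ρ (π ∪ F))
    (hd : ∀ f ∈ F, ¬ Dec ρ π f → ∀ i, ∀ f' ∈ Fs i, ¬ Dec ρ π f' →
      Disjoint (touch f) (touch f')) : Greedy_P ρ π 𝓣 (j + 1) := by
  refine ⟨Fin.cons F Fs, ?_, ?_⟩
  · intro i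
    refine Fin.cases ?_ (fun i => ?_) i
    · simpa using ⟨hF, hC⟩
    · simpa using h1 i
  · intro i i'
    refine Fin.cases ?_ (fun i => ?_) i
    · refine Fin.cases ?_ (fun i' => ?_) i'
      · intro h
        exact absurd rfl h
      · intro _ f hf hfd f' hf' hfd'
        rw [Fin.cons_zero] at hf
        rw [Fin.cons_succ] at hf'
        exact hd f hf hfd i' f' hf' hfd'
    · refine Fin.cases ?_ (fun i' => ?_) i'
      · intro _ f hf hfd f' hf' hfd'
        rw [Fin.cons_succ] at hf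
        rw [Fin.cons_zero] at hf'
        exact (hd f' hf' hfd' i f hf hfd).symm
      · intro hne f hf hfd f' hf' hfd'
        rw [Fin.cons_succ] at hf hf'
        exact h2 i i' (fun h => hne (by rw [h])) f hf hfd f' hf' hfd'

theorem prf_Greedy : S_Greedy := by
  classical
  intro k n w q ρ π 𝓣 hw hB
  by_cases hdec : ∃ F ∈ 𝓣, ∀ f ∈ F, Dec ρ π f
  · exact Or.inl hdec
  right
  have hq : ¬ Greedy_P ρ π 𝓣 q := fun h => hB ⟨hdec, h⟩
  have h0 : Greedy_P ρ π 𝓣 0 := ⟨fun i => i.elim0, fun i => i.elim0, fun i => i.elim0⟩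
  obtain ⟨j, hjq, ⟨Fs, h1, h2⟩, hj1⟩ : ∃ j, j < q ∧ Greedy_P ρ π 𝓣 j ∧
      ¬ Greedy_P ρ π 𝓣 (j + 1) := by
    by_contra hcon
    push Not at hcon
    apply hq
    have : ∀ j, j ≤ q → Greedy_P ρ π 𝓣 j := by
      intro j
      induction j with
      | zero => exact fun _ => h0
      | succ j ih => exact fun hj => hcon j (by omega) (ih (by omega))
    exact this q le_rfl
  refine ⟨Finset.univ.biUnion fun i : Fin j =>
    ((Fs i).filter fun f => ¬ Dec ρ π f).biUnion touch, ?_, ?_⟩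
  · calc (Finset.univ.biUnion fun i : Fin j =>
        ((Fs i).filter fun f => ¬ Dec ρ π f).biUnion touch).card
        ≤ ∑ i : Fin j, (((Fs i).filter fun f => ¬ Dec ρ π f).biUnion touch).card :=
          Finset.card_biUnion_le
      _ ≤ ∑ _i : Fin j, w * 2 := by
          refine Finset.sum_le_sum fun i _ => ?_
          calc (((Fs i).filter fun f => ¬ Dec ρ π f).biUnion touch).card
              ≤ ((Fs i).filter fun f => ¬ Dec ρ π f).card * 2 :=
                Finset.card_biUnion_le_card_mul _ _ _ fun f _ => Greedy_touch f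
            _ ≤ w * 2 := Nat.mul_le_mul_right _
                ((Finset.card_filter_le _ _).trans (hw _ (h1 i).1))
      _ = j * (w * 2) := by simp
      _ ≤ q * (w * 2) := Nat.mul_le_mul_right _ hjq.le
      _ = 2 * w * q := by ring
  · intro F hF hC
    by_contra hno
    apply hj1
    refine Greedy_cons ρ π 𝓣 j Fs h1 h2 F hF hC ?_
    intro f hf hfd i f' hf' hfd'
    have hdis : Disjoint (touch f) (Finset.univ.biUnion fun i : Fin j =>
        ((Fs i).filter fun f => ¬ Dec ρ π f).biUnion touch) := by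
      by_contra hnd
      exact hno ⟨f, hf, hfd, hnd⟩
    refine Finset.disjoint_of_subset_right ?_ hdis
    intro x hx
    rw [Finset.mem_biUnion]
    refine ⟨i, Finset.mem_univ _, ?_⟩
    rw [Finset.mem_biUnion]
    exact ⟨f', Finset.mem_filter.2 ⟨hf', hfd'⟩, hx⟩

end Pool.Agent.Work.MP_610017_lc

end

section

/-!
# A16: the hitting lemma for polynomially many tasks (MP_610017_lc)
-/

set_option autoImplicit false

namespace Pool.Agent.Work.MP_610017_lc

theorem Hit_bound (k m w q : ℕ) (h4 : 4 ≤ m) (hk : (k + 1) ^ 2 ≤ m) (hq : q * w * w ≤ m) :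
    (q * w * w) ^ q * (4 * ((k + 1) ^ 2 * m + 1) ^ (2 * w)) ^ (q * w) ≤
      m ^ (q * (1 + w * (6 * w + 1))) := by
  have h1 : (k + 1) ^ 2 * m + 1 ≤ m ^ 3 := by
    have : (k + 1) ^ 2 * m ≤ m * m := Nat.mul_le_mul_right _ hk
    nlinarith
  have h2 : 4 * ((k + 1) ^ 2 * m + 1) ^ (2 * w) ≤ m ^ (6 * w + 1) := by
    calc 4 * ((k + 1) ^ 2 * m + 1) ^ (2 * w) ≤ m * (m ^ 3) ^ (2 * w) :=
          Nat.mul_le_mul h4 (Nat.pow_le_pow_left h1 _)
      _ = m ^ (6 * w + 1) := by rw [← pow_mul, ← pow_succ']; congr 1; ring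
  calc (q * w * w) ^ q * (4 * ((k + 1) ^ 2 * m + 1) ^ (2 * w)) ^ (q * w)
      ≤ m ^ q * (m ^ (6 * w + 1)) ^ (q * w) :=
        Nat.mul_le_mul (Nat.pow_le_pow_left hq _) (Nat.pow_le_pow_left h2 _)
    _ = m ^ (q * (1 + w * (6 * w + 1))) := by
        rw [← pow_mul, ← pow_add]; congr 1; ring

open Classical in
theorem prf_Hit (hH : S_Hit1) : S_Hit := by
  intro w B
  set c : ℕ := 1 + w * (6 * w + 1) with hc
  set q : ℕ := 2 * B + 2 with hq
  refine ⟨q, 2 * c + 1, 12 + q * w * w + 8 * (q * w), by omega, ?_⟩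
  intro k n m ρ ι _ π 𝓣 hm hk hI hcard hSB hT
  have hm4 : 4 ≤ m := by omega
  have hqm : q * w * w ≤ m := by omega
  have hqm8 : 8 * (q * w) ≤ m := by omega
  have hmA3 : m ^ 2 ≤ m ^ (2 * c + 1) := Nat.pow_le_pow_right (by omega) (by omega)
  obtain ⟨I1, h0, hI1, hcI⟩ := Finset.exists_subsuperset_card_eq
    (s := ({0} : Finset (Lb n))) (t := ρ.I) (n := m) (by simpa using ρ.zero_mem)
    (by simp; omega) (by rw [hI]; nlinarith)
  have h0' : (0 : Lb n) ∈ I1 := h0 (by simp)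
  have hsize : 2 * (I1.card + 2 * (q * w)) ≤ ρ.I.card := by
    rw [hcI, hI]
    nlinarith
  have hOm : 0 < (Om ρ).card := by
    rw [Finset.card_pos]
    refine ⟨(ρ.β, ρ.ζ), ?_⟩
    rw [Om, Finset.mem_filter]
    exact ⟨Finset.mem_univ _, ⟨fun _ _ _ => rfl, fun _ _ => rfl, ρ.corner⟩⟩
  have hbad : ∀ i, ((Om ρ).filter (BadW I1 (π i) (𝓣 i) q)).card * m ^ ((2 * c + 1) * q) ≤
      (Om ρ).card * m ^ (q * c) := by
    intro i
    have h1 := hH k n w w q ρ I1 (π i) (𝓣 i) hI1 h0' (hT i) le_rfl (hSB i) hsize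
    rw [hcI, hI, ← pow_mul] at h1
    exact h1.trans (Nat.mul_le_mul_left _ (Hit_bound k m w q hm4 hk hqm))
  have hsum : (∑ i, ((Om ρ).filter (BadW I1 (π i) (𝓣 i) q)).card) < (Om ρ).card := by
    have h2 : (∑ i, ((Om ρ).filter (BadW I1 (π i) (𝓣 i) q)).card) * m ^ ((2 * c + 1) * q) ≤
        (Om ρ).card * m ^ ((2 * c + 1) * B + q * c) := by
      rw [Finset.sum_mul]
      calc ∑ i, ((Om ρ).filter (BadW I1 (π i) (𝓣 i) q)).card * m ^ ((2 * c + 1) * q)
          ≤ ∑ _i : ι, (Om ρ).card * m ^ (q * c) := Finset.sum_le_sum fun i _ => hbad i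
        _ = Fintype.card ι * ((Om ρ).card * m ^ (q * c)) := by
            rw [Finset.sum_const, smul_eq_mul, Finset.card_univ]
        _ ≤ (m ^ (2 * c + 1)) ^ B * ((Om ρ).card * m ^ (q * c)) :=
            Nat.mul_le_mul_right _ hcard
        _ = (Om ρ).card * m ^ ((2 * c + 1) * B + q * c) := by
            rw [← pow_mul, pow_add]; ring
    have h3 : (2 * c + 1) * q = ((2 * c + 1) * B + q * c) + (2 * c + B + 2) := by
      rw [hq]; ring
    by_contra hcon
    push Not at hcon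
    have h4 : (Om ρ).card * m ^ ((2 * c + 1) * q) ≤
        (Om ρ).card * m ^ ((2 * c + 1) * B + q * c) :=
      (Nat.mul_le_mul_right _ hcon).trans h2
    have h5 : m ^ ((2 * c + 1) * q) ≤ m ^ ((2 * c + 1) * B + q * c) :=
      Nat.le_of_mul_le_mul_left h4 hOm
    have h6 := (Nat.pow_le_pow_iff_right (by omega : 1 < m)).mp h5
    omega
  have hex : ∃ om ∈ Om ρ, ∀ i, ¬ BadW I1 (π i) (𝓣 i) q om := by
    by_contra hcon
    push Not at hcon
    have hsub : Om ρ ⊆ Finset.univ.biUnion fun i =>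
        (Om ρ).filter (BadW I1 (π i) (𝓣 i) q) := by
      intro om hom
      obtain ⟨i, hi⟩ := hcon om hom
      rw [Finset.mem_biUnion]
      exact ⟨i, Finset.mem_univ _, Finset.mem_filter.mpr ⟨hom, hi⟩⟩
    have := (Finset.card_le_card hsub).trans Finset.card_biUnion_le
    omega
  obtain ⟨om, hom, hgood⟩ := hex
  have hExt : Ext ρ om.1 om.2 := by
    rw [Om, Finset.mem_filter] at hom
    exact hom.2
  refine ⟨⟨om.1, om.2, I1, h0', hExt.corner⟩, ⟨hI1, hExt⟩, hcI, ?_⟩
  intro i hBad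
  exact hgood i ⟨_, rfl, rfl, rfl, hBad⟩

end Pool.Agent.Work.MP_610017_lc

end

section

/-!
# The hitting lemma for one task (MP_610017_lc)
-/

set_option autoImplicit false

namespace Pool.Agent.Work.MP_610017_lc

/-- the number of injective functions with values in a finite set -/
theorem Hit1_inj (n t : ℕ) (T : Finset (Lb n)) :
    T.card.descFactorial t ≤ (Finset.univ.filter (fun i : Fin t → Lb n =>
      Function.Injective i ∧ ∀ g, i g ∈ T)).card := by
  classical
  have h1 : (Finset.univ : Finset (Fin t ↪ T)).card = T.card.descFactorial t := by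
    rw [Finset.card_univ, Fintype.card_embedding_eq, Fintype.card_coe, Fintype.card_fin]
  rw [← h1]
  refine Finset.card_le_card_of_injOn (fun e g => ((e g : T) : Lb n)) ?_ ?_
  · intro e _
    rw [Finset.mem_coe, Finset.mem_filter]
    refine ⟨Finset.mem_univ _, ?_, fun g => (e g).2⟩
    intro a b hab
    exact e.injective (Subtype.ext hab)
  · intro e _ e' _ h
    ext g
    have := congrFun h g
    exact congrArg Fin.val this

theorem Hit1_low (n t I a : ℕ) (R I1 D : Finset (Lb n)) (hsub : I1 ⊆ R) (hR : R.card = I)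
    (hI1 : I1.card = a) (hD : D.card ≤ t) (h : 2 * (a + 2 * t) ≤ I) :
    I ^ t ≤ 2 ^ t * (Finset.univ.filter (fun i : Fin t → Lb n =>
      Function.Injective i ∧ ∀ g, i g ∈ (R \ I1) \ D)).card := by
  have h1 : I - a - t ≤ ((R \ I1) \ D).card := by
    have h2 : (R \ I1).card = I - a := by
      rw [Finset.card_sdiff_of_subset hsub, hR, hI1]
    have h3 := Finset.le_card_sdiff D (R \ I1)
    omega
  have h4 := (Nat.pow_sub_le_descFactorial ((R \ I1) \ D).card t).trans (Hit1_inj n t _)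
  calc I ^ t ≤ (2 * (((R \ I1) \ D).card + 1 - t)) ^ t := by
        apply Nat.pow_le_pow_left
        omega
    _ = 2 ^ t * (((R \ I1) \ D).card + 1 - t) ^ t := by rw [mul_pow]
    _ ≤ _ := Nat.mul_le_mul_left _ h4

theorem prf_Hit1 (hM : S_Mod) (hC : S_Count) : S_Hit1 := by
  classical
  intro k n w r q ρ I1 π 𝓣 hI1 h0 h𝓣 hwr hSB hcard
  have hM' := hM k n w r q ρ I1 π 𝓣 hI1 h0 h𝓣 hwr hSB
  obtain ⟨t, ht⟩ : ∃ t, t = q * w := ⟨_, rfl⟩
  rw [← ht] at hcard hM' ⊢
  obtain ⟨𝓔, h𝓔, rec, hrec⟩ := hM'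
  have hIpos : 0 < ρ.I.card := Finset.card_pos.2 ⟨0, hI1 h0⟩
  -- the case `t < q`
  rcases lt_or_ge t q with htq | htq
  · have hw : w = 0 := by
      by_contra hw
      have : q * 1 ≤ q * w := Nat.mul_le_mul_left q (Nat.one_le_iff_ne_zero.2 hw)
      omega
    have ht0 : t = 0 := by rw [ht, hw, mul_zero]
    have hempty : (Om ρ).filter (BadW I1 π 𝓣 q) = ∅ := by
      rw [Finset.filter_eq_empty_iff]
      intro ω hω hbad
      obtain ⟨D, -, hD⟩ := hrec ω hω hbad
      have hemp : IsEmpty (Fin t) := by rw [ht0]; infer_instance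
      obtain ⟨ω', -, s, -, h1, Es, h2, -⟩ := hD (fun g => hemp.elim g)
        (fun g => hemp.elim g) (fun g => hemp.elim g)
      obtain ⟨g, -⟩ := h1 _ (h2 ⟨0, by omega⟩)
      exact hemp.elim g
    rw [hempty, Finset.card_empty, zero_mul]
    exact Nat.zero_le _
  -- the sets `D`
  have hDex : ∀ ω, ∃ D : Finset (Lb n), D.card ≤ t ∧ (ω ∈ (Om ρ).filter (BadW I1 π 𝓣 q) →
      ∀ i : Fin t → Lb n, Function.Injective i → (∀ g, i g ∈ (ρ.I \ I1) \ D) →
          ∃ ω' ∈ Om ρ, ∃ s, rec ω' i s = ω ∧ (∀ E ∈ 𝓔 ω', ∃ g, i g ∈ E) ∧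
            ∃ Es : Fin q → Finset (Lb n), (∀ j, Es j ∈ 𝓔 ω') ∧
              ∀ j j', j ≠ j' → ∀ g, ¬ (i g ∈ Es j ∧ i g ∈ Es j')) := by
    intro ω
    by_cases h : ω ∈ (Om ρ).filter (BadW I1 π 𝓣 q)
    · obtain ⟨h1, h2⟩ := Finset.mem_filter.1 h
      obtain ⟨D, hD1, hD2⟩ := hrec ω h1 h2
      exact ⟨D, hD1, fun _ => hD2⟩
    · exact ⟨∅, by simp, fun h' => absurd h' h⟩
  choose D hD1 hD2 using hDex
  set S : Finset (Lb n) := ρ.I \ I1 with hS
  set BAD := (Om ρ).filter (BadW I1 π 𝓣 q) with hBAD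
  set P : Finset (Σ _ : (Vx k → Equiv.Perm (Lb n)) × (Lb n → Bool), (Fin t → Lb n)) :=
    BAD.sigma (fun ω => Finset.univ.filter (fun i : Fin t → Lb n =>
      Function.Injective i ∧ ∀ g, i g ∈ S \ D ω)) with hP
  -- lower bound
  have hlow : BAD.card * ρ.I.card ^ t ≤ 2 ^ t * P.card := by
    rw [hP, Finset.card_sigma, Finset.mul_sum, ← smul_eq_mul BAD.card]
    apply Finset.card_nsmul_le_sum
    intro ω _
    exact Hit1_low n t ρ.I.card I1.card ρ.I I1 (D ω) hI1 rfl rfl (hD1 ω) hcard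
  -- upper bound
  set c : ℕ := (k + 1) ^ 2 * I1.card + 1 with hc
  have hcode : Fintype.card (Fin t → (Fin (2 * w) → Option (Vx k × I1)) × Bool) =
      (c ^ (2 * w) * 2) ^ t := by
    simp only [Fintype.card_fun, Fintype.card_prod, Fintype.card_option, Fintype.card_fin,
      Fintype.card_coe, Fintype.card_bool, hc, pow_two]
  have hup : P.card ≤ (Om ρ).card * ((t * w) ^ q * S.card ^ (t - q) *
      (c ^ (2 * w) * 2) ^ t) := by
    have hsub : P ⊆ (Om ρ).biUnion (fun ω' =>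
        (((Fintype.piFinset (fun _ : Fin t => S)).filter (fun i : Fin t → Lb n =>
          (∀ E ∈ 𝓔 ω', ∃ g, i g ∈ E) ∧
          ∃ Es : Fin q → Finset (Lb n), (∀ j, Es j ∈ 𝓔 ω') ∧
            ∀ j j', j ≠ j' → ∀ g, ¬ (i g ∈ Es j ∧ i g ∈ Es j'))) ×ˢ
          (Finset.univ : Finset (Fin t → (Fin (2 * w) → Option (Vx k × I1)) × Bool))).image
          (fun x => (⟨rec ω' x.1 x.2, x.1⟩ :
            Σ _ : (Vx k → Equiv.Perm (Lb n)) × (Lb n → Bool), (Fin t → Lb n)))) := by
      rintro ⟨ω, i⟩ hx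
      rw [hP, Finset.mem_sigma] at hx
      obtain ⟨hω, hi⟩ := hx
      obtain ⟨-, hinj, hmem⟩ := Finset.mem_filter.1 hi
      obtain ⟨ω', hω', s, hs, h1, h2⟩ := hD2 ω hω i hinj hmem
      rw [Finset.mem_biUnion]
      refine ⟨ω', hω', ?_⟩
      rw [Finset.mem_image]
      refine ⟨(i, s), ?_, ?_⟩
      · rw [Finset.mem_product, Finset.mem_filter, Fintype.mem_piFinset]
        exact ⟨⟨fun g => (Finset.mem_sdiff.1 (hmem g)).1, h1, h2⟩, Finset.mem_univ _⟩
      · change (⟨rec ω' i s, i⟩ :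
            Σ _ : (Vx k → Equiv.Perm (Lb n)) × (Lb n → Bool), (Fin t → Lb n)) = ⟨ω, i⟩
        rw [hs]
    refine (Finset.card_le_card hsub).trans (Finset.card_biUnion_le_card_mul _ _ _ ?_)
    intro ω' _
    refine Finset.card_image_le.trans ?_
    rw [Finset.card_product, Finset.card_univ, hcode]
    exact Nat.mul_le_mul_right _ (hC n t q w S (𝓔 ω') (h𝓔 ω'))
  have hSI : S.card ≤ ρ.I.card := Finset.card_le_card Finset.sdiff_subset
  have hfin : (BAD.card * ρ.I.card ^ q) * ρ.I.card ^ (t - q) ≤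
      ((Om ρ).card * ((t * w) ^ q * (4 * c ^ (2 * w)) ^ t)) * ρ.I.card ^ (t - q) := by
    calc (BAD.card * ρ.I.card ^ q) * ρ.I.card ^ (t - q) = BAD.card * ρ.I.card ^ t := by
          rw [mul_assoc, ← pow_add]
          congr 2
          omega
      _ ≤ 2 ^ t * P.card := hlow
      _ ≤ 2 ^ t * ((Om ρ).card * ((t * w) ^ q * S.card ^ (t - q) * (c ^ (2 * w) * 2) ^ t)) :=
          Nat.mul_le_mul_left _ hup
      _ ≤ 2 ^ t * ((Om ρ).card * ((t * w) ^ q * ρ.I.card ^ (t - q) *
          (c ^ (2 * w) * 2) ^ t)) := by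
          gcongr
      _ = ((Om ρ).card * ((t * w) ^ q * (4 * c ^ (2 * w)) ^ t)) * ρ.I.card ^ (t - q) := by
          rw [show (4 : ℕ) = 2 * 2 by norm_num]
          simp only [mul_pow]
          ring
  exact Nat.le_of_mul_le_mul_right hfin (pow_pos hIpos _)

end Pool.Agent.Work.MP_610017_lc

end

section

/-!
# Block A, item LE: local embedding of the coverings `gw ρ N` (MP_610017_lc)
-/

set_option autoImplicit false

namespace Pool.Agent.Work.MP_610017_lc

/-- the level of a vertex -/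
def LE_L {k : ℕ} (u : Vx k) : ℕ := max u.1.val u.2.val

/-- the lower level of an edge -/
def LE_m {k n : ℕ} : Fact k n → ℕ
  | .edge v w _ _ => min (LE_L v) (LE_L w)
  | .col _ _ _ => 0

/-- the index of a fact -/
def LE_i {k n : ℕ} (β : Vx k → Equiv.Perm (Lb n)) : Fact k n → Lb n
  | .edge v _ a _ => (β v).symm a
  | .col v a _ => (β v).symm a

theorem LE_touch {k n : ℕ} (ω : GW k n) (f : Fact k n) (hf : holds ω f) (v : Vx k) (a : Lb n)
    (h : (v, a) ∈ touch f) : (ω.β v).symm a = LE_i ω.β f := by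
  cases f with
  | edge v' w' a' b' =>
    simp only [touch, Finset.mem_insert, Finset.mem_singleton, Prod.mk.injEq] at h
    rcases h with ⟨rfl, rfl⟩ | ⟨rfl, rfl⟩
    · rfl
    · exact hf.symm
  | col v' a' c' =>
    simp only [touch, Finset.mem_singleton, Prod.mk.injEq] at h
    obtain ⟨rfl, rfl⟩ := h
    rfl

/-- the choice of the cut -/
theorem LE_cut {k n : ℕ} (F : Finset (Fact k n)) (N : ℕ) :
    ∃ d, N < d ∧ d ≤ N + F.card + 1 ∧ d ∉ F.image LE_m := by
  have hc : (F.image LE_m).card < (Finset.Icc (N + 1) (N + F.card + 1)).card := by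
    have h1 : (F.image LE_m).card ≤ F.card := Finset.card_image_le
    rw [Nat.card_Icc]
    omega
  obtain ⟨d, hd1, hd2⟩ := Finset.exists_mem_notMem_of_card_lt_card hc
  rw [Finset.mem_Icc] at hd1
  exact ⟨d, by omega, by omega, hd2⟩

/-- the choice of the sheet -/
theorem LE_sheet {k n : ℕ} (ρ : Res k n) (F : Finset (Fact k n)) (h : F.card + 2 ≤ ρ.I.card) :
    ∃ s, s ∈ ρ.I ∧ s ≠ 0 ∧ s ∉ F.image (LE_i ρ.β) := by
  have hc : (insert 0 (F.image (LE_i ρ.β))).card < ρ.I.card := by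
    have h1 : (F.image (LE_i ρ.β)).card ≤ F.card := Finset.card_image_le
    have h2 := Finset.card_insert_le (0 : Lb n) (F.image (LE_i ρ.β))
    omega
  obtain ⟨s, hs1, hs2⟩ := Finset.exists_mem_notMem_of_card_lt_card hc
  rw [Finset.mem_insert, not_or] at hs2
  exact ⟨s, hs1, hs2.1, hs2.2⟩

/-- an edge does not cross the cut -/
theorem LE_cross {k n : ℕ} (hL : S_NbLevel) (F : Finset (Fact k n)) (hV : ∀ f ∈ F, Valid f)
    (d : ℕ) (hd : d ∉ F.image LE_m) (v w : Vx k) (a b : Lb n) (h : Fact.edge v w a b ∈ F) :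
    LE_L v ≤ d ↔ LE_L w ≤ d := by
  obtain ⟨e, he⟩ : ∃ e, w = nb v e := hV _ h
  have h1 := (hL k v e).2
  rw [← he] at h1
  have h2 : min (LE_L v) (LE_L w) ≠ d := by
    intro h3
    exact hd (Finset.mem_image.2 ⟨_, h, h3⟩)
  unfold LE_L at *
  omega

theorem prf_LE (hR : S_Reroute) (hL : S_NbLevel) : S_LE := by
  intro k n ρ N N' F hV h1 h2 hN hk hI
  obtain ⟨d, hd1, hd2, hd3⟩ := LE_cut F N
  obtain ⟨s0, hs1, hs2, hs3⟩ := LE_sheet ρ F hI
  have hdN : d ≤ N' := by omega
  let s : Vx k → Lb n := fun u => if LE_L u ≤ d then 0 else s0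
  have hsv : ∀ u, s u = 0 ∨ s u = s0 := by
    intro u
    show (if LE_L u ≤ d then 0 else s0) = 0 ∨ (if LE_L u ≤ d then 0 else s0) = s0
    split_ifs
    · exact Or.inl rfl
    · exact Or.inr rfl
  have hs_le : ∀ u, LE_L u ≤ d → s u = 0 := fun u hu => if_pos hu
  have hs_gt : ∀ u, ¬ LE_L u ≤ d → s u = s0 := fun u hu => if_neg hu
  have hres := hR k n (gw ρ N) F s (Function.update ρ.ζ s0 false) spec h1 ?_ ?_ ?_
  · refine ⟨⟨fun v => ρ.β v * Equiv.swap 0 (s v), Function.update ρ.ζ s0 false, spec⟩,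
      ⟨?_, ?_, ?_⟩, rfl, hres⟩
    · intro v i hi
      have hi0 : i ≠ 0 := fun h => hi (h ▸ ρ.zero_mem)
      have his : i ≠ s0 := fun h => hi (h ▸ hs1)
      have his' : i ≠ s v := by
        rcases hsv v with h | h <;> rw [h] <;> assumption
      show ρ.β v (Equiv.swap 0 (s v) i) = ρ.β v i
      rw [Equiv.swap_apply_of_ne_of_ne hi0 his']
    · intro i hi
      have his : i ≠ s0 := fun h => hi (h ▸ hs1)
      exact Function.update_of_ne his _ _
    · have h0 : s (crn k) = 0 := hs_le _ (by simp [LE_L, crn])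
      show ρ.β (crn k) (Equiv.swap 0 (s (crn k)) 0) = 0
      rw [h0, Equiv.swap_self]
      exact ρ.corner
  · -- elements which are not on the special sheet
    intro f hf v a hva h0
    have hi := LE_touch (gw ρ N) f (h1 f hf) v a hva
    have hne : ((gw ρ N).β v).symm a ≠ s0 := by
      intro h
      apply hs3
      rw [Finset.mem_image]
      exact ⟨f, hf, by rw [← h, hi]; rfl⟩
    refine ⟨fun u => ?_, Function.update_of_ne hne _ _⟩
    rcases hsv u with h | h <;> rw [h] <;> assumption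
  · -- edges
    intro v w a b hf h0
    have hc := LE_cross hL F hV d hd3 v w a b hf
    by_cases hv : LE_L v ≤ d
    · rw [hs_le v hv, hs_le w (hc.1 hv)]
    · rw [hs_gt v hv, hs_gt w (fun h => hv (hc.2 h))]
  · -- colours
    intro v a c hf h0
    have hb : bd v = true := hV _ hf
    have g1 := h1 _ hf
    have g2 := h2 _ hf
    have h0' : (ρ.β v).symm a = 0 := h0
    simp only [holds, gw, h0', if_true, Option.some.injEq] at g1 g2
    simp only [bd, decide_eq_true_eq] at hb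
    obtain ⟨hb1, hb2⟩ := hb
    constructor
    · intro hs
      have hv : LE_L v ≤ d := by
        by_contra hv
        rw [hs_gt v hv] at hs
        exact hs2 hs
      unfold LE_L at hv
      unfold spec
      by_cases h3 : v.2.val = 0
      · have h4 : v.2.val = 0 ∧ 1 ≤ v.1.val ∧ v.1.val < k := by omega
        rw [if_pos h4]
        rw [← g2]
        congr 1
        rw [eq_comm, decide_eq_true_eq]
        omega
      · have h4 : ¬ (v.2.val = 0 ∧ 1 ≤ v.1.val ∧ v.1.val < k) := by omega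
        have h5 : v.1.val = 0 ∧ 1 ≤ v.2.val ∧ v.2.val < k := by omega
        rw [if_neg h4, if_pos h5]
        rw [← g2]
        congr 1
        rw [eq_comm, decide_eq_false_iff_not]
        omega
    · intro hs
      have hv : ¬ LE_L v ≤ d := fun hv => hs (hs_le v hv)
      rw [hs_gt v hv, Function.update_self, ← g1, eq_comm, decide_eq_false_iff_not]
      unfold LE_L at hv
      omega

end Pool.Agent.Work.MP_610017_lc

end

section

/-!
# Block A, item Mod: the modification lemma (MP_610017_lc)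
-/

set_option autoImplicit false

namespace Pool.Agent.Work.MP_610017_lc

/-- pairs (permutations, colours) -/
abbrev Mod_W (k n : ℕ) : Type := (Vx k → Equiv.Perm (Lb n)) × (Lb n → Bool)

/-- codes -/
abbrev Mod_C {n : ℕ} (k w t : ℕ) (I1 : Finset (Lb n)) : Type :=
  Fin t → (Fin (2 * w) → Option (Vx k × I1)) × Bool

/-- the first element of a fact -/
def Mod_fst {k n : ℕ} : Fact k n → Vx k × Lb n
  | .edge v _ a _ => (v, a)
  | .col v a _ => (v, a)

/-- the index of the sheet of the first element of a fact -/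
def Mod_idx {k n : ℕ} (β : Vx k → Equiv.Perm (Lb n)) (f : Fact k n) : Lb n :=
  (β (Mod_fst f).1).symm (Mod_fst f).2

/-- the fact is true on the ordinary sheet `x` -/
def Mod_on {k n : ℕ} (ω : Mod_W k n) (x : Lb n) : Fact k n → Prop
  | .edge v w a b => ω.1 v x = a ∧ ω.1 w x = b
  | .col v a c => ω.1 v x = a ∧ ω.2 x = c

/-- the fact is true on a sheet with index outside `I1` -/
def Mod_str {k n : ℕ} (ω : Mod_W k n) (I1 : Finset (Lb n)) (f : Fact k n) : Prop :=
  ∃ x, x ∉ I1 ∧ Mod_on ω x f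

theorem Mod_setTrue {k n : ℕ} (ρ : Res k n) (f : Fact k n) :
    SetTrue ρ f ↔ Mod_str (ρ.β, ρ.ζ) ρ.I f := by
  cases f <;> rfl

theorem Mod_idx_of_on {k n : ℕ} {ω : Mod_W k n} {x : Lb n} {f : Fact k n}
    (h : Mod_on ω x f) : Mod_idx ω.1 f = x := by
  cases f with
  | edge v w a b =>
    unfold Mod_idx Mod_fst
    rw [Equiv.symm_apply_eq]
    exact h.1.symm
  | col v a c =>
    unfold Mod_idx Mod_fst
    rw [Equiv.symm_apply_eq]
    exact h.1.symm

theorem Mod_on_congr {k n : ℕ} {ω ω' : Mod_W k n} {x : Lb n} (f : Fact k n)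
    (h1 : ∀ v, ω'.1 v x = ω.1 v x) (h2 : ω'.2 x = ω.2 x) : Mod_on ω' x f ↔ Mod_on ω x f := by
  cases f with
  | edge v w a b =>
    simp only [Mod_on, h1]
  | col v a c =>
    simp only [Mod_on, h1, h2]

theorem Mod_on_of_carries {k n : ℕ} {ω : Mod_W k n} {x : Lb n} {f : Fact k n} {G : Grp k n}
    (hc : Carries G f) (h1 : ∀ v ∈ G.supp, ω.1 v x = G.p v) (h2 : ω.2 x = G.c) :
    Mod_on ω x f := by
  cases f with
  | edge v w a b =>
    obtain ⟨hv, hw, ha, hb⟩ := hc
    exact ⟨by rw [h1 v hv, ha], by rw [h1 w hw, hb]⟩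
  | col v a c =>
    obtain ⟨hv, ha, hcc⟩ := hc
    exact ⟨by rw [h1 v hv, ha], by rw [h2, hcc]⟩

/-- the properties of the exchange permutation -/
def Mod_P {n t : ℕ} (A : Finset (Fin t)) (f g : Fin t → Lb n) (τ : Equiv.Perm (Lb n)) : Prop :=
  (∀ i ∈ A, τ (f i) = g i) ∧ (∀ i ∈ A, τ (g i) = f i) ∧
    ∀ x, (∀ i ∈ A, x ≠ f i ∧ x ≠ g i) → τ x = x

open Classical in
/-- a choice of the exchange permutation -/
noncomputable def Mod_swp {n t : ℕ} (A : Finset (Fin t)) (f g : Fin t → Lb n) :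
    Equiv.Perm (Lb n) :=
  if h : ∃ τ, Mod_P A f g τ then h.choose else 1

theorem Mod_swp_spec {n t : ℕ} {A : Finset (Fin t)} {f g : Fin t → Lb n}
    (h : ∃ τ, Mod_P A f g τ) : Mod_P A f g (Mod_swp A f g) := by
  unfold Mod_swp
  rw [dif_pos h]
  exact h.choose_spec

open Classical in
/-- the groups at the vertex `v` -/
noncomputable def Mod_A {k n w t : ℕ} {I1 : Finset (Lb n)} (s : Mod_C k w t I1) (v : Vx k) :
    Finset (Fin t) :=
  Finset.univ.filter (fun x => ∃ l y, (s x).1 l = some (v, y))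

open Classical in
/-- the old index of the group at the vertex `v` -/
noncomputable def Mod_r {k n w t : ℕ} {I1 : Finset (Lb n)} (s : Mod_C k w t I1) (v : Vx k)
    (x : Fin t) : Lb n :=
  if h : ∃ y : I1, ∃ l, (s x).1 l = some (v, y) then (h.choose : Lb n) else 0

/-- the permutation at the vertex `v` -/
noncomputable def Mod_tau {k n w t : ℕ} {I1 : Finset (Lb n)} (i : Fin t → Lb n)
    (s : Mod_C k w t I1) (v : Vx k) : Equiv.Perm (Lb n) :=
  Mod_swp (Mod_A s v) i (Mod_r s v)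

open Classical in
/-- the reconstruction -/
noncomputable def Mod_rec {k n w t : ℕ} {I1 : Finset (Lb n)} (ω' : Mod_W k n)
    (i : Fin t → Lb n) (s : Mod_C k w t I1) : Mod_W k n :=
  (fun v => ω'.1 v * (Mod_tau i s v)⁻¹,
    fun y => if h : ∃ g, i g = y then (s h.choose).2 else ω'.2 y)

open Classical in
/-- the modification -/
noncomputable def Mod_new {k n w t : ℕ} {I1 : Finset (Lb n)} (ω : Mod_W k n)
    (i : Fin t → Lb n) (s : Mod_C k w t I1) (c : Fin t → Bool) : Mod_W k n :=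
  (fun v => ω.1 v * Mod_tau i s v,
    fun y => if h : ∃ g, i g = y then c h.choose else ω.2 y)

theorem Mod_rec_new {k n w t : ℕ} {I1 : Finset (Lb n)} (ω : Mod_W k n)
    (i : Fin t → Lb n) (s : Mod_C k w t I1) (c : Fin t → Bool)
    (hs : ∀ x, (s x).2 = ω.2 (i x)) : Mod_rec (Mod_new ω i s c) i s = ω := by
  unfold Mod_rec Mod_new
  refine Prod.ext ?_ ?_
  · funext v
    simp
  · funext y
    by_cases h : ∃ g, i g = y
    · simp only [h, dif_pos]
      rw [hs, h.choose_spec]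
    · simp only [h]
      simp

open Classical in
/-- the traces -/
noncomputable def Mod_tr {k n : ℕ} (ω : Mod_W k n) (π F : Finset (Fact k n)) : Finset (Lb n) :=
  (F.filter (fun f => f ∉ π)).image (fun f => Mod_idx ω.1 f)

/-- the code of the groups -/
noncomputable def Mod_code {k n w t : ℕ} {I1 : Finset (Lb n)} (G : Fin t → Grp k n)
    (rI : Fin t → Vx k → I1) (c : Fin t → Bool) : Mod_C k w t I1 :=
  fun x => (fun l => ((G x).supp.toList[l.val]?).map (fun v => (v, rI x v)), c x)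

theorem Mod_code_iff {k n w t : ℕ} {I1 : Finset (Lb n)} (G : Fin t → Grp k n)
    (rI : Fin t → Vx k → I1) (c : Fin t → Bool) (hG : ∀ x, (G x).supp.card ≤ 2 * w)
    (x : Fin t) (v : Vx k) (y : I1) :
    (∃ l, ((Mod_code G rI c : Mod_C k w t I1) x).1 l = some (v, y)) ↔
      v ∈ (G x).supp ∧ y = rI x v := by
  constructor
  · rintro ⟨l, hl⟩
    unfold Mod_code at hl
    simp only [Option.map_eq_some_iff, Prod.mk.injEq] at hl
    obtain ⟨v', h1, h2, h3⟩ := hl
    subst h2
    refine ⟨?_, h3.symm⟩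
    rw [← Finset.mem_toList]
    exact List.mem_of_getElem? h1
  · rintro ⟨hv, rfl⟩
    rw [← Finset.mem_toList] at hv
    obtain ⟨j, hj, hj'⟩ := List.mem_iff_getElem.1 hv
    rw [Finset.length_toList] at hj
    refine ⟨⟨j, lt_of_lt_of_le hj (hG x)⟩, ?_⟩
    unfold Mod_code
    simp only [Option.map_eq_some_iff, Prod.mk.injEq]
    refine ⟨v, ?_, rfl, rfl⟩
    rw [List.getElem?_eq_some_iff]
    exact ⟨by rw [Finset.length_toList]; exact hj, hj'⟩

theorem Mod_A_code {k n w t : ℕ} {I1 : Finset (Lb n)} (G : Fin t → Grp k n)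
    (rI : Fin t → Vx k → I1) (c : Fin t → Bool) (hG : ∀ x, (G x).supp.card ≤ 2 * w)
    (v : Vx k) (x : Fin t) :
    x ∈ Mod_A (Mod_code G rI c : Mod_C k w t I1) v ↔ v ∈ (G x).supp := by
  unfold Mod_A
  rw [Finset.mem_filter]
  constructor
  · rintro ⟨-, l, y, h⟩
    exact ((Mod_code_iff G rI c hG x v y).1 ⟨l, h⟩).1
  · intro hv
    obtain ⟨l, h⟩ := (Mod_code_iff G rI c hG x v (rI x v)).2 ⟨hv, rfl⟩
    exact ⟨Finset.mem_univ _, l, _, h⟩

theorem Mod_r_code {k n w t : ℕ} {I1 : Finset (Lb n)} (G : Fin t → Grp k n)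
    (rI : Fin t → Vx k → I1) (c : Fin t → Bool) (hG : ∀ x, (G x).supp.card ≤ 2 * w)
    (v : Vx k) (x : Fin t) (hv : v ∈ (G x).supp) :
    Mod_r (Mod_code G rI c : Mod_C k w t I1) v x = rI x v := by
  unfold Mod_r
  have h : ∃ y : I1, ∃ l, ((Mod_code G rI c : Mod_C k w t I1) x).1 l = some (v, y) :=
    ⟨rI x v, (Mod_code_iff G rI c hG x v (rI x v)).2 ⟨hv, rfl⟩⟩
  rw [dif_pos h]
  have := ((Mod_code_iff G rI c hG x v h.choose).1 h.choose_spec).2
  rw [this]

open Classical in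
theorem prf_Mod (hE : S_Emb) (hS : S_Swap) : S_Mod := by
  intro k n w r q ρ I1 π 𝓣 hI1 h0 h𝓣 hwr hSB
  refine ⟨fun ω' => {E | ∃ F ∈ 𝓣, (∀ f ∈ F, f ∈ π ∨ Mod_str ω' I1 f) ∧ E = Mod_tr ω' π F},
    ?_, Mod_rec, ?_⟩
  · rintro ω' E ⟨F, hF, -, rfl⟩
    exact le_trans Finset.card_image_le (le_trans (Finset.card_filter_le _ _) (h𝓣 F hF).1)
  intro ω hω hbad
  have hExt : Ext ρ ω.1 ω.2 := by
    have := (Finset.mem_filter.1 hω).2
    exact this
  obtain ⟨ρ1, e1, e2, e3, hno, Fs, hFs, hdis⟩ := hbad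
  have hst : ∀ f, SetTrue ρ1 f ↔ Mod_str ω I1 f := by
    intro f
    rw [Mod_setTrue, e1, e2, e3]
  have hemb : ∀ j, _ := fun j => hE k n w r ρ1 π (Fs j) (h𝓣 _ (hFs j).1).2 (h𝓣 _ (hFs j).1).1
    hwr hSB (hFs j).2
  choose G hG1 hG2 hG3 hG4 hG5 hG6 using hemb
  rw [e1, e3] at hG2
  -- enumeration of the groups
  set GG : Fin (q * w) → Grp k n := fun x =>
    G (finProdFinEquiv.symm x).1 (finProdFinEquiv.symm x).2 with hGG
  have gs : ∀ x, (GG x).supp.card ≤ 2 * w := fun x => hG1 _ _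
  have gI : ∀ x, ∀ v ∈ (GG x).supp, (ω.1 v).symm ((GG x).p v) ∈ I1 := fun x v hv => hG2 _ _ v hv
  have gc : ∀ x, crn k ∈ (GG x).supp → (GG x).p (crn k) ≠ 0 := fun x hx => hG3 _ _ hx
  have gne : ∀ x x', x ≠ x' → ∀ v, v ∈ (GG x).supp → v ∈ (GG x').supp →
      (GG x).p v ≠ (GG x').p v := by
    intro x x' hxx v hv hv'
    by_cases hj : (finProdFinEquiv.symm x).1 = (finProdFinEquiv.symm x').1
    · have hg : (finProdFinEquiv.symm x).2 ≠ (finProdFinEquiv.symm x').2 := by
        intro hg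
        apply hxx
        apply finProdFinEquiv.symm.injective
        exact Prod.ext hj hg
      have := hG4 (finProdFinEquiv.symm x).1 (finProdFinEquiv.symm x).2
        (finProdFinEquiv.symm x').2 hg v hv
      have hv'' : v ∈ (G (finProdFinEquiv.symm x).1 (finProdFinEquiv.symm x').2).supp := by
        rw [hj]
        exact hv'
      have h3 := this hv''
      intro h4
      apply h3
      have h5 : (GG x').p v = (G (finProdFinEquiv.symm x).1 (finProdFinEquiv.symm x').2).p v := by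
        rw [hj]
      rw [← h5, ← h4]
    · obtain ⟨f, hf, hfd, hft⟩ := hG6 _ _ v hv
      obtain ⟨f', hf', hfd', hft'⟩ := hG6 _ _ v hv'
      have := hdis _ _ hj f hf hfd f' hf' hfd'
      intro h4
      rw [Finset.disjoint_left] at this
      apply this hft
      have h5 : (G (finProdFinEquiv.symm x).1 (finProdFinEquiv.symm x).2).p v =
        (G (finProdFinEquiv.symm x').1 (finProdFinEquiv.symm x').2).p v := h4
      rw [h5]
      exact hft'
  -- the set D
  refine ⟨Finset.univ.biUnion (fun j => (Fs j).image (fun f => Mod_idx ω.1 f)), ?_, ?_⟩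
  · refine le_trans Finset.card_biUnion_le ?_
    have : ∀ j ∈ (Finset.univ : Finset (Fin q)), ((Fs j).image (fun f => Mod_idx ω.1 f)).card ≤ w :=
      fun j _ => le_trans Finset.card_image_le (h𝓣 _ (hFs j).1).1
    refine le_trans (Finset.sum_le_sum this) ?_
    simp
  intro i hi hiD
  have hiI : ∀ g, i g ∈ ρ.I := fun g => by
    have := hiD g
    simp only [Finset.mem_sdiff] at this
    exact this.1.1
  have hiI1 : ∀ g, i g ∉ I1 := fun g => by
    have := hiD g
    simp only [Finset.mem_sdiff] at this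
    exact this.1.2
  have hiD' : ∀ g, ∀ j, ∀ f ∈ Fs j, Mod_idx ω.1 f ≠ i g := by
    intro g j f hf he
    have := hiD g
    simp only [Finset.mem_sdiff] at this
    apply this.2
    rw [Finset.mem_biUnion]
    exact ⟨j, Finset.mem_univ _, Finset.mem_image.2 ⟨f, hf, he⟩⟩
  -- the code
  set rI : Fin (q * w) → Vx k → I1 := fun x v =>
    if h : (ω.1 v).symm ((GG x).p v) ∈ I1 then ⟨(ω.1 v).symm ((GG x).p v), h⟩ else ⟨0, h0⟩ with hrI
  have hrI' : ∀ x v, v ∈ (GG x).supp → (rI x v : Lb n) = (ω.1 v).symm ((GG x).p v) := by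
    intro x v hv
    simp only [hrI]
    rw [dif_pos (gI x v hv)]
  set s : Mod_C k w (q * w) I1 := Mod_code GG rI (fun x => ω.2 (i x)) with hs
  have hA : ∀ v x, x ∈ Mod_A s v ↔ v ∈ (GG x).supp := fun v x => Mod_A_code GG rI _ gs v x
  have hr : ∀ v x, v ∈ (GG x).supp → Mod_r s v x = (ω.1 v).symm ((GG x).p v) := by
    intro v x hv
    rw [hs, Mod_r_code GG rI _ gs v x hv, hrI' x v hv]
  -- the permutations
  have hP : ∀ v, Mod_P (Mod_A s v) i (Mod_r s v) (Mod_tau i s v) := by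
    intro v
    apply Mod_swp_spec
    apply hS n (q * w) (Mod_A s v) i (Mod_r s v)
    · intro x _ x' _ hxx h
      exact hxx (hi h)
    · intro x hx x' hx' hxx h
      rw [hA] at hx hx'
      rw [hr v x hx, hr v x' hx'] at h
      exact gne x x' hxx v hx hx' ((ω.1 v).symm.injective h)
    · intro x _ x' hx' h
      rw [hA] at hx'
      rw [hr v x' hx'] at h
      apply hiI1 x
      rw [h]
      exact gI x' v hx'
  have t1 : ∀ v x, v ∈ (GG x).supp → Mod_tau i s v (i x) = (ω.1 v).symm ((GG x).p v) := by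
    intro v x hv
    rw [(hP v).1 x ((hA v x).2 hv), hr v x hv]
  have t3 : ∀ v y, (∀ x, y ≠ i x) → (∀ x, v ∈ (GG x).supp → y ≠ (ω.1 v).symm ((GG x).p v)) →
      Mod_tau i s v y = y := by
    intro v y h1 h2
    apply (hP v).2.2
    intro x hx
    rw [hA] at hx
    refine ⟨h1 x, ?_⟩
    rw [hr v x hx]
    exact h2 x hx
  have t4 : ∀ v y, (∀ x, y ≠ i x) → y ∉ I1 → Mod_tau i s v y = y := by
    intro v y h1 h2
    refine t3 v y h1 ?_
    intro x hx h3
    apply h2
    rw [h3]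
    exact gI x v hx
  set ω' : Mod_W k n := Mod_new ω i s (fun x => (GG x).c) with hω'
  have n1 : ∀ v y, ω'.1 v y = ω.1 v (Mod_tau i s v y) := by
    intro v y
    rfl
  have n2 : ∀ x, ω'.2 (i x) = (GG x).c := by
    intro x
    have h : ∃ g, i g = i x := ⟨x, rfl⟩
    have h2 : h.choose = x := hi h.choose_spec
    change (if h : ∃ g, i g = i x then (GG h.choose).c else ω.2 (i x)) = (GG x).c
    rw [dif_pos h, h2]
  have n3 : ∀ y, (∀ x, y ≠ i x) → ω'.2 y = ω.2 y := by
    intro y hy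
    have h : ¬ ∃ g, i g = y := by
      rintro ⟨g, hg⟩
      exact hy g hg.symm
    change (if h : ∃ g, i g = y then (GG h.choose).c else ω.2 y) = ω.2 y
    rw [dif_neg h]
  have n4 : ∀ f x, (∀ g, x ≠ i g) → x ∉ I1 → (Mod_on ω' x f ↔ Mod_on ω x f) := by
    intro f x h1 h2
    apply Mod_on_congr
    · intro v
      rw [n1, t4 v x h1 h2]
    · exact n3 x h1
  have n5 : ∀ x f, Carries (GG x) f → Mod_on ω' (i x) f := by
    intro x f hc
    apply Mod_on_of_carries hc
    · intro v hv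
      rw [n1, t1 v x hv, Equiv.apply_symm_apply]
    · exact n2 x
  -- facts of Fs j
  have key : ∀ j, ∀ f ∈ Fs j, f ∉ π → (Mod_on ω' (Mod_idx ω'.1 f) f ∧ Mod_idx ω'.1 f ∉ I1 ∧
      ∀ g, Mod_idx ω'.1 f = i g → (finProdFinEquiv.symm g).1 = j) := by
    intro j f hf hfπ
    by_cases hd : Dec ρ1 π f
    · rcases hd with hd | hd
      · exact absurd hd hfπ
      · obtain ⟨x, hx1, hx2⟩ := (hst f).1 hd
        have hx3 : Mod_idx ω.1 f = x := Mod_idx_of_on hx2
        have hx4 : ∀ g, x ≠ i g := by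
          intro g
          rw [← hx3]
          exact hiD' g j f hf
        have hx5 : Mod_on ω' x f := (n4 f x hx4 hx1).2 hx2
        have hx6 : Mod_idx ω'.1 f = x := Mod_idx_of_on hx5
        rw [hx6]
        exact ⟨hx5, hx1, fun g hg => absurd hg (hx4 g)⟩
    · obtain ⟨g, hg⟩ := hG5 j f hf hd
      have hgg : GG (finProdFinEquiv (j, g)) = G j g := by
        simp only [hGG, Equiv.symm_apply_apply]
      have h5 : Mod_on ω' (i (finProdFinEquiv (j, g))) f := by
        apply n5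
        rw [hgg]
        exact hg
      have h6 : Mod_idx ω'.1 f = i (finProdFinEquiv (j, g)) := Mod_idx_of_on h5
      rw [h6]
      refine ⟨h5, hiI1 _, ?_⟩
      intro g' hg'
      rw [← hi hg', Equiv.symm_apply_apply]
  refine ⟨ω', ?_, s, Mod_rec_new ω i s _ (fun x => rfl), ?_, fun j => Mod_tr ω' π (Fs j), ?_, ?_⟩
  · -- ω' is an extension of ρ
    have : Ext ρ ω'.1 ω'.2 := by
      refine ⟨?_, ?_, ?_⟩
      · intro v y hy
        have hy1 : ∀ x, y ≠ i x := fun x h => hy (h ▸ hiI x)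
        have hy2 : y ∉ I1 := fun h => hy (hI1 h)
        rw [n1, t4 v y hy1 hy2]
        exact hExt.beta v y hy
      · intro y hy
        have hy1 : ∀ x, y ≠ i x := fun x h => hy (h ▸ hiI x)
        rw [n3 y hy1]
        exact hExt.zeta y hy
      · rw [n1]
        have : Mod_tau i s (crn k) 0 = 0 := by
          apply t3
          · intro x hx
            exact hiI1 x (hx ▸ h0)
          · intro x hx h
            apply gc x hx
            rw [(Equiv.symm_apply_eq _).1 h.symm]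
            exact hExt.corner
        rw [this]
        exact hExt.corner
    exact Finset.mem_filter.2 ⟨Finset.mem_univ _, this⟩
  · -- every trace meets the image of i
    rintro E ⟨F, hF, hF2, rfl⟩
    by_contra hcon
    apply hno
    refine ⟨F, hF, ?_⟩
    intro f hf
    by_cases hfπ : f ∈ π
    · exact Or.inl hfπ
    · right
      rcases hF2 f hf with h | ⟨x, hx1, hx2⟩
      · exact absurd h hfπ
      · rw [hst]
        have hx3 : Mod_idx ω'.1 f = x := Mod_idx_of_on hx2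
        have hx4 : ∀ g, x ≠ i g := by
          intro g hg
          apply hcon
          refine ⟨g, ?_⟩
          unfold Mod_tr
          rw [Finset.mem_image]
          exact ⟨f, Finset.mem_filter.2 ⟨hf, hfπ⟩, by rw [hx3, hg]⟩
        exact ⟨x, hx1, (n4 f x hx4 hx1).1 hx2⟩
  · intro j
    refine ⟨Fs j, (hFs j).1, ?_, rfl⟩
    intro f hf
    by_cases hfπ : f ∈ π
    · exact Or.inl hfπ
    · right
      exact ⟨_, (key j f hf hfπ).2.1, (key j f hf hfπ).1⟩
  · intro j j' hjj g hg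
    obtain ⟨h1, h2⟩ := hg
    unfold Mod_tr at h1 h2
    rw [Finset.mem_image] at h1 h2
    obtain ⟨f, hf, hfe⟩ := h1
    obtain ⟨f', hf', hfe'⟩ := h2
    rw [Finset.mem_filter] at hf hf'
    apply hjj
    rw [← (key j f hf.1 hf.2).2.2 g hfe, ← (key j' f' hf'.1 hf'.2).2.2 g hfe']

end Pool.Agent.Work.MP_610017_lc

end

section

/-!
# Block A, items NbSymm, NbLevel, StarClosed, StarValid (MP_610017_lc)
-/

set_option autoImplicit false

namespace Pool.Agent.Work.MP_610017_lc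

theorem NbSymm_du {k : ℕ} (x : Fin (k + 1)) (h : x.val < k) : dn1 (up1 x) = x := by
  apply Fin.ext
  show min (x.val + 1) k - 1 = x.val
  omega

theorem NbSymm_uu {k : ℕ} (x : Fin (k + 1)) (h : ¬ x.val < k) : up1 (up1 x) = x := by
  apply Fin.ext
  show min (min (x.val + 1) k + 1) k = x.val
  have := x.isLt
  omega

theorem NbSymm_ud {k : ℕ} (x : Fin (k + 1)) (h : 0 < x.val) : up1 (dn1 x) = x := by
  apply Fin.ext
  show min (x.val - 1 + 1) k = x.val
  have := x.isLt
  omega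

theorem NbSymm_dd {k : ℕ} (x : Fin (k + 1)) (h : ¬ 0 < x.val) : dn1 (dn1 x) = x := by
  apply Fin.ext
  show x.val - 1 - 1 = x.val
  omega

theorem NbSymm_0 {k : ℕ} (v : Vx k) : nb v 0 = (up1 v.1, v.2) := rfl

theorem NbSymm_1 {k : ℕ} (v : Vx k) : nb v 1 = (v.1, up1 v.2) := rfl

theorem NbSymm_2 {k : ℕ} (v : Vx k) : nb v 2 = (dn1 v.1, v.2) := rfl

theorem NbSymm_3 {k : ℕ} (v : Vx k) : nb v 3 = (v.1, dn1 v.2) := rfl

theorem prf_NbSymm : S_NbSymm := by
  intro k v d
  obtain ⟨x, y⟩ := v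
  fin_cases d
  · show ∃ d', (x, y) = nb (nb (x, y) 0) d'
    by_cases h : x.val < k
    · refine ⟨2, ?_⟩
      rw [NbSymm_0, NbSymm_2]
      simp only [NbSymm_du x h]
    · refine ⟨0, ?_⟩
      rw [NbSymm_0, NbSymm_0]
      simp only [NbSymm_uu x h]
  · show ∃ d', (x, y) = nb (nb (x, y) 1) d'
    by_cases h : y.val < k
    · refine ⟨3, ?_⟩
      rw [NbSymm_1, NbSymm_3]
      simp only [NbSymm_du y h]
    · refine ⟨1, ?_⟩
      rw [NbSymm_1, NbSymm_1]
      simp only [NbSymm_uu y h]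
  · show ∃ d', (x, y) = nb (nb (x, y) 2) d'
    by_cases h : 0 < x.val
    · refine ⟨0, ?_⟩
      rw [NbSymm_2, NbSymm_0]
      simp only [NbSymm_ud x h]
    · refine ⟨2, ?_⟩
      rw [NbSymm_2, NbSymm_2]
      simp only [NbSymm_dd x h]
  · show ∃ d', (x, y) = nb (nb (x, y) 3) d'
    by_cases h : 0 < y.val
    · refine ⟨1, ?_⟩
      rw [NbSymm_3, NbSymm_1]
      simp only [NbSymm_ud y h]
    · refine ⟨3, ?_⟩
      rw [NbSymm_3, NbSymm_3]
      simp only [NbSymm_dd y h]

theorem prf_NbLevel : S_NbLevel := by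
  intro k v d
  obtain ⟨x, y⟩ := v
  have hu : ∀ z : Fin (k + 1), (up1 z).val = min (z.val + 1) k := fun _ => rfl
  have hd : ∀ z : Fin (k + 1), (dn1 z).val = z.val - 1 := fun _ => rfl
  have hx := x.isLt
  have hy := y.isLt
  fin_cases d
  · show ((nb (x, y) 0).2.val ≤ y.val + 1 ∧ y.val ≤ (nb (x, y) 0).2.val + 1) ∧
      (max (nb (x, y) 0).1.val (nb (x, y) 0).2.val ≤ max x.val y.val + 1 ∧
        max x.val y.val ≤ max (nb (x, y) 0).1.val (nb (x, y) 0).2.val + 1)
    rw [NbSymm_0]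
    simp only [hu]
    omega
  · show ((nb (x, y) 1).2.val ≤ y.val + 1 ∧ y.val ≤ (nb (x, y) 1).2.val + 1) ∧
      (max (nb (x, y) 1).1.val (nb (x, y) 1).2.val ≤ max x.val y.val + 1 ∧
        max x.val y.val ≤ max (nb (x, y) 1).1.val (nb (x, y) 1).2.val + 1)
    rw [NbSymm_1]
    simp only [hu]
    omega
  · show ((nb (x, y) 2).2.val ≤ y.val + 1 ∧ y.val ≤ (nb (x, y) 2).2.val + 1) ∧
      (max (nb (x, y) 2).1.val (nb (x, y) 2).2.val ≤ max x.val y.val + 1 ∧
        max x.val y.val ≤ max (nb (x, y) 2).1.val (nb (x, y) 2).2.val + 1)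
    rw [NbSymm_2]
    simp only [hd]
    omega
  · show ((nb (x, y) 3).2.val ≤ y.val + 1 ∧ y.val ≤ (nb (x, y) 3).2.val + 1) ∧
      (max (nb (x, y) 3).1.val (nb (x, y) 3).2.val ≤ max x.val y.val + 1 ∧
        max x.val y.val ≤ max (nb (x, y) 3).1.val (nb (x, y) 3).2.val + 1)
    rw [NbSymm_3]
    simp only [hd]
    omega

theorem StarClosed_mem {k n : ℕ} {v : Vx k} {a : Lb n} {b : Fin 4 → Lb n} {c : Bool}
    {f : Fact k n} : f ∈ star v a b c ↔ (∃ d, Fact.edge v (nb v d) a (b d) = f) ∨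
      (∃ d, Fact.edge (nb v d) v (b d) a = f) ∨ (bd v = true ∧ f = Fact.col v a c) := by
  unfold star
  rw [Finset.mem_union, Finset.mem_union, or_assoc]
  refine or_congr ?_ (or_congr ?_ ?_)
  · simp
  · simp
  · by_cases h : bd v = true
    · rw [if_pos h]
      simp [h]
    · rw [if_neg h]
      simp [h]

theorem prf_StarClosed : S_StarClosed := by
  intro k n ω v a b c f hs hv ht hf
  rw [StarClosed_mem]
  cases f with
  | edge u w x y =>
    obtain ⟨d, rfl⟩ := hv
    have ht' : (v, a) = (u, x) ∨ (v, a) = (nb u d, y) := by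
      simpa [touch] using ht
    rcases ht' with h | h
    · obtain ⟨rfl, rfl⟩ := Prod.ext_iff.1 h
      have h1 : holds ω (Fact.edge v (nb v d) a (b d)) :=
        hs _ (StarClosed_mem.2 (Or.inl ⟨d, rfl⟩))
      have h2 : (ω.β v).symm a = (ω.β (nb v d)).symm (b d) := h1
      have h3 : (ω.β v).symm a = (ω.β (nb v d)).symm y := hf
      rw [h2] at h3
      have h4 : b d = y := (ω.β (nb v d)).symm.injective h3
      exact Or.inl ⟨d, by rw [h4]⟩
    · have hv' : v = nb u d := (Prod.ext_iff.1 h).1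
      have ha : a = y := (Prod.ext_iff.1 h).2
      obtain ⟨d', hd'⟩ := prf_NbSymm k u d
      rw [← hv'] at hd' ⊢
      subst ha
      have h1 : holds ω (Fact.edge (nb v d') v (b d') a) :=
        hs _ (StarClosed_mem.2 (Or.inr (Or.inl ⟨d', rfl⟩)))
      have h2 : (ω.β (nb v d')).symm (b d') = (ω.β v).symm a := h1
      have h3 : (ω.β u).symm x = (ω.β v).symm a := by
        have h5 : (ω.β u).symm x = (ω.β (nb u d)).symm a := hf
        rwa [← hv'] at h5
      rw [← hd', ← h3] at h2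
      have h4 : b d' = x := (ω.β u).symm.injective h2
      exact Or.inr (Or.inl ⟨d', by rw [h4, ← hd']⟩)
  | col u x c' =>
    have ht' : (v, a) = (u, x) := by
      simpa [touch] using ht
    obtain ⟨rfl, rfl⟩ := Prod.ext_iff.1 ht'
    have hb : bd v = true := hv
    have h1 : holds ω (Fact.col v a c) :=
      hs _ (StarClosed_mem.2 (Or.inr (Or.inr ⟨hb, rfl⟩)))
    have h2 : if (ω.β v).symm a = 0 then ω.χ v = some c else ω.ζ ((ω.β v).symm a) = c := h1
    have h3 : if (ω.β v).symm a = 0 then ω.χ v = some c' else ω.ζ ((ω.β v).symm a) = c' := hf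
    have h4 : c' = c := by
      by_cases h0 : (ω.β v).symm a = 0
      · rw [if_pos h0] at h2 h3
        rw [h2] at h3
        exact (Option.some.inj h3).symm
      · rw [if_neg h0] at h2 h3
        exact h3.symm.trans h2
    exact Or.inr (Or.inr ⟨hb, by rw [h4]⟩)

theorem prf_StarValid : S_StarValid := by
  intro k n v a b c
  constructor
  · unfold star
    have h1 : (Finset.univ.image fun d : Fin 4 => Fact.edge v (nb v d) a (b d)).card ≤ 4 := by
      have := Finset.card_image_le (s := (Finset.univ : Finset (Fin 4)))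
        (f := fun d => Fact.edge v (nb v d) a (b d))
      simpa using this
    have h2 : (Finset.univ.image fun d : Fin 4 => Fact.edge (nb v d) v (b d) a).card ≤ 4 := by
      have := Finset.card_image_le (s := (Finset.univ : Finset (Fin 4)))
        (f := fun d => Fact.edge (nb v d) v (b d) a)
      simpa using this
    have h3 : (if bd v = true then ({Fact.col v a c} : Finset (Fact k n)) else ∅).card ≤ 1 := by
      split_ifs
      · rw [Finset.card_singleton]
      · rw [Finset.card_empty]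
        exact Nat.zero_le 1
    have h4 := Finset.card_union_le
      ((Finset.univ.image fun d : Fin 4 => Fact.edge v (nb v d) a (b d)) ∪
        (Finset.univ.image fun d : Fin 4 => Fact.edge (nb v d) v (b d) a))
      (if bd v = true then ({Fact.col v a c} : Finset (Fact k n)) else ∅)
    have h5 := Finset.card_union_le
      (Finset.univ.image fun d : Fin 4 => Fact.edge v (nb v d) a (b d))
      (Finset.univ.image fun d : Fin 4 => Fact.edge (nb v d) v (b d) a)
    omega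
  · intro f hf
    rcases StarClosed_mem.1 hf with ⟨d, rfl⟩ | ⟨d, rfl⟩ | ⟨h, rfl⟩
    · exact ⟨d, rfl⟩
    · exact prf_NbSymm k v d
    · exact h

end Pool.Agent.Work.MP_610017_lc

end

section

/-!
# MP_610017_lc, block A, item OR
-/

set_option autoImplicit false

namespace Pool.Agent.Work.MP_610017_lc

/-- the number of tasks -/
theorem or_count (a n1 B hb cι cS : ℕ) (h2 : 2 ≤ n1) (hn : n1 ≤ a ^ B) (hι : cι ≤ a ^ B)
    (hS : cS ≤ (2 * n1 ^ 4) ^ hb) : cι * cS ≤ a ^ (B * (1 + 5 * hb)) := by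
  have h1 : (2 * n1 ^ 4) ^ hb ≤ ((a ^ B) ^ 5) ^ hb := by
    apply Nat.pow_le_pow_left
    calc 2 * n1 ^ 4 ≤ n1 * n1 ^ 4 := Nat.mul_le_mul_right _ h2
      _ = n1 ^ 5 := by ring
      _ ≤ (a ^ B) ^ 5 := Nat.pow_le_pow_left hn 5
  calc cι * cS ≤ a ^ B * ((a ^ B) ^ 5) ^ hb := Nat.mul_le_mul hι (hS.trans h1)
    _ = a ^ (B * (1 + 5 * hb)) := by
      rw [← pow_mul, ← pow_mul, ← pow_add]
      congr 1
      ring

theorem prf_OR (hR : S_Round) (hB : S_Ball) (hC : S_BrCount) (hG : S_Graft) (hV : S_BrBasic)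
    (hM : S_HLeMono) : S_OR := by
  have _ := hM
  classical
  intro w B
  obtain ⟨h1, A, m1, hA, hRd⟩ := hR (9 * w) (9 * w) (B * (1 + 5 * (9 * w + 1) ^ 2))
  refine ⟨(9 * w + 1) ^ 2 + h1, A, m1 + 2, hA, ?_⟩
  intro k n m ρ ι _ M Tx hm hk hρ hn hι hTx
  obtain ⟨TB, hTB, hSB⟩ := hB k n (9 * w)
  obtain ⟨S, hS, hSm⟩ := hC k n ((9 * w + 1) ^ 2) TB hTB
  have hm1 : m1 ≤ m := by omega
  have hm2 : 2 ≤ m := by omega
  have hmA : m ≤ m ^ A := Nat.le_self_pow (by omega) m
  have hn2 : 2 ≤ n + 1 := by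
    have h3 : ρ.I.card ≤ n + 1 := by
      have := Finset.card_le_univ ρ.I
      rwa [Fintype.card_fin] at this
    omega
  set S' : Finset (Finset (Fact k n)) := S.filter (fun π => ∃ r, Br TB π r) with hS'
  have hS'c : S'.card ≤ (2 * (n + 1) ^ 4) ^ ((9 * w + 1) ^ 2) :=
    (Finset.card_filter_le _ _).trans hS
  have hTT : ∀ i, ∀ F ∈ {F : Finset (Fact k n) | ∃ x, x ≤ M i ∧ Br (Tx i x) F true},
      F.card ≤ 9 * w ∧ ∀ f ∈ F, Valid f := by
    rintro i F ⟨x, hx, hF⟩
    exact hV k n w (Tx i x) F true (hTx i x hx) hF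
  obtain ⟨ρ', hle, hc, hT⟩ := hRd k n m ρ (ι × {π // π ∈ S'}) (fun p => p.2.1)
    (fun p => {F : Finset (Fact k n) | ∃ x, x ≤ M p.1 ∧ Br (Tx p.1 x) F true}) hm1 hk hρ
    (by
      refine hn.trans (Nat.pow_le_pow_right (by omega) ?_)
      exact Nat.le_mul_of_pos_right _ (by omega))
    (by
      rw [Fintype.card_prod, Fintype.card_coe]
      exact or_count (m ^ A) (n + 1) B ((9 * w + 1) ^ 2) _ _ hn2 hn hι hS'c)
    (by
      rintro ⟨i, π, hπ⟩
      obtain ⟨r, hr⟩ := (Finset.mem_filter.1 hπ).2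
      exact hSB π r hr)
    (fun p F hF => hTT p.1 F hF)
    (fun p F hF _ => (Finset.card_filter_le _ _).trans (hTT p.1 F hF).1)
  refine ⟨ρ', hle, hc, fun i => ?_⟩
  obtain ⟨T, hT1, hT2⟩ := hG k n ((9 * w + 1) ^ 2) h1 TB
    (fun F T => OrSet ρ' F {F : Finset (Fact k n) | ∃ x, x ≤ M i ∧ Br (Tx i x) F true} T) hTB
    (fun F r hF => hT (i, ⟨F, Finset.mem_filter.2 ⟨hSm F r hF, r, hF⟩⟩))
  refine ⟨T, hT1, ?_, ?_⟩
  · intro F hF hcon
    obtain ⟨F1, r1, F2, T2, _, hO, hB2, rfl⟩ := hT2 F true hF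
    obtain ⟨F', ⟨x, hx, hF'⟩, hd⟩ := hO.1 F2 hB2 hcon
    exact ⟨x, hx, F', hF', hd⟩
  · intro F hF x hx F' hF'
    obtain ⟨F1, r1, F2, T2, _, hO, hB2, rfl⟩ := hT2 F false hF
    exact hO.2 F2 hB2 F' ⟨x, hx, hF'⟩

end Pool.Agent.Work.MP_610017_lc

end

section

/-!
# Block A, item Reroute (MP_610017_lc)
-/

set_option autoImplicit false

namespace Pool.Agent.Work.MP_610017_lc

theorem Reroute_symm {n : ℕ} (σ : Equiv.Perm (Lb n)) (i a : Lb n) :
    (σ * Equiv.swap 0 i).symm a = Equiv.swap 0 i (σ.symm a) := by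
  show (Equiv.swap 0 i).symm (σ.symm a) = _
  rw [Equiv.symm_swap]

theorem prf_Reroute : S_Reroute := by
  intro k n ω F s ζ' χ' hF h1 h2 h3 f hf
  cases f with
  | edge v w a b =>
    have h : (ω.β v).symm a = (ω.β w).symm b := hF _ hf
    show (ω.β v * Equiv.swap 0 (s v)).symm a = (ω.β w * Equiv.swap 0 (s w)).symm b
    rw [Reroute_symm, Reroute_symm]
    by_cases h0 : (ω.β v).symm a = 0
    · have hs := h2 v w a b hf h0
      rw [← h, h0, hs]
    · have ha := (h1 _ hf v a (by simp [touch]) h0).1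
      rw [← h, Equiv.swap_apply_of_ne_of_ne h0 (ha v), Equiv.swap_apply_of_ne_of_ne h0 (ha w)]
  | col v a c =>
    have h := hF _ hf
    simp only [holds] at h ⊢
    rw [Reroute_symm]
    by_cases h0 : (ω.β v).symm a = 0
    · rw [h0, Equiv.swap_apply_left]
      by_cases hs : s v = 0
      · rw [if_pos hs]
        exact (h3 v a c hf h0).1 hs
      · rw [if_neg hs]
        exact (h3 v a c hf h0).2 hs
    · rw [if_neg h0] at h
      have ha := h1 _ hf v a (by simp [touch]) h0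
      rw [Equiv.swap_apply_of_ne_of_ne h0 (ha.1 v), if_neg h0, ha.2, h]

end Pool.Agent.Work.MP_610017_lc

end

section

/-!
# Block A: monotonicity in the restriction (items ResMono, RepMono, RepHLe; MP_610017_lc)
-/

set_option autoImplicit false

namespace Pool.Agent.Work.MP_610017_lc

theorem ResMono_ext {k n : ℕ} {ρ' ρ : Res k n} (h : ρ'.Le ρ)
    {β : Vx k → Equiv.Perm (Lb n)} {ζ : Lb n → Bool} (hE : Ext ρ' β ζ) : Ext ρ β ζ := by
  obtain ⟨hI, hR⟩ := h
  refine ⟨fun v i hi => ?_, fun i hi => ?_, hE.corner⟩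
  · rw [hE.beta v i (fun h1 => hi (hI h1)), hR.beta v i hi]
  · rw [hE.zeta i (fun h1 => hi (hI h1)), hR.zeta i hi]

theorem ResMono_con {k n : ℕ} {ρ' ρ : Res k n} (h : ρ'.Le ρ) {F : Finset (Fact k n)}
    (hF : Con ρ' F) : Con ρ F := by
  obtain ⟨ω, h1, h2, h3⟩ := hF
  exact ⟨ω, ResMono_ext h h1, h2, h3⟩

theorem ResMono_setTrue {k n : ℕ} {ρ' ρ : Res k n} (h : ρ'.Le ρ) {f : Fact k n}
    (hf : SetTrue ρ f) : SetTrue ρ' f := by
  obtain ⟨hI, hR⟩ := h
  cases f with
  | edge v w a b =>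
    obtain ⟨i, hi, h1, h2⟩ := hf
    refine ⟨i, fun h3 => hi (hI h3), ?_, ?_⟩
    · rw [hR.beta v i hi, h1]
    · rw [hR.beta w i hi, h2]
  | col v a c =>
    obtain ⟨i, hi, h1, h2⟩ := hf
    refine ⟨i, fun h3 => hi (hI h3), ?_, ?_⟩
    · rw [hR.beta v i hi, h1]
    · rw [hR.zeta i hi, h2]

theorem ResMono_orRep {k n : ℕ} {ρ' ρ : Res k n} (h : ρ'.Le ρ) {w m : ℕ}
    {Tx : ℕ → Tree k n} {T : Tree k n} (hO : OrRep ρ w m Tx T) : OrRep ρ' w m Tx T := by
  obtain ⟨h1, h2, h3⟩ := hO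
  refine ⟨h1, fun F hB hC => ?_, fun F hB x hx F' hB' hC => ?_⟩
  · obtain ⟨x, hx, F', hF', hD⟩ := h2 F hB (ResMono_con h hC)
    refine ⟨x, hx, F', hF', fun f hf => ?_⟩
    rcases hD f hf with h4 | h4
    · exact Or.inl h4
    · exact Or.inr (ResMono_setTrue h h4)
  · exact h3 F hB x hx F' hB' (ResMono_con h hC)

theorem prf_ResMono : S_ResMono := by
  intro k n ρ' ρ h
  refine ⟨fun β ζ hE => ResMono_ext h hE, fun F hF => ResMono_con h hF,
    fun f hf => ResMono_setTrue h hf, fun ρ'' h' => ?_, fun w m Tx T hO => ResMono_orRep h hO⟩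
  exact ⟨fun i hi => h.1 (h'.1 hi), ResMono_ext h h'.2⟩

theorem RepMono_orRep (hM : S_HLeMono) {k n : ℕ} {ρ : Res k n} {h h' m : ℕ}
    {Tx : ℕ → Tree k n} {T : Tree k n} (hh : h ≤ h') (hO : OrRep ρ h m Tx T) :
    OrRep ρ h' m Tx T :=
  ⟨hM k n h h' T hh hO.1, hO.2⟩

theorem prf_RepMono (hR : S_ResMono) (hM : S_HLeMono) : S_RepMono := by
  intro k n ρ' ρ h h' v φ e T hL hh
  have hO := (hR k n ρ' ρ hL).2.2.2.2
  induction φ generalizing T with
  | eq s t => exact fun hT => hT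
  | le s t => exact fun hT => hT
  | rel s =>
    rintro ⟨h1, h2⟩
    exact ⟨hM k n h h' T hh h1, h2⟩
  | neg φ ih =>
    rintro ⟨T1, h1, h2⟩
    exact ⟨T1, h1, ih _ _ h2⟩
  | and φ ψ ih1 ih2 =>
    rintro ⟨h1, T1, T2, h2, h3, h4⟩
    exact ⟨hM k n h h' T hh h1, T1, T2, h2, ih1 _ _ h3, ih2 _ _ h4⟩
  | bex t φ ih =>
    rintro ⟨Tx, h1, h2⟩
    exact ⟨Tx, fun x hx => ih _ _ (h1 x hx), RepMono_orRep hM hh (hO _ _ _ _ h2)⟩
  | ind φ ih =>
    rintro ⟨Tx, h1, h2⟩
    exact ⟨Tx, fun x hx => ih _ _ (h1 x hx), RepMono_orRep hM hh (hO _ _ _ _ h2)⟩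

theorem prf_RepHLe (hF : S_BrFlip) : S_RepHLe := by
  intro k n ρ h v φ e T
  induction φ generalizing T with
  | eq s t =>
    intro hT
    have h1 : T = .leaf (decide (s.val stdN e = t.val stdN e)) := hT
    rw [h1]
    cases h <;> trivial
  | le s t =>
    intro hT
    have h1 : T = .leaf (decide (s.val stdN e ≤ t.val stdN e)) := hT
    rw [h1]
    cases h <;> trivial
  | rel s => exact fun hT => hT.1
  | neg φ ih =>
    rintro ⟨T1, h1, h2⟩
    rw [h1]
    exact ((hF k n T1).2 h).2 (ih _ _ h2)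
  | and φ ψ ih1 ih2 => exact fun hT => hT.1
  | bex t φ ih =>
    rintro ⟨Tx, h1, h2⟩
    exact h2.1
  | ind φ ih =>
    rintro ⟨Tx, h1, h2⟩
    exact h2.1

end Pool.Agent.Work.MP_610017_lc

end

section

/-!
# MP_610017_lc, block A, item Round: the round lemma
-/

set_option autoImplicit false

namespace Pool.Agent.Work.MP_610017_lc

theorem Round_le_refl {k n : ℕ} (ρ : Res k n) : ρ.Le ρ :=
  ⟨Finset.Subset.refl _, ⟨fun _ _ _ => rfl, fun _ _ => rfl, ρ.corner⟩⟩

theorem Round_leaf {k n : ℕ} {r r' : Bool} {P : Finset (Fact k n)}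
    (h : Br (Tree.leaf r) P r') : P = ∅ ∧ r' = r := by
  cases h
  exact ⟨rfl, rfl⟩

theorem Round_con_sub {k n : ℕ} {ρ : Res k n} {F F' : Finset (Fact k n)} (h : F ⊆ F')
    (hc : Con ρ F') : Con ρ F := by
  obtain ⟨ω, h1, h2, h3⟩ := hc
  exact ⟨ω, h1, h2, fun f hf => h3 f (h hf)⟩

theorem Round_sb {k n r : ℕ} {F F' : Finset (Fact k n)} (h : F ⊆ F') (hs : SB r F) :
    SB r F' := by
  intro ω h0 h1 v hv1 hv2 f hf ht hh
  exact h (hs ω h0 (fun g hg => h1 g (h hg)) v hv1 hv2 f hf ht hh)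

/-- The arithmetic of the number of tasks. -/
theorem Round_num {m A1 A2 B hq n c N : ℕ} (hm : 1 ≤ m) (hn2 : 2 ≤ n + 1)
    (hn : n + 1 ≤ (m ^ (A2 * A1)) ^ B) (hc : c ≤ (m ^ (A2 * A1)) ^ B)
    (hN : N ≤ c * (2 * (n + 1) ^ 4) ^ hq) :
    N ≤ (m ^ A2) ^ (A1 * B * (1 + 5 * hq)) ∧ n + 1 ≤ (m ^ A2) ^ (A1 * B * (1 + 5 * hq)) := by
  have e : (m ^ (A2 * A1)) ^ B = (m ^ A2) ^ (A1 * B) := by
    rw [pow_mul, pow_mul]
  rw [e] at hn hc
  set X := (m ^ A2) ^ (A1 * B) with hX
  have hX1 : 1 ≤ X := Nat.one_le_pow _ _ (Nat.one_le_pow _ _ hm)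
  have e2 : (m ^ A2) ^ (A1 * B * (1 + 5 * hq)) = X * (X ^ 5) ^ hq := by
    rw [pow_mul, ← hX, pow_add, pow_one, pow_mul]
  rw [e2]
  constructor
  · refine hN.trans (Nat.mul_le_mul hc (Nat.pow_le_pow_left ?_ hq))
    calc 2 * (n + 1) ^ 4 ≤ (n + 1) * (n + 1) ^ 4 := Nat.mul_le_mul_right _ hn2
      _ = (n + 1) ^ 5 := by ring
      _ ≤ X ^ 5 := Nat.pow_le_pow_left hn 5
  · refine hn.trans ?_
    exact Nat.le_mul_of_pos_right _ (Nat.one_le_pow _ _ (Nat.one_le_pow _ _ hX1))

open Classical in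
theorem Round_card {k n : ℕ} (ι : Type) [Fintype ι] (S : ι → Finset (Finset (Fact k n)))
    (Z : ℕ) (hS : ∀ i, (S i).card ≤ Z) :
    Fintype.card (Σ i : ι, {P // P ∈ S i}) ≤ Fintype.card ι * Z := by
  rw [Fintype.card_sigma]
  calc ∑ i : ι, Fintype.card {P // P ∈ S i} ≤ ∑ _i : ι, Z := by
        refine Finset.sum_le_sum fun i _ => ?_
        rw [Fintype.card_coe]
        exact hS i
    _ = Fintype.card ι * Z := by simp

open Classical in
/-- The count of the undecided facts. -/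
theorem Round_undec (hS : S_StarClosed) (hR : S_ResMono) {k n j w : ℕ} {ρ ρ1 : Res k n}
    (hle : ρ1.Le ρ) {π P F : Finset (Fact k n)} {H : Finset (Vx k × Lb n)}
    (hF : F.card ≤ w ∧ ∀ f ∈ F, Valid f)
    (hH : Con ρ1 (π ∪ F) → ∃ f ∈ F, ¬ Dec ρ1 π f ∧ ¬ Disjoint (touch f) H)
    (hP : ∀ p ∈ H, ∃ b c, star p.1 p.2 b c ⊆ P)
    (hj : Con ρ (π ∪ F) → (F.filter (fun f => ¬ Dec ρ π f)).card ≤ j + 1)
    (hc : Con ρ1 (π ∪ P ∪ F)) :
    (F.filter (fun f => ¬ Dec ρ1 (π ∪ P) f)).card ≤ j := by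
  have hc1 : Con ρ1 (π ∪ F) := Round_con_sub (by
    intro f hf
    rcases Finset.mem_union.1 hf with h | h
    · exact Finset.mem_union_left _ (Finset.mem_union_left _ h)
    · exact Finset.mem_union_right _ h) hc
  obtain ⟨r1, r2, r3, -, -⟩ := hR k n ρ1 ρ hle
  have hj' := hj (r2 _ hc1)
  obtain ⟨f, hfF, hfd, hft⟩ := hH hc1
  obtain ⟨p, hp1, hp2⟩ := Finset.not_disjoint_iff.1 hft
  obtain ⟨b, c, hbc⟩ := hP p hp2
  obtain ⟨ω, h1, h2, h3⟩ := hc
  have hfs : f ∈ star p.1 p.2 b c := by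
    refine hS k n ω p.1 p.2 b c f (fun g hg => ?_) (hF.2 f hfF) hp1 ?_
    · exact h3 g (Finset.mem_union_left _ (Finset.mem_union_right _ (hbc hg)))
    · exact h3 f (Finset.mem_union_right _ hfF)
  have hdec : Dec ρ1 (π ∪ P) f := Or.inl (Finset.mem_union_right _ (hbc hfs))
  have hnd : ¬ Dec ρ π f := by
    rintro (h | h)
    · exact hfd (Or.inl h)
    · exact hfd (Or.inr (r3 f h))
  have hss : F.filter (fun f => ¬ Dec ρ1 (π ∪ P) f) ⊂ F.filter (fun f => ¬ Dec ρ π f) := by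
    rw [Finset.ssubset_iff_of_subset]
    · refine ⟨f, Finset.mem_filter.2 ⟨hfF, hnd⟩, fun h => ?_⟩
      exact (Finset.mem_filter.1 h).2 hdec
    · intro g hg
      rw [Finset.mem_filter] at hg ⊢
      refine ⟨hg.1, fun h => hg.2 ?_⟩
      rcases h with h | h
      · exact Or.inl (Finset.mem_union_left _ h)
      · exact Or.inr (r3 g h)
  have := Finset.card_lt_card hss
  omega

open Classical in
theorem prf_Round (hH : S_Hit) (hG : S_Greedy) (hQ : S_Query) (hC : S_BrCount) (hT : S_Graft)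
    (hS : S_StarClosed) (hR : S_ResMono) (hM : S_HLeMono) (hB : S_BrBasic) : S_Round := by
  have _hB := hB
  intro j
  induction j with
  | zero =>
    intro w B
    refine ⟨0, 1, 0, le_rfl, ?_⟩
    intro k n m ρ ι _ π 𝓣 _ _ hI _ _ _ _ hj
    refine ⟨ρ, Round_le_refl ρ, by rw [hI, pow_one], fun i => ?_⟩
    refine ⟨.leaf (decide (∃ F ∈ 𝓣 i, ∀ f ∈ F, Dec ρ (π i) f)), trivial, ?_, ?_⟩
    · intro P hP _
      obtain ⟨rfl, h2⟩ := Round_leaf hP
      rw [eq_comm, decide_eq_true_iff] at h2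
      rw [Finset.union_empty]
      exact h2
    · intro P hP F hF hc
      obtain ⟨rfl, h2⟩ := Round_leaf hP
      rw [eq_comm, decide_eq_false_iff_not] at h2
      rw [Finset.union_empty] at hc
      apply h2
      refine ⟨F, hF, fun f hf => ?_⟩
      by_contra hd
      have h3 := hj i F hF hc
      have h4 : f ∈ F.filter (fun f => ¬ Dec ρ (π i) f) := Finset.mem_filter.2 ⟨hf, hd⟩
      have h5 := Finset.card_pos.2 ⟨f, h4⟩
      omega
  | succ j ih =>
    intro w B
    obtain ⟨q, A1, m1, hA1, hit⟩ := hH w B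
    obtain ⟨h2, A2, m2, hA2, ih'⟩ := ih w (A1 * B * (1 + 5 * (2 * w * q)))
    refine ⟨2 * w * q + h2, A2 * A1, max (max m1 m2) 2, Nat.mul_pos hA2 hA1, ?_⟩
    intro k n m ρ ι _ π 𝓣 hm hk hI hn hι hSB hw hj
    have hm2 : 2 ≤ m := le_trans (le_max_right _ _) hm
    have hm1' : m1 ≤ m := le_trans (le_trans (le_max_left _ _) (le_max_left _ _)) hm
    have hm2' : m2 ≤ m := le_trans (le_trans (le_max_right _ _) (le_max_left _ _)) hm
    have hmA : m ≤ m ^ A2 := Nat.le_self_pow (by omega) m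
    have hn2 : 2 ≤ n + 1 := by
      have h3 : ρ.I.card ≤ n + 1 := by
        have := Finset.card_le_univ ρ.I
        rwa [Fintype.card_fin] at this
      have h4 : m ≤ m ^ (A2 * A1) := Nat.le_self_pow (Nat.mul_pos hA2 hA1).ne' m
      omega
    obtain ⟨ρ1, hle1, hI1, hbad⟩ := hit k n (m ^ A2) ρ ι π 𝓣 (hm1'.trans hmA) (hk.trans hmA)
      (by rw [hI, pow_mul]) (by rw [← pow_mul m A2 A1]; exact hι) hSB hw
    have hgr := fun i => hG k n w q ρ1 (π i) (𝓣 i) (fun F hF => (hw i F hF).1) (hbad i)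
    -- the query trees
    have hQt : ∀ i, ∃ Q : Tree k n, HLe (2 * w * q) Q ∧
        ((∃ F ∈ 𝓣 i, ∀ f ∈ F, Dec ρ1 (π i) f) ∨
          ∃ H : Finset (Vx k × Lb n), (∀ F ∈ 𝓣 i, Con ρ1 (π i ∪ F) →
            ∃ f ∈ F, ¬ Dec ρ1 (π i) f ∧ ¬ Disjoint (touch f) H) ∧
          ∀ F r, Br Q F r → ∀ p ∈ H, ∃ b c, star p.1 p.2 b c ⊆ F) := by
      intro i
      rcases hgr i with h | ⟨H, hH1, hH2⟩
      · exact ⟨.leaf true, by cases (2 * w * q) <;> trivial, Or.inl h⟩
      · obtain ⟨Q, hQ1, hQ2⟩ := hQ k n H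
        exact ⟨Q, hM k n _ _ Q hH1 hQ1, Or.inr ⟨H, hH2, hQ2⟩⟩
    choose Q hQ1 hQ2 using hQt
    choose S hS1 hS2 using fun i => hC k n (2 * w * q) (Q i) (hQ1 i)
    let S' : ι → Finset (Finset (Fact k n)) := fun i => (S i).filter (fun P => ∃ r, Br (Q i) P r)
    have hS1' : ∀ i, (S' i).card ≤ (2 * (n + 1) ^ 4) ^ (2 * w * q) := fun i =>
      (Finset.card_filter_le _ _).trans (hS1 i)
    have hcard := Round_card ι S' _ hS1'
    obtain ⟨n1, n2⟩ := Round_num (m := m) (A1 := A1) (A2 := A2) (B := B) (hq := 2 * w * q)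
      (by omega) hn2 hn hι hcard
    let G1 : ι → Prop := fun i => ∃ F ∈ 𝓣 i, ∀ f ∈ F, Dec ρ1 (π i) f
    obtain ⟨ρ', hle', hI', hρ'⟩ := ih' k n m ρ1 (Σ i : ι, {P // P ∈ S' i})
      (fun x => π x.1 ∪ x.2.1) (fun x => if G1 x.1 then ∅ else 𝓣 x.1) hm2' hk hI1 n2 n1
      (fun x => Round_sb Finset.subset_union_left (hSB x.1))
      (by
        intro x F hF
        by_cases hg : G1 x.1
        · rw [if_pos hg] at hF
          exact absurd hF (Set.notMem_empty F)
        · rw [if_neg hg] at hF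
          exact hw x.1 F hF)
      (by
        rintro ⟨i, P, hP⟩ F hF hc
        by_cases hg : G1 i
        · simp only [if_pos hg] at hF
          exact absurd hF (Set.notMem_empty F)
        · simp only [if_neg hg] at hF
          obtain ⟨r, hr⟩ := (Finset.mem_filter.1 hP).2
          rcases hQ2 i with h | ⟨H, hH1, hH2⟩
          · exact absurd h hg
          · exact Round_undec hS hR hle1 (hw i F hF) (hH1 F hF) (hH2 P r hr) (hj i F hF) hc)
    obtain ⟨-, -, r3, -, -⟩ := hR k n ρ' ρ1 hle'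
    refine ⟨ρ', (hR k n ρ1 ρ hle1).2.2.2.1 ρ' hle', hI', fun i => ?_⟩
    by_cases hg : G1 i
    · refine ⟨.leaf true, by cases (2 * w * q + h2) <;> trivial, ?_, ?_⟩
      · intro P _ _
        obtain ⟨F, hF, hd⟩ := hg
        refine ⟨F, hF, fun f hf => ?_⟩
        rcases hd f hf with h | h
        · exact Or.inl (Finset.mem_union_left _ h)
        · exact Or.inr (r3 f h)
      · intro P hP
        obtain ⟨-, h⟩ := Round_leaf hP
        exact absurd h (by decide)
    · obtain ⟨T, hT1, hT2⟩ := hT k n (2 * w * q) h2 (Q i)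
        (fun F T => OrSet ρ' (π i ∪ F) (𝓣 i) T) (hQ1 i) (by
          intro F r hr
          obtain ⟨T, hT1, hT2⟩ := hρ' ⟨i, F, Finset.mem_filter.2 ⟨hS2 i F r hr, r, hr⟩⟩
          simp only [if_neg hg] at hT2
          exact ⟨T, hT1, hT2⟩)
      refine ⟨T, hT1, ?_, ?_⟩
      · intro P hP hc
        obtain ⟨F1, r1, F2, T2, hb1, ho, hb2, rfl⟩ := hT2 P true hP
        rw [← Finset.union_assoc] at hc ⊢
        exact ho.1 F2 hb2 hc
      · intro P hP F hF hc
        obtain ⟨F1, r1, F2, T2, hb1, ho, hb2, rfl⟩ := hT2 P false hP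
        rw [← Finset.union_assoc] at hc
        exact ho.2 F2 hb2 F hF hc

end Pool.Agent.Work.MP_610017_lc

end

section

/-!
# Item Seq: the diagonal construction (MP_610017_lc)
-/

set_option autoImplicit false

namespace Pool.Agent.Work.MP_610017_lc

/-- the exponents `B_j = A_0 ... A_(j-1)` -/
def Seq_B (A : ℕ → ℕ → ℕ) : ℕ → ℕ
  | 0 => 1
  | j + 1 => Seq_B A j * A j (Seq_B A j)

theorem Seq_B_prod (A : ℕ → ℕ → ℕ) (j : ℕ) :
    Seq_B A j = ∏ l ∈ Finset.range j, A l (Seq_B A l) := by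
  induction j with
  | zero => simp [Seq_B]
  | succ j ih =>
    rw [Finset.prod_range_succ, ← ih]
    rfl

/-- the full restriction -/
def Seq_top (k n : ℕ) : Res k n where
  β := fun _ => 1
  ζ := fun _ => true
  I := Finset.univ
  zero_mem := Finset.mem_univ _
  corner := rfl

theorem Seq_le_pow (m c : ℕ) (hc : 1 ≤ c) : m ≤ m ^ c := by
  rcases Nat.eq_zero_or_pos m with h | h
  · rw [h]
    exact Nat.zero_le _
  · calc m = m ^ 1 := (pow_one m).symm
      _ ≤ m ^ c := Nat.pow_le_pow_right h hc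

theorem prf_Seq (hE : S_Exist) (hC : S_Countable) (hR : S_ResMono) (hM : S_RepMono) :
    S_Seq := by
  classical
  have _ := hR
  haveI : Countable (Σ v : ℕ, Gm v) := hC
  haveI : Nonempty ((Σ v : ℕ, Gm v) × ℕ) := ⟨(⟨0, Gm.eq Tm.zero Tm.zero⟩, 0)⟩
  obtain ⟨p, hp⟩ := exists_surjective_nat ((Σ v : ℕ, Gm v) × ℕ)
  choose h A m0 hA H using hE
  let AA : ℕ → ℕ → ℕ := fun j B => A (p j).1.1 (p j).1.2 (p j).2 B
  let B : ℕ → ℕ := Seq_B AA
  let Aj : ℕ → ℕ := fun j => AA j (B j)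
  let hj : ℕ → ℕ := fun j => h (p j).1.1 (p j).1.2 (p j).2 (B j)
  let mj : ℕ → ℕ := fun j => m0 (p j).1.1 (p j).1.2 (p j).2 (B j)
  have hAj : ∀ j, 1 ≤ Aj j := fun j => hA _ _ _ _
  have hBj : ∀ j, B j = ∏ l ∈ Finset.range j, Aj l := fun j => Seq_B_prod AA j
  have Hj : ∀ (j k n m : ℕ) (ρ : Res k n), mj j ≤ m → (k + 1) ^ 2 ≤ m → ρ.I.card = m ^ Aj j →
      n + 1 ≤ (m ^ Aj j) ^ B j → ∃ ρ' : Res k n, ρ'.Le ρ ∧ ρ'.I.card = m ∧
      ∀ e : Fin (p j).1.1 → ℕ, (∀ l, e l ≤ (n + 1) ^ (p j).2) →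
        ∃ T, Rep ρ' (hj j) (p j).1.2 e T :=
    fun j k n m ρ h1 h2 h3 h4 => H _ _ _ _ k n m ρ h1 h2 h3 h4
  have key : ∀ i : ℕ, ∃ (k n : ℕ) (ρ : Res k n), i ≤ k ∧ i ≤ ρ.I.card ∧ 2 ^ k ≤ n + 1 ∧
      ∀ j ≤ i, ∀ e : Fin (p j).1.1 → ℕ, (∀ l, e l ≤ (n + 1) ^ (p j).2) →
        ∃ T, Rep ρ (hj j) (p j).1.2 e T := by
    intro i
    obtain ⟨k, hk⟩ : ∃ k, k = i + 1 := ⟨_, rfl⟩
    obtain ⟨m, hm1, hm2, hm3, hm4⟩ : ∃ m : ℕ, i + 2 ≤ m ∧ (k + 1) ^ 2 ≤ m ∧ 2 ^ k ≤ m ∧
        ∀ j ≤ i, mj j ≤ m := by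
      obtain ⟨P, hP⟩ : ∃ P : ℕ, P = 2 ^ k := ⟨_, rfl⟩
      obtain ⟨Q, hQ⟩ : ∃ Q : ℕ, Q = (k + 1) ^ 2 := ⟨_, rfl⟩
      rw [← hP, ← hQ]
      refine ⟨i + 2 + Q + P + ∑ j ∈ Finset.range (i + 1), mj j, by omega, by omega,
        by omega, fun j hj => ?_⟩
      have := Finset.single_le_sum (f := mj) (s := Finset.range (i + 1)) (fun _ _ => Nat.zero_le _)
        (Finset.mem_range.2 (Nat.lt_succ_of_le hj))
      omega
    obtain ⟨a, ha⟩ : ∃ a : ℕ → ℕ, ∀ j, a j = m ^ ∏ l ∈ Finset.Ico j (i + 1), Aj l :=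
      ⟨_, fun _ => rfl⟩
    have ha1 : ∀ j, m ≤ a j := by
      intro j
      rw [ha]
      exact Seq_le_pow _ _ (Finset.one_le_prod' fun l _ => hAj l)
    have ha2 : ∀ j ≤ i, a j = a (j + 1) ^ Aj j := by
      intro j hji
      rw [ha, ha, ← pow_mul, Finset.prod_eq_prod_Ico_succ_bot (Nat.lt_succ_of_le hji), mul_comm]
    have ha3 : ∀ j ≤ i, a 0 = a j ^ B j := by
      intro j hji
      rw [ha, ha, ← pow_mul, hBj, mul_comm, Finset.prod_range_mul_prod_Ico _ (by omega),
        Finset.range_eq_Ico]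
    have ha4 : a (i + 1) = m := by
      rw [ha, Finset.Ico_self, Finset.prod_empty, pow_one]
    obtain ⟨n, hn⟩ : ∃ n, n + 1 = a 0 := ⟨a 0 - 1, by have := ha1 0; omega⟩
    have claim : ∀ j ≤ i + 1, ∃ ρ : Res k n, ρ.I.card = a j ∧
        ∀ j' < j, ∀ e : Fin (p j').1.1 → ℕ, (∀ l, e l ≤ (n + 1) ^ (p j').2) →
          ∃ T, Rep ρ (hj j') (p j').1.2 e T := by
      intro j
      induction j with
      | zero =>
        intro _
        refine ⟨Seq_top k n, ?_, fun j' hj' => absurd hj' (Nat.not_lt_zero _)⟩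
        show (Finset.univ : Finset (Lb n)).card = a 0
        rw [Finset.card_univ, Fintype.card_fin, hn]
      | succ j ih =>
        intro hji
        obtain ⟨ρ, hρ1, hρ2⟩ := ih (by omega)
        have hji' : j ≤ i := by omega
        obtain ⟨ρ', h1, h2, h3⟩ := Hj j k n (a (j + 1)) ρ ((hm4 j hji').trans (ha1 _))
          (hm2.trans (ha1 _)) (by rw [hρ1, ha2 j hji']) (by rw [← ha2 j hji', ← ha3 j hji', hn])
        refine ⟨ρ', h2, fun j' hj' e he => ?_⟩
        rcases Nat.lt_succ_iff_lt_or_eq.1 hj' with hlt | heq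
        · obtain ⟨T, hT⟩ := hρ2 j' hlt e he
          exact ⟨T, hM _ _ _ _ _ _ _ _ _ _ h1 le_rfl hT⟩
        · subst heq
          exact h3 e he
    obtain ⟨ρ, hρ1, hρ2⟩ := claim (i + 1) le_rfl
    refine ⟨k, n, ρ, by omega, ?_, ?_, fun j hji => hρ2 j (Nat.lt_succ_of_le hji)⟩
    · rw [hρ1, ha4]
      omega
    · rw [hn]
      exact hm3.trans (ha1 0)
  choose kk nn ρ h1 h2 h3 h4 using key
  refine ⟨⟨kk, nn, ρ, h1, h2, h3, fun v φ J => ?_⟩⟩
  obtain ⟨j, hj1⟩ := hp (⟨v, φ⟩, J)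
  have h5 : ∀ (x : (Σ v : ℕ, Gm v) × ℕ), p j = x → ∀ i, j ≤ i → ∀ e : Fin x.1.1 → ℕ,
      (∀ l, e l ≤ (nn i + 1) ^ x.2) → ∃ T, Rep (ρ i) (hj j) x.1.2 e T := by
    rintro x rfl i hi
    exact h4 i j hi
  exact ⟨hj j, j, fun i hi e he => h5 _ hj1 i hi e he⟩

end Pool.Agent.Work.MP_610017_lc

end

section

/-!
# Exchange permutations (MP_610017_lc, block A)
-/

set_option autoImplicit false

namespace Pool.Agent.Work.MP_610017_lc

theorem prf_Swap : S_Swap := by
  intro n t A f g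
  induction A using Finset.induction_on with
  | empty =>
    intro _ _ _
    exact ⟨1, by simp, by simp, by simp⟩
  | insert a A ha ih =>
    intro hf hg hfg
    obtain ⟨τ, h1, h2, h3⟩ := ih
      (fun i hi j hj => hf i (Finset.mem_insert_of_mem hi) j (Finset.mem_insert_of_mem hj))
      (fun i hi j hj => hg i (Finset.mem_insert_of_mem hi) j (Finset.mem_insert_of_mem hj))
      (fun i hi j hj => hfg i (Finset.mem_insert_of_mem hi) j (Finset.mem_insert_of_mem hj))
    have haA := Finset.mem_insert_self a A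
    have hne : ∀ i ∈ A, i ≠ a := fun i hi h => ha (h ▸ hi)
    have hff : ∀ i ∈ A, f i ≠ f a := fun i hi =>
      hf i (Finset.mem_insert_of_mem hi) a haA (hne i hi)
    have hgg : ∀ i ∈ A, g i ≠ g a := fun i hi =>
      hg i (Finset.mem_insert_of_mem hi) a haA (hne i hi)
    have hfg1 : ∀ i ∈ A, f i ≠ g a := fun i hi => hfg i (Finset.mem_insert_of_mem hi) a haA
    have hfg2 : ∀ i ∈ A, f a ≠ g i := fun i hi => hfg a haA i (Finset.mem_insert_of_mem hi)
    have hτf : τ (f a) = f a := h3 _ fun i hi => ⟨(hff i hi).symm, hfg2 i hi⟩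
    have hτg : τ (g a) = g a := h3 _ fun i hi => ⟨(hfg1 i hi).symm, (hgg i hi).symm⟩
    refine ⟨τ * Equiv.swap (f a) (g a), ?_, ?_, ?_⟩
    · intro i hi
      rw [Equiv.Perm.mul_apply]
      rcases Finset.mem_insert.1 hi with rfl | hi
      · rw [Equiv.swap_apply_left, hτg]
      · rw [Equiv.swap_apply_of_ne_of_ne (hff i hi) (hfg1 i hi), h1 i hi]
    · intro i hi
      rw [Equiv.Perm.mul_apply]
      rcases Finset.mem_insert.1 hi with rfl | hi
      · rw [Equiv.swap_apply_right, hτf]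
      · rw [Equiv.swap_apply_of_ne_of_ne (hfg2 i hi).symm (hgg i hi), h2 i hi]
    · intro x hx
      rw [Equiv.Perm.mul_apply, Equiv.swap_apply_of_ne_of_ne (hx a haA).1 (hx a haA).2]
      exact h3 x fun i hi => hx i (Finset.mem_insert_of_mem hi)

end Pool.Agent.Work.MP_610017_lc

end

section

/-!
# Values of terms are polynomially bounded (MP_610017_lc, block A)
-/

set_option autoImplicit false

namespace Pool.Agent.Work.MP_610017_lc

theorem prf_TmBound : S_TmBound := by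
  intro v t J
  induction t with
  | var i => exact ⟨J, fun b e _ he => he i⟩
  | zero => exact ⟨0, fun b e _ _ => Nat.zero_le _⟩
  | succ s ih =>
    obtain ⟨J', h⟩ := ih
    refine ⟨J' + 1, fun b e hb he => ?_⟩
    have h1 := h b e hb he
    have h2 : 1 ≤ b ^ J' := Nat.one_le_pow _ _ (by omega)
    show s.val stdN e + 1 ≤ b ^ (J' + 1)
    calc s.val stdN e + 1 ≤ b ^ J' * 2 := by omega
      _ ≤ b ^ J' * b := Nat.mul_le_mul_left _ hb
      _ = b ^ (J' + 1) := (pow_succ _ _).symm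
  | add s t ih1 ih2 =>
    obtain ⟨J1, h1⟩ := ih1
    obtain ⟨J2, h2⟩ := ih2
    refine ⟨max J1 J2 + 1, fun b e hb he => ?_⟩
    have k1 : s.val stdN e ≤ b ^ max J1 J2 :=
      (h1 b e hb he).trans (Nat.pow_le_pow_right (by omega) (le_max_left _ _))
    have k2 : t.val stdN e ≤ b ^ max J1 J2 :=
      (h2 b e hb he).trans (Nat.pow_le_pow_right (by omega) (le_max_right _ _))
    show s.val stdN e + t.val stdN e ≤ b ^ (max J1 J2 + 1)
    calc s.val stdN e + t.val stdN e ≤ b ^ max J1 J2 * 2 := by omega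
      _ ≤ b ^ max J1 J2 * b := Nat.mul_le_mul_left _ hb
      _ = b ^ (max J1 J2 + 1) := (pow_succ _ _).symm
  | mul s t ih1 ih2 =>
    obtain ⟨J1, h1⟩ := ih1
    obtain ⟨J2, h2⟩ := ih2
    refine ⟨J1 + J2, fun b e hb he => ?_⟩
    show s.val stdN e * t.val stdN e ≤ b ^ (J1 + J2)
    rw [pow_add]
    exact Nat.mul_le_mul (h1 b e hb he) (h2 b e hb he)

end Pool.Agent.Work.MP_610017_lc

end

section

/-!
# Assembly of the upper side (MP_610017_lc)
-/

set_option autoImplicit false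

namespace Pool.Agent.Work.MP_610017_lc

theorem pf_Alg : S_Alg := prf_Alg prf_AlgEq (prf_AlgOrd prf_AlgEq)

theorem pf_DgEU : S_DgEU := prf_DgEU prf_PowProps prf_Div

theorem pf_DgExt : S_DgExt := prf_DgExt prf_PowProps prf_Div pf_DgEU

theorem pf_DgDfn : S_DgDfn := prf_DgDfn prf_PowProps

theorem pf_UpperG : S_UpperG :=
  prf_UpperG (prf_RowDfn pf_DgDfn) (prf_RowStart prf_PowProps pf_DgEU pf_DgExt pf_DgDfn)
    (prf_RowStep prf_PowProps pf_DgEU pf_DgExt pf_DgDfn) (prf_RowTop pf_DgEU pf_DgDfn)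

theorem pf_Upper : S_Upper := prf_Upper pf_Alg prf_PowF prf_KLe pf_UpperG

end Pool.Agent.Work.MP_610017_lc

end
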