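import Mathlib
import Pool.Agent.Work.MP_610017_lc.Model
import Pool.Agent.Work.MP_610017_lc.Bd.B02
import Pool.Agent.Work.MP_610017_lc.A_Ext
import Pool.Agent.Work.MP_610017_lc.A_Ext1

/-! Bundle of small proof modules (one section per former module). -/

section

/-!
# Block B: statements for the model (MP_610017_lc)
-/

set_option autoImplicit false

namespace Pool.Agent.Work.MP_610017_lc

/-- B01: the model satisfies Robinson arithmetic. -/
def S_RobM : Prop := ∀ s : SD, Robinson (MStr s)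

/-- B02: values of terms in the model. -/
def S_TmVal : Prop := ∀ (s : SD) (v : ℕ) (t : Tm v) (r : Fin v → BSeq s),
  ∃ tv : BSeq s, (∀ i, tv.1 i = t.val stdN (fun j => (r j).1 i)) ∧
    t.val (MStr s) (fun j => MM.mk (r j)) = MM.mk tv

/-- B03: the branch of a tree of bounded height is independent of `N` for large `N`. -/
def S_Stab : Prop := ∀ (s : SD) (h : ℕ) (T : ∀ i, Tree (s.kk i) (s.nn i)),
  (∀ᶠ i in UU, HLe h (T i)) → ∃ N0, ∀ N, N0 ≤ N →
    ∀ᶠ i in UU, ev (gw (s.ρ i) N) (T i) = ev (gw (s.ρ i) N0) (T i)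

/-- B04: negation and conjunction. -/
def S_EvBool : Prop := ∀ (s : SD) (h : ℕ) (T T' : ∀ i, Tree (s.kk i) (s.nn i)),
  (∀ᶠ i in UU, HLe h (T i)) →
  (EvT s (fun i => (T i).flip) ↔ ¬ EvT s T) ∧
  (EvT s (fun i => andT (T i) (T' i)) ↔ EvT s T ∧ EvT s T')

/-- B05: disjunction. -/
def S_OrTruth : Prop := ∀ (s : SD) (h h' : ℕ) (m : ℕ → ℕ)
  (Tx : ∀ i, ℕ → Tree (s.kk i) (s.nn i)) (T : ∀ i, Tree (s.kk i) (s.nn i)),
  (∀ᶠ i in UU, OrRep (s.ρ i) h (m i) (Tx i) (T i)) →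
  (∀ᶠ i in UU, ∀ x, x ≤ m i → HLe h' (Tx i x)) →
  (EvT s T ↔ ∃ x : ℕ → ℕ, (∀ᶠ i in UU, x i ≤ m i) ∧ EvT s (fun i => Tx i (x i)))

/-- B06: truth in the model is truth of the trees. -/
def S_Truth : Prop := ∀ (s : SD) (v : ℕ) (φ : Gm v) (h : ℕ) (r : Fin v → BSeq s)
  (T : ∀ i, Tree (s.kk i) (s.nn i)),
  (∀ᶠ i in UU, Rep (s.ρ i) h φ (fun j => (r j).1 i) (T i)) →
  (φ.sat (MStr s) (fun j => MM.mk (r j)) ↔ EvT s T)

/-- B07: the finite form of the induction principle. -/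
def S_FinInd : Prop := ∀ (k n h a : ℕ) (ρ : Res k n) (Tx : ℕ → Tree k n) (T : Tree k n)
  (F0 Fa Fz : Finset (Fact k n)), (∀ x, x ≤ a + 1 → HLe h (Tx x)) →
  OrRep ρ h a (fun x => andT (Tx x) (Tx (x + 1)).flip) T → Br T F0 false →
  Br (Tx a) Fa false → Br (Tx 0) Fz true → Con ρ (F0 ∪ Fa ∪ Fz) →
  2 * (63 * h) + 3 ≤ k → 63 * h + 3 ≤ ρ.I.card → False

/-- B08: induction in the model. -/
def S_IndM : Prop := ∀ s : SD, Induction (MStr s)

/-- B09: the relations in the model. -/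
def S_Rels : Prop := ∀ (s : SD) (x y a b : BSeq s),
  ((MStr s).H (MM.mk x) (MM.mk y) (MM.mk a) (MM.mk b) ↔
    ∀ᶠ i in UU, hR (s.ρ i) (x.1 i) (y.1 i) (a.1 i) (b.1 i)) ∧
  ((MStr s).U (MM.mk x) (MM.mk y) (MM.mk a) (MM.mk b) ↔
    ∀ᶠ i in UU, uR (s.ρ i) (x.1 i) (y.1 i) (a.1 i) (b.1 i)) ∧
  ((MStr s).C (MM.mk x) (MM.mk y) (MM.mk a) ↔
    ∃ N0, ∀ N, N0 ≤ N → ∀ᶠ i in UU, cR (s.ρ i) N (x.1 i) (y.1 i) (a.1 i)) ∧
  ((MStr s).P (MM.mk x) (MM.mk y) ↔
    ∀ᶠ i in UU, x.1 i ≤ s.kk i ∧ y.1 i = 2 ^ x.1 i)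

/-- B10: the first half of `Hyp` in the model. -/
def S_HypA : Prop := ∀ s : SD, ∀ N : Str (MM s), N = MStr s → ∀ n k : MM s, n = nM s → k = kM s →
  (N.lt N.zero k) ∧
  (∀ u, N.le u n → N.P N.zero u → u = N.num 1) ∧
  (∀ i, N.le i k → ∃ u, N.le u n ∧ N.P i u) ∧
  (∀ i u u', N.lt i k → N.le u n → N.le u' n → N.P i u → N.P (N.succ i) u' → u' = N.add u u) ∧
  (∀ x y a, N.lt x k → N.le y k → N.lt a n → ∃ b, N.lt b n ∧ N.H x y a b) ∧
  (∀ x y a, N.le x k → N.lt y k → N.lt a n → ∃ b, N.lt b n ∧ N.U x y a b) ∧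
  (∀ x y a b c d, N.lt x k → N.lt y k → N.lt a n → N.lt b n → N.lt c n → N.lt d n →
    N.H x y a b → N.U x y a d → N.U (N.succ x) y b c → N.H x (N.succ y) d c)

/-- B11: the second half of `Hyp` in the model. -/
def S_HypB : Prop := ∀ s : SD, ∀ N : Str (MM s), N = MStr s → ∀ n k : MM s, n = nM s → k = kM s →
  (∀ x a b, N.lt N.zero x → N.lt x k → N.lt a n → N.lt b n → N.H x N.zero a b →
    (N.C x N.zero a ↔ N.C (N.succ x) N.zero b)) ∧
  (∀ x a b, N.lt x k → N.lt a n → N.lt b n → N.H x k a b →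
    (N.C x k a ↔ N.C (N.succ x) k b)) ∧
  (∀ y a b, N.lt N.zero y → N.lt y k → N.lt a n → N.lt b n → N.U N.zero y a b →
    (N.C N.zero y a ↔ N.C N.zero (N.succ y) b)) ∧
  (∀ y a b, N.lt y k → N.lt a n → N.lt b n → N.U k y a b →
    (N.C k y a ↔ N.C k (N.succ y) b)) ∧
  (∀ b, N.lt b n → N.H N.zero N.zero N.zero b → N.C (N.num 1) N.zero b) ∧
  (∀ b, N.lt b n → N.U N.zero N.zero N.zero b → ¬ N.C N.zero (N.num 1) b)

/-- B12: the model satisfies all bounded formulas without `R` that are true in the standard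
model. -/
def S_LosM : Prop := ∀ (s : SD) (v : ℕ) (φ : Fm v), φ.RFree → (∀ e, φ.sat stdN e) →
  ∀ e, φ.sat (MStr s) e

/-- assembly of the lower side -/
theorem lower_of (h1 : S_Seq) (h2 : S_RobM) (h3 : S_IndM) (h4 : S_HypA) (h5 : S_HypB)
    (h6 : S_LosM) : S_Lower := by
  obtain ⟨s⟩ := h1
  refine ⟨MM s, MStr s, ⟨h2 s, h3 s⟩, h6 s, nM s, kM s, ?_⟩
  obtain ⟨a1, a2, a3, a4, a5, a6, a7⟩ := h4 s _ rfl _ _ rfl rfl
  obtain ⟨b1, b2, b3, b4, b5, b6⟩ := h5 s _ rfl _ _ rfl rfl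
  exact ⟨a1, a2, a3, a4, a5, a6, a7, b1, b2, b3, b4, b5, b6⟩

end Pool.Agent.Work.MP_610017_lc

end

section

/-!
# Negation and conjunction of trees (MP_610017_lc, item EvBool)
-/

set_option autoImplicit false

namespace Pool.Agent.Work.MP_610017_lc

theorem EvBool_flip {k n : ℕ} (ω : GW k n) (T : Tree k n) :
    ev ω T.flip = ((ev ω T).1, !(ev ω T).2) := by
  induction T with
  | leaf r => rfl
  | node v a next ih =>
    simp only [Tree.flip, ev]
    rw [ih]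

theorem EvBool_and {k n : ℕ} (ω : GW k n) (T T' : Tree k n) :
    (ev ω (andT T T')).2 = ((ev ω T).2 && (ev ω T').2) := by
  induction T with
  | leaf r =>
    cases r
    · simp only [andT, ev, Bool.false_and]
    · simp only [andT, ev, Bool.true_and]
  | node v a next ih =>
    simp only [andT, ev]
    rw [ih]

theorem EvBool_iff (hS : S_Stab) (s : SD) (h : ℕ) (T : ∀ i, Tree (s.kk i) (s.nn i))
    (hT : ∀ᶠ i in UU, HLe h (T i)) :
    ∃ N0, (EvT s T ↔ ∀ᶠ i in UU, (ev (gw (s.ρ i) N0) (T i)).2 = true) ∧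
      (EvT s (fun i => (T i).flip) ↔ ∀ᶠ i in UU, (ev (gw (s.ρ i) N0) (T i)).2 = false) := by
  obtain ⟨N0, hN0⟩ := hS s h T hT
  refine ⟨N0, ⟨?_, ?_⟩, ⟨?_, ?_⟩⟩
  · rintro ⟨N1, h1⟩
    filter_upwards [h1 (max N0 N1) (le_max_right _ _), hN0 (max N0 N1) (le_max_left _ _)]
      with i a b
    rw [← b]
    exact a
  · intro h0
    refine ⟨N0, fun N hN => ?_⟩
    filter_upwards [hN0 N hN, h0] with i a b
    rw [a]
    exact b
  · rintro ⟨N1, h1⟩
    filter_upwards [h1 (max N0 N1) (le_max_right _ _), hN0 (max N0 N1) (le_max_left _ _)]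
      with i a b
    rw [EvBool_flip] at a
    rw [← b]
    simpa using a
  · intro h0
    refine ⟨N0, fun N hN => ?_⟩
    filter_upwards [hN0 N hN, h0] with i a b
    rw [EvBool_flip, a]
    simpa using b

theorem prf_EvBool (hS : S_Stab) : S_EvBool := by
  intro s h T T' hT
  refine ⟨?_, ?_⟩
  · obtain ⟨N0, h1, h2⟩ := EvBool_iff hS s h T hT
    rw [h1, h2, UU_not]
    constructor
    · intro h0
      filter_upwards [h0] with i hi
      simp [hi]
    · intro h0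
      filter_upwards [h0] with i hi
      simpa using hi
  · constructor
    · rintro ⟨N0, h0⟩
      refine ⟨⟨N0, fun N hN => ?_⟩, ⟨N0, fun N hN => ?_⟩⟩
      · filter_upwards [h0 N hN] with i hi
        rw [EvBool_and, Bool.and_eq_true] at hi
        exact hi.1
      · filter_upwards [h0 N hN] with i hi
        rw [EvBool_and, Bool.and_eq_true] at hi
        exact hi.2
    · rintro ⟨⟨N0, h0⟩, ⟨N1, h1⟩⟩
      refine ⟨max N0 N1, fun N hN => ?_⟩
      filter_upwards [h0 N ((le_max_left _ _).trans hN), h1 N ((le_max_right _ _).trans hN)]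
        with i a b
      rw [EvBool_and, a, b]
      rfl

end Pool.Agent.Work.MP_610017_lc

end

section

/-!
# Block B, FinInd: the finite form of the induction principle (MP_610017_lc)
-/

set_option autoImplicit false

namespace Pool.Agent.Work.MP_610017_lc

theorem FinInd_con_mono {k n : ℕ} {ρ : Res k n} {F F' : Finset (Fact k n)} (h : F ⊆ F')
    (hC : Con ρ F') : Con ρ F := by
  obtain ⟨ω, h1, h2, h3⟩ := hC
  exact ⟨ω, h1, h2, fun f hf => h3 f (h hf)⟩

theorem FinInd_unique (hU : S_BrUnique) {k n : ℕ} {ρ : Res k n} {T : Tree k n}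
    {F b b' : Finset (Fact k n)} (h1 : Br T b true) (h2 : Br T b' false) (hb : b ⊆ F)
    (hb' : b' ⊆ F) (hC : Con ρ F) : False := by
  obtain ⟨ω, _, _, h3⟩ := hC
  have := (hU k n ω T b b' true false h1 h2 (fun f hf => h3 f (hb hf))
    (fun f hf => h3 f (hb' hf))).2
  simp at this

theorem prf_FinInd (hE : S_Ext) (hB : S_BrBasic) (hU : S_BrUnique) (hF : S_BrFlip)
    (hA : S_BrAnd) (_hM : S_HLeMono) : S_FinInd := by
  intro k n h a ρ Tx T F0 Fa Fz hT hOr hF0 hFa hFz hCon hk hI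
  obtain ⟨hTh, _, hOr3⟩ := hOr
  have key : ∀ x, x ≤ a → ∃ b, Br (Tx x) b true ∧ Con ρ (F0 ∪ Fa ∪ Fz ∪ b) := by
    intro x
    induction x with
    | zero =>
      intro _
      refine ⟨Fz, hFz, FinInd_con_mono ?_ hCon⟩
      exact Finset.union_subset (Finset.Subset.refl _) Finset.subset_union_right
    | succ x ih =>
      intro hx
      obtain ⟨b, hb, hCb⟩ := ih (by omega)
      obtain ⟨c0, v0⟩ := hB k n h T F0 false hTh hF0
      obtain ⟨ca, va⟩ := hB k n h (Tx a) Fa false (hT a (by omega)) hFa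
      obtain ⟨cz, vz⟩ := hB k n h (Tx 0) Fz true (hT 0 (by omega)) hFz
      obtain ⟨cb, vb⟩ := hB k n h (Tx x) b true (hT x (by omega)) hb
      have hcard : (F0 ∪ Fa ∪ Fz ∪ b).card ≤ 36 * h := by
        have e1 := Finset.card_union_le (F0 ∪ Fa ∪ Fz) b
        have e2 := Finset.card_union_le (F0 ∪ Fa) Fz
        have e3 := Finset.card_union_le F0 Fa
        omega
      have hvalid : ∀ f ∈ F0 ∪ Fa ∪ Fz ∪ b, Valid f := by
        intro f hf
        simp only [Finset.mem_union] at hf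
        rcases hf with ((hf | hf) | hf) | hf
        · exact v0 f hf
        · exact va f hf
        · exact vz f hf
        · exact vb f hf
      have hTree : HLe (h + h) (andT (Tx x) (Tx (x + 1)).flip) :=
        (hA k n (Tx x) (Tx (x + 1)).flip).2.2 h h (hT x (by omega))
          (((hF k n (Tx (x + 1))).2 h).2 (hT (x + 1) (by omega)))
      obtain ⟨c, r, hc, hCc⟩ := hE k n (h + h) ρ (F0 ∪ Fa ∪ Fz ∪ b) _ hvalid hCb hTree
        (by omega) (by omega)
      cases r with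
      | true =>
        exfalso
        refine hOr3 F0 hF0 x (by omega) c hc (FinInd_con_mono ?_ hCc)
        intro f hf
        simp only [Finset.mem_union] at hf ⊢
        tauto
      | false =>
        rcases ((hA k n (Tx x) (Tx (x + 1)).flip).2.1 c).1 hc with h1 | ⟨F1, F2, h1, h2, rfl⟩
        · exfalso
          exact FinInd_unique hU hb h1 (Finset.subset_union_right.trans
            Finset.subset_union_left) Finset.subset_union_right hCc
        · refine ⟨F2, ?_, FinInd_con_mono ?_ hCc⟩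
          · have := ((hF k n (Tx (x + 1))).1 F2 false).1 h2
            simpa using this
          · intro f hf
            simp only [Finset.mem_union] at hf ⊢
            tauto
  obtain ⟨b, hb, hCb⟩ := key a le_rfl
  refine FinInd_unique hU hb hFa Finset.subset_union_right ?_ hCb
  intro f hf
  simp only [Finset.mem_union]
  tauto

end Pool.Agent.Work.MP_610017_lc

end

section

/-!
# The first half of `Hyp` in the model (MP_610017_lc, block B)
-/

set_option autoImplicit false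

namespace Pool.Agent.Work.MP_610017_lc

theorem HypA_ofNat {n : ℕ} (z : Fin (n + 1)) : Fin.ofNat (n + 1) z.val = z := by
  apply Fin.ext
  simp [Fin.ofNat, Nat.mod_eq_of_lt z.isLt]

/-- sequences bounded by `nn` -/
def HypA_seq (s : SD) (x : ℕ → ℕ) (h : ∀ i, x i ≤ s.nn i) : BSeq s :=
  ⟨x, 1, Filter.Eventually.of_forall fun i => by
    rw [pow_one]
    exact (h i).trans (Nat.le_succ _)⟩

theorem HypA_hR {k n : ℕ} (ρ : Res k n) (x y a : ℕ) (h1 : x < k) (h2 : y ≤ k) (h3 : a < n + 1) :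
    hR ρ x y a (ρ.β (Fin.ofNat (k + 1) (x + 1), Fin.ofNat (k + 1) y)
      ((ρ.β (Fin.ofNat (k + 1) x, Fin.ofNat (k + 1) y)).symm (Fin.ofNat (n + 1) a))).val := by
  refine ⟨h1, h2, Nat.lt_succ_iff.1 h3, Nat.lt_succ_iff.1 (Fin.isLt _), ?_⟩
  rw [HypA_ofNat]

theorem HypA_uR {k n : ℕ} (ρ : Res k n) (x y a : ℕ) (h1 : x ≤ k) (h2 : y < k) (h3 : a < n + 1) :
    uR ρ x y a (ρ.β (Fin.ofNat (k + 1) x, Fin.ofNat (k + 1) (y + 1))
      ((ρ.β (Fin.ofNat (k + 1) x, Fin.ofNat (k + 1) y)).symm (Fin.ofNat (n + 1) a))).val := by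
  refine ⟨h1, h2, Nat.lt_succ_iff.1 h3, Nat.lt_succ_iff.1 (Fin.isLt _), ?_⟩
  rw [HypA_ofNat]

theorem HypA_comm {k n : ℕ} (ρ : Res k n) (x y a b c d : ℕ) (h1 : hR ρ x y a b)
    (h2 : uR ρ x y a d) (h3 : uR ρ (x + 1) y b c) : hR ρ x (y + 1) d c := by
  obtain ⟨a1, a2, a3, a4, a5⟩ := h1
  obtain ⟨b1, b2, b3, b4, b5⟩ := h2
  obtain ⟨c1, c2, c3, c4, c5⟩ := h3
  refine ⟨a1, b2, b4, c4, ?_⟩
  rw [← b5, Equiv.symm_apply_apply, ← c5, ← a5, Equiv.symm_apply_apply]

theorem prf_HypA (hR' : S_Rels) : S_HypA := by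
  intro s N hN n k hn hk
  subst hN
  subst hn
  subst hk
  refine ⟨?_, ?_, ?_, ?_, ?_, ?_, ?_⟩
  · rw [MStr_zero, kM, MStr_lt]
    filter_upwards [UU_ge 1] with i hi
    have h2 := s.le_kk i
    simp only [BSeq.const]
    omega
  · intro u
    induction u using MM.ind' with
    | h u =>
    intro _ hP
    rw [MStr_zero] at hP
    have h1 := (hR' s (BSeq.const s 0) u u u).2.2.2.1 hP
    have h2 : (MStr s).num 1 = MM.mk (BSeq.succ (BSeq.const s 0)) := by
      rw [← MStr_succ]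
      rfl
    rw [h2, MM.eq_iff]
    filter_upwards [h1] with i hi
    rw [hi.2]
    simp [BSeq.succ, BSeq.const]
  · intro x
    induction x using MM.ind' with
    | h x =>
    intro hx
    rw [kM, MStr_le] at hx
    have hb : ∀ᶠ i in UU, 2 ^ x.1 i ≤ (s.nn i + 1) ^ 1 := by
      filter_upwards [hx] with i hi
      rw [pow_one]
      exact (Nat.pow_le_pow_right (by norm_num) hi).trans (s.pow_le i)
    refine ⟨MM.mk ⟨fun i => 2 ^ x.1 i, 1, hb⟩, ?_, ?_⟩
    · rw [nM, MStr_le]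
      filter_upwards [hb] with i hi
      rw [pow_one] at hi
      exact hi
    · refine (hR' s x _ x x).2.2.2.2 ?_
      filter_upwards [hx] with i hi
      exact ⟨hi, rfl⟩
  · intro x u u'
    induction x using MM.ind' with
    | h x =>
    induction u using MM.ind' with
    | h u =>
    induction u' using MM.ind' with
    | h u' =>
    intro _ _ _ hP hP'
    rw [MStr_succ] at hP'
    have h1 := (hR' s x u x x).2.2.2.1 hP
    have h2 := (hR' s (BSeq.succ x) u' x x).2.2.2.1 hP'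
    rw [MStr_add, MM.eq_iff]
    filter_upwards [h1, h2] with i hi hj
    have e1 := hi.2
    have e2 := hj.2
    simp only [BSeq.succ, pow_succ] at e2
    simp only [BSeq.add]
    omega
  · intro x y a
    induction x using MM.ind' with
    | h x =>
    induction y using MM.ind' with
    | h y =>
    induction a using MM.ind' with
    | h a =>
    intro hx hy ha
    rw [kM, MStr_lt] at hx
    rw [kM, MStr_le] at hy
    rw [nM, MStr_lt] at ha
    refine ⟨MM.mk (HypA_seq s (fun i => ((s.ρ i).β (Fin.ofNat (s.kk i + 1) (x.1 i + 1),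
      Fin.ofNat (s.kk i + 1) (y.1 i)) (((s.ρ i).β (Fin.ofNat (s.kk i + 1) (x.1 i),
      Fin.ofNat (s.kk i + 1) (y.1 i))).symm (Fin.ofNat (s.nn i + 1) (a.1 i)))).val)
      (fun i => Nat.lt_succ_iff.1 (Fin.isLt _))), ?_, ?_⟩
    · rw [nM, MStr_lt]
      exact Filter.Eventually.of_forall fun i => Fin.isLt _
    · refine (hR' s x y a _).1.2 ?_
      filter_upwards [hx, hy, ha] with i h1 h2 h3
      exact HypA_hR (s.ρ i) _ _ _ h1 h2 h3
  · intro x y a
    induction x using MM.ind' with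
    | h x =>
    induction y using MM.ind' with
    | h y =>
    induction a using MM.ind' with
    | h a =>
    intro hx hy ha
    rw [kM, MStr_le] at hx
    rw [kM, MStr_lt] at hy
    rw [nM, MStr_lt] at ha
    refine ⟨MM.mk (HypA_seq s (fun i => ((s.ρ i).β (Fin.ofNat (s.kk i + 1) (x.1 i),
      Fin.ofNat (s.kk i + 1) (y.1 i + 1)) (((s.ρ i).β (Fin.ofNat (s.kk i + 1) (x.1 i),
      Fin.ofNat (s.kk i + 1) (y.1 i))).symm (Fin.ofNat (s.nn i + 1) (a.1 i)))).val)
      (fun i => Nat.lt_succ_iff.1 (Fin.isLt _))), ?_, ?_⟩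
    · rw [nM, MStr_lt]
      exact Filter.Eventually.of_forall fun i => Fin.isLt _
    · refine (hR' s x y a _).2.1.2 ?_
      filter_upwards [hx, hy, ha] with i h1 h2 h3
      exact HypA_uR (s.ρ i) _ _ _ h1 h2 h3
  · intro x y a b c d
    induction x using MM.ind' with
    | h x =>
    induction y using MM.ind' with
    | h y =>
    induction a using MM.ind' with
    | h a =>
    induction b using MM.ind' with
    | h b =>
    induction c using MM.ind' with
    | h c =>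
    induction d using MM.ind' with
    | h d =>
    intro _ _ _ _ _ _ h1 h2 h3
    rw [MStr_succ] at h3 ⊢
    have g1 := (hR' s x y a b).1.1 h1
    have g2 := (hR' s x y a d).2.1.1 h2
    have g3 := (hR' s (BSeq.succ x) y b c).2.1.1 h3
    refine (hR' s x (BSeq.succ y) d c).1.2 ?_
    filter_upwards [g1, g2, g3] with i e1 e2 e3
    exact HypA_comm (s.ρ i) _ _ _ _ _ _ e1 e2 e3

end Pool.Agent.Work.MP_610017_lc

end

section

/-!
# Block B, item HypB: the second half of `Hyp` in the model (MP_610017_lc)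
-/

set_option autoImplicit false

namespace Pool.Agent.Work.MP_610017_lc

theorem B_HypB_mk {s : SD} (x : MM s) : ∃ x' : BSeq s, x = MM.mk x' :=
  ⟨Quotient.out x, (Quotient.out_eq x).symm⟩

theorem B_HypB_hidx {k n : ℕ} {ρ : Res k n} {x y a b : ℕ} (h : hR ρ x y a b) :
    (ρ.β (Fin.ofNat (k + 1) (x + 1), Fin.ofNat (k + 1) y)).symm (Fin.ofNat (n + 1) b) =
      (ρ.β (Fin.ofNat (k + 1) x, Fin.ofNat (k + 1) y)).symm (Fin.ofNat (n + 1) a) := by
  rw [Equiv.symm_apply_eq]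
  exact h.2.2.2.2.symm

theorem B_HypB_uidx {k n : ℕ} {ρ : Res k n} {x y a b : ℕ} (h : uR ρ x y a b) :
    (ρ.β (Fin.ofNat (k + 1) x, Fin.ofNat (k + 1) (y + 1))).symm (Fin.ofNat (n + 1) b) =
      (ρ.β (Fin.ofNat (k + 1) x, Fin.ofNat (k + 1) y)).symm (Fin.ofNat (n + 1) a) := by
  rw [Equiv.symm_apply_eq]
  exact h.2.2.2.2.symm

/-- bottom, forwards -/
theorem B_HypB_bot1 {k n : ℕ} {ρ : Res k n} {x a b N : ℕ} (h : hR ρ x 0 a b)
    (hc : cR ρ N x 0 a) : cR ρ (N + 1) (x + 1) 0 b := by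
  have hi := B_HypB_hidx h
  obtain ⟨h1, h2, h3, h4, -⟩ := h
  obtain ⟨c1, c2, c3, c4, c5, c6⟩ := hc
  refine ⟨h1, Nat.zero_le _, h4, Or.inr (Or.inr (Or.inl rfl)), by omega, ?_⟩
  rw [hi]
  split_ifs at c6 ⊢ with h0
  · exact ⟨rfl, by omega, by omega⟩
  · exact c6

/-- bottom, backwards -/
theorem B_HypB_bot2 {k n : ℕ} {ρ : Res k n} {x a b N : ℕ} (hx : 0 < x) (h : hR ρ x 0 a b)
    (hc : cR ρ N (x + 1) 0 b) : cR ρ N x 0 a := by
  have hi := B_HypB_hidx h
  obtain ⟨h1, h2, h3, h4, -⟩ := h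
  obtain ⟨c1, c2, c3, c4, c5, c6⟩ := hc
  refine ⟨h1.le, Nat.zero_le _, h3, Or.inr (Or.inr (Or.inl rfl)), by omega, ?_⟩
  rw [hi] at c6
  split_ifs at c6 ⊢ with h0
  · exact ⟨rfl, by omega, by omega⟩
  · exact c6

/-- top -/
theorem B_HypB_top {k n : ℕ} {ρ : Res k n} {x a b N : ℕ} (h : hR ρ x k a b) :
    cR ρ N x k a ↔ cR ρ N (x + 1) k b := by
  have hi := B_HypB_hidx h
  obtain ⟨h1, h2, h3, h4, -⟩ := h
  unfold cR
  rw [hi]
  constructor
  · rintro ⟨c1, c2, c3, c4, c5, c6⟩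
    refine ⟨h1, le_rfl, h4, Or.inr (Or.inr (Or.inr rfl)), by omega, ?_⟩
    split_ifs at c6 ⊢ with h0
    · omega
    · exact c6
  · rintro ⟨c1, c2, c3, c4, c5, c6⟩
    refine ⟨h1.le, le_rfl, h3, Or.inr (Or.inr (Or.inr rfl)), by omega, ?_⟩
    split_ifs at c6 ⊢ with h0
    · omega
    · exact c6

/-- left -/
theorem B_HypB_left {k n : ℕ} {ρ : Res k n} {y a b N : ℕ} (hy : 0 < y) (h : uR ρ 0 y a b) :
    cR ρ N 0 y a ↔ cR ρ N 0 (y + 1) b := by
  have hi := B_HypB_uidx h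
  obtain ⟨h1, h2, h3, h4, -⟩ := h
  unfold cR
  rw [hi]
  constructor
  · rintro ⟨c1, c2, c3, c4, c5, c6⟩
    refine ⟨Nat.zero_le _, h2, h4, Or.inl rfl, by omega, ?_⟩
    split_ifs at c6 ⊢ with h0
    · omega
    · exact c6
  · rintro ⟨c1, c2, c3, c4, c5, c6⟩
    refine ⟨Nat.zero_le _, h2.le, h3, Or.inl rfl, by omega, ?_⟩
    split_ifs at c6 ⊢ with h0
    · omega
    · exact c6

/-- right -/
theorem B_HypB_right {k n : ℕ} {ρ : Res k n} {y a b N : ℕ} (hN : N < k) (h : uR ρ k y a b) :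
    cR ρ N k y a ↔ cR ρ N k (y + 1) b := by
  have hi := B_HypB_uidx h
  obtain ⟨h1, h2, h3, h4, -⟩ := h
  unfold cR
  rw [hi]
  constructor
  · rintro ⟨c1, c2, c3, c4, c5, c6⟩
    refine ⟨le_rfl, h2, h4, Or.inr (Or.inl rfl), by omega, ?_⟩
    split_ifs at c6 ⊢ with h0
    · omega
    · exact c6
  · rintro ⟨c1, c2, c3, c4, c5, c6⟩
    refine ⟨le_rfl, h2.le, h3, Or.inr (Or.inl rfl), by omega, ?_⟩
    split_ifs at c6 ⊢ with h0
    · omega
    · exact c6

theorem B_HypB_crn {k n : ℕ} (ρ : Res k n) :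
    (ρ.β (Fin.ofNat (k + 1) 0, Fin.ofNat (k + 1) 0)).symm (Fin.ofNat (n + 1) 0) = 0 := by
  rw [Equiv.symm_apply_eq]
  exact ρ.corner.symm

theorem B_HypB_start1 {k n : ℕ} {ρ : Res k n} {b N : ℕ} (hN : 1 ≤ N) (h : hR ρ 0 0 0 b) :
    cR ρ N 1 0 b := by
  have hi := B_HypB_hidx h
  rw [B_HypB_crn] at hi
  obtain ⟨h1, h2, h3, h4, -⟩ := h
  refine ⟨h1, Nat.zero_le _, h4, Or.inr (Or.inr (Or.inl rfl)), by omega, ?_⟩
  have hi' : (ρ.β (Fin.ofNat (k + 1) 1, Fin.ofNat (k + 1) 0)).symm (Fin.ofNat (n + 1) b) = 0 := hi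
  rw [if_pos hi']
  exact ⟨rfl, le_rfl, hN⟩

theorem B_HypB_start2 {k n : ℕ} {ρ : Res k n} {b N : ℕ} (h : uR ρ 0 0 0 b) :
    ¬ cR ρ N 0 1 b := by
  have hi := B_HypB_uidx h
  rw [B_HypB_crn] at hi
  rintro ⟨c1, c2, c3, c4, c5, c6⟩
  have hi' : (ρ.β (Fin.ofNat (k + 1) 0, Fin.ofNat (k + 1) 1)).symm (Fin.ofNat (n + 1) b) = 0 := hi
  rw [if_pos hi'] at c6
  omega

theorem prf_HypB (hRels : S_Rels) : S_HypB := by
  intro s N hN n k hn hk
  subst hN hn hk
  obtain ⟨K, hK, hKv⟩ : ∃ K : BSeq s, kM s = MM.mk K ∧ ∀ i, K.1 i = s.kk i :=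
    ⟨_, rfl, fun _ => rfl⟩
  have h0v : ∀ i, (BSeq.const s 0).1 i = 0 := fun _ => rfl
  have hsv : ∀ (x : BSeq s) i, (BSeq.succ x).1 i = x.1 i + 1 := fun _ _ => rfl
  have hH : ∀ x y a b : BSeq s, (MStr s).H (MM.mk x) (MM.mk y) (MM.mk a) (MM.mk b) ↔
      ∀ᶠ i in UU, hR (s.ρ i) (x.1 i) (y.1 i) (a.1 i) (b.1 i) :=
    fun x y a b => (hRels s x y a b).1
  have hU : ∀ x y a b : BSeq s, (MStr s).U (MM.mk x) (MM.mk y) (MM.mk a) (MM.mk b) ↔
      ∀ᶠ i in UU, uR (s.ρ i) (x.1 i) (y.1 i) (a.1 i) (b.1 i) :=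
    fun x y a b => (hRels s x y a b).2.1
  have hC : ∀ x y a : BSeq s, (MStr s).C (MM.mk x) (MM.mk y) (MM.mk a) ↔
      ∃ N0, ∀ N, N0 ≤ N → ∀ᶠ i in UU, cR (s.ρ i) N (x.1 i) (y.1 i) (a.1 i) :=
    fun x y a => (hRels s x y a a).2.2.1
  have hn1 : (MStr s).num 1 = MM.mk (BSeq.succ (BSeq.const s 0)) := MStr_succ s _
  rw [hK, MStr_zero, hn1]
  refine ⟨?_, ?_, ?_, ?_, ?_, ?_⟩
  · intro x a b hx _ _ _ h
    obtain ⟨x, rfl⟩ := B_HypB_mk x
    obtain ⟨a, rfl⟩ := B_HypB_mk a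
    obtain ⟨b, rfl⟩ := B_HypB_mk b
    rw [hH] at h
    rw [MStr_lt] at hx
    rw [MStr_succ, hC, hC]
    simp only [h0v, hsv] at h hx ⊢
    constructor
    · rintro ⟨N0, h1⟩
      refine ⟨N0 + 1, fun N hN => ?_⟩
      filter_upwards [h, h1 (N - 1) (by omega)] with i hi h2
      have h3 := B_HypB_bot1 hi h2
      have h4 : N - 1 + 1 = N := by omega
      rw [h4] at h3
      exact h3
    · rintro ⟨N0, h1⟩
      refine ⟨N0, fun N hN => ?_⟩
      filter_upwards [h, hx, h1 N hN] with i hi h0 h2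
      exact B_HypB_bot2 h0 hi h2
  · intro x a b _ _ _ h
    obtain ⟨x, rfl⟩ := B_HypB_mk x
    obtain ⟨a, rfl⟩ := B_HypB_mk a
    obtain ⟨b, rfl⟩ := B_HypB_mk b
    rw [hH] at h
    rw [MStr_succ, hC, hC]
    simp only [hKv, hsv] at h ⊢
    constructor
    · rintro ⟨N0, h1⟩
      refine ⟨N0, fun N hN => ?_⟩
      filter_upwards [h, h1 N hN] with i hi h2
      exact (B_HypB_top hi).1 h2
    · rintro ⟨N0, h1⟩
      refine ⟨N0, fun N hN => ?_⟩
      filter_upwards [h, h1 N hN] with i hi h2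
      exact (B_HypB_top hi).2 h2
  · intro x a b hx _ _ _ h
    obtain ⟨x, rfl⟩ := B_HypB_mk x
    obtain ⟨a, rfl⟩ := B_HypB_mk a
    obtain ⟨b, rfl⟩ := B_HypB_mk b
    rw [hU] at h
    rw [MStr_lt] at hx
    rw [MStr_succ, hC, hC]
    simp only [h0v, hsv] at h hx ⊢
    constructor
    · rintro ⟨N0, h1⟩
      refine ⟨N0, fun N hN => ?_⟩
      filter_upwards [h, hx, h1 N hN] with i hi h0 h2
      exact (B_HypB_left h0 hi).1 h2
    · rintro ⟨N0, h1⟩
      refine ⟨N0, fun N hN => ?_⟩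
      filter_upwards [h, hx, h1 N hN] with i hi h0 h2
      exact (B_HypB_left h0 hi).2 h2
  · intro x a b _ _ _ h
    obtain ⟨x, rfl⟩ := B_HypB_mk x
    obtain ⟨a, rfl⟩ := B_HypB_mk a
    obtain ⟨b, rfl⟩ := B_HypB_mk b
    rw [hU] at h
    rw [MStr_succ, hC, hC]
    simp only [hKv, hsv] at h ⊢
    constructor
    · rintro ⟨N0, h1⟩
      refine ⟨N0, fun N hN => ?_⟩
      filter_upwards [h, UU_ge (N + 1), h1 N hN] with i hi h0 h2
      exact (B_HypB_right (lt_of_lt_of_le h0 (s.le_kk i)) hi).1 h2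
    · rintro ⟨N0, h1⟩
      refine ⟨N0, fun N hN => ?_⟩
      filter_upwards [h, UU_ge (N + 1), h1 N hN] with i hi h0 h2
      exact (B_HypB_right (lt_of_lt_of_le h0 (s.le_kk i)) hi).2 h2
  · intro b _ h
    obtain ⟨b, rfl⟩ := B_HypB_mk b
    rw [hH] at h
    rw [hC]
    refine ⟨1, fun N hN => ?_⟩
    filter_upwards [h] with i hi
    exact B_HypB_start1 hN hi
  · intro b _ h hc
    obtain ⟨b, rfl⟩ := B_HypB_mk b
    rw [hU] at h
    rw [hC] at hc
    obtain ⟨N0, h1⟩ := hc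
    apply UU_false
    filter_upwards [h, h1 N0 le_rfl] with i hi h2
    exact B_HypB_start2 hi h2

end Pool.Agent.Work.MP_610017_lc

end

section

/-!
# Block B: induction in the model (MP_610017_lc)
-/

set_option autoImplicit false

namespace Pool.Agent.Work.MP_610017_lc

/-- If a sequence of trees is not eventually true then it is false for all large `N`. -/
theorem IndM_false (s : SD) (T : ∀ i, Tree (s.kk i) (s.nn i)) (N0 : ℕ)
    (hst : ∀ N, N0 ≤ N → ∀ᶠ i in UU, ev (gw (s.ρ i) N) (T i) = ev (gw (s.ρ i) N0) (T i))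
    (h : ¬ EvT s T) (N : ℕ) (hN : N0 ≤ N) :
    ∀ᶠ i in UU, (ev (gw (s.ρ i) N) (T i)).2 = false := by
  unfold EvT at h
  push Not at h
  obtain ⟨N1, hN1, h1⟩ := h N0
  have h2 := (UU_not _).1 h1
  filter_upwards [h2, hst N1 hN1, hst N hN] with i a b c
  rw [c, ← b]
  simpa using a

/-- The branch of a tree of height `h` in `gw ρ N`, if it is the same as in `gw ρ N'`. -/
theorem IndM_branch (hE : S_Ev) (hB : S_BrBasic) {k n h : ℕ} (ρ : Res k n) (N N' : ℕ)
    (T : Tree k n) (hT : HLe h T) (heq : ev (gw ρ N') T = ev (gw ρ N) T) (r : Bool)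
    (hr : (ev (gw ρ N) T).2 = r) :
    ∃ F, Br T F r ∧ (∀ f ∈ F, holds (gw ρ N) f) ∧ (∀ f ∈ F, holds (gw ρ N') f) ∧
      F.card ≤ 9 * h ∧ ∀ f ∈ F, Valid f := by
  obtain ⟨h1, h2, -⟩ := hE k n (gw ρ N) T
  obtain ⟨h3, h4, -⟩ := hE k n (gw ρ N') T
  rw [hr] at h1
  refine ⟨(ev (gw ρ N) T).1, h1, h2 (fun _ _ => rfl), ?_, hB k n h T _ _ hT h1⟩
  have h5 := h4 (fun _ _ => rfl)
  rw [heq] at h5
  exact h5

theorem prf_IndM (hT : S_Truth) (hI : S_FinInd) (hS : S_Stab) (hE : S_Ev) (hL : S_LE)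
    (hB : S_BrBasic) (hH : S_RepHLe) : S_IndM := by
  intro s v φ e h0 hstep a
  by_contra ha
  obtain ⟨r, rfl⟩ := MM.reps e
  obtain ⟨ra, rfl⟩ : ∃ ra : BSeq s, a = MM.mk ra :=
    ⟨Quotient.out a, (Quotient.out_eq a).symm⟩
  -- the assignment
  set R : Fin (v + 1) → BSeq s := Fin.cons ra r with hR
  have hRsat : (fun j => MM.mk (R j)) = (Fin.cons (MM.mk ra) (fun j => MM.mk (r j)) :
      Fin (v + 1) → MM s) := by
    funext j
    refine Fin.cases rfl (fun j => rfl) j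
  -- a common bound
  obtain ⟨J, hJ⟩ : ∃ J, ∀ᶠ i in UU, ∀ j, (R j).1 i ≤ (s.nn i + 1) ^ J := by
    have h1 := fun j => (R j).2
    choose J hJ using h1
    refine ⟨Finset.univ.sup J, Filter.eventually_all.2 fun j => ?_⟩
    filter_upwards [hJ j] with i hi
    exact hi.trans (Nat.pow_le_pow_right (Nat.succ_pos _) (Finset.le_sup (Finset.mem_univ j)))
  obtain ⟨h, i0, hex⟩ := s.ex (v + 1) (Gm.ind φ.toGm) J
  -- the trees
  have hP0 : ∀ᶠ i in UU, ∃ (T : Tree (s.kk i) (s.nn i)) (Tx : ℕ → Tree (s.kk i) (s.nn i)),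
      (∀ x, x ≤ ra.1 i + 1 → Rep (s.ρ i) h φ.toGm (Fin.cons x (fun j => (r j).1 i)) (Tx x)) ∧
      OrRep (s.ρ i) h (ra.1 i) (fun x => andT (Tx x) (Tx (x + 1)).flip) T := by
    filter_upwards [hJ, UU_ge i0] with i hi hi0
    obtain ⟨T, hTi⟩ := hex i hi0 (fun j => (R j).1 i) hi
    obtain ⟨Tx, h1, h2⟩ := hTi
    exact ⟨T, Tx, h1, h2⟩
  have hch : ∀ i, ∃ (T : Tree (s.kk i) (s.nn i)) (Tx : ℕ → Tree (s.kk i) (s.nn i)),
      (∃ (T : Tree (s.kk i) (s.nn i)) (Tx : ℕ → Tree (s.kk i) (s.nn i)),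
        (∀ x, x ≤ ra.1 i + 1 → Rep (s.ρ i) h φ.toGm (Fin.cons x (fun j => (r j).1 i)) (Tx x)) ∧
        OrRep (s.ρ i) h (ra.1 i) (fun x => andT (Tx x) (Tx (x + 1)).flip) T) →
      ((∀ x, x ≤ ra.1 i + 1 → Rep (s.ρ i) h φ.toGm (Fin.cons x (fun j => (r j).1 i)) (Tx x)) ∧
        OrRep (s.ρ i) h (ra.1 i) (fun x => andT (Tx x) (Tx (x + 1)).flip) T) := by
    intro i
    by_cases hc : ∃ (T : Tree (s.kk i) (s.nn i)) (Tx : ℕ → Tree (s.kk i) (s.nn i)),
        (∀ x, x ≤ ra.1 i + 1 → Rep (s.ρ i) h φ.toGm (Fin.cons x (fun j => (r j).1 i)) (Tx x)) ∧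
        OrRep (s.ρ i) h (ra.1 i) (fun x => andT (Tx x) (Tx (x + 1)).flip) T
    · obtain ⟨T, Tx, h1⟩ := hc
      exact ⟨T, Tx, fun _ => h1⟩
    · exact ⟨.leaf true, fun _ => .leaf true, fun h1 => absurd h1 hc⟩
  choose T Tx hTTx using hch
  have hP : ∀ᶠ i in UU,
      (∀ x, x ≤ ra.1 i + 1 →
        Rep (s.ρ i) h φ.toGm (Fin.cons x (fun j => (r j).1 i)) (Tx i x)) ∧
      OrRep (s.ρ i) h (ra.1 i) (fun x => andT (Tx i x) (Tx i (x + 1)).flip) (T i) :=
    hP0.mono fun i hi => hTTx i hi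
  -- the induction formula is false in the model
  have hsat : ¬ (Gm.ind φ.toGm).sat (MStr s) (fun j => MM.mk (R j)) := by
    rw [hRsat]
    rintro ⟨x, -, h1, h2⟩
    have e1 : Fin.tail (Fin.cons (MM.mk ra) (fun j => MM.mk (r j)) : Fin (v + 1) → MM s) =
        fun j => MM.mk (r j) := Fin.tail_cons _ _
    rw [e1] at h1 h2
    rw [Fm.sat_toGm] at h1 h2
    exact h2 (hstep x h1)
  have hT0 : ¬ EvT s T := by
    intro hev
    apply hsat
    refine (hT s (v + 1) (Gm.ind φ.toGm) h R T ?_).2 hev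
    filter_upwards [hP] with i hi
    exact ⟨Tx i, hi.1, hi.2⟩
  -- the instance at zero
  have hTz : EvT s (fun i => Tx i 0) := by
    refine (hT s (v + 1) φ.toGm h (Fin.cons (BSeq.const s 0) r) (fun i => Tx i 0) ?_).1 ?_
    · filter_upwards [hP] with i hi
      have h1 := hi.1 0 (Nat.zero_le _)
      have e1 : (fun j => ((Fin.cons (BSeq.const s 0) r : Fin (v + 1) → BSeq s) j).1 i) =
          (Fin.cons 0 (fun j => (r j).1 i) : Fin (v + 1) → ℕ) := by
        funext j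
        refine Fin.cases rfl (fun j => rfl) j
      rw [e1]
      exact h1
    · have e1 : (fun j => MM.mk ((Fin.cons (BSeq.const s 0) r : Fin (v + 1) → BSeq s) j)) =
          (Fin.cons (MStr s).zero (fun j => MM.mk (r j)) : Fin (v + 1) → MM s) := by
        funext j
        refine Fin.cases rfl (fun j => rfl) j
      rw [e1, Fm.sat_toGm]
      exact h0
  -- the instance at `a`
  have hTa : ¬ EvT s (fun i => Tx i (ra.1 i)) := by
    intro hev
    apply ha
    rw [← Fm.sat_toGm, ← hRsat]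
    refine (hT s (v + 1) φ.toGm h R (fun i => Tx i (ra.1 i)) ?_).2 hev
    filter_upwards [hP] with i hi
    have h1 := hi.1 (ra.1 i) (Nat.le_succ _)
    have e1 : (fun j => (R j).1 i) =
        (Fin.cons (ra.1 i) (fun j => (r j).1 i) : Fin (v + 1) → ℕ) := by
      funext j
      refine Fin.cases rfl (fun j => rfl) j
    rw [e1]
    exact h1
  -- heights
  have hh : ∀ᶠ i in UU, ∀ x, x ≤ ra.1 i + 1 → HLe h (Tx i x) :=
    hP.mono fun i hi x hx => hH _ _ _ _ _ _ _ _ (hi.1 x hx)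
  have hhT : ∀ᶠ i in UU, HLe h (T i) := hP.mono fun i hi => hi.2.1
  obtain ⟨NT, hNT⟩ := hS s h T hhT
  obtain ⟨NZ, hNZ⟩ := hS s h (fun i => Tx i 0) (hh.mono fun i hi => hi 0 (Nat.zero_le _))
  obtain ⟨NA, hNA⟩ := hS s h (fun i => Tx i (ra.1 i)) (hh.mono fun i hi => hi _ (Nat.le_succ _))
  obtain ⟨NE, hNE⟩ := hTz
  set N := max (max NT NZ) (max NA NE) with hN
  have l1 : NT ≤ N := (le_max_left _ _).trans (le_max_left _ _)
  have l2 : NZ ≤ N := (le_max_right _ _).trans (le_max_left _ _)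
  have l3 : NA ≤ N := (le_max_left _ _).trans (le_max_right _ _)
  have l4 : NE ≤ N := (le_max_right _ _).trans (le_max_right _ _)
  set N' := N + 27 * h + 1 with hN'
  have hNN : N ≤ N' := by omega
  apply UU_false
  filter_upwards [hP, hh, hhT, hNT N l1, hNT N' (l1.trans hNN), hNZ N l2, hNZ N' (l2.trans hNN),
    hNA N l3, hNA N' (l3.trans hNN), hNE N l4, IndM_false s T NT hNT hT0 N l1,
    IndM_false s (fun i => Tx i (ra.1 i)) NA hNA hTa N l3,
    UU_ge (N' + 1 + (2 * (63 * h) + 3) + (27 * h + 2))] with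
    i p1 p2 p3 t1 t2 z1 z2 a1 a2 ez et ea hi
  have hk := s.le_kk i
  have hc := s.le_I i
  obtain ⟨F0, b1, b2, b3, b4, b5⟩ := IndM_branch hE hB (s.ρ i) N N' (T i) p3 (by rw [t1, t2])
    false et
  obtain ⟨Fa, c1, c2, c3, c4, c5⟩ := IndM_branch hE hB (s.ρ i) N N' (Tx i (ra.1 i))
    (p2 _ (Nat.le_succ _)) (by rw [a1, a2]) false ea
  obtain ⟨Fz, d1, d2, d3, d4, d5⟩ := IndM_branch hE hB (s.ρ i) N N' (Tx i 0)
    (p2 _ (Nat.zero_le _)) (by rw [z1, z2]) true ez
  have hcard : (F0 ∪ Fa ∪ Fz).card ≤ 27 * h := by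
    have q1 := Finset.card_union_le (F0 ∪ Fa) Fz
    have q2 := Finset.card_union_le F0 Fa
    omega
  have hmem : ∀ (P : Fact (s.kk i) (s.nn i) → Prop), (∀ f ∈ F0, P f) → (∀ f ∈ Fa, P f) →
      (∀ f ∈ Fz, P f) → ∀ f ∈ F0 ∪ Fa ∪ Fz, P f := by
    intro P q1 q2 q3 f hf
    rcases Finset.mem_union.1 hf with hf | hf
    · rcases Finset.mem_union.1 hf with hf | hf
      · exact q1 f hf
      · exact q2 f hf
    · exact q3 f hf
  have hCon : Con (s.ρ i) (F0 ∪ Fa ∪ Fz) :=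
    hL _ _ (s.ρ i) N N' _ (hmem _ b5 c5 d5) (hmem _ b2 c2 d2) (hmem _ b3 c3 d3)
      (by omega) (by omega) (by omega)
  exact hI _ _ h (ra.1 i) (s.ρ i) (Tx i) (T i) F0 Fa Fz (fun x hx => p2 x hx) p1.2 b1 c1 d1 hCon
    (by omega) (by omega)

end Pool.Agent.Work.MP_610017_lc

end

section

/-!
# The theorem of Los for bounded formulas without `R`
-/

set_option autoImplicit false

namespace Pool.Agent.Work.MP_610017_lc

theorem LosM_cons {s : SD} {v : ℕ} (x : BSeq s) (r : Fin v → BSeq s) :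
    (Fin.cons (MM.mk x) (fun j => MM.mk (r j)) : Fin (v + 1) → MM s) =
      fun j => MM.mk ((Fin.cons x r : Fin (v + 1) → BSeq s) j) := by
  funext j
  refine Fin.cases ?_ (fun j => ?_) j <;> rfl

theorem LosM_cons' {s : SD} {v : ℕ} (x : BSeq s) (r : Fin v → BSeq s) (i : ℕ) :
    (fun j => ((Fin.cons x r : Fin (v + 1) → BSeq s) j).1 i) =
      (Fin.cons (x.1 i) (fun j => (r j).1 i) : Fin (v + 1) → ℕ) := by
  funext j
  refine Fin.cases ?_ (fun j => ?_) j <;> rfl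

theorem LosM_main (hV : S_TmVal) (s : SD) {v : ℕ} (φ : Fm v) (hφ : φ.RFree) :
    ∀ r : Fin v → BSeq s, φ.sat (MStr s) (fun j => MM.mk (r j)) ↔
      ∀ᶠ i in UU, φ.sat stdN (fun j => (r j).1 i) := by
  induction φ with
  | eq t u =>
    intro r
    obtain ⟨tv, h1, h2⟩ := hV s _ t r
    obtain ⟨uv, h3, h4⟩ := hV s _ u r
    simp only [Fm.sat]
    rw [h2, h4, MM.eq_iff]
    simp only [h1, h3]
  | le t u =>
    intro r
    obtain ⟨tv, h1, h2⟩ := hV s _ t r
    obtain ⟨uv, h3, h4⟩ := hV s _ u r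
    simp only [Fm.sat]
    rw [h2, h4, MStr_le]
    simp only [h1, h3]
    rfl
  | rel t => exact absurd hφ (by simp [Fm.RFree])
  | neg φ ih =>
    intro r
    simp only [Fm.sat]
    rw [ih hφ r, UU_not]
  | and φ ψ ih1 ih2 =>
    intro r
    simp only [Fm.sat]
    rw [ih1 hφ.1 r, ih2 hφ.2 r, Filter.eventually_and]
  | bex t φ ih =>
    intro r
    obtain ⟨tv, h1, h2⟩ := hV s _ t r
    simp only [Fm.sat]
    constructor
    · rintro ⟨x, hx1, hx2⟩
      obtain ⟨ra, rfl⟩ : ∃ ra : BSeq s, x = MM.mk ra :=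
        ⟨Quotient.out x, (Quotient.out_eq x).symm⟩
      rw [h2, MStr_le] at hx1
      rw [LosM_cons, ih hφ] at hx2
      filter_upwards [hx1, hx2] with i a b
      rw [LosM_cons'] at b
      exact ⟨ra.1 i, by rw [← h1]; exact a, b⟩
    · intro h
      classical
      have hx : ∀ i, ∃ x, x ≤ tv.1 i ∧ ((∃ x, stdN.le x (t.val stdN fun j => (r j).1 i) ∧
          φ.sat stdN (Fin.cons x fun j => (r j).1 i)) →
          φ.sat stdN (Fin.cons x fun j => (r j).1 i)) := by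
        intro i
        by_cases hi : ∃ x, stdN.le x (t.val stdN fun j => (r j).1 i) ∧
          φ.sat stdN (Fin.cons x fun j => (r j).1 i)
        · obtain ⟨x, hx1, hx2⟩ := hi
          refine ⟨x, ?_, fun _ => hx2⟩
          rw [h1]
          exact hx1
        · exact ⟨0, Nat.zero_le _, fun h => absurd h hi⟩
      choose x hx1 hx2 using hx
      obtain ⟨J, hJ⟩ := tv.2
      let ra : BSeq s := ⟨x, J, by
        filter_upwards [hJ] with i hi
        exact (hx1 i).trans hi⟩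
      refine ⟨MM.mk ra, ?_, ?_⟩
      · rw [h2, MStr_le]
        exact Filter.Eventually.of_forall hx1
      · rw [LosM_cons, ih hφ]
        filter_upwards [h] with i hi
        rw [LosM_cons']
        exact hx2 i hi

theorem prf_LosM (hV : S_TmVal) : S_LosM := by
  intro s v φ hφ hst e
  obtain ⟨r, rfl⟩ := MM.reps e
  rw [LosM_main hV s φ hφ]
  exact Filter.Eventually.of_forall fun i => hst _

end Pool.Agent.Work.MP_610017_lc

end

section

/-!
# Truth of disjunctions in the model (MP_610017_lc)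
-/

set_option autoImplicit false

namespace Pool.Agent.Work.MP_610017_lc

theorem OrTruth_isSome {k n : ℕ} (ρ : Res k n) (N : ℕ) (v : Vx k) :
    ((gw ρ N).χ v).isSome = true := rfl

theorem OrTruth_set {k n : ℕ} (ρ : Res k n) (N : ℕ) (f : Fact k n) (h : SetTrue ρ f) :
    holds (gw ρ N) f := by
  cases f with
  | edge v w a b =>
    obtain ⟨i, -, h1, h2⟩ := h
    change (ρ.β v).symm a = (ρ.β w).symm b
    rw [← h1, ← h2, Equiv.symm_apply_apply, Equiv.symm_apply_apply]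
  | col v a c =>
    obtain ⟨i, hi, h1, h2⟩ := h
    have h3 : (ρ.β v).symm a = i := by rw [← h1, Equiv.symm_apply_apply]
    have h4 : i ≠ 0 := fun h0 => hi (by rw [h0]; exact ρ.zero_mem)
    change if (ρ.β v).symm a = 0 then (gw ρ N).χ v = some c else ρ.ζ ((ρ.β v).symm a) = c
    rw [h3, if_neg h4]
    exact h2

theorem OrTruth_holds (hE : S_Ev) {k n : ℕ} (ρ : Res k n) (N : ℕ) (T : Tree k n) :
    ∀ f ∈ (ev (gw ρ N) T).1, holds (gw ρ N) f :=
  (hE k n (gw ρ N) T).2.1 fun v _ => OrTruth_isSome ρ N v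

theorem OrTruth_stab (hS : S_Stab) (s : SD) (h : ℕ) (T : ∀ i, Tree (s.kk i) (s.nn i))
    (hT : ∀ᶠ i in UU, HLe h (T i)) : ∃ N1, ∀ N N', N1 ≤ N → N1 ≤ N' →
    ∀ᶠ i in UU, ev (gw (s.ρ i) N') (T i) = ev (gw (s.ρ i) N) (T i) := by
  obtain ⟨N1, h1⟩ := hS s h T hT
  refine ⟨N1, fun N N' hN hN' => ?_⟩
  filter_upwards [h1 N hN, h1 N' hN'] with i a b
  rw [a, b]

theorem prf_OrTruth (hS : S_Stab) (hE : S_Ev) (hL : S_LE) (hB : S_BrBasic) : S_OrTruth := by
  intro s h h' m Tx T hR hx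
  have hTh : ∀ᶠ i in UU, HLe h (T i) := hR.mono fun i hi => hi.1
  constructor
  · rintro ⟨N0, h0⟩
    obtain ⟨N1, h1⟩ := OrTruth_stab hS s h T hTh
    have hN0 : N0 ≤ max N0 N1 := le_max_left _ _
    have hN1 : N1 ≤ max N0 N1 := le_max_right _ _
    generalize max N0 N1 = N at hN0 hN1
    classical
    let P : ∀ i, ℕ → Prop := fun i x => x ≤ m i ∧ ∃ F', Br (Tx i x) F' true ∧
      ∀ f ∈ F', Dec (s.ρ i) (ev (gw (s.ρ i) N) (T i)).1 f
    let x : ℕ → ℕ := fun i => if hi : ∃ x, P i x then hi.choose else 0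
    have hP : ∀ᶠ i in UU, P i (x i) := by
      have hN' : N1 ≤ N + 9 * h + 1 := by omega
      filter_upwards [hR, h0 N hN0, h1 N (N + 9 * h + 1) hN1 hN', UU_ge (N + 9 * h + 2)] with
        i a1 a2 a3 a4
      have b1 : Br (T i) (ev (gw (s.ρ i) N) (T i)).1 true := by
        have := (hE _ _ (gw (s.ρ i) N) (T i)).1
        rwa [a2] at this
      obtain ⟨b2, b3⟩ := hB _ _ h (T i) _ _ a1.1 b1
      have b4 := OrTruth_holds hE (s.ρ i) N (T i)
      have b5 : ∀ f ∈ (ev (gw (s.ρ i) N) (T i)).1, holds (gw (s.ρ i) (N + 9 * h + 1)) f := by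
        have := OrTruth_holds hE (s.ρ i) (N + 9 * h + 1) (T i)
        rwa [a3] at this
      have b6 := s.le_kk i
      have b7 := s.le_I i
      have hc : Con (s.ρ i) (ev (gw (s.ρ i) N) (T i)).1 :=
        hL _ _ (s.ρ i) N (N + 9 * h + 1) _ b3 b4 b5 (by omega) (by omega) (by omega)
      have hex : ∃ x, P i x := a1.2.1 _ b1 hc
      have hxi : x i = hex.choose := dif_pos hex
      rw [hxi]
      exact hex.choose_spec
    refine ⟨x, hP.mono fun i hi => hi.1, N, fun N'' hN'' => ?_⟩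
    have hN1'' : N1 ≤ N'' := hN1.trans hN''
    filter_upwards [hP, h1 N N'' hN1 hN1''] with i a1 a2
    obtain ⟨-, F', c1, c2⟩ := a1
    have c3 : ∀ f ∈ F', holds (gw (s.ρ i) N'') f := by
      intro f hf
      rcases c2 f hf with c4 | c4
      · have c5 := OrTruth_holds hE (s.ρ i) N'' (T i)
        rw [a2] at c5
        exact c5 f c4
      · exact OrTruth_set _ _ f c4
    exact ((hE _ _ (gw (s.ρ i) N'') (Tx i (x i))).2.2 F' true c1 c3).2.symm
  · rintro ⟨x, hxm, N0, h0⟩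
    by_contra hcon
    have hTx : ∀ᶠ i in UU, HLe h' (Tx i (x i)) := by
      filter_upwards [hx, hxm] with i a b
      exact a _ b
    obtain ⟨N1, h1⟩ := OrTruth_stab hS s h T hTh
    obtain ⟨N2, h2⟩ := OrTruth_stab hS s h' (fun i => Tx i (x i)) hTx
    have hN0 : N0 ≤ max N0 (max N1 N2) := le_max_left _ _
    have hN1 : N1 ≤ max N0 (max N1 N2) := (le_max_left _ _).trans (le_max_right _ _)
    have hN2 : N2 ≤ max N0 (max N1 N2) := (le_max_right _ _).trans (le_max_right _ _)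
    generalize max N0 (max N1 N2) = N at hN0 hN1 hN2
    have hf : ∀ᶠ i in UU, (ev (gw (s.ρ i) N) (T i)).2 = false := by
      rcases UU_em (fun i => (ev (gw (s.ρ i) N) (T i)).2 = true) with h3 | h3
      · exfalso
        apply hcon
        refine ⟨N, fun N'' hN'' => ?_⟩
        filter_upwards [h3, h1 N N'' hN1 (hN1.trans hN'')] with i a b
        rw [b]
        exact a
      · exact h3.mono fun i hi => by simpa using hi
    have hN1' : N1 ≤ N + 9 * h + 9 * h' + 1 := by omega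
    have hN2' : N2 ≤ N + 9 * h + 9 * h' + 1 := by omega
    apply UU_false
    filter_upwards [hR, hf, h0 N hN0, h1 N (N + 9 * h + 9 * h' + 1) hN1 hN1',
      h2 N (N + 9 * h + 9 * h' + 1) hN2 hN2', UU_ge (N + 9 * h + 9 * h' + 2), hxm, hTx] with
      i a1 a2 a3 a4 a5 a6 a7 a8
    have b1 : Br (T i) (ev (gw (s.ρ i) N) (T i)).1 false := by
      have := (hE _ _ (gw (s.ρ i) N) (T i)).1
      rwa [a2] at this
    have b1' : Br (Tx i (x i)) (ev (gw (s.ρ i) N) (Tx i (x i))).1 true := by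
      have := (hE _ _ (gw (s.ρ i) N) (Tx i (x i))).1
      rwa [a3] at this
    obtain ⟨b2, b3⟩ := hB _ _ h (T i) _ _ a1.1 b1
    obtain ⟨b2', b3'⟩ := hB _ _ h' (Tx i (x i)) _ _ a8 b1'
    have b4 := OrTruth_holds hE (s.ρ i) N (T i)
    have b4' := OrTruth_holds hE (s.ρ i) N (Tx i (x i))
    have b5 := OrTruth_holds hE (s.ρ i) (N + 9 * h + 9 * h' + 1) (T i)
    have b5' := OrTruth_holds hE (s.ρ i) (N + 9 * h + 9 * h' + 1) (Tx i (x i))
    rw [a4] at b5
    rw [a5] at b5'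
    have b6 := s.le_kk i
    have b7 := s.le_I i
    refine a1.2.2 _ b1 (x i) a7 _ b1' ?_
    have hcard := Finset.card_union_le (ev (gw (s.ρ i) N) (T i)).1
      (ev (gw (s.ρ i) N) (Tx i (x i))).1
    refine hL _ _ (s.ρ i) N (N + 9 * h + 9 * h' + 1) _ ?_ ?_ ?_ (by omega) (by omega) (by omega)
    · intro f hf
      rcases Finset.mem_union.1 hf with hf | hf
      · exact b3 f hf
      · exact b3' f hf
    · intro f hf
      rcases Finset.mem_union.1 hf with hf | hf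
      · exact b4 f hf
      · exact b4' f hf
    · intro f hf
      rcases Finset.mem_union.1 hf with hf | hf
      · exact b5 f hf
      · exact b5' f hf

end Pool.Agent.Work.MP_610017_lc

end

section

/-!
# Block B: the relations in the model (MP_610017_lc)
-/

set_option autoImplicit false

namespace Pool.Agent.Work.MP_610017_lc

theorem Rels_num (s : SD) (c : ℕ) : (MStr s).num c = MM.mk (BSeq.const s c) := by
  induction c with
  | zero => rfl
  | succ c ih =>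
    change (MStr s).succ ((MStr s).num c) = _
    rw [ih, MStr_succ]
    exact (MM.eq_iff _ _).2 (Filter.Eventually.of_forall fun _ => rfl)

theorem Rels_rel (s : SD) (p0 p1 p2 p3 p4 : BSeq s) :
    (MStr s).rel ![MM.mk p0, MM.mk p1, MM.mk p2, MM.mk p3, MM.mk p4] ↔
      EvT s fun i => relTree (s.kk i) (s.nn i) ![p0.1 i, p1.1 i, p2.1 i, p3.1 i, p4.1 i] := by
  have h := MStr_rel s ![p0, p1, p2, p3, p4]
  have e1 : (fun j => MM.mk ((![p0, p1, p2, p3, p4] : Fin 5 → BSeq s) j)) =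
      ![MM.mk p0, MM.mk p1, MM.mk p2, MM.mk p3, MM.mk p4] := by
    funext j
    fin_cases j <;> rfl
  have e2 : ∀ i, (fun j => ((![p0, p1, p2, p3, p4] : Fin 5 → BSeq s) j).1 i) =
      ![p0.1 i, p1.1 i, p2.1 i, p3.1 i, p4.1 i] := by
    intro i
    funext j
    fin_cases j <;> rfl
  rw [e1] at h
  simp only [e2] at h
  exact h

theorem Rels_up1 {k x : ℕ} (h : x < k) :
    up1 (Fin.ofNat (k + 1) x) = Fin.ofNat (k + 1) (x + 1) := by
  apply Fin.ext
  simp only [up1, Fin.ofNat]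
  rw [Nat.mod_eq_of_lt (by omega), Nat.mod_eq_of_lt (by omega)]
  omega

theorem Rels_key {k n : ℕ} (ρ : Res k n) (N : ℕ) (v : Vx k) (a' b'' : Lb n) (d : Fin 4) :
    (ev (gw ρ N) (Tree.node v a' fun b' _ => Tree.leaf (decide (b' d = b'')))).2 = true ↔
      ρ.β (nb v d) ((ρ.β v).symm a') = b'' := by
  change decide (ρ.β (nb v d) ((ρ.β v).symm a') = b'') = true ↔ _
  exact decide_eq_true_iff

theorem Rels_key2 {k n : ℕ} (ρ : Res k n) (N : ℕ) (v : Vx k) (a' : Lb n) :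
    (ev (gw ρ N) (Tree.node v a' fun _ c => Tree.leaf c)).2 =
      (bd v && (if (ρ.β v).symm a' = 0 then
        decide (v.2.val = 0 ∧ 1 ≤ v.1.val ∧ v.1.val ≤ N) else ρ.ζ ((ρ.β v).symm a'))) := rfl

theorem Rels_evH {k n : ℕ} (ρ : Res k n) (N x y a b : ℕ) :
    (ev (gw ρ N) (relTree k n ![0, x, y, a, b])).2 = true ↔ hR ρ x y a b := by
  unfold relTree hR
  have t0 : (![0, x, y, a, b] : Fin 5 → ℕ) 0 = 0 := rfl
  have t1 : (![0, x, y, a, b] : Fin 5 → ℕ) 1 = x := rfl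
  have t2 : (![0, x, y, a, b] : Fin 5 → ℕ) 2 = y := rfl
  have t3 : (![0, x, y, a, b] : Fin 5 → ℕ) 3 = a := rfl
  have t4 : (![0, x, y, a, b] : Fin 5 → ℕ) 4 = b := rfl
  rw [t0, t1, t2, t3, t4]
  by_cases h : x < k ∧ y ≤ k ∧ a ≤ n ∧ b ≤ n
  · rw [if_pos ⟨rfl, h⟩, Rels_key]
    have e : nb ((Fin.ofNat (k + 1) x, Fin.ofNat (k + 1) y) : Vx k) 0 =
        (Fin.ofNat (k + 1) (x + 1), Fin.ofNat (k + 1) y) := by
      unfold nb
      rw [if_pos rfl, Rels_up1 h.1]
    rw [e]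
    exact ⟨fun h' => ⟨h.1, h.2.1, h.2.2.1, h.2.2.2, h'⟩, fun h' => h'.2.2.2.2⟩
  · rw [if_neg (fun h' => h h'.2), if_neg (fun h' => by omega), if_neg (fun h' => by omega)]
    simp only [ev, decide_eq_true_eq]
    constructor
    · intro h'
      omega
    · intro h'
      exact absurd ⟨h'.1, h'.2.1, h'.2.2.1, h'.2.2.2.1⟩ h

theorem Rels_evU {k n : ℕ} (ρ : Res k n) (N x y a b : ℕ) :
    (ev (gw ρ N) (relTree k n ![1, x, y, a, b])).2 = true ↔ uR ρ x y a b := by
  unfold relTree uR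
  have t0 : (![1, x, y, a, b] : Fin 5 → ℕ) 0 = 1 := rfl
  have t1 : (![1, x, y, a, b] : Fin 5 → ℕ) 1 = x := rfl
  have t2 : (![1, x, y, a, b] : Fin 5 → ℕ) 2 = y := rfl
  have t3 : (![1, x, y, a, b] : Fin 5 → ℕ) 3 = a := rfl
  have t4 : (![1, x, y, a, b] : Fin 5 → ℕ) 4 = b := rfl
  rw [t0, t1, t2, t3, t4, if_neg (fun h' => by omega)]
  by_cases h : x ≤ k ∧ y < k ∧ a ≤ n ∧ b ≤ n
  · rw [if_pos ⟨rfl, h⟩, Rels_key]
    have e : nb ((Fin.ofNat (k + 1) x, Fin.ofNat (k + 1) y) : Vx k) 1 =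
        (Fin.ofNat (k + 1) x, Fin.ofNat (k + 1) (y + 1)) := by
      unfold nb
      rw [if_neg (by decide), if_pos rfl, Rels_up1 h.2.1]
    rw [e]
    exact ⟨fun h' => ⟨h.1, h.2.1, h.2.2.1, h.2.2.2, h'⟩, fun h' => h'.2.2.2.2⟩
  · rw [if_neg (fun h' => h h'.2), if_neg (fun h' => by omega)]
    simp only [ev, decide_eq_true_eq]
    constructor
    · intro h'
      omega
    · intro h'
      exact absurd ⟨h'.1, h'.2.1, h'.2.2.1, h'.2.2.2.1⟩ h

theorem Rels_bd {k x y : ℕ} (hx : x ≤ k) (hy : y ≤ k) :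
    bd ((Fin.ofNat (k + 1) x, Fin.ofNat (k + 1) y) : Vx k) = true ↔
      (x = 0 ∨ x = k ∨ y = 0 ∨ y = k) ∧ ¬ (x = 0 ∧ y = 0) := by
  unfold bd
  simp only [decide_eq_true_eq, Fin.ofNat]
  rw [Nat.mod_eq_of_lt (by omega : x < k + 1), Nat.mod_eq_of_lt (by omega : y < k + 1)]

theorem Rels_evC {k n : ℕ} (ρ : Res k n) (N x y a : ℕ) :
    (ev (gw ρ N) (relTree k n ![2, x, y, a, 0])).2 = true ↔ cR ρ N x y a := by
  unfold relTree cR
  have t0 : (![2, x, y, a, 0] : Fin 5 → ℕ) 0 = 2 := rfl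
  have t1 : (![2, x, y, a, 0] : Fin 5 → ℕ) 1 = x := rfl
  have t2 : (![2, x, y, a, 0] : Fin 5 → ℕ) 2 = y := rfl
  have t3 : (![2, x, y, a, 0] : Fin 5 → ℕ) 3 = a := rfl
  have t4 : (![2, x, y, a, 0] : Fin 5 → ℕ) 4 = 0 := rfl
  rw [t0, t1, t2, t3, t4, if_neg (fun h' => by omega), if_neg (fun h' => by omega)]
  by_cases h : x ≤ k ∧ y ≤ k ∧ a ≤ n ∧
      bd ((Fin.ofNat (k + 1) x, Fin.ofNat (k + 1) y) : Vx k) = true
  · rw [if_pos ⟨rfl, h.1, h.2.1, h.2.2.1, rfl, h.2.2.2⟩]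
    have hb := (Rels_bd h.1 h.2.1).1 h.2.2.2
    rw [Rels_key2, h.2.2.2, Bool.true_and]
    have ex : (Fin.ofNat (k + 1) x).val = x := Nat.mod_eq_of_lt (by omega : x < k + 1)
    have ey : (Fin.ofNat (k + 1) y).val = y := Nat.mod_eq_of_lt (by omega : y < k + 1)
    simp only [ex, ey]
    constructor
    · intro h'
      refine ⟨h.1, h.2.1, h.2.2.1, hb.1, hb.2, ?_⟩
      split_ifs at h' ⊢
      · exact of_decide_eq_true h'
      · exact h'
    · rintro ⟨-, -, -, -, -, h'⟩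
      split_ifs at h' ⊢
      · exact decide_eq_true h'
      · exact h'
  · rw [if_neg (fun h' => h ⟨h'.2.1, h'.2.2.1, h'.2.2.2.1, h'.2.2.2.2.2⟩)]
    simp only [ev, decide_eq_true_eq]
    constructor
    · intro h'
      omega
    · intro h'
      exact absurd ⟨h'.1, h'.2.1, h'.2.2.1,
        (Rels_bd h'.1 h'.2.1).2 ⟨h'.2.2.2.1, h'.2.2.2.2.1⟩⟩ h

theorem Rels_evP {k n : ℕ} (ρ : Res k n) (N x y : ℕ) :
    (ev (gw ρ N) (relTree k n ![3, x, y, 0, 0])).2 = true ↔ x ≤ k ∧ y = 2 ^ x := by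
  unfold relTree
  have t0 : (![3, x, y, 0, 0] : Fin 5 → ℕ) 0 = 3 := rfl
  have t1 : (![3, x, y, 0, 0] : Fin 5 → ℕ) 1 = x := rfl
  have t2 : (![3, x, y, 0, 0] : Fin 5 → ℕ) 2 = y := rfl
  have t3 : (![3, x, y, 0, 0] : Fin 5 → ℕ) 3 = 0 := rfl
  have t4 : (![3, x, y, 0, 0] : Fin 5 → ℕ) 4 = 0 := rfl
  rw [t0, t1, t2, t3, t4, if_neg (fun h' => by omega), if_neg (fun h' => by omega),
    if_neg (fun h' => by omega)]
  simp only [ev, decide_eq_true_eq]
  constructor
  · intro h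
    exact ⟨h.2.1, h.2.2.1⟩
  · intro h
    exact ⟨trivial, h.1, h.2, trivial, trivial⟩

/-- truth that does not depend on `N` -/
theorem Rels_EvT {s : SD} {T : ∀ i, Tree (s.kk i) (s.nn i)} {P : ℕ → Prop}
    (h : ∀ i N, (ev (gw (s.ρ i) N) (T i)).2 = true ↔ P i) : EvT s T ↔ ∀ᶠ i in UU, P i := by
  constructor
  · rintro ⟨N0, h0⟩
    exact (h0 N0 le_rfl).mono fun i hi => (h i N0).1 hi
  · intro h0
    exact ⟨0, fun N _ => h0.mono fun i hi => (h i N).2 hi⟩

theorem prf_Rels : S_Rels := by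
  intro s x y a b
  refine ⟨?_, ?_, ?_, ?_⟩
  · unfold Str.H
    rw [Rels_num, Rels_rel]
    exact Rels_EvT fun i N => Rels_evH (s.ρ i) N (x.1 i) (y.1 i) (a.1 i) (b.1 i)
  · unfold Str.U
    rw [Rels_num, Rels_rel]
    exact Rels_EvT fun i N => Rels_evU (s.ρ i) N (x.1 i) (y.1 i) (a.1 i) (b.1 i)
  · unfold Str.C
    rw [Rels_num, Rels_num, Rels_rel]
    unfold EvT
    have h : ∀ i N, (ev (gw (s.ρ i) N) (relTree (s.kk i) (s.nn i)
        ![(BSeq.const s 2).1 i, x.1 i, y.1 i, a.1 i, (BSeq.const s 0).1 i])).2 = true ↔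
          cR (s.ρ i) N (x.1 i) (y.1 i) (a.1 i) := fun i N =>
      Rels_evC (s.ρ i) N (x.1 i) (y.1 i) (a.1 i)
    simp only [h]
  · unfold Str.P
    rw [Rels_num, Rels_num, Rels_rel]
    exact Rels_EvT fun i N => Rels_evP (s.ρ i) N (x.1 i) (y.1 i)

end Pool.Agent.Work.MP_610017_lc

end

section

/-!
# Block B, item RobM: the model satisfies Robinson arithmetic (MP_610017_lc)
-/

set_option autoImplicit false

namespace Pool.Agent.Work.MP_610017_lc

/-- truncated difference of sequences -/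
def RobM_sub {s : SD} (y x : BSeq s) : BSeq s := ⟨fun i => y.1 i - x.1 i, by
  obtain ⟨J, hJ⟩ := y.2
  exact ⟨J, hJ.mono fun i hi => (Nat.sub_le _ _).trans hi⟩⟩

theorem prf_RobM : S_RobM := by
  intro s
  constructor
  · intro x
    induction x using MM.ind' with
    | h x =>
      rw [MStr_succ, MStr_zero, Ne, MM.eq_iff]
      intro h
      refine UU_false (h.mono fun i hi => ?_)
      exact Nat.succ_ne_zero _ hi
  · intro x y
    induction x using MM.ind' with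
    | h x =>
      induction y using MM.ind' with
      | h y =>
        rw [MStr_succ, MStr_succ, MM.eq_iff, MM.eq_iff]
        intro h
        exact h.mono fun i hi => Nat.succ_injective hi
  · intro x
    induction x using MM.ind' with
    | h x =>
      intro hx
      rw [MStr_zero, Ne, MM.eq_iff, UU_not] at hx
      refine ⟨MM.mk (RobM_sub x (BSeq.const s 1)), ?_⟩
      rw [MStr_succ, MM.eq_iff]
      filter_upwards [hx] with i hi
      have hi' : x.1 i ≠ 0 := hi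
      show x.1 i = x.1 i - 1 + 1
      omega
  · intro x
    induction x using MM.ind' with
    | h x =>
      rw [MStr_zero, MStr_add, MM.eq_iff]
      exact Filter.Eventually.of_forall fun i => Nat.add_zero _
  · intro x y
    induction x using MM.ind' with
    | h x =>
      induction y using MM.ind' with
      | h y =>
        rw [MStr_succ, MStr_add, MStr_add, MStr_succ, MM.eq_iff]
        exact Filter.Eventually.of_forall fun i => rfl
  · intro x
    induction x using MM.ind' with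
    | h x =>
      rw [MStr_zero, MStr_mul, MM.eq_iff]
      exact Filter.Eventually.of_forall fun i => Nat.mul_zero _
  · intro x y
    induction x using MM.ind' with
    | h x =>
      induction y using MM.ind' with
      | h y =>
        rw [MStr_succ, MStr_mul, MStr_mul, MStr_add, MM.eq_iff]
        exact Filter.Eventually.of_forall fun i => Nat.mul_succ _ _
  · intro x y
    induction x using MM.ind' with
    | h x =>
      induction y using MM.ind' with
      | h y =>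
        rw [MStr_le]
        constructor
        · intro h
          refine ⟨MM.mk (RobM_sub y x), ?_⟩
          rw [MStr_add, MM.eq_iff]
          filter_upwards [h] with i hi
          show y.1 i - x.1 i + x.1 i = y.1 i
          omega
        · rintro ⟨z, hz⟩
          induction z using MM.ind' with
          | h z =>
            rw [MStr_add, MM.eq_iff] at hz
            filter_upwards [hz] with i hi
            have hi' : z.1 i + x.1 i = y.1 i := hi
            omega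

end Pool.Agent.Work.MP_610017_lc

end

section

/-!
# The branch of a tree of bounded height is independent of `N` for large `N`
-/

set_option autoImplicit false

namespace Pool.Agent.Work.MP_610017_lc

/-- the vertex of the root query -/
def Stab_tv {k n : ℕ} : Tree k n → Vx k
  | .leaf _ => (0, 0)
  | .node v _ _ => v

/-- the label of the root query -/
def Stab_ta {k n : ℕ} : Tree k n → Lb n
  | .leaf _ => 0
  | .node _ a _ => a

/-- the children of the root -/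
def Stab_tn {k n : ℕ} : Tree k n → (Fin 4 → Lb n) → Bool → Tree k n
  | .leaf r => fun _ _ => .leaf r
  | .node _ _ next => next

/-- the index of the sheet of the root query -/
def Stab_idx {k n : ℕ} (ρ : Res k n) (v : Vx k) (a : Lb n) : Lb n := (ρ.β v).symm a

/-- the answer to the root query -/
def Stab_b {k n : ℕ} (ρ : Res k n) (v : Vx k) (a : Lb n) : Fin 4 → Lb n :=
  fun d => ρ.β (nb v d) (Stab_idx ρ v a)

/-- the colour in the answer to the root query -/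
def Stab_c {k n : ℕ} (ρ : Res k n) (v : Vx k) (a : Lb n) (N : ℕ) : Bool :=
  bd v && (if Stab_idx ρ v a = 0 then decide (v.2.val = 0 ∧ 1 ≤ v.1.val ∧ v.1.val ≤ N) else
    ρ.ζ (Stab_idx ρ v a))

theorem Stab_ev {k n : ℕ} (ρ : Res k n) (N : ℕ) (v : Vx k) (a : Lb n)
    (next : (Fin 4 → Lb n) → Bool → Tree k n) :
    ev (gw ρ N) (.node v a next) = (star v a (Stab_b ρ v a) (Stab_c ρ v a N) ∪
      (ev (gw ρ N) (next (Stab_b ρ v a) (Stab_c ρ v a N))).1,
      (ev (gw ρ N) (next (Stab_b ρ v a) (Stab_c ρ v a N))).2) := rfl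

theorem Stab_c_le {k n : ℕ} (ρ : Res k n) (v : Vx k) (a : Lb n) (N N1 : ℕ) (h : v.1.val ≤ N1)
    (h1 : N1 ≤ N) : Stab_c ρ v a N = Stab_c ρ v a N1 := by
  have h2 : v.1.val ≤ N := h.trans h1
  unfold Stab_c
  simp only [h, h2, and_true]

theorem Stab_c_gt {k n : ℕ} (ρ : Res k n) (v : Vx k) (a : Lb n) (N N1 : ℕ) (h : ¬ v.1.val ≤ N)
    (h1 : ¬ v.1.val ≤ N1) : Stab_c ρ v a N = Stab_c ρ v a N1 := by
  unfold Stab_c
  simp only [h, h1, and_false]

theorem prf_Stab : S_Stab := by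
  intro s h
  induction h with
  | zero =>
    intro T hT
    refine ⟨0, fun N _ => ?_⟩
    filter_upwards [hT] with i hi
    match T i, hi with
    | .leaf r, _ => rfl
  | succ h ih =>
    intro T hT
    rcases UU_em (fun i => ∃ r, T i = .leaf r) with hl | hn
    · refine ⟨0, fun N _ => ?_⟩
      filter_upwards [hl] with i hi
      obtain ⟨r, hr⟩ := hi
      rw [hr]
      rfl
    · have hnode : ∀ i, (¬ ∃ r, T i = .leaf r) →
          T i = .node (Stab_tv (T i)) (Stab_ta (T i)) (Stab_tn (T i)) := by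
        intro i hi
        match hTi : T i with
        | .leaf r => exact absurd ⟨r, hTi⟩ hi
        | .node v a next => rfl
      obtain ⟨N1, hN1⟩ : ∃ N1, ∀ N, N1 ≤ N → ∀ᶠ i in UU,
          Stab_c (s.ρ i) (Stab_tv (T i)) (Stab_ta (T i)) N =
            Stab_c (s.ρ i) (Stab_tv (T i)) (Stab_ta (T i)) N1 := by
        by_cases hb : ∃ N1, ∀ᶠ i in UU, (Stab_tv (T i)).1.val ≤ N1
        · obtain ⟨N1, hN1⟩ := hb
          refine ⟨N1, fun N hN => ?_⟩
          filter_upwards [hN1] with i hi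
          exact Stab_c_le _ _ _ _ _ hi hN
        · have hb' : ∀ N1, ∀ᶠ i in UU, ¬ (Stab_tv (T i)).1.val ≤ N1 := fun N1 =>
            (UU_not _).1 fun h0 => hb ⟨N1, h0⟩
          refine ⟨0, fun N _ => ?_⟩
          filter_upwards [hb' N, hb' 0] with i h1 h2
          exact Stab_c_gt _ _ _ _ _ h1 h2
      obtain ⟨N2, hN2⟩ := ih (fun i => Stab_tn (T i)
        (Stab_b (s.ρ i) (Stab_tv (T i)) (Stab_ta (T i)))
        (Stab_c (s.ρ i) (Stab_tv (T i)) (Stab_ta (T i)) N1)) (by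
          filter_upwards [hT, hn] with i hi hni
          rw [hnode i hni] at hi
          exact hi _ _)
      refine ⟨max N1 N2, fun N hN => ?_⟩
      filter_upwards [hn, hN1 N ((le_max_left _ _).trans hN), hN1 _ (le_max_left N1 N2),
        hN2 N ((le_max_right _ _).trans hN), hN2 _ (le_max_right N1 N2)] with i hni h1 h2 h3 h4
      have h5 := h3.trans h4.symm
      rw [hnode i hni, Stab_ev, Stab_ev, h1, h2, h5]

end Pool.Agent.Work.MP_610017_lc

end

section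

/-!
# Values of terms in the model (MP_610017_lc, block B)
-/

set_option autoImplicit false

namespace Pool.Agent.Work.MP_610017_lc

theorem prf_TmVal : S_TmVal := by
  intro s v t r
  induction t with
  | var j => exact ⟨r j, fun i => rfl, rfl⟩
  | zero => exact ⟨BSeq.const s 0, fun i => rfl, rfl⟩
  | succ t ih =>
    obtain ⟨x, hx, hx'⟩ := ih
    refine ⟨BSeq.succ x, fun i => ?_, ?_⟩
    · show x.1 i + 1 = t.val stdN _ + 1
      rw [hx]
    · show (MStr s).succ (t.val (MStr s) _) = _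
      rw [hx', MStr_succ]
  | add t u ih1 ih2 =>
    obtain ⟨x, hx, hx'⟩ := ih1
    obtain ⟨y, hy, hy'⟩ := ih2
    refine ⟨BSeq.add x y, fun i => ?_, ?_⟩
    · show x.1 i + y.1 i = t.val stdN _ + u.val stdN _
      rw [hx, hy]
    · show (MStr s).add (t.val (MStr s) _) (u.val (MStr s) _) = _
      rw [hx', hy', MStr_add]
  | mul t u ih1 ih2 =>
    obtain ⟨x, hx, hx'⟩ := ih1
    obtain ⟨y, hy, hy'⟩ := ih2
    refine ⟨BSeq.mul x y, fun i => ?_, ?_⟩
    · show x.1 i * y.1 i = t.val stdN _ * u.val stdN _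
      rw [hx, hy]
    · show (MStr s).mul (t.val (MStr s) _) (u.val (MStr s) _) = _
      rw [hx', hy', MStr_mul]

end Pool.Agent.Work.MP_610017_lc

end

section

/-!
# Item Truth: truth in the model is truth of the trees (MP_610017_lc)
-/

set_option autoImplicit false

namespace Pool.Agent.Work.MP_610017_lc

instance Truth_inst (k n : ℕ) : Nonempty (Tree k n) := ⟨.leaf true⟩

/-- choice along the ultrafilter -/
theorem Truth_choose {α : ℕ → Type} [∀ i, Nonempty (α i)] {P : ∀ i, α i → Prop}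
    (h : ∀ᶠ i in UU, ∃ x, P i x) : ∃ f : ∀ i, α i, ∀ᶠ i in UU, P i (f i) := by
  classical
  refine ⟨fun i => if hx : ∃ x, P i x then hx.choose else Classical.arbitrary _, ?_⟩
  filter_upwards [h] with i hi
  rw [dif_pos hi]
  exact hi.choose_spec

/-- leaves -/
theorem Truth_leaf (s : SD) (P : ℕ → Prop) [∀ i, Decidable (P i)] :
    EvT s (fun i => .leaf (decide (P i))) ↔ ∀ᶠ i in UU, P i := by
  constructor
  · rintro ⟨N0, h⟩
    filter_upwards [h N0 le_rfl] with i hi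
    simpa [ev] using hi
  · intro h
    refine ⟨0, fun N _ => ?_⟩
    filter_upwards [h] with i hi
    simpa [ev] using hi

theorem Truth_cons_mk (s : SD) {v : ℕ} (x : BSeq s) (r : Fin v → BSeq s) :
    (Fin.cons (MM.mk x) (fun j => MM.mk (r j)) : Fin (v + 1) → MM s) =
      fun j => MM.mk ((Fin.cons x r : Fin (v + 1) → BSeq s) j) := by
  funext j
  refine Fin.cases ?_ (fun j => ?_) j
  · rw [Fin.cons_zero, Fin.cons_zero]
  · rw [Fin.cons_succ, Fin.cons_succ]

theorem Truth_cons_val (s : SD) {v : ℕ} (x : BSeq s) (r : Fin v → BSeq s) (i : ℕ) :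
    (Fin.cons (x.1 i) (fun j => (r j).1 i) : Fin (v + 1) → ℕ) =
      fun j => ((Fin.cons x r : Fin (v + 1) → BSeq s) j).1 i := by
  funext j
  refine Fin.cases ?_ (fun j => ?_) j
  · rw [Fin.cons_zero, Fin.cons_zero]
  · rw [Fin.cons_succ, Fin.cons_succ]

theorem prf_Truth (hV : S_TmVal) (hB : S_EvBool) (hO : S_OrTruth) (hH : S_RepHLe)
    (hF : S_BrFlip) (hA : S_BrAnd) : S_Truth := by
  classical
  intro s v φ
  induction φ with
  | @eq v t1 t2 =>
    intro h r T hT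
    obtain ⟨a, ha1, ha2⟩ := hV s v t1 r
    obtain ⟨b, hb1, hb2⟩ := hV s v t2 r
    have e1 : ∀ᶠ i in UU, T i = Tree.leaf (decide (a.1 i = b.1 i)) := by
      filter_upwards [hT] with i hi
      have hi' : T i = Tree.leaf (decide (t1.val stdN (fun j => (r j).1 i) =
        t2.val stdN (fun j => (r j).1 i))) := hi
      rw [hi', ha1, hb1]
    rw [EvT_congr s _ _ e1, Truth_leaf]
    show t1.val (MStr s) (fun j => MM.mk (r j)) = t2.val (MStr s) (fun j => MM.mk (r j)) ↔ _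
    rw [ha2, hb2, MM.eq_iff]
  | @le v t1 t2 =>
    intro h r T hT
    obtain ⟨a, ha1, ha2⟩ := hV s v t1 r
    obtain ⟨b, hb1, hb2⟩ := hV s v t2 r
    have e1 : ∀ᶠ i in UU, T i = Tree.leaf (decide (a.1 i ≤ b.1 i)) := by
      filter_upwards [hT] with i hi
      have hi' : T i = Tree.leaf (decide (t1.val stdN (fun j => (r j).1 i) ≤
        t2.val stdN (fun j => (r j).1 i))) := hi
      rw [hi', ha1, hb1]
    rw [EvT_congr s _ _ e1, Truth_leaf]
    show (MStr s).le (t1.val (MStr s) (fun j => MM.mk (r j)))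
      (t2.val (MStr s) (fun j => MM.mk (r j))) ↔ _
    rw [ha2, hb2, MStr_le]
  | @rel v t =>
    intro h r T hT
    choose a ha1 ha2 using fun j => hV s v (t j) r
    have e1 : ∀ᶠ i in UU, T i = relTree (s.kk i) (s.nn i) fun j => (a j).1 i := by
      filter_upwards [hT] with i hi
      have hi' : T i = relTree (s.kk i) (s.nn i) (fun l => (t l).val stdN (fun j => (r j).1 i)) :=
        hi.2
      rw [hi']
      congr 1
      funext j
      rw [ha1]
    rw [EvT_congr s _ _ e1, ← MStr_rel]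
    show (MStr s).rel (fun l => (t l).val (MStr s) (fun j => MM.mk (r j))) ↔ _
    have e2 : (fun l => (t l).val (MStr s) (fun j => MM.mk (r j))) = fun l => MM.mk (a l) :=
      funext ha2
    rw [e2]
  | @neg v φ ih =>
    intro h r T hT
    have hT' : ∀ᶠ i in UU, ∃ x : Tree (s.kk i) (s.nn i),
        T i = x.flip ∧ Rep (s.ρ i) h φ (fun j => (r j).1 i) x := hT
    obtain ⟨T1, hT1⟩ := Truth_choose hT'
    have e1 : ∀ᶠ i in UU, T i = (T1 i).flip := hT1.mono fun i hi => hi.1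
    have e2 : ∀ᶠ i in UU, Rep (s.ρ i) h φ (fun j => (r j).1 i) (T1 i) := hT1.mono fun i hi => hi.2
    have e3 : ∀ᶠ i in UU, HLe h (T1 i) := e2.mono fun i hi => hH _ _ _ _ _ _ _ _ hi
    rw [EvT_congr s _ _ e1, (hB s h T1 T1 e3).1, ← ih h r T1 e2]
    rfl
  | @and v φ ψ ih1 ih2 =>
    intro h r T hT
    have hT' : ∀ᶠ i in UU, ∃ x : Tree (s.kk i) (s.nn i) × Tree (s.kk i) (s.nn i),
        T i = andT x.1 x.2 ∧ Rep (s.ρ i) h φ (fun j => (r j).1 i) x.1 ∧
          Rep (s.ρ i) h ψ (fun j => (r j).1 i) x.2 := by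
      filter_upwards [hT] with i hi
      obtain ⟨-, T1, T2, h1, h2, h3⟩ := hi
      exact ⟨(T1, T2), h1, h2, h3⟩
    obtain ⟨T1, hT1⟩ := Truth_choose hT'
    have e1 : ∀ᶠ i in UU, T i = andT (T1 i).1 (T1 i).2 := hT1.mono fun i hi => hi.1
    have e2 : ∀ᶠ i in UU, Rep (s.ρ i) h φ (fun j => (r j).1 i) (T1 i).1 :=
      hT1.mono fun i hi => hi.2.1
    have e3 : ∀ᶠ i in UU, Rep (s.ρ i) h ψ (fun j => (r j).1 i) (T1 i).2 :=
      hT1.mono fun i hi => hi.2.2
    have e4 : ∀ᶠ i in UU, HLe h (T1 i).1 := e2.mono fun i hi => hH _ _ _ _ _ _ _ _ hi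
    rw [EvT_congr s _ _ e1, (hB s h (fun i => (T1 i).1) (fun i => (T1 i).2) e4).2,
      ← ih1 h r _ e2, ← ih2 h r _ e3]
    rfl
  | @bex v t φ ih =>
    intro h r T hT
    obtain ⟨m, hm1, hm2⟩ := hV s v t r
    haveI : ∀ i, Nonempty (ℕ → Tree (s.kk i) (s.nn i)) := fun i => ⟨fun _ => .leaf true⟩
    have hT' : ∀ᶠ i in UU, ∃ Tx : ℕ → Tree (s.kk i) (s.nn i),
        (∀ x, x ≤ m.1 i → Rep (s.ρ i) h φ (Fin.cons x (fun j => (r j).1 i)) (Tx x)) ∧
          OrRep (s.ρ i) h (m.1 i) Tx (T i) := by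
      filter_upwards [hT] with i hi
      rw [hm1]
      exact hi
    obtain ⟨Tx, hTx⟩ := Truth_choose hT'
    have e1 : ∀ᶠ i in UU, OrRep (s.ρ i) h (m.1 i) (Tx i) (T i) := hTx.mono fun i hi => hi.2
    have e2 : ∀ᶠ i in UU, ∀ x, x ≤ m.1 i → HLe h (Tx i x) :=
      hTx.mono fun i hi x hx => hH _ _ _ _ _ _ _ _ (hi.1 x hx)
    rw [hO s h h m.1 Tx T e1 e2]
    show (∃ x : MM s, (MStr s).le x (t.val (MStr s) (fun j => MM.mk (r j))) ∧
      φ.sat (MStr s) (Fin.cons x (fun j => MM.mk (r j)))) ↔ _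
    rw [hm2]
    have key : ∀ rx : BSeq s, (∀ᶠ i in UU, rx.1 i ≤ m.1 i) →
        (φ.sat (MStr s) (Fin.cons (MM.mk rx) (fun j => MM.mk (r j))) ↔
          EvT s (fun i => Tx i (rx.1 i))) := by
      intro rx hrx
      rw [Truth_cons_mk]
      refine ih h (Fin.cons rx r) _ ?_
      filter_upwards [hTx, hrx] with i hi hi2
      rw [← Truth_cons_val]
      exact hi.1 _ hi2
    constructor
    · rintro ⟨x, hx1, hx2⟩
      obtain ⟨rx, rfl⟩ : ∃ rx : BSeq s, x = MM.mk rx := ⟨Quotient.out x, (Quotient.out_eq x).symm⟩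
      rw [MStr_le] at hx1
      exact ⟨rx.1, hx1, (key rx hx1).1 hx2⟩
    · rintro ⟨x, hx1, hx2⟩
      obtain ⟨J, hJ⟩ := m.2
      let rx : BSeq s := ⟨x, J, by
        filter_upwards [hx1, hJ] with i h1 h2
        exact h1.trans h2⟩
      exact ⟨MM.mk rx, (MStr_le s _ _).2 hx1, (key rx hx1).2 hx2⟩
  | @ind v φ ih =>
    intro h r T hT
    obtain ⟨m, hm⟩ : ∃ m : BSeq s, m = r 0 := ⟨_, rfl⟩
    obtain ⟨r', hr'⟩ : ∃ r' : Fin v → BSeq s, r' = fun j => r j.succ := ⟨_, rfl⟩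
    haveI : ∀ i, Nonempty (ℕ → Tree (s.kk i) (s.nn i)) := fun i => ⟨fun _ => .leaf true⟩
    have hT' : ∀ᶠ i in UU, ∃ Tx : ℕ → Tree (s.kk i) (s.nn i),
        (∀ x, x ≤ m.1 i + 1 → Rep (s.ρ i) h φ (Fin.cons x (fun j => (r' j).1 i)) (Tx x)) ∧
          OrRep (s.ρ i) h (m.1 i) (fun x => andT (Tx x) (Tx (x + 1)).flip) (T i) := by
      filter_upwards [hT] with i hi
      rw [hm, hr']
      exact hi
    obtain ⟨Tx, hTx⟩ := Truth_choose hT'
    have e1 : ∀ᶠ i in UU, OrRep (s.ρ i) h (m.1 i)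
        (fun x => andT (Tx i x) (Tx i (x + 1)).flip) (T i) := hTx.mono fun i hi => hi.2
    have e2 : ∀ᶠ i in UU, ∀ x, x ≤ m.1 i + 1 → HLe h (Tx i x) :=
      hTx.mono fun i hi x hx => hH _ _ _ _ _ _ _ _ (hi.1 x hx)
    have e3 : ∀ᶠ i in UU, ∀ x, x ≤ m.1 i → HLe (h + h) (andT (Tx i x) (Tx i (x + 1)).flip) := by
      filter_upwards [e2] with i hi x hx
      exact (hA _ _ _ _).2.2 _ _ (hi x (by omega)) (((hF _ _ _).2 h).2 (hi (x + 1) (by omega)))
    rw [hO s h (h + h) m.1 (fun i x => andT (Tx i x) (Tx i (x + 1)).flip) T e1 e3]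
    have hsat : (Gm.ind φ).sat (MStr s) (fun j => MM.mk (r j)) ↔
        ∃ x : MM s, (MStr s).le x (MM.mk m) ∧
          φ.sat (MStr s) (Fin.cons x (fun j => MM.mk (r' j))) ∧
          ¬ φ.sat (MStr s) (Fin.cons ((MStr s).succ x) (fun j => MM.mk (r' j))) := by
      rw [hm, hr']
      rfl
    rw [hsat]
    have key : ∀ rx : BSeq s, (∀ᶠ i in UU, rx.1 i ≤ m.1 i + 1) →
        (φ.sat (MStr s) (Fin.cons (MM.mk rx) (fun j => MM.mk (r' j))) ↔
          EvT s (fun i => Tx i (rx.1 i))) := by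
      intro rx hrx
      rw [Truth_cons_mk]
      refine ih h (Fin.cons rx r') _ ?_
      filter_upwards [hTx, hrx] with i hi hi2
      rw [← Truth_cons_val]
      exact hi.1 _ hi2
    have key2 : ∀ rx : BSeq s, (∀ᶠ i in UU, rx.1 i ≤ m.1 i) →
        (EvT s (fun i => andT (Tx i (rx.1 i)) (Tx i (rx.1 i + 1)).flip) ↔
          φ.sat (MStr s) (Fin.cons (MM.mk rx) (fun j => MM.mk (r' j))) ∧
          ¬ φ.sat (MStr s) (Fin.cons ((MStr s).succ (MM.mk rx)) (fun j => MM.mk (r' j)))) := by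
      intro rx hrx
      have h1 : ∀ᶠ i in UU, HLe h (Tx i (rx.1 i)) := by
        filter_upwards [e2, hrx] with i hi hi2
        exact hi _ (by omega)
      have h2 : ∀ᶠ i in UU, HLe h (Tx i (rx.1 i + 1)) := by
        filter_upwards [e2, hrx] with i hi hi2
        exact hi _ (by omega)
      rw [(hB s h (fun i => Tx i (rx.1 i)) (fun i => (Tx i (rx.1 i + 1)).flip) h1).2,
        (hB s h (fun i => Tx i (rx.1 i + 1)) (fun i => Tx i (rx.1 i + 1)) h2).1, MStr_succ,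
        key rx (hrx.mono fun i hi => by omega),
        key (BSeq.succ rx) (hrx.mono fun i hi => by
          show rx.1 i + 1 ≤ m.1 i + 1
          omega)]
      rfl
    constructor
    · rintro ⟨x, hx1, hx2⟩
      obtain ⟨rx, rfl⟩ : ∃ rx : BSeq s, x = MM.mk rx := ⟨Quotient.out x, (Quotient.out_eq x).symm⟩
      rw [MStr_le] at hx1
      exact ⟨rx.1, hx1, (key2 rx hx1).2 hx2⟩
    · rintro ⟨x, hx1, hx2⟩
      obtain ⟨J, hJ⟩ := m.2
      let rx : BSeq s := ⟨x, J, by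
        filter_upwards [hx1, hJ] with i h1 h2
        exact h1.trans h2⟩
      exact ⟨MM.mk rx, (MStr_le s _ _).2 hx1, (key2 rx hx1).1 hx2⟩

end Pool.Agent.Work.MP_610017_lc

end

section

/-!
# Assembly of the lower side (MP_610017_lc)
-/

set_option autoImplicit false

namespace Pool.Agent.Work.MP_610017_lc

theorem pf_Ext : S_Ext :=
  prf_Ext (prf_Ext1 prf_Reroute prf_NbLevel prf_StarValid) prf_StarValid

theorem pf_BrBasic : S_BrBasic := prf_BrBasic prf_StarValid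

theorem pf_LE : S_LE := prf_LE prf_Reroute prf_NbLevel

theorem pf_RepMono : S_RepMono := prf_RepMono prf_ResMono prf_HLeMono

theorem pf_RepHLe : S_RepHLe := prf_RepHLe prf_BrFlip

theorem pf_Hit : S_Hit := prf_Hit (prf_Hit1 (prf_Mod (prf_Emb prf_NbLevel) prf_Swap) prf_Count)

theorem pf_Round : S_Round :=
  prf_Round pf_Hit prf_Greedy prf_Query prf_BrCount prf_Graft prf_StarClosed prf_ResMono
    prf_HLeMono pf_BrBasic

theorem pf_OR : S_OR :=
  prf_OR pf_Round (prf_Ball prf_Graft prf_StarClosed prf_HLeMono) prf_BrCount prf_Graft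
    pf_BrBasic prf_HLeMono

theorem pf_Exist : S_Exist :=
  prf_Exist pf_OR prf_ResMono pf_RepMono pf_RepHLe prf_TmBound prf_HLeMono prf_BrFlip prf_BrAnd

theorem pf_Seq : S_Seq := prf_Seq pf_Exist prf_Countable prf_ResMono pf_RepMono

theorem pf_EvBool : S_EvBool := prf_EvBool prf_Stab

theorem pf_OrTruth : S_OrTruth := prf_OrTruth prf_Stab prf_Ev pf_LE pf_BrBasic

theorem pf_Truth : S_Truth :=
  prf_Truth prf_TmVal pf_EvBool pf_OrTruth pf_RepHLe prf_BrFlip prf_BrAnd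

theorem pf_FinInd : S_FinInd :=
  prf_FinInd pf_Ext pf_BrBasic prf_BrUnique prf_BrFlip prf_BrAnd prf_HLeMono

theorem pf_IndM : S_IndM :=
  prf_IndM pf_Truth pf_FinInd prf_Stab prf_Ev pf_LE pf_BrBasic pf_RepHLe

theorem pf_Lower : S_Lower :=
  lower_of pf_Seq prf_RobM pf_IndM (prf_HypA prf_Rels) (prf_HypB prf_Rels) (prf_LosM prf_TmVal)

end Pool.Agent.Work.MP_610017_lc

end
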